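import Pool.Agent.Work.MP_ae1ff6_ar.Interface3

/-!
# Block CHN: a filling system of geodesics is connected (helper74)
-/

open Topology Filter Set
open scoped ComplexConjugate

set_option autoImplicit false

namespace Pool.AR

open Pool.CG

/-- the cyclic order of three real numbers -/
def CHN_cyc (x y z : ℝ) : Prop := (x < y ∧ y < z) ∨ (y < z ∧ z < x) ∨ (z < x ∧ x < y)

/-- separation of pairs of real numbers -/
def CHN_L (a b c d : ℝ) : Prop :=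
  (CHN_cyc a c b ∧ CHN_cyc b d a) ∨ (CHN_cyc a d b ∧ CHN_cyc b c a)

theorem CHN_r1 (a b α β : ℝ) (h : α < β) (hL : CHN_L a b α β) :
    (α < a ∧ a < β ∧ (b < α ∨ β < b)) ∨ (α < b ∧ b < β ∧ (a < α ∨ β < a)) := by
  unfold CHN_L CHN_cyc at hL
  rcases hL with ⟨h1 | h1 | h1, h2 | h2 | h2⟩ | ⟨h1 | h1 | h1, h2 | h2 | h2⟩ <;>
  obtain ⟨h3, h4⟩ := h1 <;> obtain ⟨h5, h6⟩ := h2 <;>
  first
    | exact Or.inl ⟨by linarith, by linarith, Or.inl (by linarith)⟩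
    | exact Or.inl ⟨by linarith, by linarith, Or.inr (by linarith)⟩
    | exact Or.inr ⟨by linarith, by linarith, Or.inl (by linarith)⟩
    | exact Or.inr ⟨by linarith, by linarith, Or.inr (by linarith)⟩
    | exact absurd h (by linarith)

theorem CHN_r2 (x y u v ζ : ℝ) (h1 : x ≤ ζ) (h2 : y ≤ ζ) (h3 : ζ ≤ u) (h4 : ζ ≤ v) :
    ¬ CHN_L x y u v := by
  unfold CHN_L CHN_cyc
  rintro (⟨(⟨h5, h6⟩ | ⟨h5, h6⟩ | ⟨h5, h6⟩), (⟨h7, h8⟩ | ⟨h7, h8⟩ | ⟨h7, h8⟩)⟩ |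
    ⟨(⟨h5, h6⟩ | ⟨h5, h6⟩ | ⟨h5, h6⟩), (⟨h7, h8⟩ | ⟨h7, h8⟩ | ⟨h7, h8⟩)⟩) <;> linarith

theorem CHN_r2' (x y u v ζ : ℝ) (h1 : ζ ≤ x) (h2 : ζ ≤ y) (h3 : u ≤ ζ) (h4 : v ≤ ζ) :
    ¬ CHN_L x y u v := by
  unfold CHN_L CHN_cyc
  rintro (⟨(⟨h5, h6⟩ | ⟨h5, h6⟩ | ⟨h5, h6⟩), (⟨h7, h8⟩ | ⟨h7, h8⟩ | ⟨h7, h8⟩)⟩ |
    ⟨(⟨h5, h6⟩ | ⟨h5, h6⟩ | ⟨h5, h6⟩), (⟨h7, h8⟩ | ⟨h7, h8⟩ | ⟨h7, h8⟩)⟩) <;> linarith

theorem CHN_r3 (x y ζ t : ℝ) (h1 : x < ζ) (h2 : ζ < y) (h3 : t < x ∨ y < t) :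
    CHN_L x y ζ t := by
  refine Or.inl ⟨Or.inl ⟨h1, h2⟩, ?_⟩
  rcases h3 with h3 | h3
  · exact Or.inr (Or.inl ⟨h3, by linarith⟩)
  · exact Or.inr (Or.inr ⟨by linarith, h3⟩)

theorem CHN_r3' (x y ζ t : ℝ) (h1 : y < ζ) (h2 : ζ < x) (h3 : t < y ∨ x < t) :
    CHN_L x y ζ t := by
  refine Or.inr ⟨?_, Or.inl ⟨h1, h2⟩⟩
  rcases h3 with h3 | h3
  · exact Or.inr (Or.inl ⟨h3, by linarith⟩)
  · exact Or.inr (Or.inr ⟨by linarith, h3⟩)

/-- the smallest set which contains `e` and with each element the elements of `O` which cross it -/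
inductive CHN_R (O : Set (Circle × Circle)) (e : Circle × Circle) : Circle × Circle → Prop
  | base : CHN_R O e e
  | step (b o : Circle × Circle) : CHN_R O e b → b ∈ O → o ∈ O → Link b.1 b.2 o.1 o.2 →
      CHN_R O e o

theorem CHN_O (O : Set (Circle × Circle)) (e : Circle × Circle) (he : e ∈ O)
    (b : Circle × Circle) (hb : CHN_R O e b) : b ∈ O := by
  cases hb with
  | base => exact he
  | step b' _ _ _ ho _ => exact ho

/-- the contradiction: an element of `O` which separates the convex hull -/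
theorem CHN_main (O : Set (Circle × Circle)) (e : Circle × Circle) (he : e ∈ O)
    (θ : Circle → ℝ) (hL : ∀ a b c d, Link a b c d ↔ CHN_L (θ a) (θ b) (θ c) (θ d)) (α β : ℝ)
    (hA : ∀ b, CHN_R O e b → α ≤ θ b.1 ∧ θ b.1 ≤ β ∧ α ≤ θ b.2 ∧ θ b.2 ≤ β)
    (hα : ∀ ζ, (∀ b, CHN_R O e b → ζ ≤ θ b.1 ∧ ζ ≤ θ b.2) → ζ ≤ α)
    (hβ : ∀ ζ, (∀ b, CHN_R O e b → θ b.1 ≤ ζ ∧ θ b.2 ≤ ζ) → β ≤ ζ)
    (z w : Circle) (hzw : (z, w) ∈ O) (h1 : α < θ z) (h2 : θ z < β)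
    (h3 : θ w < α ∨ β < θ w) : False := by
  have hn : ∀ b, CHN_R O e b → ¬ Link b.1 b.2 z w := by
    intro b hb hl
    have hR : CHN_R O e (z, w) := CHN_R.step b (z, w) hb (CHN_O O e he b hb) hzw hl
    obtain ⟨-, -, g3, g4⟩ := hA _ hR
    change α ≤ θ w at g3
    change θ w ≤ β at g4
    rcases h3 with h | h <;> linarith
  have side : ∀ b, CHN_R O e b →
      (θ b.1 ≤ θ z ∧ θ b.2 ≤ θ z) ∨ (θ z ≤ θ b.1 ∧ θ z ≤ θ b.2) := by
    intro b hb
    obtain ⟨g1, g2, g3, g4⟩ := hA b hb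
    have hn' := hn b hb
    rw [hL] at hn'
    have k1 : ¬ (θ b.1 < θ z ∧ θ z < θ b.2) := by
      rintro ⟨i1, i2⟩
      apply hn'
      apply CHN_r3 _ _ _ _ i1 i2
      rcases h3 with h | h
      · exact Or.inl (by linarith)
      · exact Or.inr (by linarith)
    have k2 : ¬ (θ b.2 < θ z ∧ θ z < θ b.1) := by
      rintro ⟨i1, i2⟩
      apply hn'
      apply CHN_r3' _ _ _ _ i1 i2
      rcases h3 with h | h
      · exact Or.inl (by linarith)
      · exact Or.inr (by linarith)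
    by_cases c1 : θ b.1 ≤ θ z
    · by_cases c2 : θ b.2 ≤ θ z
      · exact Or.inl ⟨c1, c2⟩
      · push Not at c2
        right
        refine ⟨?_, c2.le⟩
        by_contra c3
        push Not at c3
        exact k1 ⟨c3, c2⟩
    · push Not at c1
      right
      refine ⟨c1.le, ?_⟩
      by_contra c3
      push Not at c3
      exact k2 ⟨c3, c1⟩
  rcases side e CHN_R.base with hs | hs
  · have all : ∀ b, CHN_R O e b → θ b.1 ≤ θ z ∧ θ b.2 ≤ θ z := by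
      intro b hb
      induction hb with
      | base => exact hs
      | step b o hb hbO ho hl ih =>
        rcases side o (CHN_R.step b o hb hbO ho hl) with h | h
        · exact h
        · rw [hL] at hl
          exact absurd hl (CHN_r2 _ _ _ _ (θ z) ih.1 ih.2 h.1 h.2)
    linarith [hβ _ all]
  · have all : ∀ b, CHN_R O e b → θ z ≤ θ b.1 ∧ θ z ≤ θ b.2 := by
      intro b hb
      induction hb with
      | base => exact hs
      | step b o hb hbO ho hl ih =>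
        rcases side o (CHN_R.step b o hb hbO ho hl) with h | h
        · rw [hL] at hl
          exact absurd hl (CHN_r2' _ _ _ _ (θ z) ih.1 ih.2 h.1 h.2)
        · exact h
    linarith [hα _ all]

theorem p_CHN (hCUT : Stmt_CUT) (_hCYO : Stmt_CYO) (hLKC : Stmt_LKC) (_hANG : Stmt_ANG) :
    Stmt_CHN := by
  intro O hsym hfill e he hne U heU hU
  -- the smallest set
  have hRU : ∀ b, CHN_R O e b → b ∈ U := by
    intro b hb
    induction hb with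
    | base => exact heU
    | step b o hb hbO ho hl ih => exact hU b ih hbO o ho hl
  let D : Set Circle := {x | ∃ b, CHN_R O e b ∧ (b.1 = x ∨ b.2 = x)}
  have hDsub : D ⊆ {x : Circle | ∃ b ∈ U, b ∈ O ∧ (b.1 = x ∨ b.2 = x)} := by
    rintro x ⟨b, hb, hx⟩
    exact ⟨b, hRU b hb, CHN_O O e he b hb, hx⟩
  have hD : Dense D := by
    intro z₀
    by_contra hz
    -- coordinates
    obtain ⟨s₀, hs₀⟩ : ∃ s₀ : ℝ, Circle.exp s₀ = z₀ := by
      obtain ⟨θ, h1, -, -⟩ := hCUT 0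
      exact ⟨θ z₀, (h1 z₀).2.2⟩
    obtain ⟨θ, h1, h2, h3⟩ := hCUT s₀
    have hL : ∀ a b c d, Link a b c d ↔ CHN_L (θ a) (θ b) (θ c) (θ d) := by
      intro a b c d
      rw [hLKC, h3, h3, h3, h3]
      rfl
    have hV : IsOpen (Circle.exp ⁻¹' (closure D)ᶜ) :=
      isClosed_closure.isOpen_compl.preimage Circle.exp.continuous
    have m1 : s₀ ∈ Circle.exp ⁻¹' (closure D)ᶜ := by
      change Circle.exp s₀ ∈ (closure D)ᶜ
      rw [hs₀]
      exact hz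
    have m2 : s₀ + 2 * Real.pi ∈ Circle.exp ⁻¹' (closure D)ᶜ := by
      change Circle.exp (s₀ + 2 * Real.pi) ∈ (closure D)ᶜ
      rw [Circle.exp_add, Circle.exp_two_pi, mul_one, hs₀]
      exact hz
    obtain ⟨δ₁, hδ₁, d1⟩ := Metric.isOpen_iff.1 hV _ m1
    obtain ⟨δ₂, hδ₂, d2⟩ := Metric.isOpen_iff.1 hV _ m2
    have bd : ∀ x ∈ D, s₀ + δ₁ ≤ θ x ∧ θ x ≤ s₀ + 2 * Real.pi - δ₂ := by
      intro x hx
      obtain ⟨g1, g2, g3⟩ := h1 x
      have hnot : θ x ∉ Circle.exp ⁻¹' (closure D)ᶜ := by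
        intro hh
        change Circle.exp (θ x) ∈ (closure D)ᶜ at hh
        rw [g3] at hh
        exact hh (subset_closure hx)
      constructor
      · by_contra hc
        push Not at hc
        apply hnot
        apply d1
        rw [Metric.mem_ball, Real.dist_eq, abs_of_nonneg (by linarith)]
        linarith
      · by_contra hc
        push Not at hc
        apply hnot
        apply d2
        rw [Metric.mem_ball, Real.dist_eq, abs_of_nonpos (by linarith)]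
        linarith
    have m3 : e.1 ∈ D := ⟨e, CHN_R.base, Or.inl rfl⟩
    have m4 : e.2 ∈ D := ⟨e, CHN_R.base, Or.inr rfl⟩
    have hAne : (θ '' D).Nonempty := ⟨θ e.1, mem_image_of_mem θ m3⟩
    have hAb : BddBelow (θ '' D) := ⟨s₀ + δ₁, by
      rintro _ ⟨x, hx, rfl⟩
      exact (bd x hx).1⟩
    have hAa : BddAbove (θ '' D) := ⟨s₀ + 2 * Real.pi - δ₂, by
      rintro _ ⟨x, hx, rfl⟩
      exact (bd x hx).2⟩
    have a1 : s₀ + δ₁ ≤ sInf (θ '' D) := le_csInf hAne (by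
      rintro _ ⟨x, hx, rfl⟩
      exact (bd x hx).1)
    have a2 : sSup (θ '' D) ≤ s₀ + 2 * Real.pi - δ₂ := csSup_le hAne (by
      rintro _ ⟨x, hx, rfl⟩
      exact (bd x hx).2)
    have lo : ∀ x ∈ D, sInf (θ '' D) ≤ θ x := fun x hx => csInf_le hAb (mem_image_of_mem θ hx)
    have hi : ∀ x ∈ D, θ x ≤ sSup (θ '' D) := fun x hx => le_csSup hAa (mem_image_of_mem θ hx)
    have hlt : sInf (θ '' D) < sSup (θ '' D) := by
      have hne' : θ e.1 ≠ θ e.2 := by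
        intro h
        apply hne
        rw [← (h1 e.1).2.2, ← (h1 e.2).2.2, h]
      rcases lt_or_gt_of_ne hne' with h | h
      · linarith [lo _ m3, hi _ m4]
      · linarith [lo _ m4, hi _ m3]
    have t1 : θ (Circle.exp (sInf (θ '' D))) = sInf (θ '' D) :=
      h2 _ (by linarith) (by linarith)
    have t2 : θ (Circle.exp (sSup (θ '' D))) = sSup (θ '' D) :=
      h2 _ (by linarith) (by linarith)
    obtain ⟨z, w, hzw, hl⟩ := hfill (Circle.exp (sInf (θ '' D))) (Circle.exp (sSup (θ '' D)))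
      (by
        intro h
        rw [← t1, ← t2, h] at hlt
        exact lt_irrefl _ hlt)
    rw [hL, t1, t2] at hl
    have hA : ∀ b, CHN_R O e b → sInf (θ '' D) ≤ θ b.1 ∧ θ b.1 ≤ sSup (θ '' D) ∧
        sInf (θ '' D) ≤ θ b.2 ∧ θ b.2 ≤ sSup (θ '' D) := by
      intro b hb
      have n1 : b.1 ∈ D := ⟨b, hb, Or.inl rfl⟩
      have n2 : b.2 ∈ D := ⟨b, hb, Or.inr rfl⟩
      exact ⟨lo _ n1, hi _ n1, lo _ n2, hi _ n2⟩
    have hα : ∀ ζ, (∀ b, CHN_R O e b → ζ ≤ θ b.1 ∧ ζ ≤ θ b.2) → ζ ≤ sInf (θ '' D) := by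
      intro ζ hζ
      apply le_csInf hAne
      rintro _ ⟨x, ⟨b, hb, hx⟩, rfl⟩
      rcases hx with rfl | rfl
      · exact (hζ b hb).1
      · exact (hζ b hb).2
    have hβ : ∀ ζ, (∀ b, CHN_R O e b → θ b.1 ≤ ζ ∧ θ b.2 ≤ ζ) → sSup (θ '' D) ≤ ζ := by
      intro ζ hζ
      apply csSup_le hAne
      rintro _ ⟨x, ⟨b, hb, hx⟩, rfl⟩
      rcases hx with rfl | rfl
      · exact (hζ b hb).1
      · exact (hζ b hb).2
    rcases CHN_r1 _ _ _ _ hlt hl with ⟨k1, k2, k3⟩ | ⟨k1, k2, k3⟩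
    · exact CHN_main O e he θ hL _ _ hA hα hβ z w hzw k1 k2 k3
    · exact CHN_main O e he θ hL _ _ hA hα hβ w z (hsym _ _ hzw) k1 k2 k3
  exact hD.mono hDsub

end Pool.AR
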