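import Pool.Agent.Work.MP_ae1ff6_ar.Interface3

/-!
# Block CRA: the elements of a system of curves which cross a closed geodesic (helper46)
-/

open Topology Filter Set
open scoped ComplexConjugate

set_option autoImplicit false

namespace Pool.AR

open Pool.CG

theorem CRA_fix (γ : H) (p : Circle) (h : γ p = p) (m : ℤ) : (γ ^ m) p = p := by
  let K : Subgroup H :=
    { carrier := {g : H | g p = p}
      mul_mem' := fun {x y} (hx : x p = p) (hy : y p = p) => by
        change x (y p) = p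
        rw [hy, hx]
      one_mem' := rfl
      inv_mem' := fun {x} (hx : x p = p) => by
        change x⁻¹ p = p
        apply x.injective
        change x (x.symm p) = x p
        rw [x.apply_symm_apply, hx] }
  have hK : γ ∈ K := h
  exact K.zpow_mem hK m

theorem p_CRA : Stmt_CRA := by
  intro Γ O hΓ hO γ hγ p q hax
  obtain ⟨ρ, hρ, h1⟩ := Pool.GC.hyp γ p q (hΓ.mob γ hγ) hax
  obtain ⟨ε, hε, h2⟩ := Pool.GC.lub p q ρ hρ
  refine ⟨{a | a ∈ O ∧ min ε (dist p q) ≤ dist a.1 a.2},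
    hO.fin _ (lt_min hε (dist_pos.2 hax.1)), ?_⟩
  have hp : γ p = p := (hax.2 p).2 (Or.inl rfl)
  have hq : γ q = q := (hax.2 q).2 (Or.inr rfl)
  rintro ⟨x, y⟩ hb (hN | hN | hN)
  · have hL : Link x y p q := hN
    obtain ⟨m, hm1, hm2⟩ := h1 x (Ne.symm hL.1.1) (Ne.symm hL.2.1.1)
    have h3 := Pool.GC.lhi (γ ^ m) _ _ _ _ hL
    rw [CRA_fix γ p hp m, CRA_fix γ q hq m] at h3
    exact ⟨m, hO.keep _ (Γ.zpow_mem hγ m) _ _ hb, (min_le_left _ _).trans (h2 _ _ hm1 hm2 h3)⟩
  · refine ⟨0, ?_⟩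
    rw [zpow_zero]
    change ((x, y) : Circle × Circle) ∈ _
    rw [hN]
    exact ⟨hN ▸ hb, min_le_right _ _⟩
  · refine ⟨0, ?_⟩
    rw [zpow_zero]
    change ((x, y) : Circle × Circle) ∈ _
    rw [hN]
    refine ⟨hN ▸ hb, (min_le_right _ _).trans ?_⟩
    rw [dist_comm]

end Pool.AR
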