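import Pool.Agent.Work.MP_ae1ff6_ar.Interface

/-! # Block CRF: only finitely many edges cross an arc between cusps -/

open Topology Filter Set
open scoped ComplexConjugate

set_option autoImplicit false

namespace Pool.AR

open Pool.CG

theorem p_CRF (h1 : Stmt_MOR) (h2 : Stmt_WND) : Stmt_CRF := by
  intro Γ T hΓ hT hK r s hrs hr hs
  obtain ⟨γ, hγ, hγr⟩ := hr
  obtain ⟨δ, hδ, hδs⟩ := hs
  obtain ⟨ρ₁, hρ₁, h3⟩ := h2 γ r s (h1.1 γ (hΓ.mob γ hγ)) hγr hrs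
  obtain ⟨ρ₂, hρ₂, h4⟩ := h2 δ s r (h1.1 δ (hΓ.mob δ hδ)) hδs (Ne.symm hrs)
  obtain ⟨ε, hε, h5⟩ := Pool.GC.lub r s (min ρ₁ ρ₂) (lt_min hρ₁ hρ₂)
  refine ((hT.fin ε hε).union (Set.toFinite {(r, s), (s, r)})).subset ?_
  rintro ⟨p, q⟩ ⟨ha, hn⟩
  rcases hn with hL | hn | hn
  · left
    refine ⟨ha, ?_⟩
    have hL' : Link p q r s := hL
    have h6 : Link r s p q := (Pool.GC.q_SYM _ _ _ _ hL').1
    have h7 : Link s r p q := (Pool.GC.q_SYM _ _ _ _ h6).2.1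
    have h8 := h3 p q h6 (hT.unlinked _ _ _ _ ha (hK γ hγ _ _ ha))
    have h9 := h4 p q h7 (hT.unlinked _ _ _ _ ha (hK δ hδ _ _ ha))
    exact h5 p q ((min_le_left _ _).trans h8.1) ((min_le_right _ _).trans h9.1) hL'
  · right
    left
    exact hn
  · right
    right
    exact hn

end Pool.AR
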