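import Pool.Agent.Work.MP_ae1ff6_ar.Interface

/-!
# Block CUT: coordinates on the cut circle (helper46)
-/

open Topology Filter Set
open scoped ComplexConjugate

set_option autoImplicit false

namespace Pool.AR

open Pool.CG

theorem CUT_area (x y z : ℝ) : area (Circle.exp x) (Circle.exp y) (Circle.exp z) =
    4 * (Real.sin ((y - x) / 2) * Real.sin ((z - x) / 2) * Real.sin ((z - y) / 2)) := by
  have hre : ∀ t : ℝ, (Circle.exp t : ℂ).re = Real.cos t := fun t => by
    rw [Circle.coe_exp, Complex.exp_ofReal_mul_I_re]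
  have him : ∀ t : ℝ, (Circle.exp t : ℂ).im = Real.sin t := fun t => by
    rw [Circle.coe_exp, Complex.exp_ofReal_mul_I_im]
  have e1 : area (Circle.exp x) (Circle.exp y) (Circle.exp z) =
      (Real.cos y - Real.cos x) * (Real.sin z - Real.sin x) -
        (Real.sin y - Real.sin x) * (Real.cos z - Real.cos x) := by
    unfold area
    rw [Complex.mul_im, Complex.conj_re, Complex.conj_im, Complex.sub_re, Complex.sub_im,
      Complex.sub_re, Complex.sub_im, hre, hre, hre, him, him, him]
    ring
  have e2 : Real.sin ((z - y) / 2) = Real.sin ((z + x) / 2) * Real.cos ((y + x) / 2) -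
      Real.cos ((z + x) / 2) * Real.sin ((y + x) / 2) := by
    rw [← Real.sin_sub]
    congr 1
    ring
  rw [e1, Real.cos_sub_cos, Real.sin_sub_sin, Real.sin_sub_sin, Real.cos_sub_cos, e2]
  ring

theorem CUT_iff (s x y z : ℝ) (hx : s ≤ x ∧ x < s + 2 * Real.pi) (hy : s ≤ y ∧ y < s + 2 * Real.pi)
    (hz : s ≤ z ∧ z < s + 2 * Real.pi) :
    Ccw (Circle.exp x) (Circle.exp y) (Circle.exp z) ↔
      (x < y ∧ y < z) ∨ (y < z ∧ z < x) ∨ (z < x ∧ x < y) := by
  have spos : ∀ u : ℝ, 0 < u → u < 2 * Real.pi → 0 < Real.sin (u / 2) := fun u h1 h2 =>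
    Real.sin_pos_of_pos_of_lt_pi (by linarith) (by linarith)
  have sneg : ∀ u : ℝ, u < 0 → -(2 * Real.pi) < u → Real.sin (u / 2) < 0 := fun u h1 h2 =>
    Real.sin_neg_of_neg_of_neg_pi_lt (by linarith) (by linarith)
  have key : Ccw (Circle.exp x) (Circle.exp y) (Circle.exp z) ↔
      0 < Real.sin ((y - x) / 2) * Real.sin ((z - x) / 2) * Real.sin ((z - y) / 2) := by
    unfold Ccw
    rw [CUT_area]
    constructor
    · intro h
      linarith
    · intro h
      linarith
  rw [key]
  obtain ⟨x1, x2⟩ := hx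
  obtain ⟨y1, y2⟩ := hy
  obtain ⟨z1, z2⟩ := hz
  constructor
  · intro hP
    rcases lt_trichotomy x y with a | a | a
    · have s1 : 0 < Real.sin ((y - x) / 2) := spos _ (by linarith) (by linarith)
      rcases lt_trichotomy y z with b | b | b
      · exact Or.inl ⟨a, b⟩
      · rw [b, sub_self, zero_div, Real.sin_zero, mul_zero] at hP
        exact absurd hP (lt_irrefl _)
      · have s3 : Real.sin ((z - y) / 2) < 0 := sneg _ (by linarith) (by linarith)
        rcases lt_trichotomy x z with c | c | c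
        · have s2 : 0 < Real.sin ((z - x) / 2) := spos _ (by linarith) (by linarith)
          have := mul_neg_of_pos_of_neg (mul_pos s1 s2) s3
          linarith
        · rw [← c, sub_self, zero_div, Real.sin_zero, mul_zero, zero_mul] at hP
          exact absurd hP (lt_irrefl _)
        · exact Or.inr (Or.inr ⟨c, a⟩)
    · rw [a, sub_self, zero_div, Real.sin_zero, zero_mul, zero_mul] at hP
      exact absurd hP (lt_irrefl _)
    · have s1 : Real.sin ((y - x) / 2) < 0 := sneg _ (by linarith) (by linarith)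
      rcases lt_trichotomy y z with b | b | b
      · have s3 : 0 < Real.sin ((z - y) / 2) := spos _ (by linarith) (by linarith)
        rcases lt_trichotomy x z with c | c | c
        · have s2 : 0 < Real.sin ((z - x) / 2) := spos _ (by linarith) (by linarith)
          have := mul_neg_of_neg_of_pos (mul_neg_of_neg_of_pos s1 s2) s3
          linarith
        · rw [← c, sub_self, zero_div, Real.sin_zero, mul_zero, zero_mul] at hP
          exact absurd hP (lt_irrefl _)
        · exact Or.inr (Or.inl ⟨b, c⟩)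
      · rw [b, sub_self, zero_div, Real.sin_zero, mul_zero] at hP
        exact absurd hP (lt_irrefl _)
      · have s3 : Real.sin ((z - y) / 2) < 0 := sneg _ (by linarith) (by linarith)
        have s2 : Real.sin ((z - x) / 2) < 0 := sneg _ (by linarith) (by linarith)
        have := mul_neg_of_pos_of_neg (mul_pos_of_neg_of_neg s1 s2) s3
        linarith
  · rintro (⟨a, b⟩ | ⟨a, b⟩ | ⟨a, b⟩)
    · exact mul_pos (mul_pos (spos _ (by linarith) (by linarith))
        (spos _ (by linarith) (by linarith))) (spos _ (by linarith) (by linarith))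
    · exact mul_pos (mul_pos_of_neg_of_neg (sneg _ (by linarith) (by linarith))
        (sneg _ (by linarith) (by linarith))) (spos _ (by linarith) (by linarith))
    · exact mul_pos_of_neg_of_neg (mul_neg_of_pos_of_neg (spos _ (by linarith) (by linarith))
        (sneg _ (by linarith) (by linarith))) (sneg _ (by linarith) (by linarith))

theorem CUT_surj (s : ℝ) (z : Circle) :
    ∃ θ : ℝ, (s ≤ θ ∧ θ < s + 2 * Real.pi) ∧ Circle.exp θ = z := by
  obtain ⟨θ, rfl⟩ := Circle.exp_surjective z
  refine ⟨toIcoMod Real.two_pi_pos s θ, toIcoMod_mem_Ico _ _ _, ?_⟩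
  rw [Circle.exp_eq_exp]
  refine ⟨-toIcoDiv Real.two_pi_pos s θ, ?_⟩
  rw [toIcoMod, zsmul_eq_mul]
  push_cast
  ring

theorem p_CUT : Stmt_CUT := by
  intro s
  choose θ h1 h2 using CUT_surj s
  refine ⟨θ, fun y => ⟨(h1 y).1, (h1 y).2, h2 y⟩, ?_, ?_⟩
  · intro t ht1 ht2
    have hinj : InjOn Circle.exp (Ico s (s + 2 * Real.pi)) := Circle.exp_injOn_Ico (by linarith)
    exact hinj ⟨(h1 _).1, (h1 _).2⟩ ⟨ht1, ht2⟩ (h2 _)
  · intro a b c
    have h := CUT_iff s (θ a) (θ b) (θ c) (h1 a) (h1 b) (h1 c)
    rw [h2 a, h2 b, h2 c] at h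
    exact h

end Pool.AR
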