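import Pool.Agent.Work.MP_ae1ff6_ar.Interface

/-! # Block CYH -/

open Topology Filter Set
open scoped ComplexConjugate

set_option autoImplicit false

namespace Pool.AR

open Pool.CG

lemma CYH_cont_area (a b : Circle) : Continuous fun z : Circle => area a z b := by
  unfold area
  refine Complex.continuous_im.comp (Continuous.mul ?_ continuous_const)
  exact Complex.continuous_conj.comp (continuous_subtype_val.sub continuous_const)

lemma CYH_cont (hANG : Stmt_ANG) (e : Circle ≃ Circle)
    (he : ∀ a b c, Ccw a b c ↔ Ccw (e a) (e b) (e c)) : Continuous e := by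
  obtain ⟨hA1, hA2, -⟩ := hANG
  rw [continuous_iff_continuousAt]
  intro z0
  obtain ⟨s, hs⟩ : ∃ s : ℝ, Circle.exp s = e z0 := ⟨Complex.arg (e z0 : ℂ), Circle.exp_arg _⟩
  intro N hN
  rw [← hs] at hN
  have h1 : Circle.exp ⁻¹' N ∈ 𝓝 s := (Circle.exp.continuous.continuousAt (x := s)) hN
  obtain ⟨δ, hδ, hb⟩ := Metric.mem_nhds_iff.1 h1
  have hpi := Real.pi_gt_three
  set d := min (δ / 2) 1 with hd
  have hd0 : 0 < d := lt_min (by linarith) one_pos
  have hd1 : d ≤ 1 := min_le_right _ _
  have hd2 : d ≤ δ / 2 := min_le_left _ _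
  have hc0 : Ccw (Circle.exp (s - d)) (Circle.exp s) (Circle.exp (s + d)) :=
    hA1 _ _ _ (by linarith) (by linarith) (by linarith)
  have hU : IsOpen {z : Circle | Ccw (e.symm (Circle.exp (s - d))) z
      (e.symm (Circle.exp (s + d)))} :=
    isOpen_lt continuous_const (CYH_cont_area _ _)
  have hz0 : z0 ∈ {z : Circle | Ccw (e.symm (Circle.exp (s - d))) z
      (e.symm (Circle.exp (s + d)))} := by
    show Ccw _ _ _
    rw [he, Equiv.apply_symm_apply, Equiv.apply_symm_apply, ← hs]
    exact hc0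
  rw [mem_map]
  refine mem_of_superset (hU.mem_nhds hz0) ?_
  intro z hz
  have h2 : Ccw (e.symm (Circle.exp (s - d))) z (e.symm (Circle.exp (s + d))) := hz
  rw [he, Equiv.apply_symm_apply, Equiv.apply_symm_apply] at h2
  obtain ⟨r, hr1, hr2, hr3⟩ := hA2 (s - d) (s + d) (e z) (by linarith) (by linarith) h2
  show e z ∈ N
  rw [hr3]
  apply hb
  rw [Metric.mem_ball, Real.dist_eq, abs_lt]
  constructor <;> linarith

theorem p_CYH (_hCYO : Stmt_CYO) (hANG : Stmt_ANG) : Stmt_CYH := by
  intro e he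
  have he' : ∀ a b c, Ccw a b c ↔ Ccw (e.symm a) (e.symm b) (e.symm c) := by
    intro a b c
    rw [he (e.symm a) (e.symm b) (e.symm c), Equiv.apply_symm_apply, Equiv.apply_symm_apply,
      Equiv.apply_symm_apply]
  exact ⟨⟨e, CYH_cont hANG e he, CYH_cont hANG e.symm he'⟩, fun z => rfl⟩

end Pool.AR
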