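import Pool.Agent.Work.MP_ae1ff6_ar.Interface

/-!
# Block CYO: the cyclic order of the circle (helper46)
-/

open Topology Filter Set
open scoped ComplexConjugate

set_option autoImplicit false

namespace Pool.AR

open Pool.CG

theorem CYO_four (x y z w : ℝ) :
    ((x < y ∧ y < z) ∨ (y < z ∧ z < x) ∨ (z < x ∧ x < y)) →
    ((x < z ∧ z < w) ∨ (z < w ∧ w < x) ∨ (w < x ∧ x < z)) →
    ((x < y ∧ y < w) ∨ (y < w ∧ w < x) ∨ (w < x ∧ x < y)) ∧
      ((y < z ∧ z < w) ∨ (z < w ∧ w < y) ∨ (w < y ∧ y < z)) := by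
  rintro (⟨h1, h2⟩ | ⟨h1, h2⟩ | ⟨h1, h2⟩) (⟨h3, h4⟩ | ⟨h3, h4⟩ | ⟨h3, h4⟩) <;>
  refine ⟨?_, ?_⟩ <;>
  first
    | exact Or.inl ⟨by linarith, by linarith⟩
    | exact Or.inr (Or.inl ⟨by linarith, by linarith⟩)
    | exact Or.inr (Or.inr ⟨by linarith, by linarith⟩)

theorem p_CYO (hCUT : Stmt_CUT) : Stmt_CYO := by
  obtain ⟨θ, h1, -, h3⟩ := hCUT 0
  have hinj : ∀ a b : Circle, θ a = θ b → a = b := fun a b h => by
    rw [← (h1 a).2.2, ← (h1 b).2.2, h]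
  refine ⟨fun a b c => ?_, fun a b c => ?_, fun a b c hab hbc hac => ?_, fun a b c d => ?_⟩
  · rw [h3, h3]
    rintro (⟨h, h'⟩ | ⟨h, h'⟩ | ⟨h, h'⟩)
    · exact Or.inr (Or.inr ⟨h, h'⟩)
    · exact Or.inl ⟨h, h'⟩
    · exact Or.inr (Or.inl ⟨h, h'⟩)
  · rw [h3, h3]
    rintro (⟨h, h'⟩ | ⟨h, h'⟩ | ⟨h, h'⟩)
    all_goals
      refine ⟨?_, ?_, ?_, ?_⟩
      · rintro (⟨g, g'⟩ | ⟨g, g'⟩ | ⟨g, g'⟩) <;> linarith
      · rintro rfl
        linarith
      · rintro rfl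
        linarith
      · rintro rfl
        linarith
  · rw [h3, h3]
    have e1 : θ a ≠ θ b := fun h => hab (hinj _ _ h)
    have e2 : θ b ≠ θ c := fun h => hbc (hinj _ _ h)
    have e3 : θ a ≠ θ c := fun h => hac (hinj _ _ h)
    rcases lt_or_gt_of_ne e1 with a1 | a1 <;> rcases lt_or_gt_of_ne e2 with a2 | a2 <;>
    rcases lt_or_gt_of_ne e3 with a3 | a3 <;>
    first
      | exact Or.inl (Or.inl ⟨by linarith, by linarith⟩)
      | exact Or.inl (Or.inr (Or.inl ⟨by linarith, by linarith⟩))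
      | exact Or.inl (Or.inr (Or.inr ⟨by linarith, by linarith⟩))
      | exact Or.inr (Or.inl ⟨by linarith, by linarith⟩)
      | exact Or.inr (Or.inr (Or.inl ⟨by linarith, by linarith⟩))
      | exact Or.inr (Or.inr (Or.inr ⟨by linarith, by linarith⟩))
  · rw [h3, h3, h3, h3]
    exact CYO_four _ _ _ _

end Pool.AR
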