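import Pool.Agent.Work.MP_ae1ff6_ar.Interface3

/-! # Asymptotically rigid mapping classes (MP_ae1ff6_gt), block CYP -/

open Topology Filter Set
open scoped ComplexConjugate

set_option autoImplicit false

namespace Pool.AR

open Pool.CG

theorem p_CYP : Stmt_CYP := by
  intro Γ f hn hp x y z w
  constructor
  · rintro ⟨F, hFf, hFm⟩
    have h1 : {n : ℤ | ∃ κ ∈ Γ, Meets (κ * f ^ n) x y z w} ⊆
        ⋃ h ∈ F, {n : ℤ | ∃ κ ∈ Γ, h⁻¹ * (κ * f ^ n) ∈ Γ} := by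
      rintro n ⟨κ, hκ, hm⟩
      have hG : κ * f ^ n ∈ Γ ⊔ Subgroup.zpowers f :=
        mul_mem (Subgroup.mem_sup_left hκ)
          (Subgroup.mem_sup_right (Subgroup.zpow_mem_zpowers f n))
      obtain ⟨h, hh, hx⟩ := hFm _ ⟨hG, hm⟩
      exact mem_iUnion₂.2 ⟨h, hh, κ, hκ, hx⟩
    refine (hFf.biUnion fun h _ => ?_).subset h1
    refine Set.Subsingleton.finite ?_
    rintro n ⟨κ, hκ, hx⟩ m ⟨κ', hκ', hx'⟩
    have h2 : (f ^ n)⁻¹ * (κ⁻¹ * κ') * f ^ n * f ^ (m - n) ∈ Γ := by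
      have h3 := mul_mem (inv_mem hx) hx'
      have h4 : (h⁻¹ * (κ * f ^ n))⁻¹ * (h⁻¹ * (κ' * f ^ m)) =
          (f ^ n)⁻¹ * (κ⁻¹ * κ') * f ^ n * f ^ (m - n) := by
        rw [zpow_sub]
        group
      rwa [h4] at h3
    have h3 : f ^ (m - n) ∈ Γ := by
      have h5 := CYC_conj Γ f hn n _ (mul_mem (inv_mem hκ) hκ')
      exact (Subgroup.mul_mem_cancel_left Γ h5).1 h2
    by_contra hne
    refine hp (m - n).natAbs (Int.natAbs_pos.2 (sub_ne_zero.2 (Ne.symm hne))) ?_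
    rcases Int.natAbs_eq (m - n) with h6 | h6
    · have h7 : f ^ (((m - n).natAbs : ℕ) : ℤ) ∈ Γ := by rw [← h6]; exact h3
      rwa [zpow_natCast] at h7
    · have h7 : f ^ (((m - n).natAbs : ℕ) : ℤ) ∈ Γ := by
        have h8 : (((m - n).natAbs : ℕ) : ℤ) = -(m - n) := by rw [h6]; simp
        rw [h8, zpow_neg]
        exact inv_mem h3
      rwa [zpow_natCast] at h7
  · intro hS
    refine ⟨(fun j : ℤ => f ^ j) '' {n : ℤ | ∃ κ ∈ Γ, Meets (κ * f ^ n) x y z w},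
      hS.image _, ?_⟩
    rintro g ⟨hg, hm⟩
    obtain ⟨κ, hκ, m, rfl⟩ := CYC_mem Γ f hn g hg
    refine ⟨f ^ m, ⟨m, ⟨κ, hκ, hm⟩, rfl⟩, ?_⟩
    have h1 := CYC_conj Γ f hn m _ hκ
    rwa [mul_assoc] at h1

end Pool.AR
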