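import Pool.Agent.Work.MP_ae1ff6_ar.Interface

open Topology Filter Set
open scoped ComplexConjugate

set_option autoImplicit false

namespace Pool.AR

open Pool.CG

lemma DSP_sub (hSTB : Stmt_STB) (Γ G : Subgroup H) (T : Set (Circle × Circle)) (hS : Sys Γ G T)
    (hC : Conv G) (x y : Circle) (hxy : (x, y) ∈ T) (z w : Circle) :
    {g : H | g ∈ G ∧ g x = z ∧ g y = w}.Subsingleton := by
  intro g hg g' hg'
  obtain ⟨hgG, hgx, hgy⟩ := hg
  obtain ⟨hgG', hgx', hgy'⟩ := hg'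
  have hk : g⁻¹ * g' ∈ G := G.mul_mem (G.inv_mem hgG) hgG'
  have h1 : (g⁻¹ * g') x = x := by
    change g.symm (g' x) = x
    rw [hgx', ← hgx]
    exact g.symm_apply_apply x
  have h2 : (g⁻¹ * g') y = y := by
    change g.symm (g' y) = y
    rw [hgy', ← hgy]
    exact g.symm_apply_apply y
  have h3 := hSTB Γ G hS.fk hS.le hS.nor hC (g⁻¹ * g') hk (hS.ori _ hk) x y
    (hS.cusps x y hxy) (hS.tri.ne x y hxy) h1 h2
  exact inv_mul_eq_one.mp h3

theorem p_DSP (hFRB : Stmt_FRB) (hSTB : Stmt_STB) (hMOR : Stmt_MOR) : Stmt_DSP := by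
  intro Γ G T hS hC x y z w hxy hzw
  obtain ⟨ε, hε, hF⟩ := hFRB Γ G T hS x y z w hxy hzw
  refine ⟨{g : H | g ∈ G ∧ Meets g x y z w}, ?_, ?_⟩
  · refine Set.Finite.subset ((hC ε hε).union
      (((DSP_sub hSTB Γ G T hS hC x y hxy z w).finite).union
        ((DSP_sub hSTB Γ G T hS hC x y hxy w z).finite))) ?_
    rintro g ⟨hg, hm⟩
    rcases hm with hm | hm
    · exact Or.inl ⟨hg, hF g hg hm⟩
    · rcases Set.pair_eq_pair_iff.mp hm with ⟨h1, h2⟩ | ⟨h1, h2⟩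
      · exact Or.inr (Or.inl ⟨hg, h1, h2⟩)
      · exact Or.inr (Or.inr ⟨hg, h1, h2⟩)
  · intro g hg
    refine ⟨g, hg, ?_⟩
    rw [inv_mul_cancel]
    exact Γ.one_mem

end Pool.AR
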