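import Pool.Agent.Work.MP_ae1ff6_ar.Interface2

open Topology Filter Set
open scoped ComplexConjugate

set_option autoImplicit false

namespace Pool.AR

open Pool.CG

theorem EXB_swap (g : H) (p q r s : Circle) (h : Meets g p q r s) : Meets g q p r s := by
  rcases h with h | h
  · exact Or.inl (Pool.GC.q_SYM _ _ _ _ h).2.1
  · refine Or.inr ?_
    rw [Set.pair_comm]
    exact h

theorem EXB_cancel (κ g g₀ : H) (x : Circle) : (κ * (g * g₀⁻¹)) (g₀ x) = (κ * g) x := by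
  change κ (g (g₀.symm (g₀ x))) = κ (g x)
  rw [Homeomorph.symm_apply_apply]

theorem EXB_union (hFCL : Stmt_FCL) (Γ : Subgroup H) (F : Set (Circle × Circle)) (hF : F.Finite)
    (A : Circle × Circle → Set H) (h : ∀ b ∈ F, FinCl Γ (A b)) :
    FinCl Γ {g : H | ∃ b ∈ F, g ∈ A b} := by
  obtain ⟨h1, h2, h3, -, -, -⟩ := hFCL
  induction F, hF using Set.Finite.induction_on with
  | empty =>
    refine h1 Γ _ ∅ ?_ (h3 Γ ∅ Set.finite_empty)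
    rintro g ⟨b, hb, -⟩
    exact hb.elim
  | insert _ _ ih =>
    rename_i a s _ _
    refine h1 Γ _ (A a ∪ {g : H | ∃ b ∈ s, g ∈ A b}) ?_
      (h2 Γ _ _ (h a (Set.mem_insert a s)) (ih fun b hb => h b (Set.mem_insert_of_mem a hb)))
    rintro g ⟨b, hb, hg⟩
    rcases Set.mem_insert_iff.1 hb with rfl | hb
    · exact Or.inl hg
    · exact Or.inr ⟨b, hb, hg⟩

/-- Case 1 -/
theorem EXB_case1 (hFCL : Stmt_FCL) (Γ G : Subgroup H) (F : Set (Circle × Circle)) (hle : Γ ≤ G)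
    (hnor : ∀ g ∈ G, ∀ γ ∈ Γ, g * γ * g⁻¹ ∈ Γ) (hF : F.Finite) (hD : DispT Γ G F) (x y : Circle)
    (g₀ : H) (hg₀ : g₀ ∈ G) (hc : (g₀ x, g₀ y) ∈ F) :
    FinCl Γ {g : H | g ∈ G ∧ ∃ κ ∈ Γ, ∃ b ∈ F, Meets (κ * g) x y b.1 b.2} := by
  have hU := EXB_union hFCL Γ F hF
    (fun b => {g : H | g * g₀⁻¹ ∈ {g' : H | g' ∈ G ∧ ∃ κ ∈ Γ, κ * g' ∈
      {g'' : H | g'' ∈ G ∧ Meets g'' (g₀ x) (g₀ y) b.1 b.2}}}) ?_
  · refine hFCL.1 Γ _ _ ?_ hU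
    rintro g ⟨hg, κ, hκ, b, hb, hm⟩
    refine ⟨b, hb, ?_⟩
    refine ⟨G.mul_mem hg (G.inv_mem hg₀), κ, hκ, G.mul_mem (hle hκ) (G.mul_mem hg (G.inv_mem hg₀)), ?_⟩
    unfold Meets
    rw [EXB_cancel, EXB_cancel]
    exact hm
  · intro b hb
    obtain ⟨-, -, -, -, h5, h6⟩ := hFCL
    exact h5 Γ G _ hnor (h6 Γ G _ hle hnor (hD (g₀ x) (g₀ y) b.1 b.2 hc hb)) g₀⁻¹ (G.inv_mem hg₀)

/-- the elements which preserve a predicate in both directions -/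
def EXB_K (A : H → Prop) : Subgroup H where
  carrier := {h | ∀ g, A g → A (h * g) ∧ A (h⁻¹ * g)}
  mul_mem' := by
    intro a b ha hb g hg
    refine ⟨?_, ?_⟩
    · rw [mul_assoc]
      exact (ha _ (hb g hg).1).1
    · rw [mul_inv_rev, mul_assoc]
      exact (hb _ (ha g hg).2).2
  one_mem' := by
    intro g hg
    rw [inv_one, one_mul]
    exact ⟨hg, hg⟩
  inv_mem' := by
    intro a ha g hg
    rw [inv_inv]
    exact ⟨(ha g hg).2, (ha g hg).1⟩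

/-- Case 2: the orbit of the edge stays in `T` -/
theorem EXB_case2 (Γ G : Subgroup H) (T F : Set (Circle × Circle)) (S : Set H) (hle : Γ ≤ G)
    (hkeep : Keeps Γ T) (hS : S ⊆ G) (hG : G ≤ Γ ⊔ Subgroup.closure S)
    (hR : ∀ s ∈ S, RigidBy Γ T F s) (x y : Circle) (he : (x, y) ∈ T)
    (hno : ∀ g ∈ G, (g x, g y) ∉ F) : ∀ g ∈ G, (g x, g y) ∈ T := by
  have hK : Γ ⊔ Subgroup.closure S ≤ EXB_K (fun g => g ∈ G ∧ (g x, g y) ∈ T) := by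
    refine sup_le ?_ ((Subgroup.closure_le _).2 ?_)
    · intro γ hγ g hg
      refine ⟨⟨G.mul_mem (hle hγ) hg.1, hkeep γ hγ _ _ hg.2⟩,
        ⟨G.mul_mem (G.inv_mem (hle hγ)) hg.1, hkeep γ⁻¹ (Γ.inv_mem hγ) _ _ hg.2⟩⟩
    · intro s hs g hg
      have hcon : ¬ ((s (g x), s (g y)) ∉ T ∨ (s⁻¹ (g x), s⁻¹ (g y)) ∉ T) := by
        intro h
        obtain ⟨γ, hγ, hF⟩ := hR s hs (g x) (g y) hg.2 h
        exact hno (γ * g) (G.mul_mem (hle hγ) hg.1) hF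
      have h1 : (s (g x), s (g y)) ∈ T := by
        by_contra h
        exact hcon (Or.inl h)
      have h2 : (s⁻¹ (g x), s⁻¹ (g y)) ∈ T := by
        by_contra h
        exact hcon (Or.inr h)
      exact ⟨⟨G.mul_mem (hS hs) hg.1, h1⟩, ⟨G.mul_mem (G.inv_mem (hS hs)) hg.1, h2⟩⟩
  intro g hg
  have h1 := (hK (hG hg) 1 ⟨G.one_mem, he⟩).1.2
  rw [mul_one] at h1
  exact h1

theorem p_EXB (hFCL : Stmt_FCL) : Stmt_EXB := by
  intro Γ G T F S hsys hS hG hF hFT hR hD e he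
  by_cases h1 : ∃ g₀ ∈ G, (g₀ e.1, g₀ e.2) ∈ F
  · obtain ⟨g₀, hg₀, hc⟩ := h1
    exact EXB_case1 hFCL Γ G F hsys.le hsys.nor hF hD e.1 e.2 g₀ hg₀ hc
  by_cases h2 : ∃ g₀ ∈ G, (g₀ e.2, g₀ e.1) ∈ F
  · obtain ⟨g₀, hg₀, hc⟩ := h2
    refine hFCL.1 Γ _ _ ?_ (EXB_case1 hFCL Γ G F hsys.le hsys.nor hF hD e.2 e.1 g₀ hg₀ hc)
    rintro g ⟨hg, κ, hκ, b, hb, hm⟩
    exact ⟨hg, κ, hκ, b, hb, EXB_swap _ _ _ _ _ hm⟩
  have hT := EXB_case2 Γ G T F S hsys.le hsys.keep hS hG hR e.1 e.2 he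
    (fun g hg hF' => h1 ⟨g, hg, hF'⟩)
  refine hFCL.1 Γ _ ∅ ?_ (hFCL.2.2.1 Γ ∅ Set.finite_empty)
  rintro g ⟨hg, κ, hκ, b, hb, hm⟩
  exfalso
  have hk : κ * g ∈ G := G.mul_mem (hsys.le hκ) hg
  rcases hm with hm | hm
  · exact hsys.tri.unlinked _ _ _ _ (hT _ hk) (hFT hb) hm
  · rcases Set.pair_eq_pair_iff.1 hm with ⟨h3, h4⟩ | ⟨h3, h4⟩
    · refine h1 ⟨κ * g, hk, ?_⟩
      rw [h3, h4]
      exact hb
    · refine h2 ⟨κ * g, hk, ?_⟩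
      rw [h3, h4]
      exact hb

end Pool.AR
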