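import Pool.Agent.Work.MP_ae1ff6_ar.Interface3
import Pool.Agent.Work.MP_ae1ff6_ar.B_EXB

open Topology Filter Set
open scoped ComplexConjugate

set_option autoImplicit false

namespace Pool.AR

open Pool.CG

theorem EXC_case (hFCL : Stmt_FCL) (Γ G : Subgroup H) (F : Set (Circle × Circle)) (hle : Γ ≤ G)
    (hnor : ∀ g ∈ G, ∀ γ ∈ Γ, g * γ * g⁻¹ ∈ Γ) (hF : F.Finite) (x y : Circle)
    (g₀ : H) (hg₀ : g₀ ∈ G)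
    (hD : ∀ b ∈ F, FinCl Γ {g : H | g ∈ G ∧ Meets g (g₀ x) (g₀ y) b.1 b.2}) :
    FinCl Γ {g : H | g ∈ G ∧ ∃ κ ∈ Γ, ∃ b ∈ F, Meets (κ * g) x y b.1 b.2} := by
  have hU := EXB_union hFCL Γ F hF
    (fun b => {g : H | g * g₀⁻¹ ∈ {g' : H | g' ∈ G ∧ ∃ κ ∈ Γ, κ * g' ∈
      {g'' : H | g'' ∈ G ∧ Meets g'' (g₀ x) (g₀ y) b.1 b.2}}}) ?_
  · refine hFCL.1 Γ _ _ ?_ hU
    rintro g ⟨hg, κ, hκ, b, hb, hm⟩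
    refine ⟨b, hb, ?_⟩
    refine ⟨G.mul_mem hg (G.inv_mem hg₀), κ, hκ, G.mul_mem (hle hκ) (G.mul_mem hg (G.inv_mem hg₀)), ?_⟩
    unfold Meets
    rw [EXB_cancel, EXB_cancel]
    exact hm
  · intro b hb
    obtain ⟨-, -, -, -, h5, h6⟩ := hFCL
    exact h5 Γ G _ hnor (h6 Γ G _ hle hnor (hD b hb)) g₀⁻¹ (G.inv_mem hg₀)

theorem p_EXC (hFCL : Stmt_FCL) : Stmt_EXC := by
  intro Γ G O F S hsys hD e he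
  by_cases h1 : ∃ g₀ ∈ G, (g₀ e.1, g₀ e.2) ∈ F
  · obtain ⟨g₀, hg₀, hc⟩ := h1
    exact EXC_case hFCL Γ G F hsys.le hsys.nor hsys.ffin e.1 e.2 g₀ hg₀
      (fun b hb => hD (g₀ e.1, g₀ e.2) ⟨hsys.fsub hc, Or.inl hc⟩ b hb)
  by_cases h2 : ∃ g₀ ∈ G, (g₀ e.2, g₀ e.1) ∈ F
  · obtain ⟨g₀, hg₀, hc⟩ := h2
    refine hFCL.1 Γ _ _ ?_ (EXC_case hFCL Γ G F hsys.le hsys.nor hsys.ffin e.2 e.1 g₀ hg₀
      (fun b hb => hD (g₀ e.2, g₀ e.1) ⟨hsys.fsub hc, Or.inl hc⟩ b hb))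
    rintro g ⟨hg, κ, hκ, b, hb, hm⟩
    exact ⟨hg, κ, hκ, b, hb, EXB_swap _ _ _ _ _ hm⟩
  have hO := EXB_case2 Γ G O F S hsys.le hsys.cur.keep hsys.sub hsys.gen hsys.rig e.1 e.2 he
    (fun g hg hF' => h1 ⟨g, hg, hF'⟩)
  by_cases h3 : ∃ g₀ ∈ G, ∃ b₀ ∈ F, Meets g₀ e.1 e.2 b₀.1 b₀.2
  · obtain ⟨g₀, hg₀, b₀, hb₀, hm⟩ := h3
    have hlink : Link (g₀ e.1) (g₀ e.2) b₀.1 b₀.2 := by
      rcases hm with hm | hm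
      · exact hm
      · exfalso
        rcases Set.pair_eq_pair_iff.1 hm with ⟨h4, h5⟩ | ⟨h4, h5⟩
        · refine h1 ⟨g₀, hg₀, ?_⟩
          rw [h4, h5]
          exact hb₀
        · refine h2 ⟨g₀, hg₀, ?_⟩
          rw [h4, h5]
          exact hb₀
    exact EXC_case hFCL Γ G F hsys.le hsys.nor hsys.ffin e.1 e.2 g₀ hg₀
      (fun b hb => hD (g₀ e.1, g₀ e.2) ⟨hO g₀ hg₀, Or.inr ⟨b₀, hb₀, hlink⟩⟩ b hb)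
  · refine hFCL.1 Γ _ ∅ ?_ (hFCL.2.2.1 Γ ∅ Set.finite_empty)
    rintro g ⟨hg, κ, hκ, b, hb, hm⟩
    exact h3 ⟨κ * g, G.mul_mem (hsys.le hκ) hg, b, hb, hm⟩

end Pool.AR
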