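import Pool.Agent.Work.MP_ae1ff6_ar.Interface

/-! # Block EXL -/

open Topology Filter Set
open scoped ComplexConjugate

set_option autoImplicit false

namespace Pool.AR

open Pool.CG

/-- the supremum of `s'` and of all `b i` with `a i < x` -/
noncomputable def EXL_G {ι : Type} (a b : ι → ℝ) (s' : ℝ) (x : ℝ) : ℝ :=
  sSup (insert s' (b '' {i | a i < x}))

lemma EXL_bdd {ι : Type} (a b : ι → ℝ) {s' t' : ℝ} (h : s' < t') (hb : ∀ i, s' < b i ∧ b i < t')
    (x : ℝ) : t' ∈ upperBounds (insert s' (b '' {i | a i < x})) := by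
  rintro y (rfl | ⟨i, -, rfl⟩)
  · exact h.le
  · exact (hb i).2.le

lemma EXL_le {ι : Type} (a b : ι → ℝ) {s' t' : ℝ} (h : s' < t') (hb : ∀ i, s' < b i ∧ b i < t')
    (x : ℝ) : EXL_G a b s' x ≤ t' :=
  csSup_le ⟨s', Or.inl rfl⟩ (EXL_bdd a b h hb x)

lemma EXL_ge {ι : Type} (a b : ι → ℝ) {s' t' : ℝ} (h : s' < t') (hb : ∀ i, s' < b i ∧ b i < t')
    (x : ℝ) : s' ≤ EXL_G a b s' x :=
  le_csSup ⟨t', EXL_bdd a b h hb x⟩ (Or.inl rfl)

lemma EXL_mem {ι : Type} (a b : ι → ℝ) {s' t' : ℝ} (h : s' < t') (hb : ∀ i, s' < b i ∧ b i < t')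
    {x : ℝ} {i : ι} (hi : a i < x) : b i ≤ EXL_G a b s' x :=
  le_csSup ⟨t', EXL_bdd a b h hb x⟩ (Or.inr ⟨i, hi, rfl⟩)

lemma EXL_sup {ι : Type} (a b : ι → ℝ) {s' : ℝ} {x c : ℝ} (h1 : s' ≤ c)
    (h2 : ∀ i, a i < x → b i ≤ c) : EXL_G a b s' x ≤ c := by
  apply csSup_le ⟨s', Or.inl rfl⟩
  rintro y (rfl | ⟨i, hi, rfl⟩)
  · exact h1
  · exact h2 i hi

lemma EXL_mono {ι : Type} (a b : ι → ℝ) {s' t' : ℝ} (h : s' < t') (hb : ∀ i, s' < b i ∧ b i < t')
    {x y : ℝ} (hxy : x ≤ y) : EXL_G a b s' x ≤ EXL_G a b s' y :=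
  EXL_sup a b (EXL_ge a b h hb y) fun _ hi => EXL_mem a b h hb (lt_of_lt_of_le hi hxy)

lemma EXL_lt {ι : Type} (a b : ι → ℝ) {s' : ℝ} {x c : ℝ} (h1 : s' ≤ c) (h : c < EXL_G a b s' x) :
    ∃ i, a i < x ∧ c < b i := by
  by_contra hcon
  push Not at hcon
  exact absurd h (not_lt.2 (EXL_sup a b h1 hcon))

lemma EXL_inv {ι : Type} (a b : ι → ℝ) {s t s' t' : ℝ} (hst : s < t) (hst' : s' < t')
    (ha : ∀ i, s < a i ∧ a i < t) (hb : ∀ i, s' < b i ∧ b i < t')
    (hab : ∀ i j, a i < a j ↔ b i < b j)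
    (da : ∀ u v, s ≤ u → u < v → v ≤ t → ∃ i, u < a i ∧ a i < v) {x : ℝ} (hx1 : s ≤ x)
    (hx2 : x ≤ t) : EXL_G b a s (EXL_G a b s' x) = x := by
  apply le_antisymm
  · apply EXL_sup b a hx1
    intro i hi
    obtain ⟨j, hj1, hj2⟩ := EXL_lt a b (hb i).1.le hi
    exact (((hab i j).2 hj2).trans hj1).le
  · by_contra hcon
    push Not at hcon
    obtain ⟨i, hi1, hi2⟩ := da _ x (EXL_ge b a hst ha _) hcon hx2
    obtain ⟨j, hj1, hj2⟩ := da (a i) x (ha i).1.le hi2 hx2
    have h1 : b i < EXL_G a b s' x :=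
      lt_of_lt_of_le ((hab i j).1 hj1) (EXL_mem a b hst' hb hj2)
    have h2 : a i ≤ EXL_G b a s (EXL_G a b s' x) := EXL_mem b a hst ha h1
    linarith

theorem p_EXL : Stmt_EXL := by
  intro ι a b s t s' t' hst hst' ha hb hab da db
  set G := EXL_G a b s' with hG
  set G' := EXL_G b a s with hG'
  have hle : ∀ x, G x ≤ t' := EXL_le a b hst' hb
  have hge : ∀ x, s' ≤ G x := EXL_ge a b hst' hb
  have hle' : ∀ x, G' x ≤ t := EXL_le b a hst ha
  have hge' : ∀ x, s ≤ G' x := EXL_ge b a hst ha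
  have hinv : ∀ x, s ≤ x → x ≤ t → G' (G x) = x := fun x h1 h2 =>
    EXL_inv a b hst hst' ha hb hab da h1 h2
  have hinv' : ∀ y, s' ≤ y → y ≤ t' → G (G' y) = y := fun x h1 h2 =>
    EXL_inv b a hst' hst hb ha (fun i j => (hab i j).symm) db h1 h2
  have hGs : G s = s' := by
    apply le_antisymm _ (hge s)
    apply EXL_sup a b le_rfl
    intro i hi
    exact absurd hi (not_lt.2 (ha i).1.le)
  have hGt : G t = t' := by
    apply le_antisymm (hle t)
    by_contra hcon
    push Not at hcon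
    obtain ⟨i, hi1, -⟩ := db _ t' (hge t) hcon le_rfl
    exact absurd hi1 (not_lt.2 (EXL_mem a b hst' hb (ha i).2))
  have hGa : ∀ i, G (a i) = b i := by
    intro i
    apply le_antisymm
    · exact EXL_sup a b (hb i).1.le fun j hj => ((hab j i).1 hj).le
    · by_contra hcon
      push Not at hcon
      obtain ⟨j, hj1, hj2⟩ := db _ (b i) (hge _) hcon (hb i).2.le
      exact absurd hj1 (not_lt.2 (EXL_mem a b hst' hb ((hab j i).2 hj2)))
  have hstrict : ∀ x y, s ≤ x → x < y → y ≤ t → G x < G y := by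
    intro x y h1 h2 h3
    apply lt_of_le_of_ne (EXL_mono a b hst' hb h2.le)
    intro h4
    have h5 := hinv x h1 (h2.le.trans h3)
    have h6 : G x = G y := h4
    rw [h6, hinv y (h1.trans h2.le) h3] at h5
    exact h2.ne' h5
  set F : ℝ → ℝ := fun x => if x < s then x - s + s' else if x ≤ t then G x else x - t + t'
    with hF
  have hF1 : ∀ x, x < s → F x = x - s + s' := fun x h => by simp only [hF]; rw [if_pos h]
  have hF2 : ∀ x, s ≤ x → x ≤ t → F x = G x := fun x h1 h2 => by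
    simp only [hF]; rw [if_neg (not_lt.2 h1), if_pos h2]
  have hF3 : ∀ x, t < x → F x = x - t + t' := fun x h => by
    simp only [hF]; rw [if_neg (not_lt.2 (hst.trans h).le), if_neg (not_le.2 h)]
  have hmono : StrictMono F := by
    intro x y hxy
    rcases lt_or_ge x s with hx | hx
    · rw [hF1 x hx]
      rcases lt_or_ge y s with hy | hy
      · rw [hF1 y hy]
        linarith
      · rcases le_or_gt y t with hy2 | hy2
        · rw [hF2 y hy hy2]
          linarith [hge y]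
        · rw [hF3 y hy2]
          linarith
    · rcases le_or_gt x t with hx2 | hx2
      · rw [hF2 x hx hx2]
        rcases le_or_gt y t with hy2 | hy2
        · rw [hF2 y (hx.trans hxy.le) hy2]
          exact hstrict x y hx hxy hy2
        · rw [hF3 y hy2]
          linarith [hle x]
      · rw [hF3 x hx2, hF3 y (hx2.trans hxy)]
        linarith
  have hsurj : Function.Surjective F := by
    intro y
    rcases lt_or_ge y s' with hy | hy
    · refine ⟨y - s' + s, ?_⟩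
      rw [hF1 _ (by linarith)]
      ring
    · rcases le_or_gt y t' with hy2 | hy2
      · refine ⟨G' y, ?_⟩
        rw [hF2 _ (hge' y) (hle' y)]
        exact hinv' y hy hy2
      · refine ⟨y - t' + t, ?_⟩
        rw [hF3 _ (by linarith)]
        ring
  refine ⟨StrictMono.orderIsoOfSurjective F hmono hsurj, ?_, ?_, ?_⟩
  · show F s = s'
    rw [hF2 s le_rfl hst.le, hGs]
  · show F t = t'
    rw [hF2 t hst.le le_rfl, hGt]
  · intro i
    show F (a i) = b i
    rw [hF2 _ (ha i).1.le (ha i).2.le, hGa]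

end Pool.AR
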