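import Pool.Agent.Work.MP_ae1ff6_ar.Interface

/-! Block FA1 of MP_ae1ff6_ar: the points `cusp p q`. -/

open Topology Filter Set
open scoped ComplexConjugate

set_option autoImplicit false

namespace Pool.AR

open Pool.CG

theorem FA1_pos {p q : ℝ} (h : p ≠ 0 ∨ q ≠ 0) : 0 < p ^ 2 + q ^ 2 := by
  rcases h with h | h
  · have := pow_pos (abs_pos.mpr h) 2
    rw [sq_abs] at this
    nlinarith [sq_nonneg q]
  · have := pow_pos (abs_pos.mpr h) 2
    rw [sq_abs] at this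
    nlinarith [sq_nonneg p]

theorem FA1_ne {p q : ℝ} (h : p ≠ 0 ∨ q ≠ 0) : (p + q * Complex.I : ℂ) ≠ 0 := by
  intro h0
  have h1 := congrArg Complex.re h0
  have h2 := congrArg Complex.im h0
  simp at h1 h2
  rcases h with h | h
  · exact h h1
  · exact h h2

theorem FA1_val {p q : ℝ} (h : p ≠ 0 ∨ q ≠ 0) :
    (cusp p q : ℂ) = (p - q * Complex.I) / (p + q * Complex.I) := by
  unfold cusp
  rw [dif_pos (FA1_ne h)]
  have h1 : ((Circle.ofConjDivSelf (p + q * Complex.I) (FA1_ne h) : Circle) : ℂ) =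
      conj (p + q * Complex.I : ℂ) / (p + q * Complex.I) := rfl
  rw [h1]
  congr 1
  simp [sub_eq_add_neg]

theorem FA1_mul {p q : ℝ} (h : p ≠ 0 ∨ q ≠ 0) :
    (cusp p q : ℂ) * (p + q * Complex.I) = p - q * Complex.I := by
  rw [FA1_val h, div_mul_cancel₀ _ (FA1_ne h)]

theorem FA1_re {p q : ℝ} (h : p ≠ 0 ∨ q ≠ 0) :
    (cusp p q : ℂ).re = (p ^ 2 - q ^ 2) / (p ^ 2 + q ^ 2) := by
  rw [FA1_val h, Complex.div_re]
  have hn : Complex.normSq (p + q * Complex.I : ℂ) = p ^ 2 + q ^ 2 := by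
    simp [Complex.normSq_apply]; ring
  rw [hn]
  simp
  ring

theorem FA1_im {p q : ℝ} (h : p ≠ 0 ∨ q ≠ 0) :
    (cusp p q : ℂ).im = (-2 * p * q) / (p ^ 2 + q ^ 2) := by
  rw [FA1_val h, Complex.div_im]
  have hn : Complex.normSq (p + q * Complex.I : ℂ) = p ^ 2 + q ^ 2 := by
    simp [Complex.normSq_apply]; ring
  rw [hn]
  simp
  ring

theorem FA1_dist {p q r s : ℝ} (h1 : p ≠ 0 ∨ q ≠ 0) (h2 : r ≠ 0 ∨ s ≠ 0) :
    dist (cusp p q) (cusp r s) ^ 2 * ((p ^ 2 + q ^ 2) * (r ^ 2 + s ^ 2)) =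
      4 * (p * s - q * r) ^ 2 := by
  have hp := (FA1_pos h1).ne'
  have hr := (FA1_pos h2).ne'
  have hd : dist (cusp p q) (cusp r s) ^ 2 =
      ((cusp p q : ℂ).re - (cusp r s : ℂ).re) ^ 2 +
        ((cusp p q : ℂ).im - (cusp r s : ℂ).im) ^ 2 := by
    have h0 : dist (cusp p q) (cusp r s) = ‖(cusp p q : ℂ) - (cusp r s : ℂ)‖ := by
      rw [← Complex.dist_eq]; rfl
    rw [h0, Complex.sq_norm, Complex.normSq_apply]
    simp only [Complex.sub_re, Complex.sub_im]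
    ring
  rw [hd, FA1_re h1, FA1_re h2, FA1_im h1, FA1_im h2]
  field_simp
  ring

theorem FA1_area {p q r s t u : ℝ} (h1 : p ≠ 0 ∨ q ≠ 0) (h2 : r ≠ 0 ∨ s ≠ 0)
    (h3 : t ≠ 0 ∨ u ≠ 0) :
    area (cusp p q) (cusp r s) (cusp t u) * ((p ^ 2 + q ^ 2) * (r ^ 2 + s ^ 2) * (t ^ 2 + u ^ 2)) =
      4 * ((p * s - q * r) * (r * u - s * t) * (t * q - u * p)) := by
  have hp := (FA1_pos h1).ne'
  have hr := (FA1_pos h2).ne'
  have ht := (FA1_pos h3).ne'
  have ha : area (cusp p q) (cusp r s) (cusp t u) =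
      ((cusp r s : ℂ).re - (cusp p q : ℂ).re) * ((cusp t u : ℂ).im - (cusp p q : ℂ).im) -
        ((cusp r s : ℂ).im - (cusp p q : ℂ).im) * ((cusp t u : ℂ).re - (cusp p q : ℂ).re) := by
    unfold area
    simp [Complex.mul_im]
    ring
  rw [ha, FA1_re h1, FA1_re h2, FA1_re h3, FA1_im h1, FA1_im h2, FA1_im h3]
  field_simp
  ring

theorem FA1_surj (z : Circle) : ∃ p q : ℝ, (p ≠ 0 ∨ q ≠ 0) ∧ cusp p q = z := by
  have hz : (z : ℂ).re ^ 2 + (z : ℂ).im ^ 2 = 1 := by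
    have := Circle.normSq_coe z
    rw [Complex.normSq_apply] at this
    nlinarith
  by_cases h : (z : ℂ).re = -1
  · refine ⟨0, 1, Or.inr one_ne_zero, ?_⟩
    have h1 : ((0 : ℝ) ≠ 0 ∨ (1 : ℝ) ≠ 0) := Or.inr one_ne_zero
    have him : (z : ℂ).im = 0 := by
      rw [h] at hz
      have : (z : ℂ).im ^ 2 = 0 := by linarith
      exact pow_eq_zero_iff (two_ne_zero) |>.mp this
    apply Circle.ext
    apply Complex.ext
    · rw [FA1_re h1, h]; norm_num
    · rw [FA1_im h1, him]; norm_num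
  · have hre : 1 + (z : ℂ).re ≠ 0 := fun h0 => h (by linarith)
    have h1 : (1 + (z : ℂ).re ≠ 0 ∨ -(z : ℂ).im ≠ 0) := Or.inl hre
    refine ⟨1 + (z : ℂ).re, -(z : ℂ).im, h1, ?_⟩
    have hp := (FA1_pos h1).ne'
    apply Circle.ext
    apply Complex.ext
    · rw [FA1_re h1, div_eq_iff hp]
      linear_combination (-1 - (z : ℂ).re) * hz
    · rw [FA1_im h1, div_eq_iff hp]
      linear_combination (-(z : ℂ).im) * hz

theorem p_FA1 : Stmt_FA1 := by
  refine ⟨fun p q h => FA1_mul h, FA1_surj, ?_, ?_, fun p q r s h1 h2 => FA1_dist h1 h2, ?_⟩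
  · intro p q
    by_cases h : p ≠ 0 ∨ q ≠ 0
    · have h' : -p ≠ 0 ∨ -q ≠ 0 := by simpa using h
      apply Circle.ext
      apply Complex.ext
      · rw [FA1_re h, FA1_re h']
        congr 1 <;> ring
      · rw [FA1_im h, FA1_im h']
        congr 1 <;> ring
    · push Not at h
      obtain ⟨rfl, rfl⟩ := h
      simp
  · intro p q r s h1 h2
    have hd := FA1_dist h1 h2
    have hN : 0 < (p ^ 2 + q ^ 2) * (r ^ 2 + s ^ 2) := mul_pos (FA1_pos h1) (FA1_pos h2)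
    constructor
    · intro h
      rw [h, dist_self] at hd
      have : (p * s - q * r) ^ 2 = 0 := by nlinarith
      exact pow_eq_zero_iff (two_ne_zero) |>.mp this
    · intro h
      rw [h] at hd
      have h0 : dist (cusp p q) (cusp r s) ^ 2 = 0 := by
        have : dist (cusp p q) (cusp r s) ^ 2 * ((p ^ 2 + q ^ 2) * (r ^ 2 + s ^ 2)) = 0 := by
          rw [hd]; ring
        rcases mul_eq_zero.mp this with h' | h'
        · exact h'
        · exact absurd h' hN.ne'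
      exact dist_eq_zero.mp (pow_eq_zero_iff (two_ne_zero) |>.mp h0)
  · intro p q r s t u h1 h2 h3
    have ha := FA1_area h1 h2 h3
    have hN : 0 < (p ^ 2 + q ^ 2) * (r ^ 2 + s ^ 2) * (t ^ 2 + u ^ 2) :=
      mul_pos (mul_pos (FA1_pos h1) (FA1_pos h2)) (FA1_pos h3)
    unfold Ccw
    constructor
    · intro h
      have := mul_pos h hN
      rw [ha] at this
      linarith
    · intro h
      have h4 : 0 < area (cusp p q) (cusp r s) (cusp t u) *
          ((p ^ 2 + q ^ 2) * (r ^ 2 + s ^ 2) * (t ^ 2 + u ^ 2)) := by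
        rw [ha]; linarith
      exact (mul_pos_iff_of_pos_right hN).mp h4

end Pool.AR
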