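import Pool.Agent.Work.MP_ae1ff6_ar.Interface

/-!
# Asymptotically rigid mapping classes (MP_ae1ff6_gt): block FAB
-/

open Topology Filter Set
open scoped ComplexConjugate

set_option autoImplicit false

namespace Pool.AR

open Pool.CG

theorem FAB_base : (cusp 1 0, cusp 0 1) ∈ Farey :=
  ⟨1, 0, 0, 1, Or.inl (by norm_num), by simp⟩

theorem p_FAB (hMOR : Stmt_MOR) (hRIG : Stmt_RIG) (hPHI : Stmt_PHI) (hTRF : Stmt_TRF) (hMOF : Stmt_MOF) :
    Stmt_FAB := by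
  intro G T hO hT hK
  obtain ⟨e, he⟩ := hT.nonempty
  obtain ⟨h, h1, -, -, h4⟩ := hPHI T Farey hT hTRF e he (cusp 1 0, cusp 0 1) FAB_base
  obtain ⟨hMob, ⟨-, hmul, hinv⟩, -⟩ := hMOR
  refine ⟨h, h1, h4, ?_⟩
  intro g hg
  have hk : Ori (h * g * h⁻¹) := hmul _ _ (hmul _ _ h1 (hO g hg)) (hinv _ h1)
  have hkF : ∀ a b, (a, b) ∈ Farey → ((h * g * h⁻¹) a, (h * g * h⁻¹) b) ∈ Farey := by
    intro a b hab
    have hh : ∀ z, h (h⁻¹ z) = z := fun z => h.apply_symm_apply z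
    have h5 : (h⁻¹ a, h⁻¹ b) ∈ T := by
      rw [h4, hh, hh]
      exact hab
    exact (h4 _ _).1 (hK g hg _ _ h5)
  obtain ⟨m, m1, m2, m3, m4, -, m6⟩ := hMOF _ _ (hkF _ _ FAB_base)
  have hfix : ∀ z, m⁻¹ (m z) = z := fun z => m.symm_apply_apply z
  have h7 : m⁻¹ * (h * g * h⁻¹) = 1 := by
    refine hRIG Farey _ hTRF (hmul _ _ (hinv _ (hMob m m1)) hk) ?_ (cusp 1 0) (cusp 0 1) FAB_base ?_ ?_
    · intro x y hxy
      exact m6 _ _ (hkF _ _ hxy)
    · have := hfix (cusp 1 0)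
      rw [m3] at this
      exact this
    · have := hfix (cusp 0 1)
      rw [m4] at this
      exact this
  have h8 : h * g * h⁻¹ = m := by
    rw [inv_mul_eq_one] at h7
    exact h7.symm
  rw [h8]
  exact ⟨m1, m2⟩

end Pool.AR
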