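import Pool.Agent.Work.MP_ae1ff6_ar.Interface2

open Topology Filter Set
open scoped ComplexConjugate

set_option autoImplicit false

namespace Pool.AR

open Pool.CG

theorem p_FCL : Stmt_FCL := by
  refine ⟨?_, ?_, ?_, ?_, ?_, ?_⟩
  · rintro Γ A B hAB ⟨F, hF, h⟩
    exact ⟨F, hF, fun g hg => h g (hAB hg)⟩
  · rintro Γ A B ⟨F, hF, h⟩ ⟨F', hF', h'⟩
    refine ⟨F ∪ F', hF.union hF', ?_⟩
    rintro g (hg | hg)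
    · obtain ⟨k, hk, hk2⟩ := h g hg
      exact ⟨k, Or.inl hk, hk2⟩
    · obtain ⟨k, hk, hk2⟩ := h' g hg
      exact ⟨k, Or.inr hk, hk2⟩
  · intro Γ A hA
    refine ⟨A, hA, fun g hg => ⟨g, hg, ?_⟩⟩
    rw [inv_mul_cancel]
    exact Γ.one_mem
  · rintro Γ A s ⟨F, hF, h⟩
    refine ⟨(fun k => s⁻¹ * k) '' F, hF.image _, ?_⟩
    intro g hg
    obtain ⟨k, hk, hk2⟩ := h (s * g) hg
    refine ⟨s⁻¹ * k, ⟨k, hk, rfl⟩, ?_⟩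
    have e : (s⁻¹ * k)⁻¹ * g = k⁻¹ * (s * g) := by group
    rw [e]
    exact hk2
  · rintro Γ G A hnor ⟨F, hF, h⟩ g₀ hg₀
    refine ⟨(fun k => k * g₀⁻¹) '' F, hF.image _, ?_⟩
    intro g hg
    obtain ⟨k, hk, hk2⟩ := h (g * g₀) hg
    refine ⟨k * g₀⁻¹, ⟨k, hk, rfl⟩, ?_⟩
    have e : (k * g₀⁻¹)⁻¹ * g = g₀ * (k⁻¹ * (g * g₀)) * g₀⁻¹ := by group
    rw [e]
    exact hnor g₀ hg₀ _ hk2
  · rintro Γ G A hle hnor ⟨F, hF, h⟩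
    refine ⟨F, hF, ?_⟩
    rintro g ⟨hg, κ, hκ, hκg⟩
    obtain ⟨k, hk, hk2⟩ := h (κ * g) hκg
    refine ⟨k, hk, ?_⟩
    have hkG : k ∈ G := by
      have e : k = (κ * g) * (k⁻¹ * (κ * g))⁻¹ := by group
      rw [e]
      exact G.mul_mem (G.mul_mem (hle hκ) hg) (G.inv_mem (hle hk2))
    have h1 : k⁻¹ * κ⁻¹ * (k⁻¹)⁻¹ ∈ Γ := hnor k⁻¹ (G.inv_mem hkG) κ⁻¹ (Γ.inv_mem hκ)
    have e : k⁻¹ * g = (k⁻¹ * κ⁻¹ * (k⁻¹)⁻¹) * (k⁻¹ * (κ * g)) := by group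
    rw [e]
    exact Γ.mul_mem h1 hk2

end Pool.AR
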