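import Pool.Agent.Work.MP_ae1ff6_ar.Interface2

/-!
# Block FIA: pairs close to an edge
-/

open Topology Filter Set
open scoped ComplexConjugate

set_option autoImplicit false

namespace Pool.AR

open Pool.CG

theorem FIA_cont1 (w₁ w₂ : Circle) :
    Continuous fun p : Circle × Circle => area w₁ p.1 w₂ := by
  unfold area
  fun_prop

theorem FIA_cont2 (w₁ w₂ : Circle) :
    Continuous fun p : Circle × Circle => area w₂ p.2 w₁ := by
  unfold area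
  fun_prop

theorem FIA_pt (h1 : Stmt_CYO) (h2 : Stmt_LKC) (x w₁ w₂ p q : Circle)
    (d1 : Ccw x w₂ w₁) (e1 : Ccw w₁ p w₂) (e2 : Ccw w₂ q w₁) (hp : p ≠ x) :
    Link p q x w₁ ∨ Link p q x w₂ := by
  obtain ⟨rot, anti, tot, four⟩ := h1
  have hw1p : w₁ ≠ p := (anti _ _ _ e1).2.1
  have hw1x : w₁ ≠ x := ((anti _ _ _ d1).2.2.2).symm
  rcases tot w₁ p x hw1p hp hw1x with h | h
  · left
    have k := four w₂ q w₁ x e2 (rot _ _ _ d1)
    have k1 : Ccw x q w₁ := rot _ _ _ (rot _ _ _ k.2)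
    have l : Link x w₁ q p := (h2 x w₁ q p).2 (Or.inl ⟨k1, h⟩)
    have l2 : Link q p x w₁ := (Pool.GC.q_SYM _ _ _ _ l).1
    exact (Pool.GC.q_SYM _ _ _ _ l2).2.1
  · right
    have k := four w₁ x p w₂ h e1
    have k2 := four w₂ q w₁ x e2 (rot _ _ _ d1)
    have l : Link x w₂ p q := (h2 x w₂ p q).2 (Or.inl ⟨k.2, k2.1⟩)
    exact (Pool.GC.q_SYM _ _ _ _ l).1

theorem FIA_core (h1 : Stmt_CYO) (h2 : Stmt_LKC) (T : Set (Circle × Circle))
    (u : Ultrafilter (Circle × Circle)) (x y w₁ w₂ : Circle)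
    (hu : (u : Filter _) ≤ 𝓝 (x, y)) (hw1 : (x, w₁) ∈ T) (hw2 : (x, w₂) ∈ T)
    (c1 : Ccw x w₂ y) (c2 : Ccw x y w₁) :
    (∀ᶠ a : Circle × Circle in u, a.1 = x) ∨
      ∃ e ∈ T, ∀ᶠ a : Circle × Circle in u, Link a.1 a.2 e.1 e.2 := by
  obtain ⟨d1, d2⟩ := h1.2.2.2 x w₂ y w₁ c1 c2
  have rot := h1.1
  have d3 : Ccw w₁ x w₂ := rot _ _ _ (rot _ _ _ d1)
  have o1 : ∀ᶠ a : Circle × Circle in 𝓝 (x, y), Ccw w₁ a.1 w₂ := by
    have : IsOpen {a : Circle × Circle | 0 < area w₁ a.1 w₂} :=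
      isOpen_lt continuous_const (FIA_cont1 w₁ w₂)
    exact this.mem_nhds d3
  have o2 : ∀ᶠ a : Circle × Circle in 𝓝 (x, y), Ccw w₂ a.2 w₁ := by
    have : IsOpen {a : Circle × Circle | 0 < area w₂ a.2 w₁} :=
      isOpen_lt continuous_const (FIA_cont2 w₁ w₂)
    exact this.mem_nhds d2
  by_cases hx : ∀ᶠ a : Circle × Circle in u, a.1 = x
  · exact Or.inl hx
  · right
    have hx' : ∀ᶠ a : Circle × Circle in u, ¬ a.1 = x := Ultrafilter.eventually_not.2 hx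
    have hl : ∀ᶠ a : Circle × Circle in u, Link a.1 a.2 x w₁ ∨ Link a.1 a.2 x w₂ := by
      filter_upwards [hx', hu o1, hu o2] with a ha1 ha2 ha3
      exact FIA_pt h1 h2 x w₁ w₂ a.1 a.2 d1 ha2 ha3 ha1
    rcases Ultrafilter.eventually_or.1 hl with h | h
    · exact ⟨(x, w₁), hw1, h⟩
    · exact ⟨(x, w₂), hw2, h⟩

theorem p_FIA (h1 : Stmt_CYO) (h2 : Stmt_LKC) (h3 : Stmt_SHF) : Stmt_FIA := by
  intro Γ T u x y hT hK hc hxy hu
  obtain ⟨γ, hγ, hfix⟩ := hc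
  have hγx : γ x = x := (hfix x).2 rfl
  have hγx' : γ⁻¹ x = x := by
    have : γ⁻¹ (γ x) = x := γ.symm_apply_apply x
    rwa [hγx] at this
  have hyx : y ≠ x := (hT.ne x y hxy).symm
  have m1 : (x, γ y) ∈ T := by
    have := hK γ hγ x y hxy
    rwa [hγx] at this
  have m2 : (x, γ⁻¹ y) ∈ T := by
    have := hK γ⁻¹ (Γ.inv_mem hγ) x y hxy
    rwa [hγx'] at this
  have hgy : γ (γ⁻¹ y) = y := γ.apply_symm_apply y
  have hy' : γ⁻¹ y ≠ x := by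
    intro h
    rw [h, hγx] at hgy
    exact hyx hgy.symm
  rcases h3 γ x hfix with h | h
  · have k1 := h y hyx
    have k2 := h (γ⁻¹ y) hy'
    rw [hgy] at k2
    exact FIA_core h1 h2 T u x y (γ y) (γ⁻¹ y) hu m1 m2 k2 k1
  · have k1 := h y hyx
    have k2 := h (γ⁻¹ y) hy'
    rw [hgy] at k2
    exact FIA_core h1 h2 T u x y (γ⁻¹ y) (γ y) hu m2 m1 k1 k2

end Pool.AR
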