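import Pool.Agent.Work.MP_ae1ff6_ar.Interface2

/-!
# Block FIN (typed by helper21): local finiteness
-/

open Topology Filter Set
open scoped ComplexConjugate

set_option autoImplicit false

namespace Pool.AR

open Pool.CG

theorem p_FIN (hDCH : Stmt_DCH) (hFIA : Stmt_FIA) : Stmt_FIN := by
  intro Γ T U hT hK hcusp hfin ε hε
  by_contra hcon
  have hinf : {a : Circle × Circle | a ∈ U ∧ ε ≤ dist a.1 a.2}.Infinite := hcon
  obtain ⟨A, hA⟩ : ∃ A : Set (Circle × Circle), A = {a | a ∈ U ∧ ε ≤ dist a.1 a.2} := ⟨_, rfl⟩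
  rw [← hA] at hinf
  have hne := hinf.cofinite_inf_principal_neBot
  obtain ⟨u, hu⟩ : ∃ u : Ultrafilter (Circle × Circle),
      (u : Filter (Circle × Circle)) ≤ cofinite ⊓ 𝓟 A :=
    ⟨Ultrafilter.of _, Ultrafilter.of_le _⟩
  have huc : (u : Filter (Circle × Circle)) ≤ cofinite := hu.trans inf_le_left
  have huA : A ∈ (u : Filter (Circle × Circle)) := (hu.trans inf_le_right) (mem_principal_self A)
  have hnf : ∀ S : Set (Circle × Circle), S.Finite → S ∉ (u : Filter (Circle × Circle)) := by
    intro S hS hSu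
    have h1 : Sᶜ ∈ (u : Filter (Circle × Circle)) := huc hS.compl_mem_cofinite
    have h2 := inter_mem hSu h1
    rw [inter_compl_self] at h2
    exact u.empty_notMem h2
  -- the limit
  obtain ⟨x, y, hxy⟩ : ∃ x y : Circle, (u : Filter (Circle × Circle)) ≤ 𝓝 (x, y) :=
    ⟨u.lim.1, u.lim.2, u.le_nhds_lim⟩
  have hx : Tendsto Prod.fst (u : Filter (Circle × Circle)) (𝓝 x) :=
    (continuous_fst.tendsto (x, y)).mono_left hxy
  have hy : Tendsto Prod.snd (u : Filter (Circle × Circle)) (𝓝 y) :=
    (continuous_snd.tendsto (x, y)).mono_left hxy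
  have hd : ε ≤ dist x y := ge_of_tendsto (hx.dist hy) (by
    filter_upwards [huA] with a ha
    rw [hA] at ha
    exact ha.2)
  have hxne : x ≠ y := by
    intro h
    rw [h, dist_self] at hd
    linarith
  -- no edge of `T` is crossed by almost all pairs
  have h1 : ∀ e ∈ T, ¬ ∀ᶠ a : Circle × Circle in (u : Filter (Circle × Circle)),
      Link a.1 a.2 e.1 e.2 := by
    intro e he h
    apply hnf _ (hfin e he)
    filter_upwards [huA, h] with a ha hl
    rw [hA] at ha
    exact ⟨ha.1, Or.inl hl⟩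
  have h2 : (x, y) ∈ T := by
    rcases hDCH T hT x y hxne with h | ⟨z, w, hzw, hl⟩
    · exact h
    · exfalso
      apply h1 (z, w) hzw
      have hl' : Link x y z w := (Pool.GC.q_SYM z w x y hl).1
      have hO : IsOpen {a : Circle × Circle | Link a.1 a.2 z w} :=
        Pool.GC.q_LNO.1.preimage (continuous_id.prodMk (continuous_const (y := (z, w))))
      exact hxy (hO.mem_nhds hl')
  have h3 : ∀ᶠ a : Circle × Circle in u, a.1 = x := by
    rcases hFIA Γ T u x y hT hK (hcusp x y h2) h2 hxy with h | ⟨e, he, h⟩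
    · exact h
    · exact absurd h (h1 e he)
  have h4 : ∀ᶠ a : Circle × Circle in u, a.2 = y := by
    have hyx : (y, x) ∈ T := hT.symm x y h2
    have hsw : ((u.map Prod.swap : Ultrafilter (Circle × Circle)) : Filter (Circle × Circle)) ≤
        𝓝 (y, x) := (continuous_swap.tendsto (x, y)).mono_left hxy
    rcases hFIA Γ T (u.map Prod.swap) y x hT hK (hcusp y x hyx) hyx hsw with h | ⟨e, he, h⟩
    · exact h
    · exfalso
      apply h1 e he
      have h' : ∀ᶠ a : Circle × Circle in u, Link a.2 a.1 e.1 e.2 := h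
      filter_upwards [h'] with a ha
      exact (Pool.GC.q_SYM _ _ _ _ ha).2.1
  apply hnf {(x, y)} (Set.finite_singleton _)
  filter_upwards [h3, h4] with a ha hb
  exact Prod.ext ha hb

end Pool.AR

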