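import Pool.Agent.Work.MP_ae1ff6_ar.Interface

/-! # Block FRU: Farey edges do not cross -/

open Topology Filter Set
open scoped ComplexConjugate

set_option autoImplicit false

namespace Pool.AR

open Pool.CG

/-- integers `u`, `v` with `u v < 0` do not have the difference `1` or `-1` -/
theorem FRU_uv (u v e : ℤ) (he : e = 1 ∨ e = -1) (h : e = u - v) (huv : u * v < 0) : False := by
  have hu : u = v + e := by linarith
  subst hu
  rcases le_or_gt 0 v with hv | hv
  · rcases he with rfl | rfl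
    · nlinarith
    · rcases eq_or_lt_of_le hv with h0 | h0
      · rw [← h0] at huv
        simp at huv
      · have h1 : 1 ≤ v := by omega
        nlinarith
  · have h1 : v ≤ -1 := by omega
    rcases he with rfl | rfl
    · nlinarith
    · nlinarith

theorem FRU_int (D D' α β γ δ : ℤ) (hD : D = 1 ∨ D = -1) (hD' : D' = 1 ∨ D' = -1)
    (hpl : D * D' = α * γ - β * δ) (h1 : 0 < α * β * (-D)) (h2 : 0 < γ * δ * D) : False := by
  have he : D * D' = 1 ∨ D * D' = -1 := by
    rcases hD with rfl | rfl <;> rcases hD' with rfl | rfl <;> simp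
  refine FRU_uv (α * γ) (β * δ) (D * D') he hpl ?_
  have h3 : α * γ * (β * δ) = (α * β) * (γ * δ) := by ring
  rw [h3]
  rcases hD with rfl | rfl
  · have h4 : α * β < 0 := by linarith
    have h5 : 0 < γ * δ := by linarith
    exact mul_neg_of_neg_of_pos h4 h5
  · have h4 : 0 < α * β := by linarith
    have h5 : γ * δ < 0 := by linarith
    exact mul_neg_of_pos_of_neg h4 h5

theorem FRU_ne {p q r s : ℤ} (h : p * s - q * r = 1 ∨ p * s - q * r = -1) :
    ((p : ℝ) ≠ 0 ∨ (q : ℝ) ≠ 0) ∧ ((r : ℝ) ≠ 0 ∨ (s : ℝ) ≠ 0) := by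
  constructor
  · by_contra hc
    push Not at hc
    have hp : p = 0 := by exact_mod_cast hc.1
    have hq : q = 0 := by exact_mod_cast hc.2
    subst hp hq
    simp at h
  · by_contra hc
    push Not at hc
    have hr : r = 0 := by exact_mod_cast hc.1
    have hs : s = 0 := by exact_mod_cast hc.2
    subst hr hs
    simp at h

theorem FRU_half (hFA1 : Stmt_FA1) {p q r s p' q' r' s' : ℤ}
    (h : p * s - q * r = 1 ∨ p * s - q * r = -1)
    (h' : p' * s' - q' * r' = 1 ∨ p' * s' - q' * r' = -1)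
    (h1 : Ccw (cusp p q) (cusp p' q') (cusp r s)) (h2 : Ccw (cusp r s) (cusp r' s') (cusp p q)) :
    False := by
  obtain ⟨n1, n2⟩ := FRU_ne h
  obtain ⟨n3, n4⟩ := FRU_ne h'
  obtain ⟨-, -, -, -, -, h6⟩ := hFA1
  have e1 := (h6 _ _ _ _ _ _ n1 n3 n2).1 h1
  have e2 := (h6 _ _ _ _ _ _ n2 n4 n1).1 h2
  have f1 : 0 < (p * q' - q * p') * (p' * s - q' * r) * (r * q - s * p) := by exact_mod_cast e1
  have f2 : 0 < (r * s' - s * r') * (r' * q - s' * p) * (p * s - q * r) := by exact_mod_cast e2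
  refine FRU_int (p * s - q * r) (p' * s' - q' * r') (p * q' - q * p') (p' * s - q' * r)
    (r * s' - s * r') (r' * q - s' * p) h h' (by ring) ?_ ?_
  · have h3 : r * q - s * p = -(p * s - q * r) := by ring
    rw [h3] at f1
    exact f1
  · exact f2

theorem p_FRU (hLKC : Stmt_LKC) (hFA1 : Stmt_FA1) : Stmt_FRU := by
  rintro x y z w ⟨p, q, r, s, h, hxy⟩ ⟨p', q', r', s', h', hzw⟩ hL
  obtain ⟨rfl, rfl⟩ := Prod.mk.inj hxy
  obtain ⟨rfl, rfl⟩ := Prod.mk.inj hzw
  rcases (hLKC _ _ _ _).1 hL with ⟨h1, h2⟩ | ⟨h1, h2⟩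
  · exact FRU_half hFA1 h h' h1 h2
  · refine FRU_half hFA1 h (p' := r') (q' := s') (r' := p') (s' := q') ?_ h1 h2
    rcases h' with h' | h'
    · right
      linarith
    · left
      linarith

end Pool.AR
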