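import Pool.Agent.Work.MP_ae1ff6_ar.Interface3
import Pool.Agent.Work.MP_ae1ff6_ar.B_EXB

open Topology Filter Set
open scoped ComplexConjugate

set_option autoImplicit false

namespace Pool.AR

open Pool.CG

/-- an element of the class of `h` -/
theorem FVL_dec (Γ G : Subgroup H) (hle : Γ ≤ G) (hnor : ∀ g ∈ G, ∀ γ ∈ Γ, g * γ * g⁻¹ ∈ Γ)
    (g h : H) (hg : g ∈ G) (hh : h⁻¹ * g ∈ Γ) : h ∈ G ∧ ∃ κ ∈ Γ, g = κ * h := by
  have hhG : h ∈ G := by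
    have e : h = g * (h⁻¹ * g)⁻¹ := by group
    rw [e]
    exact G.mul_mem hg (G.inv_mem (hle hh))
  exact ⟨hhG, h * (h⁻¹ * g) * h⁻¹, hnor h hhG _ hh, by group⟩

theorem p_FVL : Stmt_FVL := by
  intro Γ G S hle hnor hSf hSG hgen ι φ hφ hE
  have hE' : ∀ s : H, s ∈ S → ∃ K : Set H, K.Finite ∧
      ∀ g ∈ G, φ (s * g) ≠ φ g → ∃ h ∈ K, h⁻¹ * g ∈ Γ := by
    intro s hs
    obtain ⟨K, hK1, hK2⟩ := hE s hs
    exact ⟨K, hK1, fun g hg hne => hK2 g ⟨hg, hne⟩⟩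
  choose! K hK1 hK2 using hE'
  have hVfin : (({φ 1} : Set ι) ∪ ⋃ s ∈ S, (φ '' (K s) ∪ (fun h => φ (s * h)) '' (K s))).Finite :=
    (Set.finite_singleton _).union
      (hSf.biUnion fun s hs => ((hK1 s hs).image _).union ((hK1 s hs).image _))
  have hV1 : ∀ s ∈ S, ∀ h ∈ K s,
      φ h ∈ (({φ 1} : Set ι) ∪ ⋃ s ∈ S, (φ '' (K s) ∪ (fun h => φ (s * h)) '' (K s))) :=
    fun s hs h hh => Or.inr (Set.mem_biUnion hs (Or.inl ⟨h, hh, rfl⟩))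
  have hV2 : ∀ s ∈ S, ∀ h ∈ K s,
      φ (s * h) ∈ (({φ 1} : Set ι) ∪ ⋃ s ∈ S, (φ '' (K s) ∪ (fun h => φ (s * h)) '' (K s))) :=
    fun s hs h hh => Or.inr (Set.mem_biUnion hs (Or.inr ⟨h, hh, rfl⟩))
  generalize hVdef : (({φ 1} : Set ι) ∪ ⋃ s ∈ S, (φ '' (K s) ∪ (fun h => φ (s * h)) '' (K s))) = V
    at hVfin hV1 hV2
  have hV0 : φ 1 ∈ V := by
    rw [← hVdef]
    exact Or.inl rfl
  have hK : Γ ⊔ Subgroup.closure S ≤ EXB_K (fun g => g ∈ G ∧ φ g ∈ V) := by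
    refine sup_le ?_ ((Subgroup.closure_le _).2 ?_)
    · intro γ hγ g hg
      refine ⟨⟨G.mul_mem (hle hγ) hg.1, ?_⟩, ⟨G.mul_mem (G.inv_mem (hle hγ)) hg.1, ?_⟩⟩
      · rw [hφ γ hγ g hg.1]
        exact hg.2
      · rw [hφ γ⁻¹ (Γ.inv_mem hγ) g hg.1]
        exact hg.2
    · intro s hs g hg
      refine ⟨⟨G.mul_mem (hSG hs) hg.1, ?_⟩, ⟨G.mul_mem (G.inv_mem (hSG hs)) hg.1, ?_⟩⟩
      · by_cases h : φ (s * g) = φ g
        · rw [h]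
          exact hg.2
        · obtain ⟨k, hk, hkg⟩ := hK2 s hs g hg.1 h
          obtain ⟨hkG, κ, hκ, e⟩ := FVL_dec Γ G hle hnor g k hg.1 hkg
          have e2 : s * g = (s * κ * s⁻¹) * (s * k) := by
            rw [e]
            group
          rw [e2, hφ _ (hnor s (hSG hs) κ hκ) _ (G.mul_mem (hSG hs) hkG)]
          exact hV2 s hs k hk
      · have hg' : s⁻¹ * g ∈ G := G.mul_mem (G.inv_mem (hSG hs)) hg.1
        have e3 : s * (s⁻¹ * g) = g := mul_inv_cancel_left s g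
        by_cases h : φ (s * (s⁻¹ * g)) = φ (s⁻¹ * g)
        · rw [e3] at h
          rw [← h]
          exact hg.2
        · obtain ⟨k, hk, hkg⟩ := hK2 s hs _ hg' h
          obtain ⟨hkG, κ, hκ, e⟩ := FVL_dec Γ G hle hnor _ k hg' hkg
          rw [e, hφ κ hκ k hkG]
          exact hV1 s hs k hk
  refine hVfin.subset ?_
  rintro _ ⟨g, hg, rfl⟩
  have h1 := (hK (hgen hg) 1 ⟨G.one_mem, hV0⟩).1.2
  rw [mul_one] at h1
  exact h1

end Pool.AR
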