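import Pool.Agent.Work.MP_ae1ff6_ar.Interface

/-!
# Block FXT: elements with three fixed points (helper58)
-/

open Topology Filter Set
open scoped ComplexConjugate

set_option autoImplicit false

namespace Pool.AR

open Pool.CG

theorem FXT_pow (k : H) (p : Circle) (h : k p = p) (n : ℕ) : (k ^ n) p = p := by
  induction n with
  | zero => rfl
  | succ n ih =>
    rw [pow_succ']
    show k ((k ^ n) p) = p
    rw [ih, h]

theorem p_FXT (hA : Stmt_ANG) (hL : Stmt_LFO) : Stmt_FXT := by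
  intro G k p₁ p₂ p₃ hC hk hO h12 h23 h13 e1 e2 e3
  have hpi := Real.two_pi_pos
  -- a power is trivial
  obtain ⟨ε, hε⟩ : ∃ ε, ε = min (min (dist p₁ p₂) (dist p₂ p₃)) (dist p₁ p₃) := ⟨_, rfl⟩
  have hε0 : 0 < ε := by
    rw [hε]
    exact lt_min (lt_min (dist_pos.2 h12) (dist_pos.2 h23)) (dist_pos.2 h13)
  have hfar : Far ε p₁ p₂ p₃ := by
    rw [hε]
    exact ⟨(min_le_left _ _).trans (min_le_left _ _), (min_le_left _ _).trans (min_le_right _ _),
      min_le_right _ _⟩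
  have hmem : ∀ n : ℕ, k ^ n ∈ {g : H | g ∈ G ∧ Mv ε g} := fun n =>
    ⟨G.pow_mem hk n, p₁, p₂, p₃, hfar, by
      rw [FXT_pow k p₁ e1 n, FXT_pow k p₂ e2 n, FXT_pow k p₃ e3 n]; exact hfar⟩
  obtain ⟨n, -, m, -, hnm, hpow⟩ := Set.infinite_univ.exists_ne_map_eq_of_mapsTo
    (f := fun n : ℕ => k ^ n) (fun n _ => hmem n) (hC ε hε0)
  obtain ⟨j, hj, hj1⟩ : ∃ j : ℕ, 0 < j ∧ k ^ j = 1 := by
    have hpow' : k ^ n = k ^ m := hpow
    rcases lt_or_gt_of_ne hnm with h | h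
    · refine ⟨m - n, by omega, ?_⟩
      have h5 : k ^ n * k ^ (m - n) = k ^ n * 1 := by
        rw [← pow_add, mul_one, Nat.add_sub_cancel' h.le]
        exact hpow'.symm
      exact mul_left_cancel h5
    · refine ⟨n - m, by omega, ?_⟩
      have h5 : k ^ m * k ^ (n - m) = k ^ m * 1 := by
        rw [← pow_add, mul_one, Nat.add_sub_cancel' h.le]
        exact hpow'
      exact mul_left_cancel h5
  obtain ⟨θ, s, hs, hs2, rfl, rfl⟩ := hA.2.2.1 p₁ p₂ h12
  obtain ⟨κ, hκ1, hκ2, hκ3, hκ⟩ := hL k θ s hO hs hs2 e1 e2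
  have hmono : StrictMono κ := κ.strictMono
  have hinj : InjOn Circle.exp (Ico θ (θ + 2 * Real.pi)) := Circle.exp_injOn_Ico (by linarith)
  have key : ∀ x, θ < x → x < θ + 2 * Real.pi → ∀ i : ℕ,
      θ < κ^[i] x ∧ κ^[i] x < θ + 2 * Real.pi ∧ Circle.exp (κ^[i] x) = (k ^ i) (Circle.exp x) := by
    intro x hx hx' i
    induction i with
    | zero => exact ⟨hx, hx', rfl⟩
    | succ i ih =>
      rw [Function.iterate_succ_apply', pow_succ']
      refine ⟨?_, ?_, ?_⟩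
      · rw [← hκ1]; exact hmono ih.1
      · rw [← hκ3]; exact hmono ih.2.1
      · rw [hκ _ ih.1.le ih.2.1.le, ih.2.2]
        rfl
  have hfix : ∀ x, θ < x → x < θ + 2 * Real.pi → κ x = x := by
    intro x hx hx'
    obtain ⟨a, b, c⟩ := key x hx hx' j
    rw [hj1] at c
    have h6 : κ^[j] x = x := hinj ⟨a.le, b⟩ ⟨hx.le, hx'⟩ c
    rcases lt_trichotomy x (κ x) with h | h | h
    · exfalso
      have h7 : κ^[0] x < κ^[j] x := hmono.strictMono_iterate_of_lt_map h hj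
      rw [h6] at h7
      exact lt_irrefl _ h7
    · exact h.symm
    · exfalso
      have h7 : κ^[j] x < κ^[0] x := hmono.strictAnti_iterate_of_map_lt h hj
      rw [h6] at h7
      exact lt_irrefl _ h7
  ext1 z
  show k z = z
  obtain ⟨x, hx, hx', rfl⟩ : ∃ x, θ ≤ x ∧ x < θ + 2 * Real.pi ∧ z = Circle.exp x := by
    by_cases hz : z = Circle.exp θ
    · exact ⟨θ, le_rfl, by linarith, hz⟩
    · obtain ⟨a, b, h1, h2, h3, h4⟩ := hA.2.2.1 (Circle.exp θ) z (Ne.symm hz)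
      have h5 : ∃ y ∈ Ico θ (θ + 2 * Real.pi), Circle.exp y = z := by
        refine ⟨toIcoMod hpi θ b, toIcoMod_mem_Ico hpi θ b, ?_⟩
        rw [h4, Circle.exp_eq_exp]
        refine ⟨-toIcoDiv hpi θ b, ?_⟩
        have h6 := toIcoMod_add_toIcoDiv_zsmul hpi θ b
        rw [zsmul_eq_mul] at h6
        push_cast
        linarith
      obtain ⟨y, hy, hy'⟩ := h5
      exact ⟨y, hy.1, hy.2, hy'.symm⟩
  rcases eq_or_lt_of_le hx with h | h
  · rw [← h]; exact e1
  · rw [← hκ x h.le hx'.le, hfix x h hx']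

end Pool.AR
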