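import Pool.Agent.Work.MP_ae1ff6_ar.Interface3

/-!
# Block FXU: the curves of all moved systems near a curve, up to its stabiliser (helper46)
-/

open Topology Filter Set
open scoped ComplexConjugate

set_option autoImplicit false

namespace Pool.AR

open Pool.CG

theorem FXU_near (g : H) (a e : Circle × Circle) (hn : Near a e) :
    Near (g a.1, g a.2) (g e.1, g e.2) := by
  rcases hn with h | h | h
  · exact Or.inl (Pool.GC.lhi g _ _ _ _ h)
  · right; left; rw [h]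
  · right; right; rw [h]

theorem FXU_axis (g γ : H) (p q : Circle) (h : Axis γ p q) : Axis (g * γ * g⁻¹) (g p) (g q) := by
  refine ⟨fun h1 => h.1 (g.injective h1), fun z => ?_⟩
  have h1 : (g * γ * g⁻¹) z = g (γ (g.symm z)) := rfl
  have h2 : ∀ x : Circle, g.symm z = x ↔ z = g x := by
    intro x
    constructor
    · intro h3
      rw [← h3, g.apply_symm_apply]
    · intro h3
      rw [h3, g.symm_apply_apply]
  rw [h1, ← h2 p, ← h2 q, ← h.2 (g.symm z)]
  constructor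
  · intro h3
    apply g.injective
    rw [h3, g.apply_symm_apply]
  · intro h3
    rw [h3, g.apply_symm_apply]

theorem FXU_one (hCRA : Stmt_CRA) (Γ G : Subgroup H) (O F : Set (Circle × Circle)) (S : Set H)
    (hsys : SysO Γ G O F S) (e : Circle × Circle) (γ : H) (hγ : γ ∈ Γ) (hax : Axis γ e.1 e.2)
    (g : H) (hg : g ∈ G) : ∃ Y : Set (Circle × Circle), Y.Finite ∧ ∀ a : Circle × Circle,
      (g a.1, g a.2) ∈ O → Near a e → ∃ m : ℤ, ((γ ^ m) a.1, (γ ^ m) a.2) ∈ Y := by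
  obtain ⟨X, hX, h1⟩ := hCRA Γ O hsys.fk hsys.cur (g * γ * g⁻¹) (hsys.nor g hg γ hγ) (g e.1) (g e.2)
    (FXU_axis g γ _ _ hax)
  have hinj : Function.Injective (fun a : Circle × Circle => (g a.1, g a.2)) := by
    intro a b hab
    have h2 := Prod.mk.inj hab
    exact Prod.ext (g.injective h2.1) (g.injective h2.2)
  refine ⟨(fun a : Circle × Circle => (g a.1, g a.2)) ⁻¹' X, hX.preimage hinj.injOn, ?_⟩
  intro a ha hn
  obtain ⟨m, hm⟩ := h1 _ ha (FXU_near g a e hn)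
  refine ⟨m, ?_⟩
  have h2 : ∀ x : Circle, ((g * γ * g⁻¹) ^ m) (g x) = g ((γ ^ m) x) := by
    intro x
    rw [conj_zpow]
    change g ((γ ^ m) (g.symm (g x))) = _
    rw [g.symm_apply_apply]
  change (g ((γ ^ m) a.1), g ((γ ^ m) a.2)) ∈ X
  rw [← h2, ← h2]
  exact hm

theorem p_FXU (hCRA : Stmt_CRA) (hLCV : Stmt_LCV) : Stmt_FXU := by
  intro Γ G O F S hsys hdisp e he γ hγ hax
  have hfin := hLCV Γ G O F S hsys hdisp e he
  have hY : ∀ v : Set (Circle × Circle), ∃ Y : Set (Circle × Circle), Y.Finite ∧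
      (v ∈ (fun g : H => {a : Circle × Circle | (g a.1, g a.2) ∈ O ∧ Near a e}) '' (G : Set H) →
        ∀ a ∈ v, ∃ m : ℤ, ((γ ^ m) a.1, (γ ^ m) a.2) ∈ Y) := by
    intro v
    by_cases hv : v ∈
        (fun g : H => {a : Circle × Circle | (g a.1, g a.2) ∈ O ∧ Near a e}) '' (G : Set H)
    · obtain ⟨g, hg, rfl⟩ := hv
      obtain ⟨Y, hY1, hY2⟩ := FXU_one hCRA Γ G O F S hsys e γ hγ hax g hg
      exact ⟨Y, hY1, fun _ a ha => hY2 a ha.1 ha.2⟩
    · exact ⟨∅, Set.finite_empty, fun h => absurd h hv⟩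
  choose Y hY1 hY2 using hY
  refine ⟨⋃ v ∈ (fun g : H => {a : Circle × Circle | (g a.1, g a.2) ∈ O ∧ Near a e}) ''
    (G : Set H), Y v, hfin.biUnion fun v _ => hY1 v, ?_⟩
  intro g hg a ha hn
  obtain ⟨m, hm⟩ := hY2 _ ⟨g, hg, rfl⟩ a ⟨ha, hn⟩
  exact ⟨m, Set.mem_biUnion (⟨g, hg, rfl⟩ : _ ∈ _ '' _) hm⟩

end Pool.AR
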