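import Pool.Agent.Work.MP_ae1ff6_ar.Interface3

/-!
# Block GBX: geodesics which cross a closed geodesic (helper74)
-/

open Topology Filter Set
open scoped ComplexConjugate

set_option autoImplicit false

namespace Pool.AR

open Pool.CG

theorem GBX_fix (γ : H) (p : Circle) (h : γ p = p) (m : ℤ) : (γ ^ m) p = p := by
  let K : Subgroup H :=
    { carrier := {g : H | g p = p}
      mul_mem' := fun {x y} (hx : x p = p) (hy : y p = p) => by
        change x (y p) = p
        rw [hy, hx]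
      one_mem' := rfl
      inv_mem' := fun {x} (hx : x p = p) => by
        change x⁻¹ p = p
        apply x.injective
        change x (x.symm p) = x p
        rw [x.apply_symm_apply, hx] }
  have hK : γ ∈ K := h
  exact K.zpow_mem hK m

theorem p_GBX : Stmt_GBX := by
  intro γ p q O hmob hax hfill
  obtain ⟨ρ, hρ, h1⟩ := Pool.GC.hyp γ p q hmob hax
  obtain ⟨ε, hε, h2⟩ := Pool.GC.lub p q ρ hρ
  have hp : γ p = p := (hax.2 p).2 (Or.inl rfl)
  have hq : γ q = q := (hax.2 q).2 (Or.inr rfl)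
  have hK : IsCompact {a : Circle × Circle | ε ≤ dist a.1 a.2} :=
    (isClosed_le continuous_const (continuous_fst.dist continuous_snd)).isCompact
  have hop : ∀ d : Circle × Circle, IsOpen {a : Circle × Circle | Link a.1 a.2 d.1 d.2} :=
    fun d => Pool.GC.q_LNO.1.preimage
      (continuous_id.prodMk (continuous_const : Continuous fun _ : Circle × Circle => d))
  have hcov : ∀ a ∈ {a : Circle × Circle | ε ≤ dist a.1 a.2}, ∃ d ∈ O,
      Link a.1 a.2 d.1 d.2 := by
    intro a ha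
    have ha' : ε ≤ dist a.1 a.2 := ha
    have hne : a.1 ≠ a.2 := by
      intro h
      rw [h, dist_self] at ha'
      linarith
    obtain ⟨z, w, hzw, hl⟩ := hfill a.1 a.2 hne
    exact ⟨(z, w), hzw, (Pool.GC.q_SYM _ _ _ _ hl).1⟩
  obtain ⟨D, hDO, hDf, hDK⟩ := hK.elim_finite_subcover_image (b := O)
    (c := fun d => {a : Circle × Circle | Link a.1 a.2 d.1 d.2}) (fun d _ => hop d) (by
      intro a ha
      obtain ⟨d, hd, hl⟩ := hcov a ha
      exact mem_iUnion₂.2 ⟨d, hd, hl⟩)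
  refine ⟨D, hDf, hDO, fun x y hL => ?_⟩
  obtain ⟨m, hm1, hm2⟩ := h1 x (Ne.symm hL.1.1) (Ne.symm hL.2.1.1)
  have h3 := Pool.GC.lhi (γ ^ m) _ _ _ _ hL
  rw [GBX_fix γ p hp m, GBX_fix γ q hq m] at h3
  have h4 : (((γ ^ m) x, (γ ^ m) y) : Circle × Circle) ∈
      {a : Circle × Circle | ε ≤ dist a.1 a.2} := h2 _ _ hm1 hm2 h3
  obtain ⟨d, hd, hl⟩ := mem_iUnion₂.1 (hDK h4)
  exact ⟨m, d, hd, hl⟩

end Pool.AR
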