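import Pool.Agent.Work.MP_ae1ff6_ar.Interface3

open Topology Filter Set
open scoped ComplexConjugate

set_option autoImplicit false

namespace Pool.AR

open Pool.CG

theorem GDS_union (Γ : Subgroup H) {ι : Type} (X : Set ι) (A : ι → Set H) (hX : X.Finite)
    (h : ∀ i ∈ X, FinCl Γ (A i)) : FinCl Γ {g : H | ∃ i ∈ X, g ∈ A i} := by
  choose! F hF using h
  refine ⟨⋃ i ∈ X, F i, hX.biUnion (fun i hi => (hF i hi).1), ?_⟩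
  rintro g ⟨i, hi, hg⟩
  obtain ⟨h, hh, hh2⟩ := (hF i hi).2 g hg
  exact ⟨h, Set.mem_biUnion hi hh, hh2⟩

theorem p_GDS (hFCL : Stmt_FCL) (hGBX : Stmt_GBX) : Stmt_GDS := by
  intro Γ G O hfk hle hnor hfill hdisp γ hγ p q hax
  obtain ⟨F1, F2, F3, F4, F5, F6⟩ := hFCL
  obtain ⟨D, hDf, hDO, hD⟩ := hGBX γ p q O (hfk.mob γ hγ) hax hfill
  obtain ⟨A, hA⟩ : ∃ A : (Circle × Circle) × (Circle × Circle) → Set H, ∀ i,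
      A i = {g : H | g ∈ G ∧ Meets g i.1.1 i.1.2 i.2.1 i.2.2} := ⟨_, fun i => rfl⟩
  have hA1 : ∀ i ∈ D ×ˢ D, FinCl Γ (A i) := by
    intro i hi
    rw [hA i]
    exact hdisp i.1.1 i.1.2 i.2.1 i.2.2 (hDO hi.1) (hDO hi.2)
  have hA2 : ∀ i ∈ D ×ˢ D, FinCl Γ {g : H | g ∈ G ∧ ∃ γ' ∈ Γ, g * γ' ∈ A i} := by
    intro i hi
    obtain ⟨F, hFf, hF⟩ := hA1 i hi
    refine ⟨F, hFf, ?_⟩
    rintro g ⟨hg, γ', hγ', hgA⟩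
    obtain ⟨h, hh, hh2⟩ := hF _ hgA
    refine ⟨h, hh, ?_⟩
    have e : h⁻¹ * g = (h⁻¹ * (g * γ')) * γ'⁻¹ := by group
    rw [e]
    exact Γ.mul_mem hh2 (Γ.inv_mem hγ')
  have hA3 : ∀ i ∈ D ×ˢ D, FinCl Γ {g : H | g ∈ G ∧ ∃ κ ∈ Γ,
      κ * g ∈ {g : H | g ∈ G ∧ ∃ γ' ∈ Γ, g * γ' ∈ A i}} := by
    intro i hi
    exact F6 Γ G _ hle hnor (hA2 i hi)
  have hU := GDS_union Γ (D ×ˢ D) _ (hDf.prod hDf) hA3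
  obtain ⟨F, hFf, hF⟩ := hU
  refine ⟨F, hFf, ?_⟩
  intro g hg hl
  refine hF g ?_
  obtain ⟨m, d, hd, hl1⟩ := hD _ _ hl
  have hγm : γ ^ m ∈ Γ := Γ.zpow_mem hγ m
  obtain ⟨g1, hg1⟩ : ∃ g1 : H, g1 = γ ^ m * g := ⟨_, rfl⟩
  have hl2 : Link (g1 p) (g1 q) d.1 d.2 := by
    rw [hg1]; exact hl1
  have hg1G : g1 ∈ G := by rw [hg1]; exact G.mul_mem (hle hγm) hg
  have hl3 : Link (g1⁻¹ d.1) (g1⁻¹ d.2) p q := by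
    have h1 := (Pool.GC.q_SYM _ _ _ _ hl2).1
    have h2 := Pool.GC.lhi g1⁻¹ _ _ _ _ h1
    have e1 : g1⁻¹ (g1 p) = p := g1.symm_apply_apply p
    have e2 : g1⁻¹ (g1 q) = q := g1.symm_apply_apply q
    rw [e1, e2] at h2
    exact h2
  obtain ⟨m', d', hd', hl4⟩ := hD _ _ hl3
  have hγm' : γ ^ m' ∈ Γ := Γ.zpow_mem hγ m'
  obtain ⟨g2, hg2⟩ : ∃ g2 : H, g2 = g1 * (γ ^ m')⁻¹ := ⟨_, rfl⟩
  have hg2G : g2 ∈ G := by rw [hg2]; exact G.mul_mem hg1G (hle (Γ.inv_mem hγm'))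
  have hl5 : Link (g2 d'.1) (g2 d'.2) d.1 d.2 := by
    have h2 := Pool.GC.lhi g2 _ _ _ _ hl4
    have e : ∀ z : Circle, g2 ((γ ^ m') (g1⁻¹ z)) = z := by
      intro z
      have e0 : g2 * (γ ^ m') * g1⁻¹ = 1 := by rw [hg2]; group
      have e1 : (g2 * (γ ^ m') * g1⁻¹) z = z := by rw [e0]; rfl
      exact e1
    rw [e, e] at h2
    exact (Pool.GC.q_SYM _ _ _ _ h2).1
  refine ⟨(d', d), ⟨hd', hd⟩, hg, γ ^ m, hγm, ?_⟩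
  rw [← hg1]
  refine ⟨hg1G, (γ ^ m')⁻¹, Γ.inv_mem hγm', ?_⟩
  rw [← hg2, hA]
  exact ⟨hg2G, Or.inl hl5⟩

end Pool.AR
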