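import Pool.Agent.Work.MP_ae1ff6_ar.Interface

/-! # Block GLU -/

open Topology Filter Set
open scoped ComplexConjugate

set_option autoImplicit false

namespace Pool.AR

open Pool.CG

theorem p_GLU (hCUT : Stmt_CUT) (hCYH : Stmt_CYH) : Stmt_GLU := by
  intro s t s' t' F₁ F₂ hst hts hst' hts' h1s h1t h2t h2s
  set F : ℝ → ℝ := fun x => if x ≤ t then F₁ x else F₂ x with hF
  have hF1 : ∀ x, x ≤ t → F x = F₁ x := fun x h => by simp only [hF]; rw [if_pos h]
  have hF2 : ∀ x, t ≤ x → F x = F₂ x := fun x h => by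
    rcases eq_or_lt_of_le h with h' | h'
    · rw [← h', hF1 t le_rfl, h1t, h2t]
    · simp only [hF]; rw [if_neg (not_le.2 h')]
  have hmono : StrictMono F := by
    intro x y hxy
    rcases le_or_gt x t with hx | hx
    · rcases le_or_gt y t with hy | hy
      · rw [hF1 x hx, hF1 y hy]
        exact F₁.strictMono hxy
      · rw [hF1 x hx, hF2 y hy.le]
        have h3 : F₁ x ≤ F₁ t := F₁.monotone hx
        have h4 : F₂ t < F₂ y := F₂.strictMono hy
        rw [h1t] at h3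
        rw [h2t] at h4
        linarith
    · rw [hF2 x hx.le, hF2 y (hx.trans hxy).le]
      exact F₂.strictMono hxy
  have hsurj : Function.Surjective F := by
    intro y
    rcases le_or_gt y t' with hy | hy
    · refine ⟨F₁.symm y, ?_⟩
      have h3 : F₁.symm y ≤ t := by
        rw [OrderIso.symm_apply_le, h1t]
        exact hy
      rw [hF1 _ h3, OrderIso.apply_symm_apply]
    · refine ⟨F₂.symm y, ?_⟩
      have h3 : t ≤ F₂.symm y := by
        rw [OrderIso.le_symm_apply, h2t]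
        exact hy.le
      rw [hF2 _ h3, OrderIso.apply_symm_apply]
  set Φ : ℝ ≃o ℝ := StrictMono.orderIsoOfSurjective F hmono hsurj with hΦ
  have hΦF : ∀ x, Φ x = F x := fun x => rfl
  have hΦs : Φ s = s' := by rw [hΦF, hF1 s hst.le, h1s]
  have hΦs2 : Φ (s + 2 * Real.pi) = s' + 2 * Real.pi := by rw [hΦF, hF2 _ hts.le, h2s]
  obtain ⟨θ, hθ1, hθ2, hθ3⟩ := hCUT s
  obtain ⟨θ', hθ1', hθ2', hθ3'⟩ := hCUT s'
  have hrange : ∀ x, s ≤ x → x < s + 2 * Real.pi → s' ≤ Φ x ∧ Φ x < s' + 2 * Real.pi := by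
    intro x hx1 hx2
    refine ⟨?_, ?_⟩
    · rw [← hΦs]
      exact Φ.monotone hx1
    · rw [← hΦs2]
      exact Φ.strictMono hx2
  have hrange' : ∀ y, s' ≤ y → y < s' + 2 * Real.pi →
      s ≤ Φ.symm y ∧ Φ.symm y < s + 2 * Real.pi := by
    intro y hy1 hy2
    refine ⟨?_, ?_⟩
    · rw [OrderIso.le_symm_apply, hΦs]
      exact hy1
    · rw [OrderIso.symm_apply_lt, hΦs2]
      exact hy2
  have hkey : ∀ z, θ' (Circle.exp (Φ (θ z))) = Φ (θ z) := by
    intro z
    obtain ⟨h3, h4, -⟩ := hθ1 z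
    obtain ⟨h5, h6⟩ := hrange _ h3 h4
    exact hθ2' _ h5 h6
  have hkey' : ∀ z, θ (Circle.exp (Φ.symm (θ' z))) = Φ.symm (θ' z) := by
    intro z
    obtain ⟨h3, h4, -⟩ := hθ1' z
    obtain ⟨h5, h6⟩ := hrange' _ h3 h4
    exact hθ2 _ h5 h6
  let e : Circle ≃ Circle :=
    { toFun := fun z => Circle.exp (Φ (θ z))
      invFun := fun z => Circle.exp (Φ.symm (θ' z))
      left_inv := fun z => by
        show Circle.exp (Φ.symm (θ' (Circle.exp (Φ (θ z))))) = z
        rw [hkey, OrderIso.symm_apply_apply]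
        exact (hθ1 z).2.2
      right_inv := fun z => by
        show Circle.exp (Φ (θ (Circle.exp (Φ.symm (θ' z))))) = z
        rw [hkey', OrderIso.apply_symm_apply]
        exact (hθ1' z).2.2 }
  have he : ∀ a b c, Ccw a b c ↔ Ccw (e a) (e b) (e c) := by
    intro a b c
    rw [hθ3, hθ3']
    show _ ↔ ((θ' (Circle.exp (Φ (θ a))) < θ' (Circle.exp (Φ (θ b))) ∧
      θ' (Circle.exp (Φ (θ b))) < θ' (Circle.exp (Φ (θ c)))) ∨
      (θ' (Circle.exp (Φ (θ b))) < θ' (Circle.exp (Φ (θ c))) ∧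
      θ' (Circle.exp (Φ (θ c))) < θ' (Circle.exp (Φ (θ a)))) ∨
      (θ' (Circle.exp (Φ (θ c))) < θ' (Circle.exp (Φ (θ a))) ∧
      θ' (Circle.exp (Φ (θ a))) < θ' (Circle.exp (Φ (θ b)))))
    rw [hkey, hkey, hkey, Φ.lt_iff_lt, Φ.lt_iff_lt, Φ.lt_iff_lt]
  obtain ⟨h, hh⟩ := hCYH e he
  have hval : ∀ x, s ≤ x → x < s + 2 * Real.pi → h (Circle.exp x) = Circle.exp (Φ x) := by
    intro x hx1 hx2
    rw [hh]
    show Circle.exp (Φ (θ (Circle.exp x))) = _
    rw [hθ2 x hx1 hx2]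
  have hpi := Real.pi_pos
  refine ⟨h, ?_, ?_, ?_⟩
  · intro a b c habc
    rw [hh, hh, hh]
    exact (he a b c).1 habc
  · intro x hx1 hx2
    rw [hval x hx1 (lt_of_le_of_lt hx2 hts), hΦF, hF1 x hx2]
  · intro x hx1 hx2
    rcases eq_or_lt_of_le hx2 with hx | hx
    · rw [hx, h2s, Circle.exp_add, Circle.exp_add, Circle.exp_two_pi, mul_one, mul_one,
        hval s le_rfl (by linarith), hΦs]
    · rw [hval x (hst.le.trans hx1) hx, hΦF, hF2 x hx1]

end Pool.AR
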