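import Pool.Agent.Work.MP_ae1ff6_ar.Interface3

open Topology Filter Set
open scoped ComplexConjugate

set_option autoImplicit false

namespace Pool.AR

open Pool.CG

theorem p_KON (hKPW : Stmt_KPW) (hPFX : Stmt_PFX) (hCHN : Stmt_CHN) : Stmt_KON := by
  intro Γ G O F S hs hd b hb c hc hl k hk
  obtain ⟨hkb, hkc⟩ := hk
  let U : Set (Circle × Circle) :=
    {b' | k ∈ Sta G b' ∧ ∃ c' ∈ O, Link b'.1 b'.2 c'.1 c'.2 ∧ k ∈ Sta G c'}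
  have hU : b ∈ U := ⟨hkb, c, hc, hl, hkc⟩
  have hne : ∀ b' ∈ O, b'.1 ≠ b'.2 := by
    intro b' hb'
    obtain ⟨γ, _, hγ⟩ := hs.cur.axis b'.1 b'.2 hb'
    exact hγ.1
  have step : ∀ b' ∈ U, b' ∈ O → ∀ o ∈ O, Link b'.1 b'.2 o.1 o.2 → o ∈ U := by
    intro b' hb'U hb'O o ho hlo
    obtain ⟨hkb', c', hc', hlc', hkc'⟩ := hb'U
    obtain ⟨j, hj, hkj⟩ := hKPW Γ G O F S hs hd b' hb'O k hkb'
    have h1 := hPFX O b'.1 b'.2 k j c' hs.cur.fin hs.cur.symm (hne b' hb'O) (hs.ori k hkb'.1)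
      hkb'.2.1 hkb'.2.2 hj (fun a ha => hkj a ha) hc' ((Pool.GC.q_SYM _ _ _ _ hlc').1)
      hkc'.2.1 hkc'.2.2 o ho ((Pool.GC.q_SYM _ _ _ _ hlo).1)
    exact ⟨⟨hkb'.1, h1.1, h1.2⟩, b', hb'O, (Pool.GC.q_SYM _ _ _ _ hlo).1, hkb'⟩
  have hD := hCHN O hs.cur.symm hs.cur.fill b hb (hne b hb) U hU step
  have hcl : IsClosed {x : Circle | k x = x} := isClosed_eq k.continuous continuous_id
  have hsub : {x : Circle | ∃ b ∈ U, b ∈ O ∧ (b.1 = x ∨ b.2 = x)} ⊆ {x : Circle | k x = x} := by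
    rintro x ⟨b', hb'U, _, h | h⟩
    · rw [← h]; exact hb'U.1.2.1
    · rw [← h]; exact hb'U.1.2.2
  have hall : ∀ x, k x = x := by
    intro x
    have h1 : x ∈ closure {x : Circle | ∃ b ∈ U, b ∈ O ∧ (b.1 = x ∨ b.2 = x)} := hD x
    exact (hcl.closure_subset_iff.mpr hsub) h1
  exact Homeomorph.ext hall

end Pool.AR
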