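import Pool.Agent.Work.MP_ae1ff6_ar.Interface3

/-!
# Block KPW: a power of `k` preserves the curves which cross `b` (helper71)
-/

open Topology Filter Set
open scoped ComplexConjugate

set_option autoImplicit false

namespace Pool.AR

open Pool.CG

theorem KPW_fix (k : H) (z : Circle) (h : k z = z) (n : ℕ) : (k ^ n) z = z := by
  induction n with
  | zero => rfl
  | succ n ih =>
    rw [pow_succ]
    change (k ^ n) (k z) = z
    rw [h, ih]

theorem KPW_inv (m : H) (z : Circle) (h : m z = z) : m⁻¹ z = z := by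
  have h1 : m⁻¹ (m z) = z := m.symm_apply_apply z
  rwa [h] at h1

theorem KPW_near (m : H) (a b : Circle × Circle) (h1 : m b.1 = b.1) (h2 : m b.2 = b.2)
    (h : Near a b) : Near (m a.1, m a.2) b := by
  rcases h with h | h | h
  · left
    have h3 := Pool.GC.lhi m _ _ _ _ h
    rw [h1, h2] at h3
    exact h3
  · right
    left
    rw [h, h1, h2]
  · right
    right
    rw [h]
    simp only [h1, h2]

theorem p_KPW (hLCV : Stmt_LCV) : Stmt_KPW := by
  intro Γ G O F S hsys hdisp b hb k hk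
  obtain ⟨hkG, hk1, hk2⟩ := hk
  have hfin := hLCV Γ G O F S hsys hdisp b hb
  set φ : H → Set (Circle × Circle) :=
    fun g => {a : Circle × Circle | (g a.1, g a.2) ∈ O ∧ Near a b} with hφ
  have key : ∃ i i' : ℕ, i < i' ∧ φ (k ^ i) = φ (k ^ i') := by
    have hF : Finite (φ '' (G : Set H)) := hfin.to_subtype
    let f : ℕ → (φ '' (G : Set H)) := fun i => ⟨φ (k ^ i), ⟨k ^ i, G.pow_mem hkG i, rfl⟩⟩
    obtain ⟨i, i', hne, heq⟩ := Finite.exists_ne_map_eq_of_infinite f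
    have heq' : φ (k ^ i) = φ (k ^ i') := congrArg Subtype.val heq
    rcases lt_or_gt_of_ne hne with h | h
    · exact ⟨i, i', h, heq'⟩
    · exact ⟨i', i, h, heq'.symm⟩
  obtain ⟨i, i', hlt, heq⟩ := key
  refine ⟨i' - i, by omega, ?_⟩
  intro a ha
  have hf1 : (k ^ i) b.1 = b.1 := KPW_fix k _ hk1 i
  have hf2 : (k ^ i) b.2 = b.2 := KPW_fix k _ hk2 i
  have hn := KPW_near (k ^ i)⁻¹ a b (KPW_inv _ _ hf1) (KPW_inv _ _ hf2) ha
  have e1 : ∀ z : Circle, (k ^ i) ((k ^ i)⁻¹ z) = z := fun z => (k ^ i).apply_symm_apply z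
  have e2 : ∀ z : Circle, (k ^ i') ((k ^ i)⁻¹ z) = (k ^ (i' - i)) z := by
    intro z
    have h1 : k ^ i' = k ^ (i' - i) * k ^ i := by
      rw [← pow_add]
      congr 1
      omega
    rw [h1]
    change (k ^ (i' - i)) ((k ^ i) ((k ^ i)⁻¹ z)) = _
    rw [e1]
  have h2 : ((k ^ i)⁻¹ a.1, (k ^ i)⁻¹ a.2) ∈ φ (k ^ i) ↔
      ((k ^ i)⁻¹ a.1, (k ^ i)⁻¹ a.2) ∈ φ (k ^ i') := by rw [heq]
  simp only [hφ, mem_setOf_eq, e1, e2, hn, and_true] at h2
  exact h2

end Pool.AR
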