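import Pool.Agent.Work.MP_ae1ff6_ar.Interface3

/-!
# Block LCV: the moved system near a curve has finitely many possibilities (helper46)

The same argument as in the block LCR.
-/

open Topology Filter Set
open scoped ComplexConjugate

set_option autoImplicit false

namespace Pool.AR

open Pool.CG

theorem LCV_meets (k : H) (a e b : Circle × Circle) (hn : Near a e)
    (hb : (k a.1, k a.2) = b) : Meets k e.1 e.2 b.1 b.2 := by
  subst hb
  rcases hn with h | h | h
  · left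
    exact (Pool.GC.q_SYM _ _ _ _ (Pool.GC.lhi k _ _ _ _ h)).1
  · right
    rw [h]
  · right
    rw [h]
    exact Set.pair_comm _ _

theorem p_LCV (hFCL : Stmt_FCL) (hFVL : Stmt_FVL) (hEXC : Stmt_EXC) : Stmt_LCV := by
  intro Γ G O F S hsys hdisp e he
  obtain ⟨f1, f2, f3, f4, f5, f6⟩ := hFCL
  have hE := hEXC Γ G O F S hsys hdisp e he
  have hφΓ : ∀ γ ∈ Γ, ∀ g ∈ G,
      {a : Circle × Circle | ((γ * g) a.1, (γ * g) a.2) ∈ O ∧ Near a e} =
      {a : Circle × Circle | (g a.1, g a.2) ∈ O ∧ Near a e} := by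
    intro γ hγ g hg
    ext a
    constructor
    · rintro ⟨h1, h2⟩
      refine ⟨?_, h2⟩
      have h3 := hsys.cur.keep γ⁻¹ (Γ.inv_mem hγ) _ _ h1
      have h4 : ∀ z : Circle, γ⁻¹ ((γ * g) z) = g z := fun z => γ.symm_apply_apply (g z)
      rw [h4, h4] at h3
      exact h3
    · rintro ⟨h1, h2⟩
      exact ⟨hsys.cur.keep γ hγ _ _ h1, h2⟩
  have hφS : ∀ s ∈ S, FinCl Γ {g : H | g ∈ G ∧
      {a : Circle × Circle | ((s * g) a.1, (s * g) a.2) ∈ O ∧ Near a e} ≠
      {a : Circle × Circle | (g a.1, g a.2) ∈ O ∧ Near a e}} := by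
    intro s hs
    refine f1 Γ _ _ ?_ (f2 Γ _ _ hE (f4 Γ _ s hE))
    rintro g ⟨hg, hne⟩
    by_contra hcon
    apply hne
    ext a
    constructor
    · rintro ⟨h1, h2⟩
      refine ⟨?_, h2⟩
      by_contra h3
      apply hcon
      right
      have h4 : (s⁻¹ (s (g a.1)), s⁻¹ (s (g a.2))) ∉ O := by
        have h5 : ∀ z : Circle, s⁻¹ (s z) = z := fun z => s.symm_apply_apply z
        rw [h5, h5]
        exact h3
      obtain ⟨γ, hγ, hγF⟩ := hsys.rig s hs (s (g a.1)) (s (g a.2)) h1 (Or.inr h4)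
      exact ⟨G.mul_mem (hsys.sub hs) hg, γ, hγ, _, hγF, LCV_meets (γ * (s * g)) a e _ h2 rfl⟩
    · rintro ⟨h1, h2⟩
      refine ⟨?_, h2⟩
      by_contra h3
      apply hcon
      left
      obtain ⟨γ, hγ, hγF⟩ := hsys.rig s hs (g a.1) (g a.2) h1 (Or.inl h3)
      exact ⟨hg, γ, hγ, _, hγF, LCV_meets (γ * g) a e _ h2 rfl⟩
  exact hFVL Γ G S hsys.le hsys.nor hsys.sfin hsys.sub hsys.gen (Set (Circle × Circle))
    (fun g : H => {a : Circle × Circle | (g a.1, g a.2) ∈ O ∧ Near a e}) hφΓ hφS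

end Pool.AR
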