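import Pool.Agent.Work.MP_ae1ff6_ar.Interface

/-! # Block LFO: lifts of orientation preserving maps with two fixed points -/

open Topology Filter Set
open scoped ComplexConjugate

set_option autoImplicit false

namespace Pool.AR

open Pool.CG

theorem LFO_nb (hCYO : Stmt_CYO) {a b c : Circle} (h : Ccw a c b) : ¬ Ccw b c a := by
  obtain ⟨rot, asym, -, -⟩ := hCYO
  exact (asym _ _ _ (rot _ _ _ (rot _ _ _ h))).1

theorem p_LFO (hCYO : Stmt_CYO) (hLKC : Stmt_LKC) (hANG : Stmt_ANG) : Stmt_LFO := by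
  intro k θ s hk hθs hs hkθ hks
  obtain ⟨a1, -⟩ := hANG
  have h1 : Ccw (Circle.exp θ) (Circle.exp ((θ + s) / 2)) (Circle.exp s) :=
    a1 _ _ _ (by linarith) (by linarith) hs
  have h2 := hk _ _ _ h1
  rw [hkθ, hks] at h2
  have h3 := (hCYO.2.1 _ _ _ h1).2
  have h4 : ¬ Link (Circle.exp θ) (Circle.exp s) (Circle.exp ((θ + s) / 2))
      (k (Circle.exp ((θ + s) / 2))) := by
    rw [hLKC]
    rintro (⟨-, h5⟩ | ⟨-, h5⟩)
    · exact LFO_nb hCYO h2 h5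
    · exact LFO_nb hCYO h1 h5
  obtain ⟨κ, k1, k2, k3, k4⟩ := Pool.GC.q_LFT k θ s _ hθs hs hkθ hks (Ne.symm h3.1) h3.2.1 h4
  exact ⟨κ, k1, k2, k3, fun x hx hx' => k4 x ⟨hx, hx'⟩⟩

end Pool.AR
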