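import Pool.Agent.Work.MP_ae1ff6_ar.Interface2

/-!
# Asymptotically rigid mapping classes (MP_ae1ff6_gt): block LIM
-/

open Topology Filter Set
open scoped ComplexConjugate

set_option autoImplicit false

namespace Pool.AR

open Pool.CG

theorem LIM_near {T X : Set (Circle × Circle)} {𝓕 : Filter H} [𝓕.NeBot] {e : Circle × Circle}
    (hX : ∀ᶠ g : H in 𝓕, {a : Circle × Circle | (g a.1, g a.2) ∈ T ∧ Near a e} = X) :
    {a : Circle × Circle | a ∈ Lim 𝓕 T ∧ Near a e} = X := by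
  ext a
  constructor
  · rintro ⟨h1, h2⟩
    have h3 : ∀ᶠ g : H in 𝓕, (g a.1, g a.2) ∈ T := h1
    obtain ⟨g, hg1, hg2⟩ := (h3.and hX).exists
    rw [← hg2]
    exact ⟨hg1, h2⟩
  · intro ha
    have h3 : ∀ᶠ g : H in 𝓕, (g a.1, g a.2) ∈ T ∧ Near a e := hX.mono fun g hg => by
      rw [← hg] at ha
      exact ha
    obtain ⟨g, hg⟩ := h3.exists
    exact ⟨h3.mono fun g hg => hg.1, hg.2⟩

theorem p_LIM (hLCR : Stmt_LCR) (hLTH : Stmt_LTH) (hFIN : Stmt_FIN) : Stmt_LIM := by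
  intro Γ G T F S 𝓕 hSys hSG hG hFf hFT hR hD hDir
  have := hDir.ne
  have key := hLCR Γ G T F S 𝓕 hSys hSG hG hFf hFT hR hD hDir
  refine ⟨⟨?_, ?_, ?_, ?_, ?_, ?_⟩, ?_⟩
  · intro x y h
    have h1 : ∀ᶠ g : H in 𝓕, (g x, g y) ∈ T := h
    exact h1.mono fun g hg => hSys.tri.symm _ _ hg
  · intro x y h hxy
    have h1 : ∀ᶠ g : H in 𝓕, (g x, g y) ∈ T := h
    obtain ⟨g, hg⟩ := h1.exists
    exact hSys.tri.ne _ _ hg (by rw [hxy])
  · intro x y z w h h' hl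
    have h1 : ∀ᶠ g : H in 𝓕, (g x, g y) ∈ T := h
    have h2 : ∀ᶠ g : H in 𝓕, (g z, g w) ∈ T := h'
    obtain ⟨g, hg1, hg2⟩ := (h1.and h2).exists
    exact hSys.tri.unlinked _ _ _ _ hg1 hg2 (Pool.GC.lhi g _ _ _ _ hl)
  · intro x y h
    refine hLTH T 𝓕 hSys.tri hDir.ne (hDir.mem.mono fun g hg => ⟨hSys.ori g hg,
      hSys.ori g⁻¹ (G.inv_mem hg)⟩) (fun e he => ?_) x y h
    obtain ⟨X, -, -, hX⟩ := key e he
    exact ⟨X, hX⟩
  · intro ε hε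
    refine hFIN Γ T (Lim 𝓕 T) hSys.tri hSys.keep hSys.cusps (fun e he => ?_) ε hε
    obtain ⟨X, hXf, -, hX⟩ := key e he
    rw [LIM_near hX]
    exact hXf
  · obtain ⟨e, he⟩ := hSys.tri.nonempty
    obtain ⟨X, -, ⟨a, ha⟩, hX⟩ := key e he
    rw [← LIM_near hX] at ha
    exact ⟨a, ha.1⟩
  · intro g₀ hg₀ x y h
    have h1 : ∀ᶠ g : H in 𝓕, (g x, g y) ∈ T := h
    exact (hDir.shift g₀ hg₀).eventually h1

end Pool.AR
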