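import Pool.Agent.Work.MP_ae1ff6_ar.Interface

/-!
# Block LKC: separation in terms of the cyclic order (helper46)
-/

open Topology Filter Set
open scoped ComplexConjugate

set_option autoImplicit false

namespace Pool.AR

open Pool.CG

theorem LKC_fwd (hCUT : Stmt_CUT) (s t σ τ : ℝ) (h1 : s < σ) (h2 : σ < t) (h3 : t < τ)
    (h4 : τ < s + 2 * Real.pi) :
    Ccw (Circle.exp s) (Circle.exp σ) (Circle.exp t) ∧
      Ccw (Circle.exp t) (Circle.exp τ) (Circle.exp s) := by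
  obtain ⟨θ, -, g2, g3⟩ := hCUT s
  rw [g3, g3, g2 s le_rfl (by linarith), g2 σ h1.le (by linarith), g2 t (by linarith) (by linarith),
    g2 τ (by linarith) h4]
  exact ⟨Or.inl ⟨h1, h2⟩, Or.inr (Or.inr ⟨by linarith, h3⟩)⟩

theorem LKC_bwd (hCUT : Stmt_CUT) (a b c d : Circle) (h1 : Ccw a c b) (h2 : Ccw b d a) :
    Link a b c d := by
  obtain ⟨s, rfl⟩ := Circle.exp_surjective a
  have hpi := Real.two_pi_pos
  obtain ⟨θ, g1, g2, g3⟩ := hCUT s
  have ga : θ (Circle.exp s) = s := g2 s le_rfl (by linarith)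
  rw [g3, ga] at h1 h2
  have hb := g1 b
  have hc := g1 c
  have hd := g1 d
  have e1 : s < θ c ∧ θ c < θ b := by
    rcases h1 with h | h | h
    · exact h
    · exact absurd h.2 (not_lt.2 hb.1)
    · exact absurd h.1 (not_lt.2 hb.1)
  have e2 : θ b < θ d := by
    rcases h2 with h | h | h
    · exact h.1
    · exact absurd h.1 (not_lt.2 hd.1)
    · exact h.2
  have h := (Pool.GC.arc s (θ b) (by linarith) hb.2.1).2 c ⟨θ c, ⟨e1.1, e1.2⟩, hc.2.2⟩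
    d ⟨θ d, ⟨e2, hd.2.1⟩, hd.2.2⟩
  rwa [hb.2.2] at h

theorem p_LKC (hCUT : Stmt_CUT) (_ : Stmt_CYO) : Stmt_LKC := by
  intro a b c d
  constructor
  · intro h
    have hab : a ≠ b := by
      rintro rfl
      exact Pool.GC.TWO_diag _ _ _ h
    obtain ⟨s, t, hst, hts, rfl, rfl⟩ := LOP_param a b hab
    rcases Pool.GC.TWO_side s t c h.1.1 h.1.2 with hc | hc <;>
      rcases Pool.GC.TWO_side s t d h.2.1.1 h.2.1.2 with hd | hd
    · exact absurd h (Pool.GC.TWO_same _ (Pool.GC.TWO_conn s t) _ _ _ _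
        (Pool.GC.TWO_s1 s t hts) (Pool.GC.TWO_t1 s t hts) hc hd)
    · obtain ⟨σ, hσ, rfl⟩ := hc
      obtain ⟨τ, hτ, rfl⟩ := hd
      exact Or.inl (LKC_fwd hCUT s t σ τ hσ.1 hσ.2 hτ.1 hτ.2)
    · obtain ⟨τ, hτ, rfl⟩ := hc
      obtain ⟨σ, hσ, rfl⟩ := hd
      exact Or.inr (LKC_fwd hCUT s t σ τ hσ.1 hσ.2 hτ.1 hτ.2)
    · exact absurd h (Pool.GC.TWO_same _ (Pool.GC.TWO_conn t (s + 2 * Real.pi)) _ _ _ _
        (Pool.GC.TWO_s2 s t hst) (Pool.GC.TWO_t2 s t hst) hc hd)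
  · rintro (⟨h1, h2⟩ | ⟨h1, h2⟩)
    · exact LKC_bwd hCUT a b c d h1 h2
    · exact Pool.GC.TWO_swap _ _ _ _ (LKC_bwd hCUT a b d c h1 h2)

end Pool.AR
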