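import Pool.Agent.Work.MP_ae1ff6_ar.Interface2

/-!
# Asymptotically rigid mapping classes (MP_ae1ff6_gt): block LTH

The limit of the moved triangulations consists of triangles.
-/

open Topology Filter Set
open scoped ComplexConjugate

set_option autoImplicit false

namespace Pool.AR

open Pool.CG

/-- Claim 1: a point `q` between `x` and `y`, and two edges which are linked with the pairs. -/
theorem LTH_claim (hCYO : Stmt_CYO) (hLKC : Stmt_LKC) (hDCH : Stmt_DCH)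
    (T : Set (Circle × Circle)) (hT : Tri T) (x y : Circle) (hxy : x ≠ y) :
    ∃ q, Ccw x q y ∧ ∃ e₁ ∈ T, ∃ e₂ ∈ T, (∀ z, Ccw x z q → Link z y e₁.1 e₁.2) ∧
      ∀ z, Ccw q z y → Link x z e₂.1 e₂.2 := by
  obtain ⟨rot, asym, tot, tr⟩ := hCYO
  have key1 : ∀ p q : Circle, (p, q) ∈ T → Ccw x q y → Ccw y p x →
      ∃ q, Ccw x q y ∧ ∃ e₁ ∈ T, ∃ e₂ ∈ T, (∀ z, Ccw x z q → Link z y e₁.1 e₁.2) ∧
      ∀ z, Ccw q z y → Link x z e₂.1 e₂.2 := by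
    intro p q hpq h1 h2
    refine ⟨q, h1, (p, q), hpq, (p, q), hpq, fun z hz => ?_, fun z hz => ?_⟩
    · obtain ⟨h3, h4⟩ := tr x z q y hz h1
      have h5 := tr y p x z h2 (rot _ _ _ (rot _ _ _ h3))
      exact (hLKC _ _ _ _).2 (Or.inr ⟨h4, h5.1⟩)
    · obtain ⟨h3, h4⟩ := tr q z y x hz (rot _ _ _ h1)
      have h5 := tr x z y p (rot _ _ _ (rot _ _ _ h4)) (rot _ _ _ (rot _ _ _ h2))
      exact (hLKC _ _ _ _).2 (Or.inr ⟨rot _ _ _ (rot _ _ _ h3), rot _ _ _ h5.1⟩)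
  rcases hDCH T hT x y hxy with h | ⟨p, q, hpq, hl⟩
  · obtain ⟨q, h1, h2, h3⟩ := hT.third x y h
    refine ⟨q, h1, (x, q), h2, (q, y), h3, fun z hz => ?_, fun z hz => ?_⟩
    · obtain ⟨h4, h5⟩ := tr x z q y hz h1
      exact (hLKC _ _ _ _).2 (Or.inr ⟨h5, rot _ _ _ (rot _ _ _ h4)⟩)
    · obtain ⟨h4, h5⟩ := tr q z y x hz (rot _ _ _ h1)
      exact (hLKC _ _ _ _).2 (Or.inl ⟨rot _ _ _ (rot _ _ _ h4), h5⟩)
  · have h1 := (Pool.GC.q_SYM _ _ _ _ hl).1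
    rcases (hLKC _ _ _ _).1 h1 with ⟨h2, h3⟩ | ⟨h2, h3⟩
    · exact key1 q p (hT.symm _ _ hpq) h2 h3
    · exact key1 p q hpq h2 h3

theorem p_LTH (hCYO : Stmt_CYO) (hLKC : Stmt_LKC) (hDCH : Stmt_DCH) : Stmt_LTH := by
  intro T 𝓕 hT hne hori hX x y hxy
  obtain ⟨rot, asym, tot, tr⟩ := hCYO
  have hxy' : ∀ᶠ g : H in 𝓕, (g x, g y) ∈ T := hxy
  have hxne : x ≠ y := by
    obtain ⟨g, hg⟩ := hxy'.exists
    intro h
    exact hT.ne _ _ hg (by rw [h])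
  obtain ⟨q, hq, e₁, he₁, e₂, he₂, hc1, hc2⟩ :=
    LTH_claim ⟨rot, asym, tot, tr⟩ hLKC hDCH T hT x y hxne
  obtain ⟨X₁, hX₁⟩ := hX e₁ he₁
  obtain ⟨X₂, hX₂⟩ := hX e₂ he₂
  have hgood := hxy'.and (hori.and (hX₁.and hX₂))
  have hz : ∀ g : H, (g x, g y) ∈ T → Ori g⁻¹ →
      ∃ z, Ccw x z y ∧ (g x, g z) ∈ T ∧ (g z, g y) ∈ T := by
    intro g hg ho
    obtain ⟨w, h1, h2, h3⟩ := hT.third _ _ hg
    refine ⟨g⁻¹ w, ?_, ?_, ?_⟩
    · have h4 := ho _ _ _ h1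
      have h5 : ∀ z : Circle, g⁻¹ (g z) = z := fun z => g.symm_apply_apply z
      rw [h5, h5] at h4
      exact h4
    · have h5 : g (g⁻¹ w) = w := g.apply_symm_apply w
      rw [h5]
      exact h2
    · have h5 : g (g⁻¹ w) = w := g.apply_symm_apply w
      rw [h5]
      exact h3
  have hunl : ∀ g : H, ∀ a b c d : Circle, (g a, g b) ∈ T → (g c, g d) ∈ T →
      ¬ Link a b c d := fun g a b c d h1 h2 h3 =>
    hT.unlinked _ _ _ _ h1 h2 (Pool.GC.lhi g _ _ _ _ h3)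
  -- the transfer of one edge
  have tr1 : ∀ g g' : H, ∀ e : Circle × Circle, ∀ X : Set (Circle × Circle),
      {a : Circle × Circle | (g a.1, g a.2) ∈ T ∧ Near a e} = X →
      {a : Circle × Circle | (g' a.1, g' a.2) ∈ T ∧ Near a e} = X →
      ∀ u v : Circle, (g u, g v) ∈ T → Link u v e.1 e.2 → (g' u, g' v) ∈ T := by
    intro g g' e X h1 h2 u v h3 h4
    have h5 : (u, v) ∈ {a : Circle × Circle | (g a.1, g a.2) ∈ T ∧ Near a e} :=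
      ⟨h3, Or.inl h4⟩
    rw [h1, ← h2] at h5
    exact h5.1
  -- (a)
  have ha : ∀ g g' : H, ∀ z z' : Circle,
      {a : Circle × Circle | (g a.1, g a.2) ∈ T ∧ Near a e₁} = X₁ →
      {a : Circle × Circle | (g' a.1, g' a.2) ∈ T ∧ Near a e₁} = X₁ →
      (g z, g y) ∈ T → Ccw x z' y → (g' x, g' z') ∈ T → Ccw x z q → ¬ Ccw x z z' := by
    intro g g' z z' h1 h2 h3 h4 h5 h6 h7
    have h8 := tr1 g g' e₁ X₁ h1 h2 z y h3 (hc1 z h6)
    exact hunl g' _ _ _ _ h5 h8 ((hLKC _ _ _ _).2 (Or.inl ⟨h7, rot _ _ _ h4⟩))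
  -- (b)
  have hb : ∀ g g' : H, ∀ z z' : Circle,
      {a : Circle × Circle | (g a.1, g a.2) ∈ T ∧ Near a e₂} = X₂ →
      {a : Circle × Circle | (g' a.1, g' a.2) ∈ T ∧ Near a e₂} = X₂ →
      (g x, g z) ∈ T → Ccw x z y → (g' z', g' y) ∈ T → Ccw q z y → ¬ Ccw x z' z := by
    intro g g' z z' h1 h2 h3 h4 h5 h6 h7
    have h8 := tr1 g g' e₂ X₂ h1 h2 x z h3 (hc2 z h6)
    exact hunl g' _ _ _ _ h8 h5 ((hLKC _ _ _ _).2 (Or.inl ⟨h7, rot _ _ _ h4⟩))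
  -- Claim 2
  have hA : ∀ g g' : H, ∀ z z' : Circle,
      {a : Circle × Circle | (g a.1, g a.2) ∈ T ∧ Near a e₁} = X₁ →
      {a : Circle × Circle | (g' a.1, g' a.2) ∈ T ∧ Near a e₁} = X₁ →
      Ccw x z y → (g x, g z) ∈ T → (g z, g y) ∈ T →
      Ccw x z' y → (g' x, g' z') ∈ T → (g' z', g' y) ∈ T → Ccw x z q → z = z' := by
    intro g g' z z' h1 h2 p1 p2 p3 p1' p2' p3' h3
    by_contra hne'
    rcases tot x z z' (asym _ _ _ p1).2.1 hne' (asym _ _ _ p1').2.1 with h | h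
    · exact ha g g' z z' h1 h2 p3 p1' p2' h3 h
    · exact ha g' g z' z h2 h1 p3' p1 p2 (tr x z' z q h h3).1 h
  have hB : ∀ g g' : H, ∀ z z' : Circle,
      {a : Circle × Circle | (g a.1, g a.2) ∈ T ∧ Near a e₂} = X₂ →
      {a : Circle × Circle | (g' a.1, g' a.2) ∈ T ∧ Near a e₂} = X₂ →
      Ccw x z y → (g x, g z) ∈ T → (g z, g y) ∈ T →
      Ccw x z' y → (g' x, g' z') ∈ T → (g' z', g' y) ∈ T → Ccw q z y → z = z' := by
    intro g g' z z' h1 h2 p1 p2 p3 p1' p2' p3' h3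
    by_contra hne'
    rcases tot x z z' (asym _ _ _ p1).2.1 hne' (asym _ _ _ p1').2.1 with h | h
    · have h4 := (tr x z z' y h p1').2
      have h5 := tr y q z z' (rot _ _ _ (rot _ _ _ h3)) (rot _ _ _ (rot _ _ _ h4))
      exact hb g' g z' z h2 h1 p2' p1' p3 (rot _ _ _ h5.1) h
    · exact hb g g' z z' h1 h2 p2 p1 p3' h3 h
  have hC : ∀ z : Circle, Ccw x z y → z = q ∨ Ccw x z q ∨ Ccw q z y := by
    intro z hz
    by_cases h : z = q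
    · exact Or.inl h
    · rcases tot x z q (asym _ _ _ hz).2.1 h (asym _ _ _ hq).2.1 with h1 | h1
      · exact Or.inr (Or.inl h1)
      · exact Or.inr (Or.inr (tr x q z y h1 hz).2)
  obtain ⟨g₀, hg₀, ⟨-, ho₀⟩, h₀₁, h₀₂⟩ := hgood.exists
  obtain ⟨z, hz0, hz1, hz2⟩ := hz g₀ hg₀ ho₀
  have hall : ∀ᶠ g : H in 𝓕, (g x, g z) ∈ T ∧ (g z, g y) ∈ T := by
    filter_upwards [hgood] with g hg
    obtain ⟨hg, ⟨-, ho⟩, h1, h2⟩ := hg
    obtain ⟨z', p1, p2, p3⟩ := hz g hg ho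
    have hzz : z = z' := by
      rcases hC z hz0 with h | h | h
      · rcases hC z' p1 with h' | h' | h'
        · rw [h, h']
        · exact (hA g g₀ z' z h1 h₀₁ p1 p2 p3 hz0 hz1 hz2 h').symm
        · exact (hB g g₀ z' z h2 h₀₂ p1 p2 p3 hz0 hz1 hz2 h').symm
      · exact hA g₀ g z z' h₀₁ h1 hz0 hz1 hz2 p1 p2 p3 h
      · exact hB g₀ g z z' h₀₂ h2 hz0 hz1 hz2 p1 p2 p3 h
    rw [hzz]
    exact ⟨p2, p3⟩
  exact ⟨z, hz0, hall.mono fun g hg => hg.1, hall.mono fun g hg => hg.2⟩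

end Pool.AR
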