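import Pool.Agent.Work.MP_ae1ff6_ar.Interface

open Topology Filter Set
open scoped ComplexConjugate

set_option autoImplicit false

namespace Pool.AR

open Pool.CG

lemma MEX_mul (z : Circle) : (z : ℂ) * conj (z : ℂ) = 1 := by
  have h := Complex.mul_conj (z : ℂ)
  rw [h, Circle.normSq_coe]
  norm_num

lemma MEX_norm (α β : ℂ) (z : Circle) :
    ‖α * (z : ℂ) + β‖ = ‖conj β * (z : ℂ) + conj α‖ := by
  have h1 : conj (α * (z : ℂ) + β) * (z : ℂ) = conj β * (z : ℂ) + conj α := by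
    rw [map_add, map_mul]
    linear_combination (conj α) * MEX_mul z
  rw [← h1, norm_mul, Complex.norm_conj, Circle.norm_coe, mul_one]

lemma MEX_ne (α β : ℂ) (h : ‖α‖ ^ 2 - ‖β‖ ^ 2 = 1) (z : Circle) :
    conj β * (z : ℂ) + conj α ≠ 0 := by
  intro h0
  have h1 : conj α = - (conj β * (z : ℂ)) := by linear_combination h0
  have h2 : ‖α‖ = ‖β‖ := by
    have := congrArg norm h1
    rwa [norm_neg, norm_mul, Circle.norm_coe, mul_one, Complex.norm_conj, Complex.norm_conj] at this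
  rw [h2] at h
  linarith

lemma MEX_one (α β : ℂ) (h : ‖α‖ ^ 2 - ‖β‖ ^ 2 = 1) (z : Circle) :
    ‖(α * (z : ℂ) + β) / (conj β * (z : ℂ) + conj α)‖ = 1 := by
  rw [norm_div, MEX_norm, div_self]
  exact norm_ne_zero_iff.2 (MEX_ne α β h z)

/-- the Möbius map as a map of the circle -/
noncomputable def MEX_map (α β : ℂ) (h : ‖α‖ ^ 2 - ‖β‖ ^ 2 = 1) (z : Circle) : Circle :=
  ⟨(α * (z : ℂ) + β) / (conj β * (z : ℂ) + conj α),
    mem_sphere_zero_iff_norm.2 (MEX_one α β h z)⟩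

lemma MEX_coe (α β : ℂ) (h : ‖α‖ ^ 2 - ‖β‖ ^ 2 = 1) (z : Circle) :
    (MEX_map α β h z : ℂ) = (α * (z : ℂ) + β) / (conj β * (z : ℂ) + conj α) := rfl

lemma MEX_cont (α β : ℂ) (h : ‖α‖ ^ 2 - ‖β‖ ^ 2 = 1) : Continuous (MEX_map α β h) := by
  have h1 : Continuous fun z : Circle => (α * (z : ℂ) + β) / (conj β * (z : ℂ) + conj α) :=
    Continuous.div (by fun_prop) (by fun_prop) (MEX_ne α β h)
  exact Continuous.subtype_mk h1 _

lemma MEX_cond (α β : ℂ) (h : ‖α‖ ^ 2 - ‖β‖ ^ 2 = 1) : ‖conj α‖ ^ 2 - ‖-β‖ ^ 2 = 1 := by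
  rw [Complex.norm_conj, norm_neg, h]

lemma MEX_inv (α β : ℂ) (h : ‖α‖ ^ 2 - ‖β‖ ^ 2 = 1)
    (h' : ‖conj α‖ ^ 2 - ‖-β‖ ^ 2 = 1) (z : Circle) :
    MEX_map (conj α) (-β) h' (MEX_map α β h z) = z := by
  apply Circle.ext
  have h2 := MEX_ne (conj α) (-β) h' (MEX_map α β h z)
  have h3 : (MEX_map α β h z : ℂ) * (conj β * (z : ℂ) + conj α) = α * (z : ℂ) + β := by
    rw [MEX_coe, div_mul_cancel₀]
    exact MEX_ne α β h z
  rw [MEX_coe (conj α), div_eq_iff h2, map_neg, Complex.conj_conj]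
  linear_combination h3

/-- MEX: existence of Möbius maps -/
theorem p_MEX : Stmt_MEX := by
  intro α β h
  have h' := MEX_cond α β h
  have h'' : ‖conj (conj α)‖ ^ 2 - ‖-(-β)‖ ^ 2 = 1 := MEX_cond _ _ h'
  refine ⟨⟨⟨MEX_map α β h, MEX_map (conj α) (-β) h', MEX_inv α β h h', ?_⟩, MEX_cont _ _ h,
    MEX_cont _ _ h'⟩, h, fun z => ?_⟩
  · intro z
    have := MEX_inv (conj α) (-β) h' h'' z
    simp only [Complex.conj_conj, neg_neg] at this
    exact this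
  · show (MEX_map α β h z : ℂ) * _ = _
    rw [MEX_coe, div_mul_cancel₀]
    exact MEX_ne α β h z

end Pool.AR
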