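import Pool.Agent.Work.MP_ae1ff6_ar.Interface

/-!
# Block MOF: the modular group is transitive on the Farey edges
-/

open Topology Filter Set
open scoped ComplexConjugate

set_option autoImplicit false

namespace Pool.AR

open Pool.CG

theorem MOF_alg1 (a b c d p q : ℝ) :
    conj (⟨(a - d) / 2, -(b + c) / 2⟩ : ℂ) * ((p : ℂ) - q * Complex.I) +
      conj (⟨(a + d) / 2, -(c - b) / 2⟩ : ℂ) * ((p : ℂ) + q * Complex.I) =
      ((a * p + b * q : ℝ) : ℂ) + ((c * p + d * q : ℝ) : ℂ) * Complex.I := by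
  apply Complex.ext <;> simp <;> ring

theorem MOF_alg2 (a b c d p q : ℝ) :
    (⟨(a + d) / 2, -(c - b) / 2⟩ : ℂ) * ((p : ℂ) - q * Complex.I) +
      (⟨(a - d) / 2, -(b + c) / 2⟩ : ℂ) * ((p : ℂ) + q * Complex.I) =
      ((a * p + b * q : ℝ) : ℂ) - ((c * p + d * q : ℝ) : ℂ) * Complex.I := by
  apply Complex.ext <;> simp <;> ring

theorem MOF_norm (a b c d : ℝ) (h : a * d - b * c = 1) :
    ‖(⟨(a + d) / 2, -(c - b) / 2⟩ : ℂ)‖ ^ 2 - ‖(⟨(a - d) / 2, -(b + c) / 2⟩ : ℂ)‖ ^ 2 = 1 := by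
  rw [Complex.sq_norm, Complex.sq_norm, Complex.normSq_mk, Complex.normSq_mk]
  linarith

theorem MOF_ne (a b c d p q : ℝ) (h : a * d - b * c = 1) (hpq : p ≠ 0 ∨ q ≠ 0) :
    a * p + b * q ≠ 0 ∨ c * p + d * q ≠ 0 := by
  by_contra hc
  push Not at hc
  obtain ⟨h1, h2⟩ := hc
  have e1 : p = 0 := by
    have : (a * d - b * c) * p = d * (a * p + b * q) - b * (c * p + d * q) := by ring
    rw [h, h1, h2] at this
    linarith
  have e2 : q = 0 := by
    have : (a * d - b * c) * q = a * (c * p + d * q) - c * (a * p + b * q) := by ring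
    rw [h, h1, h2] at this
    linarith
  rcases hpq with hp | hq
  · exact hp e1
  · exact hq e2

theorem MOF_map (h1 : Stmt_FA1) (h2 : Stmt_MEX) (a b c d : ℝ) (h : a * d - b * c = 1) :
    ∃ m : H, IsMob m ∧ ∀ p q : ℝ, (p ≠ 0 ∨ q ≠ 0) →
      m (cusp p q) = cusp (a * p + b * q) (c * p + d * q) := by
  obtain ⟨m, hm⟩ := h2 _ _ (MOF_norm a b c d h)
  refine ⟨m, (Pool.GC.mb1.1 m).2 ⟨_, _, hm⟩, ?_⟩
  intro p q hpq
  have hne := MOF_ne a b c d p q h hpq
  have e1 := hm.2 (cusp p q)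
  have e2 := h1.1 p q hpq
  have e3 := h1.1 _ _ hne
  have hw : ((a * p + b * q : ℝ) : ℂ) + ((c * p + d * q : ℝ) : ℂ) * Complex.I ≠ 0 := by
    intro h0
    have hre := congrArg Complex.re h0
    have him := congrArg Complex.im h0
    simp at hre him
    rcases hne with h' | h'
    · exact h' hre
    · exact h' him
  have e4 : (m (cusp p q) : ℂ) *
      (((a * p + b * q : ℝ) : ℂ) + ((c * p + d * q : ℝ) : ℂ) * Complex.I) =
      ((a * p + b * q : ℝ) : ℂ) - ((c * p + d * q : ℝ) : ℂ) * Complex.I := by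
    rw [← MOF_alg1, ← MOF_alg2, ← e2]
    linear_combination ((p : ℂ) + q * Complex.I) * e1
  rw [← e3] at e4
  exact Circle.ext (mul_right_cancel₀ hw e4)

theorem MOF_far (m : H) (a b c d : ℤ) (hdet : a * d - b * c = 1)
    (hm : ∀ p q : ℝ, (p ≠ 0 ∨ q ≠ 0) → m (cusp p q) = cusp (a * p + b * q) (c * p + d * q)) :
    ∀ u v, (u, v) ∈ Farey → (m u, m v) ∈ Farey := by
  rintro u v ⟨p, q, r, s, hd, he⟩
  have hu : u = cusp p q := congrArg Prod.fst he
  have hv : v = cusp r s := congrArg Prod.snd he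
  have hpq : (p : ℝ) ≠ 0 ∨ (q : ℝ) ≠ 0 := by
    by_contra hc
    push Not at hc
    have hp : p = 0 := by exact_mod_cast hc.1
    have hq : q = 0 := by exact_mod_cast hc.2
    subst hp hq
    rcases hd with hd | hd <;> simp at hd
  have hrs : (r : ℝ) ≠ 0 ∨ (s : ℝ) ≠ 0 := by
    by_contra hc
    push Not at hc
    have hp : r = 0 := by exact_mod_cast hc.1
    have hq : s = 0 := by exact_mod_cast hc.2
    subst hp hq
    rcases hd with hd | hd <;> simp at hd
  have m1 := hm p q hpq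
  have m2 := hm r s hrs
  refine ⟨a * p + b * q, c * p + d * q, a * r + b * s, c * r + d * s, ?_, ?_⟩
  · have key : (a * p + b * q) * (c * r + d * s) - (c * p + d * q) * (a * r + b * s) =
        (a * d - b * c) * (p * s - q * r) := by ring
    rw [key, hdet, one_mul]
    exact hd
  · rw [hu, hv, m1, m2]
    push_cast
    rfl

theorem MOF_wlog (h1 : Stmt_FA1) (x y : Circle) (h : (x, y) ∈ Farey) :
    ∃ a b c d : ℤ, a * d - b * c = 1 ∧ x = cusp a c ∧ y = cusp b d := by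
  obtain ⟨p, q, r, s, hd, he⟩ := h
  have hu : x = cusp p q := congrArg Prod.fst he
  have hv : y = cusp r s := congrArg Prod.snd he
  rcases hd with hd | hd
  · exact ⟨p, r, q, s, by rw [← hd]; ring, hu, hv⟩
  · refine ⟨p, -r, q, -s, ?_, hu, ?_⟩
    · have : p * -s - -r * q = -(p * s - q * r) := by ring
      rw [this, hd]
      norm_num
    · rw [hv]
      push_cast
      exact (h1.2.2.1 _ _).symm

theorem p_MOF (h1 : Stmt_FA1) (h2 : Stmt_MEX) : Stmt_MOF := by
  intro x y hxy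
  obtain ⟨a, b, c, d, hdet, hx, hy⟩ := MOF_wlog h1 x y hxy
  have hdet' : (a : ℝ) * d - b * c = 1 := by exact_mod_cast hdet
  obtain ⟨m, hmob, hm⟩ := MOF_map h1 h2 a b c d hdet'
  refine ⟨m, hmob, ⟨a, b, c, d, hdet, hm⟩, ?_, ?_, MOF_far m a b c d hdet hm, ?_⟩
  · rw [hm 1 0 (Or.inl one_ne_zero), hx]
    simp
  · rw [hm 0 1 (Or.inr one_ne_zero), hy]
    simp
  · apply MOF_far m⁻¹ d (-b) (-c) a (by rw [← hdet]; ring)
    intro p q hpq
    have hne := MOF_ne (d : ℝ) (-b) (-c) a p q (by rw [← hdet']; ring) hpq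
    have k := hm _ _ hne
    have e1 : (a : ℝ) * (d * p + -b * q) + b * (-c * p + a * q) = p := by
      linear_combination p * hdet'
    have e2 : (c : ℝ) * (d * p + -b * q) + d * (-c * p + a * q) = q := by
      linear_combination q * hdet'
    rw [e1, e2] at k
    push_cast
    rw [← k]
    exact m.symm_apply_apply _

end Pool.AR
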