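import Pool.Agent.Work.MP_ae1ff6_ar.Interface

/-!
# Block MOR: orientations (helper46)
-/

open Topology Filter Set
open scoped ComplexConjugate

set_option autoImplicit false

namespace Pool.AR

open Pool.CG

theorem MOR_unit (a : Circle) : (a : ℂ) * conj (a : ℂ) = 1 := by
  rw [Complex.mul_conj, Circle.normSq_coe, Complex.ofReal_one]

theorem MOR_area (a b c : Circle) : ((area a b c : ℝ) : ℂ) * (2 * ((a : ℂ) * b * c)) =
    Complex.I * (((b : ℂ) - a) * ((c : ℂ) - a) * ((c : ℂ) - b)) := by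
  have haa := MOR_unit a
  have hbb := MOR_unit b
  have hcc := MOR_unit c
  have h : (2 : ℂ) * Complex.I * ((area a b c : ℝ) : ℂ) =
      (conj (b : ℂ) - conj (a : ℂ)) * ((c : ℂ) - a) -
        ((b : ℂ) - a) * (conj (c : ℂ) - conj (a : ℂ)) := by
    unfold area
    rw [Complex.im_eq_sub_conj]
    simp only [map_mul, map_sub, Complex.conj_conj]
    field_simp
  have hI : Complex.I * Complex.I = -1 := Complex.I_mul_I
  generalize ((area a b c : ℝ) : ℂ) = A at h ⊢
  generalize conj (a : ℂ) = a' at h haa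
  generalize conj (b : ℂ) = b' at h hbb
  generalize conj (c : ℂ) = c' at h hcc
  generalize (a : ℂ) = a at h haa ⊢
  generalize (b : ℂ) = b at h hbb ⊢
  generalize (c : ℂ) = c at h hcc ⊢
  have h2 : (2 : ℂ) * Complex.I * A * (a * b * c) = -((b - a) * (c - a) * (c - b)) := by
    rw [h]
    linear_combination (c - a) * a * c * hbb - (c - a) * b * c * haa - (b - a) * a * b * hcc +
      (b - a) * b * c * haa
  linear_combination (-Complex.I) * h2 + (2 * A * (a * b * c)) * hI

theorem MOR_D (α β : ℂ) (h : ‖α‖ ^ 2 - ‖β‖ ^ 2 = 1) (z : Circle) :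
    conj β * (z : ℂ) + conj α ≠ 0 := by
  intro h0
  have h1 : ‖conj β * (z : ℂ)‖ = ‖conj α‖ := by
    rw [eq_neg_of_add_eq_zero_left h0, norm_neg]
  rw [norm_mul, Circle.norm_coe, mul_one, RCLike.norm_conj, RCLike.norm_conj] at h1
  rw [h1] at h
  norm_num at h

theorem MOR_mob (g : H) (hg : IsMob g) : Ori g := by
  obtain ⟨α, β, hαβ, hz⟩ := hg
  intro a b c habc
  have hdet : α * conj α - β * conj β = 1 := by
    rw [Complex.mul_conj, Complex.mul_conj, Complex.normSq_eq_norm_sq, Complex.normSq_eq_norm_sq,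
      ← Complex.ofReal_sub, hαβ, Complex.ofReal_one]
  have hD := MOR_D α β hαβ
  have key : ∀ p : Circle, (g p : ℂ) * (conj β * (p : ℂ) + conj α) = α * (p : ℂ) + β := by
    intro p
    rw [hz p, div_mul_cancel₀ _ (hD p)]
  have key2 : ∀ p : Circle, (g p : ℂ) * (conj β * (p : ℂ) + conj α) =
      (p : ℂ) * conj (conj β * (p : ℂ) + conj α) := by
    intro p
    rw [key p]
    simp only [map_mul, map_add, Complex.conj_conj]
    have := MOR_unit p
    linear_combination (-β) * this
  have key3 : ∀ p q : Circle, ((g q : ℂ) - (g p : ℂ)) * ((conj β * (p : ℂ) + conj α) *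
      (conj β * (q : ℂ) + conj α)) = (q : ℂ) - p := by
    intro p q
    have e1 := key p
    have e2 := key q
    linear_combination (conj β * (p : ℂ) + conj α) * e2 - (conj β * (q : ℂ) + conj α) * e1 +
      ((q : ℂ) - p) * hdet
  have hA := MOR_area a b c
  have hA' := MOR_area (g a) (g b) (g c)
  have ha2 := key2 a
  have hb2 := key2 b
  have hc2 := key2 c
  have hab := key3 a b
  have hac := key3 a c
  have hbc := key3 b c
  have hDa : 0 < Complex.normSq (conj β * (a : ℂ) + conj α) := Complex.normSq_pos.2 (hD a)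
  have hDb : 0 < Complex.normSq (conj β * (b : ℂ) + conj α) := Complex.normSq_pos.2 (hD b)
  have hDc : 0 < Complex.normSq (conj β * (c : ℂ) + conj α) := Complex.normSq_pos.2 (hD c)
  have ea := Complex.mul_conj (conj β * (a : ℂ) + conj α)
  have eb := Complex.mul_conj (conj β * (b : ℂ) + conj α)
  have ec := Complex.mul_conj (conj β * (c : ℂ) + conj α)
  have hne : (2 : ℂ) * ((a : ℂ) * b * c) ≠ 0 := by
    have h1 := Circle.coe_ne_zero a
    have h2 := Circle.coe_ne_zero b
    have h3 := Circle.coe_ne_zero c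
    exact mul_ne_zero two_ne_zero (mul_ne_zero (mul_ne_zero h1 h2) h3)
  unfold Ccw at habc ⊢
  generalize area a b c = A at habc hA
  generalize area (g a) (g b) (g c) = A' at hA' ⊢
  generalize Complex.normSq (conj β * (a : ℂ) + conj α) = Na at hDa ea
  generalize Complex.normSq (conj β * (b : ℂ) + conj α) = Nb at hDb eb
  generalize Complex.normSq (conj β * (c : ℂ) + conj α) = Nc at hDc ec
  generalize conj (conj β * (a : ℂ) + conj α) = Ea at ha2 ea
  generalize conj (conj β * (b : ℂ) + conj α) = Eb at hb2 eb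
  generalize conj (conj β * (c : ℂ) + conj α) = Ec at hc2 ec
  generalize conj β * (a : ℂ) + conj α = Da at ha2 ea hab hac
  generalize conj β * (b : ℂ) + conj α = Db at hb2 eb hab hbc
  generalize conj β * (c : ℂ) + conj α = Dc at hc2 ec hac hbc
  have e : (A' : ℂ) * ((Na : ℂ) * Nb * Nc) = A := by
    apply mul_right_cancel₀ hne
    rw [hA, ← ea, ← eb, ← ec, ← hab, ← hac, ← hbc]
    calc (A' : ℂ) * (Da * Ea * (Db * Eb) * (Dc * Ec)) * (2 * ((a : ℂ) * b * c))
        = (A' : ℂ) * (((a : ℂ) * Ea) * ((b : ℂ) * Eb) * ((c : ℂ) * Ec)) * 2 * (Da * Db * Dc) := by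
          ring
      _ = (A' : ℂ) * (((g a : ℂ) * Da) * ((g b : ℂ) * Db) * ((g c : ℂ) * Dc)) * 2 *
          (Da * Db * Dc) := by rw [ha2, hb2, hc2]
      _ = ((A' : ℂ) * (2 * ((g a : ℂ) * g b * g c))) * (Da * Db * Dc) ^ 2 := by ring
      _ = _ := by
          rw [hA']
          ring
  have e' : A' * (Na * Nb * Nc) = A := by exact_mod_cast e
  have hN : 0 < Na * Nb * Nc := mul_pos (mul_pos hDa hDb) hDc
  rw [← e'] at habc
  exact (mul_pos_iff_of_pos_right hN).1 habc

theorem p_MOR (h1 : Stmt_CYO) : Stmt_MOR := by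
  have hinv : ∀ g : H, Ori g → Ori g⁻¹ := by
    intro g hg a b c habc
    obtain ⟨-, c2, c3, -⟩ := h1
    obtain ⟨n1, n2, n3, n4⟩ := c2 a b c habc
    have inj : ∀ p q : Circle, p ≠ q → g⁻¹ p ≠ g⁻¹ q := fun p q hpq h =>
      hpq ((g⁻¹ : H).injective h)
    rcases c3 (g⁻¹ a) (g⁻¹ b) (g⁻¹ c) (inj _ _ n2) (inj _ _ n3) (inj _ _ n4) with h | h
    · exact h
    · exfalso
      have h' := hg _ _ _ h
      have e : ∀ p : Circle, g (g⁻¹ p) = p := fun p => g.apply_symm_apply p
      rw [e, e, e] at h'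
      exact n1 h'
  have hmul : ∀ g g' : H, Ori g → Ori g' → Ori (g * g') := fun g g' hg hg' a b c h =>
    hg _ _ _ (hg' _ _ _ h)
  have hone : Ori 1 := fun a b c h => h
  refine ⟨MOR_mob, ⟨hone, hmul, hinv⟩, ?_⟩
  intro Γ f hΓ hf g hg
  let K : Subgroup H :=
    { carrier := {g : H | Ori g}
      mul_mem' := fun {x y} hx hy => hmul x y hx hy
      one_mem' := hone
      inv_mem' := fun {x} hx => hinv x hx }
  have hK : Γ ⊔ Subgroup.zpowers f ≤ K := by
    refine sup_le (fun γ hγ => MOR_mob γ (hΓ.mob γ hγ)) ?_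
    rw [Subgroup.zpowers_le]
    exact hf
  exact hK hg

end Pool.AR
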