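import Pool.Agent.Work.MP_ae1ff6_ar.Interface

/-!
# Block NST: nested edges (helper58)
-/

open Topology Filter Set
open scoped ComplexConjugate

set_option autoImplicit false

namespace Pool.AR

open Pool.CG

theorem NST_eps (s₀ t₀ u v : ℝ) (h : t₀ < s₀ + 2 * Real.pi) (h1 : s₀ ≤ u) (h2 : u < v)
    (h3 : v ≤ t₀) : ∃ ε : ℝ, 0 < ε ∧ ∀ s t : ℝ, s₀ ≤ s → s ≤ u → v ≤ t → t ≤ t₀ →
      ε ≤ dist (Circle.exp s) (Circle.exp t) := by
  have hc : IsCompact (Icc s₀ u ×ˢ Icc v t₀) := isCompact_Icc.prod isCompact_Icc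
  have hne : (Icc s₀ u ×ˢ Icc v t₀).Nonempty := ⟨(s₀, t₀), ⟨⟨le_rfl, h1⟩, ⟨h3, le_rfl⟩⟩⟩
  have hcont : Continuous (fun p : ℝ × ℝ => dist (Circle.exp p.1) (Circle.exp p.2)) :=
    (Circle.exp.continuous.comp continuous_fst).dist (Circle.exp.continuous.comp continuous_snd)
  obtain ⟨p, hp, hmin⟩ := hc.exists_isMinOn hne hcont.continuousOn
  have hinj : InjOn Circle.exp (Ico s₀ (s₀ + 2 * Real.pi)) := Circle.exp_injOn_Ico (by linarith)
  refine ⟨dist (Circle.exp p.1) (Circle.exp p.2), ?_, ?_⟩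
  · rw [dist_pos]
    intro he
    have h5 : p.1 = p.2 := hinj ⟨hp.1.1, by linarith [hp.1.2]⟩ ⟨by linarith [hp.2.1],
      by linarith [hp.2.2]⟩ he
    linarith [hp.1.2, hp.2.1]
  · intro s t a b c d
    exact hmin (show (s, t) ∈ Icc s₀ u ×ˢ Icc v t₀ from ⟨⟨a, b⟩, ⟨c, d⟩⟩)

theorem p_NST (hA : Stmt_ANG) : Stmt_NST := by
  intro E hfin hsp s₀ t₀ h0 h1 hE u v hu huv hv
  have hpi := Real.two_pi_pos
  obtain ⟨ε, hε, hd⟩ := NST_eps s₀ t₀ u v h1 hu huv hv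
  obtain ⟨P, hP⟩ : ∃ P : Set (ℝ × ℝ), P = {p : ℝ × ℝ | s₀ ≤ p.1 ∧ p.1 ≤ u ∧ v ≤ p.2 ∧ p.2 ≤ t₀ ∧
    (Circle.exp p.1, Circle.exp p.2) ∈ E} := ⟨_, rfl⟩
  have hinj : InjOn Circle.exp (Ico s₀ (s₀ + 2 * Real.pi)) := Circle.exp_injOn_Ico (by linarith)
  have hPf : P.Finite := by
    refine Set.Finite.of_finite_image (f := fun p : ℝ × ℝ => (Circle.exp p.1, Circle.exp p.2))
      ((hfin ε hε).subset ?_) ?_
    · rintro _ ⟨p, hp, rfl⟩
      rw [hP] at hp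
      obtain ⟨a, b, c, d, e⟩ := hp
      exact ⟨e, hd _ _ a b c d⟩
    · intro p hp q hq he
      rw [hP] at hp hq
      obtain ⟨a, b, c, d, -⟩ := hp
      obtain ⟨a', b', c', d', -⟩ := hq
      have h2 : Circle.exp p.1 = Circle.exp q.1 := congrArg Prod.fst he
      have h3 : Circle.exp p.2 = Circle.exp q.2 := congrArg Prod.snd he
      exact Prod.ext (hinj ⟨a, by linarith⟩ ⟨a', by linarith⟩ h2)
        (hinj ⟨by linarith, by linarith⟩ ⟨by linarith, by linarith⟩ h3)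
  have hPn : P.Nonempty := ⟨(s₀, t₀), by rw [hP]; exact ⟨le_rfl, hu, hv, le_rfl, hE⟩⟩
  obtain ⟨p, hp, hmin⟩ := Set.exists_min_image P (fun p : ℝ × ℝ => p.2 - p.1) hPf hPn
  have hp' := hp
  rw [hP] at hp'
  obtain ⟨a, b, c, d, e⟩ := hp'
  obtain ⟨z, hz, hz1, hz2⟩ := hsp _ _ e
  obtain ⟨r, hr1, hr2, rfl⟩ := hA.2.1 p.1 p.2 z (by linarith) (by linarith) hz
  have hru : u < r := by
    by_contra hcon
    push Not at hcon
    have h5 : (r, p.2) ∈ P := by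
      rw [hP]
      exact ⟨by show s₀ ≤ r; linarith, hcon, c, d, hz2⟩
    have h6 := hmin _ h5
    have h7 : p.2 - p.1 ≤ p.2 - r := h6
    linarith
  have hrv : r < v := by
    by_contra hcon
    push Not at hcon
    have h5 : (p.1, r) ∈ P := by
      rw [hP]
      exact ⟨a, b, hcon, by show r ≤ t₀; linarith, hz1⟩
    have h6 := hmin _ h5
    have h7 : p.2 - p.1 ≤ r - p.1 := h6
    linarith
  exact ⟨p.1, r, p.2, a, b, hru, hrv, c, d, e, hz1, hz2⟩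

end Pool.AR
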