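import Pool.Agent.Work.MP_ae1ff6_ar.Interface

/-!
# Block PHA: the vertices of two triangulations
-/

open Topology Filter Set
open scoped ComplexConjugate

set_option autoImplicit false

namespace Pool.AR

open Pool.CG

theorem PHA_coord (hANG : Stmt_ANG) (hPT1 : Stmt_PT1) (hPT2 : Stmt_PT2) (hPT3 : Stmt_PT3)
    (T : Set (Circle × Circle)) (hT : Tri T) (s t : ℝ) (hst : s < t)
    (hts : t < s + 2 * Real.pi) (he : (Circle.exp s, Circle.exp t) ∈ T) :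
    ∃ a : List Bool → ℝ, (∀ w, s < a w ∧ a w < t) ∧
      (∀ w, pt T w (Circle.exp s, Circle.exp t) = Circle.exp (a w)) ∧
      (∀ w w', a w < a w' ↔ wlt w w') ∧
      (∀ u v, s ≤ u → u < v → v ≤ t → ∃ w, u < a w ∧ a w < v) := by
  obtain ⟨-, hA2, -, -, hA5, -⟩ := hANG
  have h1 : ∀ w : List Bool, ∃ r : ℝ, s < r ∧ r < t ∧
      pt T w (Circle.exp s, Circle.exp t) = Circle.exp r := by
    intro w
    have h2 := (hPT1 T hT w (Circle.exp s, Circle.exp t) he).2.1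
    exact hA2 s t _ hst hts h2
  choose a ha1 ha2 ha3 using h1
  refine ⟨a, fun w => ⟨ha1 w, ha2 w⟩, ha3, ?_, ?_⟩
  · intro w w'
    have h3 := hPT2 T hT w w' (Circle.exp s, Circle.exp t) he
    rw [ha3 w, ha3 w'] at h3
    have h4 := hA5 s (a w) (a w') (ha1 w) (lt_trans (ha2 w) hts) (ha1 w')
      (lt_trans (ha2 w') hts)
    exact h4.symm.trans h3
  · intro u v hu huv hv
    obtain ⟨w, r, hur, hrv, hr, -⟩ := hPT3 T hT s t hst hts he u v hu huv hv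
    have hsr : s < r := lt_of_le_of_lt hu hur
    have hrt : r < t := lt_of_lt_of_le hrv hv
    have h5 : Circle.exp (a w) = Circle.exp r := by rw [← ha3 w, hr]
    have h6 := hA5 s (a w) r (ha1 w) (lt_trans (ha2 w) hts) hsr (lt_trans hrt hts)
    have h7 := hA5 s r (a w) hsr (lt_trans hrt hts) (ha1 w) (lt_trans (ha2 w) hts)
    have h8 := hA5 s r r hsr (lt_trans hrt hts) hsr (lt_trans hrt hts)
    rw [h5] at h6 h7
    have h9 : a w = r := by
      rcases lt_trichotomy (a w) r with h | h | h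
      · exact absurd (h8.mp (h6.mpr h)) (lt_irrefl r)
      · exact h
      · exact absurd (h8.mp (h7.mpr h)) (lt_irrefl r)
    exact ⟨w, by rw [h9]; exact hur, by rw [h9]; exact hrv⟩

theorem PHA_arc (hANG : Stmt_ANG) (hEXL : Stmt_EXL) (hPT1 : Stmt_PT1) (hPT2 : Stmt_PT2)
    (hPT3 : Stmt_PT3) (T T' : Set (Circle × Circle)) (hT : Tri T) (hT' : Tri T')
    (s t s' t' : ℝ) (hst : s < t) (hts : t < s + 2 * Real.pi)
    (he : (Circle.exp s, Circle.exp t) ∈ T) (hst' : s' < t') (hts' : t' < s' + 2 * Real.pi)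
    (he' : (Circle.exp s', Circle.exp t') ∈ T') :
    ∃ F : ℝ ≃o ℝ, F s = s' ∧ F t = t' ∧ ∀ w, ∃ x, s ≤ x ∧ x ≤ t ∧
      pt T w (Circle.exp s, Circle.exp t) = Circle.exp x ∧
      pt T' w (Circle.exp s', Circle.exp t') = Circle.exp (F x) := by
  obtain ⟨a, ha1, ha2, ha3, ha4⟩ := PHA_coord hANG hPT1 hPT2 hPT3 T hT s t hst hts he
  obtain ⟨b, hb1, hb2, hb3, hb4⟩ := PHA_coord hANG hPT1 hPT2 hPT3 T' hT' s' t' hst' hts' he'
  obtain ⟨F, hF1, hF2, hF3⟩ := hEXL (List Bool) a b s t s' t' hst hst' ha1 hb1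
    (fun i j => (ha3 i j).trans (hb3 i j).symm) ha4 hb4
  refine ⟨F, hF1, hF2, fun w => ⟨a w, le_of_lt (ha1 w).1, le_of_lt (ha1 w).2, ha2 w, ?_⟩⟩
  rw [hF3 w]
  exact hb2 w

theorem p_PHA (hANG : Stmt_ANG) (hEXL : Stmt_EXL) (hGLU : Stmt_GLU) (hPT1 : Stmt_PT1)
    (hPT2 : Stmt_PT2) (hPT3 : Stmt_PT3) : Stmt_PHA := by
  intro T T' hT hT' e he e' he'
  have hA3 := hANG.2.2.1
  obtain ⟨x, y⟩ := e
  obtain ⟨x', y'⟩ := e'
  obtain ⟨s, t, hst, hts, rfl, rfl⟩ := hA3 x y (hT.ne x y he)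
  obtain ⟨s', t', hst', hts', rfl, rfl⟩ := hA3 x' y' (hT'.ne x' y' he')
  obtain ⟨F₁, hF1, hF2, hF3⟩ := PHA_arc hANG hEXL hPT1 hPT2 hPT3 T T' hT hT' s t s' t'
    hst hts he hst' hts' he'
  have hper : ∀ x : ℝ, Circle.exp (x + 2 * Real.pi) = Circle.exp x := Circle.exp_add_two_pi
  have he2 : (Circle.exp t, Circle.exp (s + 2 * Real.pi)) ∈ T := by
    rw [hper]
    exact hT.symm _ _ he
  have he2' : (Circle.exp t', Circle.exp (s' + 2 * Real.pi)) ∈ T' := by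
    rw [hper]
    exact hT'.symm _ _ he'
  obtain ⟨F₂, hG1, hG2, hG3⟩ := PHA_arc hANG hEXL hPT1 hPT2 hPT3 T T' hT hT' t
    (s + 2 * Real.pi) t' (s' + 2 * Real.pi) hts (by linarith) he2 hts' (by linarith) he2'
  rw [hper, hper] at hG3
  obtain ⟨h, hh1, hh2, hh3⟩ := hGLU s t s' t' F₁ F₂ hst hts hst' hts' hF1 hF2 hG1 hG2
  refine ⟨h, hh1, ?_, ?_, ?_, ?_⟩
  · change h (Circle.exp s) = Circle.exp s'
    rw [hh2 s le_rfl hst.le, hF1]
  · change h (Circle.exp t) = Circle.exp t'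
    rw [hh2 t hst.le le_rfl, hF2]
  · intro w
    obtain ⟨x, hx1, hx2, hx3, hx4⟩ := hF3 w
    rw [hx3, hx4]
    exact hh2 x hx1 hx2
  · intro w
    obtain ⟨x, hx1, hx2, hx3, hx4⟩ := hG3 w
    change h (pt T w (Circle.exp t, Circle.exp s)) = pt T' w (Circle.exp t', Circle.exp s')
    rw [hx3, hx4]
    exact hh3 x hx1 hx2

end Pool.AR
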