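import Pool.Agent.Work.MP_ae1ff6_ar.Interface

/-!
# Block PHI: two ideal triangulations of the disc are equivalent (helper74)
-/

open Topology Filter Set
open scoped ComplexConjugate

set_option autoImplicit false

namespace Pool.AR

open Pool.CG

theorem PHI_ed (T T' : Set (Circle × Circle)) (h : H) (w : List Bool) :
    ∀ e e' : Circle × Circle, h e.1 = e'.1 → h e.2 = e'.2 →
      (∀ w, h (pt T w e) = pt T' w e') →
      (h (ed T w e).1, h (ed T w e).2) = ed T' w e' := by
  induction w with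
  | nil =>
    intro e e' h1 h2 _
    exact Prod.ext h1 h2
  | cons b v ih =>
    intro e e' h1 h2 h3
    have hm : h (thd T e) = thd T' e' := h3 []
    cases b with
    | false =>
      exact ih (e.1, thd T e) (e'.1, thd T' e') h1 hm (fun w => h3 (false :: w))
    | true =>
      exact ih (thd T e, e.2) (thd T' e', e'.2) hm h2 (fun w => h3 (true :: w))

theorem PHI_arc (hPT3 : Stmt_PT3) (T : Set (Circle × Circle)) (hT : Tri T) (s t : ℝ)
    (hst : s < t) (ht : t < s + 2 * Real.pi) (he : (Circle.exp s, Circle.exp t) ∈ T) (u v : ℝ)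
    (hu : s ≤ u) (hu' : u ≤ t) (hv : s ≤ v) (hv' : v ≤ t)
    (huv : (Circle.exp u, Circle.exp v) ∈ T) :
    ∃ w, ed T w (Circle.exp s, Circle.exp t) = (Circle.exp u, Circle.exp v) ∨
      ed T w (Circle.exp s, Circle.exp t) = (Circle.exp v, Circle.exp u) := by
  rcases lt_trichotomy u v with h | h | h
  · obtain ⟨w, r, -, -, -, h4⟩ := hPT3 T hT s t hst ht he u v hu h hv'
    exact ⟨w, Or.inl (h4 huv)⟩
  · exact absurd (by rw [h]) (hT.ne _ _ huv)
  · obtain ⟨w, r, -, -, -, h4⟩ := hPT3 T hT s t hst ht he v u hv h hu'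
    exact ⟨w, Or.inr (h4 (hT.symm _ _ huv))⟩

theorem PHI_all (hANG : Stmt_ANG) (hPT3 : Stmt_PT3) (T : Set (Circle × Circle)) (hT : Tri T)
    (e : Circle × Circle) (he : e ∈ T) (x y : Circle) (hxy : (x, y) ∈ T) :
    ∃ w, (ed T w e = (x, y) ∨ ed T w e = (y, x)) ∨
      (ed T w (e.2, e.1) = (x, y) ∨ ed T w (e.2, e.1) = (y, x)) := by
  obtain ⟨-, -, h3, -, -, h6⟩ := hANG
  obtain ⟨a, b⟩ := e
  obtain ⟨s, t, hst, ht, ha, hb⟩ := h3 a b (hT.ne _ _ he)
  subst ha hb
  rcases h6 s t x y hst ht (hT.unlinked _ _ _ _ he hxy) with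
    ⟨u, v, h1, h2, h3, h4, hx, hy⟩ | ⟨u, v, h1, h2, h3, h4, hx, hy⟩
  · subst hx hy
    obtain ⟨w, hw⟩ := PHI_arc hPT3 T hT s t hst ht he u v h1 h2 h3 h4 hxy
    exact ⟨w, Or.inl hw⟩
  · subst hx hy
    have hp : Circle.exp (s + 2 * Real.pi) = Circle.exp s := by
      rw [Circle.exp_add, Circle.exp_two_pi, mul_one]
    have he' : (Circle.exp t, Circle.exp (s + 2 * Real.pi)) ∈ T := by
      rw [hp]
      exact hT.symm _ _ he
    obtain ⟨w, hw⟩ := PHI_arc hPT3 T hT t (s + 2 * Real.pi) ht (by linarith) he' u v h1 h2 h3 h4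
      hxy
    rw [hp] at hw
    exact ⟨w, Or.inr hw⟩

theorem p_PHI (hANG : Stmt_ANG) (hPT1 : Stmt_PT1) (hPT3 : Stmt_PT3) (hPHA : Stmt_PHA) :
    Stmt_PHI := by
  intro T T' hT hT' e he e' he'
  obtain ⟨h, ho, h1, h2, h3, h4⟩ := hPHA T T' hT hT' e he e' he'
  have er : (e.2, e.1) ∈ T := hT.symm _ _ he
  have er' : (e'.2, e'.1) ∈ T' := hT'.symm _ _ he'
  have c1 : ∀ w, (h (ed T w e).1, h (ed T w e).2) = ed T' w e' :=
    fun w => PHI_ed T T' h w e e' h1 h2 h3
  have c2 : ∀ w, (h (ed T w (e.2, e.1)).1, h (ed T w (e.2, e.1)).2) = ed T' w (e'.2, e'.1) :=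
    fun w => PHI_ed T T' h w (e.2, e.1) (e'.2, e'.1) h2 h1 h4
  refine ⟨h, ho, h1, h2, fun x y => ⟨fun hxy => ?_, fun hxy => ?_⟩⟩
  · obtain ⟨w, (hw | hw) | (hw | hw)⟩ := PHI_all hANG hPT3 T hT e he x y hxy
    · have := c1 w
      rw [hw] at this
      change (h x, h y) = _ at this
      rw [this]
      exact (hPT1 T' hT' w e' he').1
    · have := c1 w
      rw [hw] at this
      change (h y, h x) = _ at this
      apply hT'.symm
      rw [this]
      exact (hPT1 T' hT' w e' he').1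
    · have := c2 w
      rw [hw] at this
      change (h x, h y) = _ at this
      rw [this]
      exact (hPT1 T' hT' w _ er').1
    · have := c2 w
      rw [hw] at this
      change (h y, h x) = _ at this
      apply hT'.symm
      rw [this]
      exact (hPT1 T' hT' w _ er').1
  · have inj : ∀ (d : Circle × Circle) (a b : Circle), (h d.1, h d.2) = (h a, h b) →
        d = (a, b) := by
      intro d a b hd
      obtain ⟨g1, g2⟩ := Prod.mk.inj hd
      exact Prod.ext (h.injective g1) (h.injective g2)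
    obtain ⟨w, (hw | hw) | (hw | hw)⟩ := PHI_all hANG hPT3 T' hT' e' he' (h x) (h y) hxy
    · have := inj _ _ _ ((c1 w).trans hw)
      rw [← this]
      exact (hPT1 T hT w e he).1
    · have := inj _ _ _ ((c1 w).trans hw)
      apply hT.symm
      rw [← this]
      exact (hPT1 T hT w e he).1
    · have := inj _ _ _ ((c2 w).trans hw)
      rw [← this]
      exact (hPT1 T hT w _ er).1
    · have := inj _ _ _ ((c2 w).trans hw)
      apply hT.symm
      rw [← this]
      exact (hPT1 T hT w _ er).1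

end Pool.AR
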