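import Pool.Agent.Work.MP_ae1ff6_ar.Interface3

/-!
# Block PIN: infinite stabilisers (helper46)
-/

open Topology Filter Set
open scoped ComplexConjugate

set_option autoImplicit false

namespace Pool.AR

open Pool.CG

/-- the stabiliser of a point -/
noncomputable def PIN_K (p : Circle) : Subgroup H where
  carrier := {g : H | g p = p}
  mul_mem' := fun {x y} (hx : x p = p) (hy : y p = p) => by
    change x (y p) = p
    rw [hy, hx]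
  one_mem' := rfl
  inv_mem' := fun {x} (hx : x p = p) => by
    change x⁻¹ p = p
    apply x.injective
    change x (x.symm p) = x p
    rw [x.apply_symm_apply, hx]

/-- the stabiliser of the pair in `G` -/
noncomputable def PIN_S (G : Subgroup H) (e : Circle × Circle) : Subgroup H := G ⊓ PIN_K e.1 ⊓ PIN_K e.2

theorem PIN_mem (G : Subgroup H) (e : Circle × Circle) (g : H) : g ∈ PIN_S G e ↔ g ∈ Sta G e := by
  constructor
  · rintro ⟨⟨h1, h2⟩, h3⟩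
    exact ⟨h1, h2, h3⟩
  · rintro ⟨h1, h2, h3⟩
    exact ⟨⟨h1, h2⟩, h3⟩

theorem p_PIN (hFCL : Stmt_FCL) (hFXU : Stmt_FXU) : Stmt_PIN := by
  intro Γ G O F S hsys hdisp b hb hinf
  obtain ⟨-, -, -, -, f5, -⟩ := hFCL
  obtain ⟨γ, hγ, hax⟩ := hsys.cur.axis b.1 b.2 hb
  obtain ⟨z, w, hzw, hl⟩ := hsys.cur.fill b.1 b.2 hax.1
  have hlink : Link b.1 b.2 z w := (Pool.GC.q_SYM _ _ _ _ hl).1
  refine ⟨(z, w), hzw, hlink, fun hP => hinf ?_⟩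
  obtain ⟨X, hX, h1⟩ := hFXU Γ G O F S hsys hdisp b hb γ hγ hax
  have hA : ∀ x : Circle × Circle, ∃ K : Set H, K.Finite ∧ ∀ g ∈ PIN_S G b, g x.1 = z → g x.2 = w →
      ∃ h ∈ K, h⁻¹ * g ∈ Γ := by
    intro x
    by_cases hx : ∃ h ∈ PIN_S G b, h x.1 = z ∧ h x.2 = w
    · obtain ⟨h, hS, hx1, hx2⟩ := hx
      have hG : h ∈ G := hS.1.1
      obtain ⟨K, hK, h2⟩ := f5 Γ G _ hsys.nor hP h⁻¹ (G.inv_mem hG)
      refine ⟨K, hK, fun g hg hg1 hg2 => h2 g ?_⟩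
      have hs : ∀ z : Circle, h⁻¹ (h z) = z := fun z => h.symm_apply_apply z
      have hgG : g ∈ G := hg.1.1
      refine ⟨(PIN_mem G b _).1 ((PIN_S G b).mul_mem hg ((PIN_S G b).inv_mem hS)),
        G.mul_mem hgG (G.inv_mem hG), ?_, ?_⟩
      · change g (h⁻¹ z) = z
        rw [← hx1, hs, hx1, hg1]
      · change g (h⁻¹ w) = w
        rw [← hx2, hs, hx2, hg2]
    · exact ⟨∅, Set.finite_empty, fun g hg hg1 hg2 => absurd ⟨g, hg, hg1, hg2⟩ hx⟩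
  choose K hK1 hK2 using hA
  refine ⟨⋃ x ∈ X, K x, hX.biUnion fun x _ => hK1 x, ?_⟩
  intro g hg
  have hgS : g ∈ PIN_S G b := (PIN_mem G b g).2 hg
  have hs : ∀ z : Circle, g (g⁻¹ z) = z := fun z => g.apply_symm_apply z
  have hgi := (PIN_mem G b _).1 ((PIN_S G b).inv_mem hgS)
  have hnear : Near (g⁻¹ z, g⁻¹ w) b := by
    left
    have h2 := Pool.GC.lhi g⁻¹ _ _ _ _ hl
    rw [hgi.2.1, hgi.2.2] at h2
    exact h2
  obtain ⟨m, hmX⟩ := h1 g hg.1 (g⁻¹ z, g⁻¹ w) (by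
    change (g (g⁻¹ z), g (g⁻¹ w)) ∈ O
    rw [hs, hs]
    exact hzw) hnear
  have hγm : (γ ^ m) ∈ Γ := Γ.zpow_mem hγ m
  have hγS : γ ∈ PIN_S G b := ⟨⟨hsys.le hγ, (hax.2 _).2 (Or.inl rfl)⟩, (hax.2 _).2 (Or.inr rfl)⟩
  have hs2 : ∀ z : Circle, (γ ^ m)⁻¹ ((γ ^ m) z) = z := fun z => (γ ^ m).symm_apply_apply z
  obtain ⟨h, hh, h3⟩ := hK2 ((γ ^ m) (g⁻¹ z), (γ ^ m) (g⁻¹ w)) (g * (γ ^ m)⁻¹)
    ((PIN_S G b).mul_mem hgS ((PIN_S G b).inv_mem ((PIN_S G b).zpow_mem hγS m)))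
    (by
      change g ((γ ^ m)⁻¹ ((γ ^ m) (g⁻¹ z))) = z
      rw [hs2, hs])
    (by
      change g ((γ ^ m)⁻¹ ((γ ^ m) (g⁻¹ w))) = w
      rw [hs2, hs])
  refine ⟨h, Set.mem_biUnion hmX hh, ?_⟩
  have h4 : h⁻¹ * g = h⁻¹ * (g * (γ ^ m)⁻¹) * (γ ^ m) := by group
  rw [h4]
  exact Γ.mul_mem h3 hγm

end Pool.AR
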