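import Pool.Agent.Work.MP_ae1ff6_ar.Interface

open Topology Filter Set
open scoped ComplexConjugate

set_option autoImplicit false

namespace Pool.AR

open Pool.CG

/-- the fixed point equation in the other direction -/
theorem PRB_fix (g : H) (α β : ℂ) (hP : Par g α β) (w : Circle)
    (h : conj β * (w : ℂ) ^ 2 + (conj α - α) * (w : ℂ) - β = 0) : g w = w := by
  have hD := (Pool.GC.mb1.2 g α β hP).1 w
  have e := hP.2 w
  have e2 : (g w : ℂ) * (conj β * (w : ℂ) + conj α) = (w : ℂ) * (conj β * (w : ℂ) + conj α) := by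
    rw [e]; linear_combination -h
  exact Circle.ext (mul_right_cancel₀ hD e2)

/-- the derivative at the parabolic fixed point has modulus one -/
theorem PRB_one (g : H) (u : Circle) (α β : ℂ) (hP : Par g α β) (hu : ∀ z, g z = z ↔ z = u) :
    ‖conj β * (u : ℂ) + conj α‖ = 1 := by
  have hgu : g u = u := (hu u).2 rfl
  have eu := hP.2 u
  rw [hgu] at eu
  have hu0 : (u : ℂ) ≠ 0 := Circle.coe_ne_zero u
  have hnu : ‖(u : ℂ)‖ = 1 := Circle.norm_coe u
  have E : conj β * (u : ℂ) ^ 2 + (conj α - α) * (u : ℂ) - β = 0 := by linear_combination eu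
  by_cases hβ : β = 0
  · exfalso
    subst hβ
    have h1 : (conj α - α) * (u : ℂ) = 0 := by simpa using E
    have h2 : conj α - α = 0 := (mul_eq_zero.1 h1).resolve_right hu0
    have h3 : ∀ z : Circle, z = u := fun z => (hu z).1 (PRB_fix g α 0 hP z (by simp [h2]))
    have h4 := h3 (-u)
    have h5 : (-(u : ℂ)) = u := by
      have := congrArg (fun z : Circle => (z : ℂ)) h4
      simpa using this
    have h6 : (u : ℂ) = 0 := by linear_combination (-1 / 2 : ℂ) * h5
    exact hu0 h6
  · have hβ' : conj β ≠ 0 := by simpa using hβ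
    have hw1 : ‖-β / (conj β * (u : ℂ))‖ = 1 := by
      rw [norm_div, norm_neg, norm_mul, hnu, mul_one, Complex.norm_conj,
        div_self (norm_ne_zero_iff.2 hβ)]
    obtain ⟨w, hw⟩ : ∃ w : Circle, (w : ℂ) = -β / (conj β * (u : ℂ)) :=
      ⟨⟨-β / (conj β * (u : ℂ)), mem_sphere_zero_iff_norm.2 hw1⟩, rfl⟩
    have hw2 : conj β * (u : ℂ) * (w : ℂ) = -β := by
      rw [hw]; field_simp
    have hw3 : g w = w := by
      apply PRB_fix g α β hP w
      have h7 : conj β * (u : ℂ) ^ 2 *
          (conj β * (w : ℂ) ^ 2 + (conj α - α) * (w : ℂ) - β) = 0 := by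
        linear_combination (conj β * (u : ℂ) * (w : ℂ) - β + (conj α - α) * (u : ℂ)) * hw2 -
          β * E
      exact (mul_eq_zero.1 h7).resolve_left (mul_ne_zero hβ' (pow_ne_zero 2 hu0))
    have hw4 : w = u := (hu w).1 hw3
    rw [hw4] at hw2
    have h8 : (u : ℂ) * (2 * (conj β * (u : ℂ)) - (α - conj α)) = 0 := by
      linear_combination E + hw2
    have h9 : 2 * (conj β * (u : ℂ)) = α - conj α :=
      sub_eq_zero.1 ((mul_eq_zero.1 h8).resolve_left hu0)
    have h10 : α - conj α = (2 * α.im : ℝ) * Complex.I := Complex.sub_conj α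
    have h11 : α + conj α = (2 * α.re : ℝ) := Complex.add_conj α
    have h12 : conj β * (u : ℂ) + conj α = (α.re : ℂ) := by
      push_cast at h11
      linear_combination (1 / 2 : ℂ) * h9 + (1 / 2 : ℂ) * h11
    have h13 : conj β * (u : ℂ) = (α.im : ℂ) * Complex.I := by
      push_cast at h10
      linear_combination (1 / 2 : ℂ) * h9 + (1 / 2 : ℂ) * h10
    have h14 : ‖β‖ = |α.im| := by
      have := congrArg norm h13
      rwa [norm_mul, norm_mul, Complex.norm_conj, hnu, mul_one, Complex.norm_I, mul_one,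
        Complex.norm_real, Real.norm_eq_abs] at this
    have h15 := hP.1
    have h16 : ‖α‖ ^ 2 = α.re ^ 2 + α.im ^ 2 := by
      rw [← Complex.normSq_eq_norm_sq, Complex.normSq_apply]; ring
    rw [h16, h14, sq_abs] at h15
    rw [h12, Complex.norm_real, Real.norm_eq_abs]
    have h17 : |α.re| ^ 2 = 1 := by rw [sq_abs]; linarith
    have h18 : 0 ≤ |α.re| := abs_nonneg _
    nlinarith

theorem p_PRB : Stmt_PRB := by
  intro g u hg hu
  obtain ⟨α, β, hP⟩ := (Pool.GC.mb1.1 g).1 hg
  refine ⟨α, β, hP, fun v hv => ?_⟩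
  have h1 := PRB_one g u α β hP hu
  have hgu : g u = u := (hu u).2 rfl
  have h2 := (Pool.GC.mb1.2 g α β hP).2.1 v u
  rw [hgu, h1, mul_one] at h2
  have h3 : g v ≠ u := by
    intro h
    exact hv (g.injective (h.trans hgu.symm))
  have h4 : 0 < dist (g v) u := dist_pos.2 h3
  have h5 : ‖conj β * (v : ℂ) + conj α‖ = dist v u / dist (g v) u := by
    rw [← h2]; field_simp
  have h6 : dist v u = ‖(v : ℂ) - (u : ℂ)‖ := dist_eq_norm (v : ℂ) (u : ℂ)
  have h7 : conj β * ((v : ℂ) - (u : ℂ)) =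
      (conj β * (v : ℂ) + conj α) - (conj β * (u : ℂ) + conj α) := by ring
  have h8 := norm_sub_le (conj β * (v : ℂ) + conj α) (conj β * (u : ℂ) + conj α)
  rw [← h7, norm_mul, Complex.norm_conj, ← h6, h1, h5] at h8
  linarith

end Pool.AR
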