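import Pool.Agent.Work.MP_ae1ff6_ar.Interface

/-! Block PT1 of the interface. -/

open Topology Filter Set
open scoped ComplexConjugate

set_option autoImplicit false

namespace Pool.AR

open Pool.CG

theorem PT1_thd (T : Set (Circle × Circle)) (hT : Tri T) (e : Circle × Circle) (he : e ∈ T) :
    Ccw e.1 (thd T e) e.2 ∧ (e.1, thd T e) ∈ T ∧ (thd T e, e.2) ∈ T := by
  have h : ∃ z, Ccw e.1 z e.2 ∧ (e.1, z) ∈ T ∧ (z, e.2) ∈ T := hT.third e.1 e.2 he
  have h2 : thd T e = h.choose := by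
    unfold thd
    rw [dif_pos h]
  rw [h2]
  exact h.choose_spec

theorem p_PT1 (hCYO : Stmt_CYO) : Stmt_PT1 := by
  obtain ⟨c1, c2, c3, c4⟩ := hCYO
  intro T hT w
  induction w with
  | nil =>
    intro e he
    obtain ⟨h1, h2, h3⟩ := PT1_thd T hT e he
    exact ⟨he, h1, h1, h2, h3⟩
  | cons b w ih =>
    intro e he
    obtain ⟨h1, h2, h3⟩ := PT1_thd T hT e he
    cases b with
    | false =>
      obtain ⟨i1, i2, i3, i4, i5⟩ := ih (e.1, thd T e) h2
      refine ⟨i1, ?_, i3, i4, i5⟩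
      exact (c4 _ _ _ _ i2 h1).1
    | true =>
      obtain ⟨i1, i2, i3, i4, i5⟩ := ih (thd T e, e.2) h3
      refine ⟨i1, ?_, i3, i4, i5⟩
      have j1 : Ccw e.2 e.1 (thd T e) := c1 _ _ _ (c1 _ _ _ h1)
      have j2 : Ccw e.2 (thd T e) (pt T w (thd T e, e.2)) := c1 _ _ _ (c1 _ _ _ i2)
      exact c1 _ _ _ (c4 _ _ _ _ j1 j2).1

end Pool.AR
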