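import Pool.Agent.Work.MP_ae1ff6_ar.Interface

/-!
# Block PT2: the order of the vertices of an ideal triangulation (helper74)
-/

open Topology Filter Set
open scoped ComplexConjugate

set_option autoImplicit false

namespace Pool.AR

open Pool.CG

theorem PT2_nil (T : Set (Circle × Circle)) (e : Circle × Circle) : pt T [] e = thd T e := rfl

theorem PT2_false (T : Set (Circle × Circle)) (w : List Bool) (e : Circle × Circle) :
    pt T (false :: w) e = pt T w (e.1, thd T e) := rfl

theorem PT2_true (T : Set (Circle × Circle)) (w : List Bool) (e : Circle × Circle) :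
    pt T (true :: w) e = pt T w (thd T e, e.2) := rfl

/-- if `p` is between `m` and `b`, and `m` is between `a` and `b`, then `m` is between `a` and `p` -/
theorem PT2_btw (hCYO : Stmt_CYO) {a m p b : Circle} (h1 : Ccw a m b) (h2 : Ccw m p b) :
    Ccw a m p := by
  obtain ⟨rot, -, -, tr⟩ := hCYO
  exact (tr b a m p (rot _ _ _ (rot _ _ _ h1)) (rot _ _ _ (rot _ _ _ h2))).2

theorem p_PT2 (hCYO : Stmt_CYO) (hPT1 : Stmt_PT1) : Stmt_PT2 := by
  have hC := hCYO
  obtain ⟨rot, ne, tot, tr⟩ := hCYO
  intro T hT w
  induction w with
  | nil =>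
    intro w' e he
    obtain ⟨-, hm, -, h1, h2⟩ := hPT1 T hT [] e he
    rw [PT2_nil] at hm h1 h2
    change (e.1, thd T e) ∈ T at h1
    change (thd T e, e.2) ∈ T at h2
    cases w' with
    | nil =>
      rw [PT2_nil]
      refine ⟨fun h => absurd rfl (ne _ _ _ h).2.2.1, fun h => ?_⟩
      simp [wlt] at h
    | cons c u =>
      cases c with
      | false =>
        rw [PT2_nil, PT2_false]
        have h3 : Ccw e.1 (pt T u (e.1, thd T e)) (thd T e) := (hPT1 T hT u _ h1).2.1
        refine ⟨fun h => absurd h (ne _ _ _ h3).1, fun h => ?_⟩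
        simp [wlt] at h
      | true =>
        rw [PT2_nil, PT2_true]
        have h3 : Ccw (thd T e) (pt T u (thd T e, e.2)) e.2 := (hPT1 T hT u _ h2).2.1
        refine ⟨fun _ => by simp [wlt], fun _ => PT2_btw hC hm h3⟩
  | cons b v ih =>
    intro w' e he
    obtain ⟨-, hm, -, h1, h2⟩ := hPT1 T hT [] e he
    rw [PT2_nil] at hm h1 h2
    change (e.1, thd T e) ∈ T at h1
    change (thd T e, e.2) ∈ T at h2
    cases b with
    | false =>
      have hp : Ccw e.1 (pt T v (e.1, thd T e)) (thd T e) := (hPT1 T hT v _ h1).2.1
      cases w' with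
      | nil =>
        rw [PT2_nil, PT2_false]
        exact ⟨fun _ => by simp [wlt], fun _ => hp⟩
      | cons c u =>
        cases c with
        | false =>
          rw [PT2_false, PT2_false]
          have h3 := ih u (e.1, thd T e) h1
          change (Ccw e.1 _ _ ↔ _) at h3
          rw [h3]
          simp [wlt]
        | true =>
          rw [PT2_false, PT2_true]
          have hp' : Ccw (thd T e) (pt T u (thd T e, e.2)) e.2 := (hPT1 T hT u _ h2).2.1
          exact ⟨fun _ => by simp [wlt], fun _ => (tr _ _ _ _ hp (PT2_btw hC hm hp')).1⟩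
    | true =>
      have hp : Ccw (thd T e) (pt T v (thd T e, e.2)) e.2 := (hPT1 T hT v _ h2).2.1
      have hq := PT2_btw hC hm hp
      cases w' with
      | nil =>
        rw [PT2_nil, PT2_true]
        refine ⟨fun h => absurd h (ne _ _ _ hq).1, fun h => ?_⟩
        simp [wlt] at h
      | cons c u =>
        cases c with
        | false =>
          rw [PT2_true, PT2_false]
          have hp' : Ccw e.1 (pt T u (e.1, thd T e)) (thd T e) := (hPT1 T hT u _ h1).2.1
          refine ⟨fun h => absurd h (ne _ _ _ (tr _ _ _ _ hp' hq).1).1, fun h => ?_⟩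
          simp [wlt] at h
        | true =>
          rw [PT2_true, PT2_true]
          have hp' : Ccw (thd T e) (pt T u (thd T e, e.2)) e.2 := (hPT1 T hT u _ h2).2.1
          have hq' := PT2_btw hC hm hp'
          have h3 := ih u (thd T e, e.2) h2
          change (Ccw (thd T e) _ _ ↔ _) at h3
          have h4 : wlt (true :: v) (true :: u) ↔ wlt v u := by simp [wlt]
          rw [h4, ← h3]
          constructor
          · intro h
            exact (tr _ _ _ _ hq h).2
          · intro h
            rcases tot e.1 _ _ (ne _ _ _ hq).2.2.2 (ne _ _ _ h).2.2.1 (ne _ _ _ hq').2.2.2 with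
              h5 | h5
            · exact h5
            · exact absurd h (ne _ _ _ (tr _ _ _ _ hq' h5).2).1

end Pool.AR
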