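import Pool.Agent.Work.MP_ae1ff6_ar.Interface

open Topology Filter Set
open scoped ComplexConjugate

set_option autoImplicit false

namespace Pool.AR

open Pool.CG

theorem PT3_app_false (T : Set (Circle × Circle)) :
    ∀ (w : List Bool) (e : Circle × Circle),
      ed T (w ++ [false]) e = ((ed T w e).1, pt T w e)
  | [], _ => rfl
  | false :: w, e => PT3_app_false T w (e.1, thd T e)
  | true :: w, e => PT3_app_false T w (thd T e, e.2)

theorem PT3_app_true (T : Set (Circle × Circle)) :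
    ∀ (w : List Bool) (e : Circle × Circle),
      ed T (w ++ [true]) e = (pt T w e, (ed T w e).2)
  | [], _ => rfl
  | false :: w, e => PT3_app_true T w (e.1, thd T e)
  | true :: w, e => PT3_app_true T w (thd T e, e.2)

theorem p_PT3 (h1 : Stmt_ANG) (h2 : Stmt_NST) (h3 : Stmt_UNQ) (h4 : Stmt_PT1) : Stmt_PT3 := by
  intro T hT s t hst hts hT0 u v hsu huv hvt
  obtain ⟨A1, -, -, A4, -, -⟩ := h1
  have hET : ∀ a ∈ {a : Circle × Circle | ∃ w, a = ed T w (Circle.exp s, Circle.exp t)},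
      a ∈ T := by
    rintro a ⟨w, rfl⟩
    exact (h4 T hT w _ hT0).1
  have hLF : LocFin {a : Circle × Circle | ∃ w, a = ed T w (Circle.exp s, Circle.exp t)} := by
    intro ε hε
    exact (hT.fin ε hε).subset fun a ha => ⟨hET a ha.1, ha.2⟩
  have hSp : Splits {a : Circle × Circle | ∃ w, a = ed T w (Circle.exp s, Circle.exp t)} := by
    rintro x y ⟨w, hw⟩
    have hx : x = (ed T w (Circle.exp s, Circle.exp t)).1 := congrArg Prod.fst hw
    have hy : y = (ed T w (Circle.exp s, Circle.exp t)).2 := congrArg Prod.snd hw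
    refine ⟨pt T w (Circle.exp s, Circle.exp t), ?_, ⟨w ++ [false], ?_⟩, ⟨w ++ [true], ?_⟩⟩
    · rw [hx, hy]
      exact (h4 T hT w _ hT0).2.2.1
    · rw [PT3_app_false, hx]
    · rw [PT3_app_true, hy]
  obtain ⟨s', r, t', hss', hs'u, hur, hrv, hvt', ht't, hE1, hE2, hE3⟩ :=
    h2 _ hLF hSp s t hst hts ⟨[], rfl⟩ u v hsu huv hvt
  obtain ⟨w, hw⟩ := hE1
  have hP := h4 T hT w _ hT0
  have hT1 := hET _ hE2
  have hT2 := hET _ hE3
  rw [← hw] at hP
  have hpt : pt T w (Circle.exp s, Circle.exp t) = Circle.exp r :=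
    h3 T hT _ _ _ _ hP.2.2.1 (A1 s' r t' (by linarith) (by linarith) (by linarith))
      hP.2.2.2.1 hP.2.2.2.2 hT1 hT2
  refine ⟨w, r, hur, hrv, hpt, fun huvT => ?_⟩
  have e1 : s' = u := by
    by_contra hne
    have hlt : s' < u := lt_of_le_of_ne hs'u hne
    exact hT.unlinked _ _ _ _ hT1 huvT (A4 s' u r v hlt hur hrv (by linarith))
  have e2 : v = t' := by
    by_contra hne
    have hlt : v < t' := lt_of_le_of_ne hvt' hne
    exact hT.unlinked _ _ _ _ huvT hT2 (A4 u r v t' hur hrv hlt (by linarith))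
  rw [← hw, e1, e2]

end Pool.AR
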