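import Pool.Agent.Work.MP_ae1ff6_ar.Interface2

open Topology Filter Set
open scoped ComplexConjugate

set_option autoImplicit false

namespace Pool.AR

open Pool.CG

theorem QDR_empty (Γ : Subgroup H) : FinCl Γ (∅ : Set H) :=
  ⟨∅, Set.finite_empty, fun _ hg => hg.elim⟩

theorem QDR_biUnion (h1 : Stmt_FCL) (Γ : Subgroup H) {ι : Type} {V : Set ι} (hV : V.Finite) (A : ι → Set H) :
    (∀ i ∈ V, FinCl Γ (A i)) → FinCl Γ (⋃ i ∈ V, A i) := by
  induction V, hV using Set.Finite.induction_on with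
  | empty =>
    intro _
    simpa using QDR_empty Γ
  | insert _ _ ih =>
    intro h
    rw [Set.biUnion_insert]
    exact h1.2.1 Γ _ _ (h _ (Set.mem_insert _ _)) (ih fun i hi => h i (Set.mem_insert_of_mem _ hi))

/-- The filter of the sets which contain all but finitely many classes of `G / Γ`. -/
def QDR_fil (h1 : Stmt_FCL) (Γ G : Subgroup H) : Filter H where
  sets := {B | FinCl Γ {g : H | g ∈ G ∧ g ∉ B}}
  univ_sets := h1.1 Γ _ _ (fun g hg => hg.2 (Set.mem_univ g)) (QDR_empty Γ)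
  sets_of_superset := fun {x y} hx hxy => h1.1 Γ {g : H | g ∈ G ∧ g ∉ y} {g : H | g ∈ G ∧ g ∉ x}
    (fun g hg => ⟨hg.1, fun hgx => hg.2 (hxy hgx)⟩) hx
  inter_sets := fun {x y} hx hy => h1.1 Γ _ _
    (fun g hg => by
      by_cases hgx : g ∈ x
      · exact Or.inr ⟨hg.1, fun hgy => hg.2 ⟨hgx, hgy⟩⟩
      · exact Or.inl ⟨hg.1, hgx⟩) (h1.2.1 Γ _ _ hx hy)

theorem QDR_mem (h1 : Stmt_FCL) (Γ G : Subgroup H) (B : Set H) :
    B ∈ QDR_fil h1 Γ G ↔ FinCl Γ {g : H | g ∈ G ∧ g ∉ B} := Iff.rfl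

/-- The subgroup of the elements which preserve a set on both sides. -/
def QDR_stab (A : Set H) : Subgroup H where
  carrier := {h | ∀ g ∈ A, h * g ∈ A ∧ h⁻¹ * g ∈ A}
  mul_mem' := by
    intro a b ha hb g hg
    refine ⟨?_, ?_⟩
    · rw [mul_assoc]
      exact (ha _ (hb g hg).1).1
    · rw [mul_inv_rev, mul_assoc]
      exact (hb _ (ha g hg).2).2
  one_mem' := by
    intro g hg
    rw [inv_one, one_mul]
    exact ⟨hg, hg⟩
  inv_mem' := by
    intro a ha g hg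
    rw [inv_inv]
    exact ⟨(ha g hg).2, (ha g hg).1⟩

theorem QDR_const (h1 : Stmt_FCL) (Γ G : Subgroup H) (S : Set H) (hΓG : Γ ≤ G)
    (hn : ∀ g ∈ G, ∀ γ ∈ Γ, g * γ * g⁻¹ ∈ Γ) (hO : OneEnd Γ G S) (ι : Type) (φ : H → ι)
    (hφ : ∀ γ ∈ Γ, ∀ g ∈ G, φ (γ * g) = φ g)
    (hE : ∀ s ∈ S, FinCl Γ {g : H | g ∈ G ∧ φ (s * g) ≠ φ g}) :
    ∃ i, ∀ᶠ g in QDR_fil h1 Γ G, φ g = i := by
  classical
  obtain ⟨hSf, hSG, hgen, hinf, hend⟩ := hO
  choose! F hFf hF using hE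
  set V : Set ι := ⋃ s ∈ S, (φ '' (F s) ∪ (fun h => φ (s * h)) '' (F s)) with hV
  have hVf : V.Finite := hSf.biUnion fun s hs => ((hFf s hs).image _).union ((hFf s hs).image _)
  have hval : ∀ s ∈ S, ∀ g ∈ G, φ (s * g) ≠ φ g → φ g ∈ V ∧ φ (s * g) ∈ V := by
    intro s hs g hg hne
    obtain ⟨h, hh, hγ⟩ := hF s hs g ⟨hg, hne⟩
    have hhG : h ∈ G := by
      have h2 : h = g * (h⁻¹ * g)⁻¹ := by group
      rw [h2]
      exact G.mul_mem hg (G.inv_mem (hΓG hγ))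
    have h3 := hn h hhG _ hγ
    have e1 : φ g = φ h := by
      have h4 := hφ _ h3 h hhG
      rw [← h4]
      congr 1
      group
    have e2 : φ (s * g) = φ (s * h) := by
      have h4 := hφ _ (hn s (hSG hs) _ h3) (s * h) (G.mul_mem (hSG hs) hhG)
      rw [← h4]
      congr 1
      group
    refine ⟨?_, ?_⟩
    · rw [e1]
      exact Set.mem_biUnion hs (Or.inl ⟨h, hh, rfl⟩)
    · rw [e2]
      exact Set.mem_biUnion hs (Or.inr ⟨h, hh, rfl⟩)
  by_cases hA : ∃ g₀ ∈ G, φ g₀ ∉ V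
  · obtain ⟨g₀, hg₀, hi⟩ := hA
    refine ⟨φ g₀, ?_⟩
    have hK : G ≤ QDR_stab {g : H | g ∈ G ∧ φ g = φ g₀} := by
      refine hgen.trans (sup_le ?_ ?_)
      · intro γ hγ g hg
        refine ⟨⟨G.mul_mem (hΓG hγ) hg.1, ?_⟩, ⟨G.mul_mem (hΓG (Γ.inv_mem hγ)) hg.1, ?_⟩⟩
        · rw [hφ γ hγ g hg.1]
          exact hg.2
        · rw [hφ _ (Γ.inv_mem hγ) g hg.1]
          exact hg.2
      · rw [Subgroup.closure_le]
        intro s hs g hg
        have hsG := hSG hs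
        refine ⟨⟨G.mul_mem hsG hg.1, ?_⟩, ⟨G.mul_mem (G.inv_mem hsG) hg.1, ?_⟩⟩
        · by_contra hne
          have hne' : φ (s * g) ≠ φ g := by
            rw [hg.2]
            exact hne
          have := (hval s hs g hg.1 hne').1
          rw [hg.2] at this
          exact hi this
        · by_contra hne
          have hg' : s⁻¹ * g ∈ G := G.mul_mem (G.inv_mem hsG) hg.1
          have hsg : s * (s⁻¹ * g) = g := by group
          have hne' : φ (s * (s⁻¹ * g)) ≠ φ (s⁻¹ * g) := by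
            rw [hsg, hg.2]
            exact fun h => hne h.symm
          have := (hval s hs _ hg' hne').2
          rw [hsg, hg.2] at this
          exact hi this
    have hall : ∀ g ∈ G, φ g = φ g₀ := by
      intro g hg
      have h2 := (hK (G.mul_mem hg (G.inv_mem hg₀)) g₀ ⟨hg₀, rfl⟩).1
      have h3 : g * g₀⁻¹ * g₀ = g := by group
      rw [h3] at h2
      exact h2.2
    change FinCl Γ {g : H | g ∈ G ∧ g ∉ {x | φ x = φ g₀}}
    exact h1.1 Γ _ _ (fun g hg => hg.2 (hall g hg.1)) (QDR_empty Γ)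
  · push Not at hA
    have hex : ∃ i ∈ V, ¬ FinCl Γ {g : H | g ∈ G ∧ φ g = i} := by
      by_contra hcon
      push Not at hcon
      apply hinf
      refine h1.1 Γ _ _ ?_ (QDR_biUnion h1 Γ hVf (fun i => {g : H | g ∈ G ∧ φ g = i}) hcon)
      intro g hg
      exact Set.mem_biUnion (hA g hg) ⟨hg, rfl⟩
    obtain ⟨i, _, hi⟩ := hex
    refine ⟨i, ?_⟩
    have h2 := hend {g : H | g ∈ G ∧ φ g = i} (fun g hg => hg.1)
      (fun γ hγ g hg => ⟨G.mul_mem (hΓG hγ) hg.1, by rw [hφ γ hγ g hg.1]; exact hg.2⟩)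
      (fun s hs => by
        refine h1.1 Γ _ _ ?_ ⟨F s, hFf s hs, hF s hs⟩
        intro g hg
        refine ⟨hg.1, fun heq => hg.2 ?_⟩
        constructor
        · intro h3
          exact ⟨hg.1, by rw [← heq]; exact h3.2⟩
        · intro h3
          exact ⟨G.mul_mem (hSG hs) hg.1, by rw [heq]; exact h3.2⟩)
    have h3 := h2.resolve_left hi
    change FinCl Γ {g : H | g ∈ G ∧ g ∉ {x | φ x = i}}
    refine h1.1 Γ _ _ ?_ h3
    intro g hg
    exact ⟨hg.1, fun h4 => hg.2 h4.2⟩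

theorem p_QDR (h1 : Stmt_FCL) : Stmt_QDR := by
  intro Γ G S hΓG hn hO
  refine ⟨QDR_fil h1 Γ G, ?_, ?_, ?_, ?_⟩
  · rw [Filter.neBot_iff]
    intro h
    have h2 : (∅ : Set H) ∈ QDR_fil h1 Γ G := Filter.empty_mem_iff_bot.2 h
    exact hO.2.2.2.1 (h1.1 Γ (G : Set H) {g : H | g ∈ G ∧ g ∉ (∅ : Set H)}
      (fun g hg => ⟨hg, fun h => h.elim⟩) h2)
  · change FinCl Γ {g : H | g ∈ G ∧ g ∉ {x | x ∈ G}}
    exact h1.1 Γ _ _ (fun g hg => hg.2 hg.1) (QDR_empty Γ)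
  · intro g₀ hg₀ B hB
    change FinCl Γ {g : H | g ∈ G ∧ g ∉ (fun g => g * g₀) ⁻¹' B}
    refine h1.1 Γ _ _ ?_ (h1.2.2.2.2.1 Γ G _ hn hB g₀ hg₀)
    intro g hg
    exact ⟨G.mul_mem hg.1 hg₀, hg.2⟩
  · intro ι φ hφ hE
    exact QDR_const h1 Γ G S hΓG hn hO ι φ hφ hE

end Pool.AR
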