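import Pool.Agent.Work.MP_ae1ff6_ar.Interface

/-! # Block RIG: rigidity of ideal triangulations -/

open Topology Filter Set
open scoped ComplexConjugate

set_option autoImplicit false

namespace Pool.AR

open Pool.CG

theorem RIG_fix (κ : ℝ ≃o ℝ) (a b ζ : ℝ) (ha : κ a = a) (hb : κ b = b) (h1 : a < ζ) (h2 : ζ < b)
    (hζ : κ ζ ≠ ζ) : ∃ u v, a ≤ u ∧ u < v ∧ v ≤ b ∧ κ u = u ∧ κ v = v ∧
      ∀ x, u < x → x < v → κ x ≠ x := by
  have hc : IsClosed {x : ℝ | κ x = x} := isClosed_eq κ.continuous continuous_id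
  have hc1 : IsClosed (Icc a ζ ∩ {x : ℝ | κ x = x}) := isClosed_Icc.inter hc
  have hc2 : IsClosed (Icc ζ b ∩ {x : ℝ | κ x = x}) := isClosed_Icc.inter hc
  have hn1 : (Icc a ζ ∩ {x : ℝ | κ x = x}).Nonempty := ⟨a, ⟨le_rfl, h1.le⟩, ha⟩
  have hn2 : (Icc ζ b ∩ {x : ℝ | κ x = x}).Nonempty := ⟨b, ⟨h2.le, le_rfl⟩, hb⟩
  have hb1 : BddAbove (Icc a ζ ∩ {x : ℝ | κ x = x}) := ⟨ζ, fun x hx => hx.1.2⟩
  have hb2 : BddBelow (Icc ζ b ∩ {x : ℝ | κ x = x}) := ⟨ζ, fun x hx => hx.1.1⟩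
  have m1 := hc1.csSup_mem hn1 hb1
  have m2 := hc2.csInf_mem hn2 hb2
  set u := sSup (Icc a ζ ∩ {x : ℝ | κ x = x}) with hu
  set v := sInf (Icc ζ b ∩ {x : ℝ | κ x = x}) with hv
  have hκu : κ u = u := m1.2
  have hκv : κ v = v := m2.2
  have huζ : u < ζ := lt_of_le_of_ne m1.1.2 fun h => hζ (by rw [← h]; exact hκu)
  have hζv : ζ < v := lt_of_le_of_ne m2.1.1 fun h => hζ (by rw [h]; exact hκv)
  refine ⟨u, v, m1.1.1, huζ.trans hζv, m2.1.2, hκu, hκv, fun x hx1 hx2 hx => ?_⟩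
  rcases le_total x ζ with h | h
  · have h3 : x ≤ u := le_csSup hb1 ⟨⟨m1.1.1.trans hx1.le, h⟩, hx⟩
    exact absurd hx1 (not_lt.2 h3)
  · have h3 : v ≤ x := csInf_le hb2 ⟨⟨h, hx2.le.trans m2.1.2⟩, hx⟩
    exact absurd hx2 (not_lt.2 h3)

theorem RIG_main (hANG : Stmt_ANG) (hLFO : Stmt_LFO) (hNST : Stmt_NST)
    (T : Set (Circle × Circle)) (g : H) (hT : Tri T) (hg : Ori g)
    (hgT : ∀ x y, (x, y) ∈ T → (g x, g y) ∈ T) (s₀ t₀ ζ : ℝ) (h0 : s₀ < t₀)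
    (h1 : t₀ < s₀ + 2 * Real.pi) (he : (Circle.exp s₀, Circle.exp t₀) ∈ T)
    (f1 : g (Circle.exp s₀) = Circle.exp s₀) (f2 : g (Circle.exp t₀) = Circle.exp t₀)
    (hζ1 : s₀ < ζ) (hζ2 : ζ < t₀) : g (Circle.exp ζ) = Circle.exp ζ := by
  obtain ⟨-, -, -, a4, -, -⟩ := hANG
  obtain ⟨κ, k1, k2, -, k4⟩ := hLFO g s₀ t₀ hg h0 h1 f1 f2
  by_contra hne
  have hζ : κ ζ ≠ ζ := by
    intro h
    apply hne
    rw [← k4 ζ hζ1.le (by linarith), h]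
  obtain ⟨u, v, hu, huv, hv, ku, kv, hfix⟩ := RIG_fix κ s₀ t₀ ζ k1 k2 hζ1 hζ2 hζ
  obtain ⟨s, r, t, hs1, hs2, hr1, hr2, ht1, ht2, -, e2, e3⟩ :=
    hNST T hT.fin hT.third s₀ t₀ h0 h1 he u v hu huv hv
  have ms : ∀ {x y : ℝ}, x ≤ y → κ x ≤ κ y := fun h => κ.monotone h
  have mss : ∀ {x y : ℝ}, x < y → κ x < κ y := fun h => κ.strictMono h
  have hκs1 : s₀ ≤ κ s := by rw [← k1]; exact ms hs1
  have hκs2 : κ s ≤ u := by
    have := ms hs2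
    rwa [ku] at this
  have hκt1 : v ≤ κ t := by
    have := ms ht1
    rwa [kv] at this
  have hκt2 : κ t ≤ t₀ := by
    have := ms ht2
    rwa [k2] at this
  have hκr1 : u < κ r := by
    have := mss hr1
    rwa [ku] at this
  have hκr2 : κ r < v := by
    have := mss hr2
    rwa [kv] at this
  have g2 := hgT _ _ e2
  have g3 := hgT _ _ e3
  rw [← k4 s hs1 (by linarith), ← k4 r (by linarith) (by linarith)] at g2
  rw [← k4 r (by linarith) (by linarith), ← k4 t (by linarith) (by linarith)] at g3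
  rcases lt_or_gt_of_ne (hfix r hr1 hr2) with hlt | hgt
  · exact hT.unlinked _ _ _ _ e2 g3 (a4 s (κ r) r (κ t) (by linarith) hlt (by linarith)
      (by linarith))
  · exact hT.unlinked _ _ _ _ g2 e3 (a4 (κ s) r (κ r) t (by linarith) hgt (by linarith)
      (by linarith))

theorem p_RIG (hANG : Stmt_ANG) (hLFO : Stmt_LFO) (hNST : Stmt_NST) : Stmt_RIG := by
  intro T g hT hg hgT x₀ y₀ he f1 f2
  obtain ⟨s, t, hst, hts, rfl, rfl⟩ := hANG.2.2.1 x₀ y₀ (hT.ne _ _ he)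
  have hper : Circle.exp (s + 2 * Real.pi) = Circle.exp s := Circle.exp_add_two_pi s
  refine Homeomorph.ext fun z => ?_
  show g z = z
  obtain ⟨w, hw⟩ : ∃ w : ℝ, Circle.exp w = z := ⟨Complex.arg z, Circle.exp_arg z⟩
  have hpi : (0 : ℝ) < 2 * Real.pi := by positivity
  obtain ⟨ζ, hζ1, hζ2, hζ⟩ : ∃ ζ, s ≤ ζ ∧ ζ < s + 2 * Real.pi ∧ Circle.exp ζ = z := by
    have h1 := toIcoMod_mem_Ico hpi s w
    refine ⟨toIcoMod hpi s w, h1.1, h1.2, ?_⟩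
    rw [← hw]
    have h2 : toIcoMod hpi s w = w - toIcoDiv hpi s w • (2 * Real.pi) := rfl
    rw [h2, sub_eq_add_neg, ← neg_smul]
    rw [Circle.exp_eq_exp]
    exact ⟨-toIcoDiv hpi s w, by simp⟩
  rcases hζ1.eq_or_lt with h | h
  · rw [← hζ, ← h]
    exact f1
  rcases lt_trichotomy ζ t with h' | h' | h'
  · rw [← hζ]
    exact RIG_main hANG hLFO hNST T g hT hg hgT s t ζ hst hts he f1 f2 h h'
  · rw [← hζ, h']
    exact f2
  · rw [← hζ]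
    refine RIG_main hANG hLFO hNST T g hT hg hgT t (s + 2 * Real.pi) ζ hts (by linarith) ?_ f2 ?_
      h' hζ2
    · rw [hper]
      exact hT.symm _ _ he
    · rw [hper]
      exact f1

end Pool.AR
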