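import Pool.Agent.Work.MP_ae1ff6_ar.Interface

/-!
# Block STB (helper54): an element which fixes a cusp and another point is trivial
-/

open Topology Filter Set
open scoped ComplexConjugate

set_option autoImplicit false

namespace Pool.AR

open Pool.CG

theorem STB_inj (θ : ℝ) : InjOn Circle.exp (Ico θ (θ + 2 * Real.pi)) :=
  Circle.exp_injOn_Ico (by linarith)

theorem STB_pow {k : H} {z : Circle} (h : k z = z) (n : ℕ) : (k ^ n) z = z := by
  induction n with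
  | zero => rfl
  | succ n ih =>
    rw [pow_succ']
    show k ((k ^ n) z) = z
    rw [ih, h]

theorem STB_inv {k : H} {z : Circle} (h : k z = z) : k⁻¹ z = z := by
  show k.symm z = z
  rw [Homeomorph.symm_apply_eq, h]

/-- the positions of the iterates -/
theorem STB_iter (κ : ℝ → ℝ) (hκ : StrictMono κ) (s ξ : ℝ) (h2 : κ s = s)
    (hd : (ξ < s ∧ ξ < κ ξ) ∨ (s < ξ ∧ κ ξ < ξ)) :
    Function.Injective (fun n : ℕ => κ^[n] ξ) ∧
      ∀ n : ℕ, min s ξ ≤ κ^[n] ξ ∧ κ^[n] ξ ≤ max s ξ := by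
  have hfix : ∀ n : ℕ, κ^[n] s = s := fun n => Function.iterate_fixed h2 n
  rcases hd with ⟨h, h'⟩ | ⟨h, h'⟩
  · have hm : StrictMono fun n : ℕ => κ^[n] ξ := hκ.strictMono_iterate_of_lt_map h'
    refine ⟨hm.injective, fun n => ⟨?_, ?_⟩⟩
    · exact (min_le_right _ _).trans (hm.monotone (Nat.zero_le n))
    · have h3 := (hκ.iterate n) h
      rw [hfix n] at h3
      exact h3.le.trans (le_max_left _ _)
  · have hm : StrictAnti fun n : ℕ => κ^[n] ξ := hκ.strictAnti_iterate_of_map_lt h'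
    refine ⟨hm.injective, fun n => ⟨?_, ?_⟩⟩
    · have h3 := (hκ.iterate n) h
      rw [hfix n] at h3
      exact (min_le_left _ _).trans h3.le
    · exact (hm.antitone (Nat.zero_le n)).trans (le_max_right _ _)

theorem STB_core (hPRB : Stmt_PRB) (Γ G : Subgroup H) (hΓ : FirstKind Γ)
    (hnor : ∀ g ∈ G, ∀ γ ∈ Γ, g * γ * g⁻¹ ∈ Γ) (k : H) (hk : k ∈ G) (κ : ℝ → ℝ)
    (hκ : StrictMono κ) (θ s ξ : ℝ) (hθs : θ < s) (hs2 : s < θ + 2 * Real.pi) (h1 : κ θ = θ)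
    (h2 : κ s = s)
    (hl : ∀ x, θ ≤ x → x ≤ θ + 2 * Real.pi → Circle.exp (κ x) = k (Circle.exp x))
    (hξ1 : θ < ξ) (hξ2 : ξ < θ + 2 * Real.pi)
    (hd : (ξ < s ∧ ξ < κ ξ) ∨ (s < ξ ∧ κ ξ < ξ)) (p : H) (hp : p ∈ Γ)
    (hfix : ∀ z, p z = z ↔ z = Circle.exp θ) (hy : p (Circle.exp s) = Circle.exp ξ) : False := by
  obtain ⟨hinj, hmem⟩ := STB_iter κ hκ s ξ h2 hd
  have ha : θ < min s ξ := lt_min hθs hξ1
  have hb : max s ξ < θ + 2 * Real.pi := max_lt hs2 hξ2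
  have hab : min s ξ ≤ max s ξ := min_le_max
  have hku : k (Circle.exp θ) = Circle.exp θ := by
    rw [← hl θ le_rfl (by linarith), h1]
  have hkv : k (Circle.exp s) = Circle.exp s := by
    rw [← hl s hθs.le hs2.le, h2]
  have hexp : ∀ n : ℕ, Circle.exp (κ^[n] ξ) = (k ^ n) (Circle.exp ξ) := by
    intro n
    induction n with
    | zero => rfl
    | succ n ih =>
      rw [Function.iterate_succ_apply', hl _ (ha.le.trans (hmem n).1) ((hmem n).2.trans hb.le),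
        ih, pow_succ']
      rfl
  obtain ⟨ρ, hρ, hρ2⟩ : ∃ ρ : ℝ, 0 < ρ ∧ ∀ x, min s ξ ≤ x → x ≤ max s ξ →
      ρ ≤ dist (Circle.exp x) (Circle.exp θ) := by
    have hc : ContinuousOn (fun x : ℝ => dist (Circle.exp x) (Circle.exp θ))
        (Icc (min s ξ) (max s ξ)) := by fun_prop
    obtain ⟨x0, hx0, hmin⟩ := isCompact_Icc.exists_isMinOn (nonempty_Icc.2 hab) hc
    refine ⟨dist (Circle.exp x0) (Circle.exp θ), dist_pos.2 fun h => ?_, fun x hx1 hx2 =>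
      hmin ⟨hx1, hx2⟩⟩
    have h3 := STB_inj θ ⟨ha.le.trans hx0.1, hx0.2.trans_lt hb⟩ ⟨le_rfl, by linarith⟩ h
    linarith [hx0.1]
  have hvu : Circle.exp s ≠ Circle.exp θ := by
    intro h
    have h3 := STB_inj θ ⟨hθs.le, hs2⟩ ⟨le_rfl, by linarith⟩ h
    linarith
  have hdvu : 0 < dist (Circle.exp s) (Circle.exp θ) := dist_pos.2 hvu
  set c : ℕ → H := fun n => k ^ n * p * (k ^ n)⁻¹ with hc
  have hcΓ : ∀ n, c n ∈ Γ := fun n => hnor _ (G.pow_mem hk n) _ hp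
  have happ : ∀ (n : ℕ) (z : Circle), c n z = (k ^ n) (p ((k ^ n)⁻¹ z)) := fun n z => rfl
  have hcv : ∀ n, c n (Circle.exp s) = Circle.exp (κ^[n] ξ) := by
    intro n
    rw [happ, STB_inv (STB_pow hkv n), hy, hexp]
  have hcfix : ∀ n z, c n z = z ↔ z = Circle.exp θ := by
    intro n z
    rw [happ]
    constructor
    · intro h
      have h3 : (k ^ n) ((k ^ n)⁻¹ z) = z := (k ^ n).apply_symm_apply z
      have h4 : p ((k ^ n)⁻¹ z) = (k ^ n)⁻¹ z := by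
        apply (k ^ n).injective
        rw [h, h3]
      rw [← h3, (hfix _).1 h4]
      exact STB_pow hku n
    · rintro rfl
      rw [STB_inv (STB_pow hku n), (hfix _).2 rfl]
      exact STB_pow hku n
  have hcinj : Function.Injective c := by
    intro n m h
    apply hinj
    have h3 : Circle.exp (κ^[n] ξ) = Circle.exp (κ^[m] ξ) := by rw [← hcv, ← hcv, h]
    exact STB_inj θ ⟨ha.le.trans (hmem n).1, (hmem n).2.trans_lt hb⟩
      ⟨ha.le.trans (hmem m).1, (hmem m).2.trans_lt hb⟩ h3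
  obtain ⟨ε₀, hε₀, hdis⟩ := hΓ.discrete
  obtain ⟨g, hg, g', hg', hne, hz⟩ := Pool.GC.pig (Set.range c)
    ((1 + dist (Circle.exp s) (Circle.exp θ) / ρ) / dist (Circle.exp s) (Circle.exp θ))
    (Set.infinite_range_of_injective hcinj) (by
      rintro _ ⟨n, rfl⟩
      obtain ⟨α, β, hpar, hβ⟩ := hPRB (c n) (Circle.exp θ) (hΓ.mob _ (hcΓ n)) (hcfix n)
      refine ⟨α, β, hpar, ?_⟩
      rw [le_div_iff₀ hdvu]
      refine (hβ _ hvu).trans ?_
      have h3 : ρ ≤ dist (c n (Circle.exp s)) (Circle.exp θ) := by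
        rw [hcv]
        exact hρ2 _ (hmem n).1 (hmem n).2
      have h4 : dist (Circle.exp s) (Circle.exp θ) / dist (c n (Circle.exp s)) (Circle.exp θ) ≤
          dist (Circle.exp s) (Circle.exp θ) / ρ :=
        div_le_div_of_nonneg_left hdvu.le hρ h3
      linarith) ε₀ hε₀
  obtain ⟨n, rfl⟩ := hg
  obtain ⟨m, rfl⟩ := hg'
  have h5 : (c n)⁻¹ * c m = 1 := hdis _ (Γ.mul_mem (Γ.inv_mem (hcΓ n)) (hcΓ m)) hz
  exact hne (inv_mul_eq_one.1 h5)

theorem p_STB (_hANG : Stmt_ANG) (hLFO : Stmt_LFO) (hPRB : Stmt_PRB) (hFXT : Stmt_FXT) :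
    Stmt_STB := by
  intro Γ G hΓ hle hnor hconv k hk hori u v hu huv hku hkv
  obtain ⟨p, hp, hfix⟩ := hu
  have hpu : p u = u := (hfix u).2 rfl
  by_contra hk1
  have hyu : p v ≠ u := fun h => huv (p.injective (hpu.trans h.symm))
  have hyv : p v ≠ v := fun h => huv ((hfix v).1 h).symm
  have hky : k (p v) ≠ p v := fun h =>
    hk1 (hFXT G k u v (p v) hconv hk hori huv (Ne.symm hyv) (Ne.symm hyu) hku hkv h)
  obtain ⟨θ, s, hθs, hs2, rfl, rfl⟩ := LOP_param u v huv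
  obtain ⟨κ, h1, h2, h3, hl⟩ := hLFO k θ s hori hθs hs2 hku hkv
  obtain ⟨ξ, hξ, hξy⟩ := ARC_surj θ (p (Circle.exp s))
  have hξ1 : θ < ξ := by
    rcases lt_or_eq_of_le hξ.1 with h | h
    · exact h
    · exact absurd (h ▸ hξy).symm hyu
  have hξs : ξ ≠ s := fun h => hyv (h ▸ hξy).symm
  have hκξ : κ ξ ≠ ξ := by
    intro h
    apply hky
    rw [← hξy, ← hl ξ hξ.1 hξ.2.le, h]
  have hg1 : ∀ x, θ ≤ x → x ≤ θ + 2 * Real.pi → Circle.exp (κ.symm x) = k⁻¹ (Circle.exp x) := by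
    intro x hx1 hx2
    have h5 : θ ≤ κ.symm x := by
      rw [← κ.le_iff_le, h1, κ.apply_symm_apply]
      exact hx1
    have h6 : κ.symm x ≤ θ + 2 * Real.pi := by
      rw [← κ.le_iff_le, h3, κ.apply_symm_apply]
      exact hx2
    have h7 := hl _ h5 h6
    rw [κ.apply_symm_apply] at h7
    rw [h7]
    exact (k.symm_apply_apply _).symm
  have hs1 : κ.symm θ = θ := by rw [κ.symm_apply_eq, h1]
  have hs2' : κ.symm s = s := by rw [κ.symm_apply_eq, h2]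
  have hgo : ((ξ < s ∧ ξ < κ ξ) ∨ (s < ξ ∧ κ ξ < ξ)) ∨
      ((ξ < s ∧ ξ < κ.symm ξ) ∨ (s < ξ ∧ κ.symm ξ < ξ)) := by
    have h8 : κ ξ < ξ → ξ < κ.symm ξ := fun h => by
      rw [← κ.lt_iff_lt, κ.apply_symm_apply]
      exact h
    have h9 : ξ < κ ξ → κ.symm ξ < ξ := fun h => by
      rw [← κ.lt_iff_lt, κ.apply_symm_apply]
      exact h
    rcases lt_or_gt_of_ne hξs with h | h <;> rcases lt_or_gt_of_ne hκξ with h' | h'
    · exact Or.inr (Or.inl ⟨h, h8 h'⟩)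
    · exact Or.inl (Or.inl ⟨h, h'⟩)
    · exact Or.inl (Or.inr ⟨h, h'⟩)
    · exact Or.inr (Or.inr ⟨h, h9 h'⟩)
  rcases hgo with h | h
  · exact STB_core hPRB Γ G hΓ hnor k hk κ κ.strictMono θ s ξ hθs hs2 h1 h2 hl hξ1 hξ.2 h p hp
      hfix hξy.symm
  · exact STB_core hPRB Γ G hΓ hnor k⁻¹ (G.inv_mem hk) κ.symm κ.symm.strictMono θ s ξ hθs hs2
      hs1 hs2' hg1 hξ1 hξ.2 h p hp hfix hξy.symm

end Pool.AR
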