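import Pool.Agent.Work.MP_ae1ff6_ar.Interface3

/-!
# Block STI: finite stabilisers (helper46)
-/

open Topology Filter Set
open scoped ComplexConjugate

set_option autoImplicit false

namespace Pool.AR

open Pool.CG

theorem STI_near (g : H) (e e' : Circle × Circle) (h : Meets g e.1 e.2 e'.1 e'.2) :
    Near (g⁻¹ e'.1, g⁻¹ e'.2) e := by
  have hs : ∀ z : Circle, g⁻¹ (g z) = z := fun z => g.symm_apply_apply z
  rcases h with h | h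
  · left
    have h2 := Pool.GC.lhi g⁻¹ _ _ _ _ h
    rw [hs, hs] at h2
    exact (Pool.GC.q_SYM _ _ _ _ h2).1
  · right
    rcases Set.pair_eq_pair_iff.1 h with ⟨h1, h2⟩ | ⟨h1, h2⟩
    · left
      rw [← h1, ← h2, hs, hs]
    · right
      rw [← h1, ← h2, hs, hs]

theorem p_STI (hFCL : Stmt_FCL) (hFXU : Stmt_FXU) : Stmt_STI := by
  intro Γ G O F S hsys hdisp e he e' he' hst
  obtain ⟨-, -, -, -, f5, -⟩ := hFCL
  obtain ⟨γ, hγ, hax⟩ := hsys.cur.axis e.1 e.2 he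
  obtain ⟨X, hX, h1⟩ := hFXU Γ G O F S hsys hdisp e he γ hγ hax
  have hA : ∀ x : Circle × Circle, ∃ K : Set H, K.Finite ∧ ∀ g ∈ G, g x.1 = e'.1 → g x.2 = e'.2 →
      ∃ h ∈ K, h⁻¹ * g ∈ Γ := by
    intro x
    by_cases hx : ∃ h ∈ G, h x.1 = e'.1 ∧ h x.2 = e'.2
    · obtain ⟨h, hG, hx1, hx2⟩ := hx
      obtain ⟨K, hK, h2⟩ := f5 Γ G (Sta G e') hsys.nor hst h⁻¹ (G.inv_mem hG)
      refine ⟨K, hK, fun g hg hg1 hg2 => h2 g ?_⟩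
      have hs : ∀ z : Circle, h⁻¹ (h z) = z := fun z => h.symm_apply_apply z
      refine ⟨G.mul_mem hg (G.inv_mem hG), ?_, ?_⟩
      · change g (h⁻¹ e'.1) = e'.1
        rw [← hx1, hs, hx1, hg1]
      · change g (h⁻¹ e'.2) = e'.2
        rw [← hx2, hs, hx2, hg2]
    · exact ⟨∅, Set.finite_empty, fun g hg hg1 hg2 => absurd ⟨g, hg, hg1, hg2⟩ hx⟩
  choose K hK1 hK2 using hA
  refine ⟨⋃ x ∈ X, K x, hX.biUnion fun x _ => hK1 x, ?_⟩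
  rintro g ⟨hg, hm⟩
  have hs : ∀ z : Circle, g (g⁻¹ z) = z := fun z => g.apply_symm_apply z
  obtain ⟨m, hmX⟩ := h1 g hg (g⁻¹ e'.1, g⁻¹ e'.2) (by
    change (g (g⁻¹ e'.1), g (g⁻¹ e'.2)) ∈ O
    rw [hs, hs]
    exact he') (STI_near g e e' hm)
  have hγm : (γ ^ m) ∈ Γ := Γ.zpow_mem hγ m
  have hs2 : ∀ z : Circle, (γ ^ m)⁻¹ ((γ ^ m) z) = z := fun z => (γ ^ m).symm_apply_apply z
  obtain ⟨h, hh, h3⟩ := hK2 ((γ ^ m) (g⁻¹ e'.1), (γ ^ m) (g⁻¹ e'.2)) (g * (γ ^ m)⁻¹) (G.mul_mem hg (G.inv_mem (hsys.le hγm)))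
    (by
      change g ((γ ^ m)⁻¹ ((γ ^ m) (g⁻¹ e'.1))) = e'.1
      rw [hs2, hs])
    (by
      change g ((γ ^ m)⁻¹ ((γ ^ m) (g⁻¹ e'.2))) = e'.2
      rw [hs2, hs])
  refine ⟨h, Set.mem_biUnion hmX hh, ?_⟩
  have h4 : h⁻¹ * g = h⁻¹ * (g * (γ ^ m)⁻¹) * (γ ^ m) := by group
  rw [h4]
  exact Γ.mul_mem h3 hγm

end Pool.AR
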