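import Pool.Agent.Work.MP_ae1ff6_ar.Interface

/-!
# Block TRF: the Farey triangulation
-/

set_option autoImplicit false

open Topology Filter Set

namespace Pool.AR

open Pool.CG

theorem TRF_ne0 {p q r s : ℤ} (h : p * s - q * r = 1 ∨ p * s - q * r = -1) :
    (((p : ℝ) ≠ 0 ∨ (q : ℝ) ≠ 0) ∧ ((r : ℝ) ≠ 0 ∨ (s : ℝ) ≠ 0)) := by
  constructor
  · by_contra hc
    push Not at hc
    obtain ⟨h1, h2⟩ := hc
    have h1' : p = 0 := by exact_mod_cast h1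
    have h2' : q = 0 := by exact_mod_cast h2
    subst h1'; subst h2'
    simp at h
  · by_contra hc
    push Not at hc
    obtain ⟨h1, h2⟩ := hc
    have h1' : r = 0 := by exact_mod_cast h1
    have h2' : s = 0 := by exact_mod_cast h2
    subst h1'; subst h2'
    simp at h

theorem TRF_sq {D : ℤ} (h : D = 1 ∨ D = -1) : D * D = 1 := by
  rcases h with rfl | rfl <;> norm_num

theorem TRF_one_le {p q : ℤ} (h : (p : ℝ) ≠ 0 ∨ (q : ℝ) ≠ 0) : (1 : ℝ) ≤ (p : ℝ) ^ 2 + (q : ℝ) ^ 2 := by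
  have h1 : (1 : ℤ) ≤ p ^ 2 + q ^ 2 := by
    rcases h with h | h
    · have hp : p ≠ 0 := by exact_mod_cast h
      have := Int.one_le_abs hp
      nlinarith [sq_abs p, sq_nonneg q, abs_nonneg p]
    · have hq : q ≠ 0 := by exact_mod_cast h
      have := Int.one_le_abs hq
      nlinarith [sq_abs q, sq_nonneg p, abs_nonneg q]
  exact_mod_cast h1

theorem TRF_bd {p : ℤ} {ε : ℝ} (hε : 0 < ε) (h : ε ^ 2 * (p : ℝ) ^ 2 ≤ 4) :
    p ∈ Set.Icc (-(⌈2 / ε⌉₊ : ℤ)) (⌈2 / ε⌉₊ : ℤ) := by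
  have h1 : |(p : ℝ)| ≤ 2 / ε := by
    rw [le_div_iff₀ hε]
    have h2 : (|(p : ℝ)| * ε) ^ 2 ≤ 2 ^ 2 := by
      rw [mul_pow, sq_abs]; nlinarith
    exact abs_le_of_sq_le_sq' h2 (by norm_num) |>.2
  have h3 : |(p : ℝ)| ≤ (⌈2 / ε⌉₊ : ℝ) := h1.trans (Nat.le_ceil _)
  have h4 := abs_le.1 h3
  constructor
  · have : (-(⌈2 / ε⌉₊ : ℤ) : ℝ) ≤ (p : ℝ) := by exact_mod_cast h4.1
    exact_mod_cast this
  · have : (p : ℝ) ≤ ((⌈2 / ε⌉₊ : ℤ) : ℝ) := by exact_mod_cast h4.2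
    exact_mod_cast this

theorem p_TRF (hFA1 : Stmt_FA1) (hFRU : Stmt_FRU) : Stmt_TRF := by
  obtain ⟨_, _, _, h4, h5, h6⟩ := hFA1
  refine ⟨?_, ?_, hFRU, ?_, ?_, ?_⟩
  · rintro x y ⟨p, q, r, s, hD, he⟩
    obtain ⟨rfl, rfl⟩ := Prod.mk.inj he
    exact ⟨r, s, p, q, by rcases hD with h | h; · right; linarith
                          · left; linarith, rfl⟩
  · rintro x y ⟨p, q, r, s, hD, he⟩
    obtain ⟨rfl, rfl⟩ := Prod.mk.inj he
    obtain ⟨hv, hw⟩ := TRF_ne0 hD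
    intro hc
    have h := (h4 _ _ _ _ hv hw).1 hc
    have h' : p * s - q * r = 0 := by exact_mod_cast h
    omega
  · rintro x y ⟨p, q, r, s, hD, he⟩
    obtain ⟨rfl, rfl⟩ := Prod.mk.inj he
    obtain ⟨hv, hw⟩ := TRF_ne0 hD
    set D : ℤ := p * s - q * r with hDdef
    have hDD : D * D = 1 := TRF_sq hD
    have e1 : p * (q - D * s) - q * (p - D * r) = -1 := by
      have : p * (q - D * s) - q * (p - D * r) = -(D * D) := by rw [hDdef]; ring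
      rw [this, hDD]
    have e2 : (p - D * r) * s - (q - D * s) * r = D := by rw [hDdef]; ring
    have hz : ((p - D * r : ℤ) : ℝ) ≠ 0 ∨ ((q - D * s : ℤ) : ℝ) ≠ 0 :=
      (TRF_ne0 (p := p) (q := q) (r := p - D * r) (s := q - D * s) (Or.inr e1)).2
    refine ⟨cusp ((p - D * r : ℤ) : ℝ) ((q - D * s : ℤ) : ℝ), ?_, ?_, ?_⟩
    · refine (h6 _ _ _ _ _ _ hv hz hw).2 ?_
      have e3 : (p * (q - D * s) - q * (p - D * r)) * ((p - D * r) * s - (q - D * s) * r) *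
          (r * q - s * p) = 1 := by
        rw [e1, e2]
        have : r * q - s * p = -D := by rw [hDdef]; ring
        rw [this]
        linarith
      have e4 : (((p * (q - D * s) - q * (p - D * r)) * ((p - D * r) * s - (q - D * s) * r) *
          (r * q - s * p) : ℤ) : ℝ) = 1 := by rw [e3]; norm_num
      push_cast at e4 ⊢
      rw [e4]
      norm_num
    · exact ⟨p, q, p - D * r, q - D * s, Or.inr e1, rfl⟩
    · exact ⟨p - D * r, q - D * s, r, s, by rw [e2]; exact hD, rfl⟩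
  · intro ε hε
    set N : ℤ := (⌈2 / ε⌉₊ : ℤ) with hN
    have hfin : ((Set.Icc (-N) N ×ˢ Set.Icc (-N) N) ×ˢ (Set.Icc (-N) N ×ˢ Set.Icc (-N) N) :
        Set ((ℤ × ℤ) × (ℤ × ℤ))).Finite :=
      ((Set.finite_Icc _ _).prod (Set.finite_Icc _ _)).prod
        ((Set.finite_Icc _ _).prod (Set.finite_Icc _ _))
    refine (hfin.image (fun u : (ℤ × ℤ) × (ℤ × ℤ) =>
      ((cusp (u.1.1 : ℝ) (u.1.2 : ℝ), cusp (u.2.1 : ℝ) (u.2.2 : ℝ)) : Circle × Circle))).subset ?_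
    rintro a ⟨⟨p, q, r, s, hD, rfl⟩, hd⟩
    obtain ⟨hv, hw⟩ := TRF_ne0 hD
    have hdd := h5 _ _ _ _ hv hw
    have e1 : ((p : ℝ) * s - q * r) ^ 2 = 1 := by
      have : (p * s - q * r) ^ 2 = 1 := by rcases hD with h | h <;> rw [h] <;> norm_num
      exact_mod_cast this
    rw [e1] at hdd
    have g1 := TRF_one_le hv
    have g2 := TRF_one_le hw
    have hd' : ε ^ 2 ≤ dist (cusp (p : ℝ) (q : ℝ)) (cusp (r : ℝ) (s : ℝ)) ^ 2 :=
      pow_le_pow_left₀ hε.le hd 2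
    have g3 : ε ^ 2 * (((p : ℝ) ^ 2 + (q : ℝ) ^ 2) * ((r : ℝ) ^ 2 + (s : ℝ) ^ 2)) ≤ 4 := by
      calc ε ^ 2 * (((p : ℝ) ^ 2 + (q : ℝ) ^ 2) * ((r : ℝ) ^ 2 + (s : ℝ) ^ 2))
          ≤ dist (cusp (p : ℝ) (q : ℝ)) (cusp (r : ℝ) (s : ℝ)) ^ 2 *
            (((p : ℝ) ^ 2 + (q : ℝ) ^ 2) * ((r : ℝ) ^ 2 + (s : ℝ) ^ 2)) :=
            mul_le_mul_of_nonneg_right hd' (by positivity)
        _ = 4 * 1 := hdd
        _ = 4 := by norm_num
    have hε2 : 0 < ε ^ 2 := by positivity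
    have k1 : ε ^ 2 * ((p : ℝ) ^ 2 + (q : ℝ) ^ 2) ≤ 4 := by
      refine le_trans ?_ g3
      refine mul_le_mul_of_nonneg_left ?_ hε2.le
      exact le_mul_of_one_le_right (by positivity) g2
    have k2 : ε ^ 2 * ((r : ℝ) ^ 2 + (s : ℝ) ^ 2) ≤ 4 := by
      refine le_trans ?_ g3
      refine mul_le_mul_of_nonneg_left ?_ hε2.le
      exact le_mul_of_one_le_left (by positivity) g1
    refine ⟨((p, q), (r, s)), ⟨⟨TRF_bd hε ?_, TRF_bd hε ?_⟩, ⟨TRF_bd hε ?_, TRF_bd hε ?_⟩⟩, rfl⟩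
    · exact le_trans (mul_le_mul_of_nonneg_left (by nlinarith [sq_nonneg (q : ℝ)]) hε2.le) k1
    · exact le_trans (mul_le_mul_of_nonneg_left (by nlinarith [sq_nonneg (p : ℝ)]) hε2.le) k1
    · exact le_trans (mul_le_mul_of_nonneg_left (by nlinarith [sq_nonneg (s : ℝ)]) hε2.le) k2
    · exact le_trans (mul_le_mul_of_nonneg_left (by nlinarith [sq_nonneg (r : ℝ)]) hε2.le) k2
  · exact ⟨_, 1, 0, 0, 1, Or.inl (by norm_num), rfl⟩

end Pool.AR
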