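import Pool.Agent.Work.MP_ae1ff6_ar.Interface

/-! # Block UNQ: the third vertex is unique -/

open Topology Filter Set
open scoped ComplexConjugate

set_option autoImplicit false

namespace Pool.AR

open Pool.CG

theorem p_UNQ (hCYO : Stmt_CYO) (hLKC : Stmt_LKC) : Stmt_UNQ := by
  intro T hT x y z z' h1 h2 e1 e2 e3 e4
  obtain ⟨rot, asym, tot, tr⟩ := hCYO
  have key : ∀ z z' : Circle, Ccw x z y → Ccw x z' y → (x, z) ∈ T → (z, y) ∈ T → (x, z') ∈ T →
      (z', y) ∈ T → ¬ Ccw x z z' := by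
    intro z z' h1 h2 e1 e2 e3 e4 h3
    refine hT.unlinked x z' z y e3 e2 ?_
    rw [hLKC]
    exact Or.inl ⟨h3, rot _ _ _ h2⟩
  by_contra hne
  have hxz : x ≠ z := (asym _ _ _ h1).2.1
  have hxz' : x ≠ z' := (asym _ _ _ h2).2.1
  rcases tot x z z' hxz hne hxz' with h | h
  · exact key z z' h1 h2 e1 e2 e3 e4 h
  · exact key z' z h2 h1 e3 e4 e1 e2 h

end Pool.AR
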