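import Pool.Agent.Work.MP_ae1ff6_ar.Interface

/-! # Block WND: no high excursions into a cusp -/

open Topology Filter Set
open scoped ComplexConjugate

set_option autoImplicit false

namespace Pool.AR

open Pool.CG

theorem WND_core (h1 : Stmt_CUT) (h2 : Stmt_LKC) (γ : H) (x y : Circle) (hO : Ori γ)
    (hx : γ x = x) (hxy : x ≠ y) (hdir : ∀ z, z ≠ x → Ccw x z (γ z)) :
    ∃ ρ : ℝ, 0 < ρ ∧ ∀ s t : Circle, Link x y s t → ¬ Link s t (γ s) (γ t) →
      ρ ≤ dist s x ∧ ρ ≤ dist t x := by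
  obtain ⟨s0, hs0⟩ : ∃ s : ℝ, Circle.exp s = x := ⟨Complex.arg (x : ℂ), Circle.exp_arg x⟩
  obtain ⟨θ, hθ1, hθ2, hθ3⟩ := h1 s0
  have hpi := Real.pi_pos
  have hθx : θ x = s0 := by
    rw [← hs0]
    exact hθ2 s0 le_rfl (by linarith)
  have hinj : ∀ a b, θ a = θ b → a = b := by
    intro a b hab
    rw [← (hθ1 a).2.2, ← (hθ1 b).2.2, hab]
  have hpos : ∀ a, a ≠ x → s0 < θ a := by
    intro a ha
    refine lt_of_le_of_ne (hθ1 a).1 fun h => ha (hinj a x ?_)
    rw [hθx, ← h]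
  have hcx : ∀ a b, a ≠ x → b ≠ x → (Ccw x a b ↔ θ a < θ b) := by
    intro a b ha hb
    have h3 := hpos a ha
    have h4 := hpos b hb
    rw [hθ3, hθx]
    constructor
    · rintro (h | h | h)
      · exact h.2
      · linarith [h.2]
      · linarith [h.1]
    · intro h
      exact Or.inl ⟨h3, h⟩
  have hcx2 : ∀ a b, a ≠ x → b ≠ x → (Ccw a b x ↔ θ a < θ b) := by
    intro a b ha hb
    have h3 := hpos a ha
    have h4 := hpos b hb
    rw [hθ3, hθx]
    constructor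
    · rintro (h | h | h)
      · linarith [h.2]
      · linarith [h.1]
      · exact h.2
    · intro h
      exact Or.inr (Or.inr ⟨h3, h⟩)
  have hγx : ∀ a, a ≠ x → γ a ≠ x := by
    intro a ha h
    exact ha (γ.injective (h.trans hx.symm))
  have hup : ∀ a, a ≠ x → θ a < θ (γ a) := fun a ha => (hcx a (γ a) ha (hγx a ha)).1 (hdir a ha)
  have hmon : ∀ a b, a ≠ x → b ≠ x → θ a < θ b → θ (γ a) < θ (γ b) := by
    intro a b ha hb hab
    have h3 := hO _ _ _ ((hcx a b ha hb).2 hab)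
    rw [hx] at h3
    exact (hcx _ _ (hγx a ha) (hγx b hb)).1 h3
  have hmon' : ∀ a b, a ≠ x → b ≠ x → θ (γ a) < θ (γ b) → θ a < θ b := by
    intro a b ha hb hab
    rcases lt_trichotomy (θ a) (θ b) with h | h | h
    · exact h
    · rw [hinj a b h] at hab
      exact absurd hab (lt_irrefl _)
    · exact absurd (hmon b a hb ha h) (by linarith)
  have hy : y ≠ x := Ne.symm hxy
  set y' : Circle := γ⁻¹ y with hy'
  have hγy' : γ y' = y := γ.apply_symm_apply y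
  have hy'x : y' ≠ x := by
    intro h
    rw [h, hx] at hγy'
    exact hxy hγy'
  have hA : s0 < θ y' := hpos _ hy'x
  have hAy : θ y' < θ y := by
    have := hup y' hy'x
    rwa [hγy'] at this
  have hyB : θ y < θ (γ y) := hup y hy
  have hB : θ (γ y) < s0 + 2 * Real.pi := (hθ1 (γ y)).2.1
  have hcomp : IsCompact (Circle.exp '' Icc (θ y') (θ (γ y))) :=
    isCompact_Icc.image Circle.exp.continuous
  have hxK : x ∉ Circle.exp '' Icc (θ y') (θ (γ y)) := by
    rintro ⟨r, hr, hr2⟩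
    have h3 : θ (Circle.exp r) = r := hθ2 r (by linarith [hr.1]) (by linarith [hr.2])
    rw [hr2, hθx] at h3
    linarith [hr.1]
  obtain ⟨ρ, hρ, hball⟩ := Metric.isOpen_iff.1 hcomp.isClosed.isOpen_compl x hxK
  have hfar : ∀ s : Circle, θ y' ≤ θ s → θ s ≤ θ (γ y) → ρ ≤ dist s x := by
    intro s h3 h4
    by_contra h5
    exact hball (Metric.mem_ball.2 (not_le.1 h5)) ⟨θ s, ⟨h3, h4⟩, (hθ1 s).2.2⟩
  have key : ∀ s t : Circle, s ≠ x → t ≠ x → θ s < θ y → θ y < θ t →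
      ¬ Link s t (γ s) (γ t) → ρ ≤ dist s x ∧ ρ ≤ dist t x := by
    intro s t hsx htx h3 h4 h5
    have h6 : θ t ≤ θ (γ s) := by
      by_contra h7
      have h7' : θ (γ s) < θ t := not_le.1 h7
      apply h5
      have h8 := hup s hsx
      have h9 := hup t htx
      exact (h2 _ _ _ _).2 (Or.inl ⟨(hθ3 _ _ _).2 (Or.inl ⟨h8, h7'⟩),
        (hθ3 _ _ _).2 (Or.inr (Or.inr ⟨by linarith, h9⟩))⟩)
    have h7 : θ (γ s) < θ (γ y) := hmon s y hsx hy h3
    have h8 : θ y' < θ s := by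
      apply hmon' _ _ hy'x hsx
      rw [hγy']
      linarith
    exact ⟨hfar s h8.le (by linarith), hfar t (by linarith) (by linarith)⟩
  refine ⟨ρ, hρ, fun s t hL hn => ?_⟩
  have hsx : s ≠ x := hL.1.1
  have htx : t ≠ x := hL.2.1.1
  rcases (h2 _ _ _ _).1 hL with h | h
  · exact key s t hsx htx ((hcx s y hsx hy).1 h.1) ((hcx2 y t hy htx).1 h.2) hn
  · have h3 := key t s htx hsx ((hcx t y htx hy).1 h.1) ((hcx2 y s hy hsx).1 h.2) (fun h4 =>
      hn ((Pool.GC.q_SYM _ _ _ _ (Pool.GC.q_SYM _ _ _ _ h4).2.1).2.2))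
    exact ⟨h3.2, h3.1⟩

theorem p_WND (h1 : Stmt_CUT) (h2 : Stmt_LKC) (h3 : Stmt_MOR) (h4 : Stmt_SHF) : Stmt_WND := by
  intro γ x y hO hγ hxy
  have hx : γ x = x := (hγ x).2 rfl
  rcases h4 γ x hγ with h | h
  · exact WND_core h1 h2 γ x y hO hx hxy h
  · have hinv : ∀ z, γ (γ⁻¹ z) = z := fun z => γ.apply_symm_apply z
    have hx' : γ⁻¹ x = x := by
      apply γ.injective
      rw [hinv, hx]
    have hdir : ∀ z, z ≠ x → Ccw x z (γ⁻¹ z) := by
      intro z hz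
      have h5 : γ⁻¹ z ≠ x := by
        intro h6
        apply hz
        rw [← hinv z, h6, hx]
      have h6 := h (γ⁻¹ z) h5
      rwa [hinv] at h6
    obtain ⟨ρ, hρ, h5⟩ := WND_core h1 h2 γ⁻¹ x y (h3.2.1.2.2 γ hO) hx' hxy hdir
    refine ⟨ρ, hρ, fun s t hL hn => h5 s t hL fun h6 => hn ?_⟩
    have h7 := Pool.GC.lhi γ _ _ _ _ h6
    rw [hinv, hinv] at h7
    exact (Pool.GC.q_SYM _ _ _ _ h7).1

end Pool.AR
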