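import Pool.Agent.Work.MP_ae1ff6_ar.Interface2

/-! Block ZDR of the interface. -/

open Topology Filter Set
open scoped ComplexConjugate

set_option autoImplicit false

namespace Pool.AR

open Pool.CG

/-- the positive direction of `f` -/
def ZDR_dir (Γ : Subgroup H) (f : H) : Filter H where
  sets := {B | ∀ᶠ n : ℤ in atTop, ∀ γ ∈ Γ, γ * f ^ n ∈ B}
  univ_sets := Eventually.of_forall fun _ _ _ => mem_univ _
  sets_of_superset := fun {A B} hA hAB => by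
    have hA' : ∀ᶠ n : ℤ in atTop, ∀ γ ∈ Γ, γ * f ^ n ∈ A := hA
    exact hA'.mono fun n hn γ hγ => hAB (hn γ hγ)
  inter_sets := fun {A B} hA hB => by
    have hA' : ∀ᶠ n : ℤ in atTop, ∀ γ ∈ Γ, γ * f ^ n ∈ A := hA
    have hB' : ∀ᶠ n : ℤ in atTop, ∀ γ ∈ Γ, γ * f ^ n ∈ B := hB
    exact (hA'.and hB').mono fun n hn γ hγ => ⟨hn.1 γ hγ, hn.2 γ hγ⟩

theorem ZDR_mem (Γ : Subgroup H) (f : H) (B : Set H) :
    B ∈ ZDR_dir Γ f ↔ ∀ᶠ n : ℤ in atTop, ∀ γ ∈ Γ, γ * f ^ n ∈ B := Iff.rfl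

theorem ZDR_zpow (Γ : Subgroup H) (f : H) (hp : ∀ n : ℕ, 0 < n → f ^ n ∉ Γ) (m : ℤ)
    (h3 : f ^ m ∈ Γ) : m = 0 := by
  by_contra hne
  refine hp m.natAbs (Int.natAbs_pos.2 hne) ?_
  rcases Int.natAbs_eq m with h6 | h6
  · have h7 : f ^ ((m.natAbs : ℕ) : ℤ) ∈ Γ := by rw [← h6]; exact h3
    rwa [zpow_natCast] at h7
  · have h7 : f ^ ((m.natAbs : ℕ) : ℤ) ∈ Γ := by
      have h8 : ((m.natAbs : ℕ) : ℤ) = -m := by rw [h6]; simp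
      rw [h8, zpow_neg]
      exact inv_mem h3
    rwa [zpow_natCast] at h7

theorem ZDR_conj (Γ : Subgroup H) (f : H) (hn : ∀ γ, γ ∈ Γ ↔ f * γ * f⁻¹ ∈ Γ) (n : ℤ) (γ : H)
    (hγ : γ ∈ Γ) : f ^ n * γ * (f ^ n)⁻¹ ∈ Γ := by
  have h := CYC_conj Γ f hn (-n) γ hγ
  simpa using h

theorem ZDR_isDir (Γ : Subgroup H) (f : H) (hn : ∀ γ, γ ∈ Γ ↔ f * γ * f⁻¹ ∈ Γ)
    (hp : ∀ n : ℕ, 0 < n → f ^ n ∉ Γ) :
    Dir Γ (Γ ⊔ Subgroup.zpowers f) {f} (ZDR_dir Γ f) := by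
  have hfn : ∀ n : ℤ, ∀ γ ∈ Γ, γ * f ^ n ∈ Γ ⊔ Subgroup.zpowers f := fun n γ hγ =>
    mul_mem (Subgroup.mem_sup_left hγ) (Subgroup.mem_sup_right (Subgroup.zpow_mem_zpowers f n))
  refine ⟨⟨fun h => ?_⟩, ?_, ?_, ?_⟩
  · have h1 : (∅ : Set H) ∈ ZDR_dir Γ f := by rw [h]; exact mem_bot
    rw [ZDR_mem] at h1
    obtain ⟨n, h2⟩ := h1.exists
    exact h2 1 (one_mem Γ)
  · exact (ZDR_mem Γ f _).2 (Eventually.of_forall fun n γ hγ => hfn n γ hγ)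
  · intro g₀ hg₀ B hB
    obtain ⟨κ, hκ, k, rfl⟩ := CYC_mem Γ f hn g₀ hg₀
    rw [ZDR_mem] at hB
    have h1 : ∀ᶠ n : ℤ in atTop, ∀ γ ∈ Γ, γ * f ^ (n + k) ∈ B :=
      (tendsto_atTop_add_const_right atTop k tendsto_id).eventually hB
    refine (ZDR_mem Γ f _).2 (h1.mono fun n h2 γ hγ => ?_)
    show γ * f ^ n * (κ * f ^ k) ∈ B
    have h3 := h2 (γ * (f ^ n * κ * (f ^ n)⁻¹)) (mul_mem hγ (ZDR_conj Γ f hn n κ hκ))
    have h4 : γ * (f ^ n * κ * (f ^ n)⁻¹) * f ^ (n + k) = γ * f ^ n * (κ * f ^ k) := by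
      rw [zpow_add]
      group
    rwa [h4] at h3
  · intro ι φ hφ hex
    obtain ⟨K, hK, hK2⟩ := hex f rfl
    have h1 : {n : ℤ | φ (f * f ^ n) ≠ φ (f ^ n)} ⊆ ⋃ h ∈ K, {n : ℤ | h⁻¹ * f ^ n ∈ Γ} := by
      intro n hn1
      obtain ⟨h, hh, hx⟩ := hK2 (f ^ n) ⟨by simpa using hfn n 1 (one_mem Γ), hn1⟩
      exact mem_iUnion₂.2 ⟨h, hh, hx⟩
    have h2 : {n : ℤ | φ (f * f ^ n) ≠ φ (f ^ n)}.Finite := by
      refine (hK.biUnion fun h _ => ?_).subset h1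
      refine Set.Subsingleton.finite ?_
      intro n hx m hx'
      have h3 : (f ^ n)⁻¹ * f ^ m ∈ Γ := by
        have hx1 : h⁻¹ * f ^ n ∈ Γ := hx
        have hx2 : h⁻¹ * f ^ m ∈ Γ := hx'
        have h4 := mul_mem (inv_mem hx1) hx2
        have h5 : (h⁻¹ * f ^ n)⁻¹ * (h⁻¹ * f ^ m) = (f ^ n)⁻¹ * f ^ m := by group
        rwa [h5] at h4
      have h4 : f ^ (m - n) ∈ Γ := by
        have h5 : f ^ (m - n) = (f ^ n)⁻¹ * f ^ m := by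
          rw [show m - n = -n + m by ring, zpow_add, zpow_neg]
        rwa [h5]
      have h5 := ZDR_zpow Γ f hp _ h4
      omega
    obtain ⟨N, hN⟩ : ∃ N : ℤ, ∀ n, N ≤ n → φ (f * f ^ n) = φ (f ^ n) := by
      obtain ⟨N, hN⟩ := h2.bddAbove
      refine ⟨N + 1, fun n hn1 => ?_⟩
      by_contra h3
      have h4 := hN (show n ∈ {n : ℤ | φ (f * f ^ n) ≠ φ (f ^ n)} from h3)
      omega
    have h3 : ∀ j : ℕ, φ (f ^ (N + j)) = φ (f ^ N) := by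
      intro j
      induction j with
      | zero => simp
      | succ j ih =>
        have h4 := hN (N + j) (by omega)
        rw [← ih, ← h4]
        congr 1
        rw [show N + ((j + 1 : ℕ) : ℤ) = 1 + (N + j) by push_cast; ring, zpow_add, zpow_one]
    refine ⟨φ (f ^ N), ?_⟩
    refine (ZDR_mem Γ f _).2 (eventually_atTop.2 ⟨N, fun n hn1 γ hγ => ?_⟩)
    show φ (γ * f ^ n) = φ (f ^ N)
    rw [hφ γ hγ (f ^ n) (by simpa using hfn n 1 (one_mem Γ))]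
    have h4 := h3 (n - N).toNat
    rwa [Int.toNat_of_nonneg (by omega), show N + (n - N) = n by ring] at h4

theorem p_ZDR (_ : Stmt_FCL) : Stmt_ZDR := by
  intro Γ f hn hp
  refine ⟨fun g hg γ hγ => ?_, ZDR_dir Γ f, ZDR_isDir Γ f hn hp⟩
  exact (Subgroup.mem_normalizer_iff.1 (CYC_norm Γ f hn hg) γ).1 hγ

end Pool.AR
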