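import Pool.Agent.Work.MP_ae1ff6_ar.Interface2

/-!
# Asymptotically rigid mapping classes (MP_ae1ff6_gt): assembly
-/

open Topology Filter Set

set_option autoImplicit false

namespace Pool.AR

open Pool.CG

theorem asm_core (hFAB : Stmt_FAB) (hDSP : Stmt_DSP) (hLIM : Stmt_LIM) (Γ G : Subgroup H)
    (T F : Set (Circle × Circle)) (S : Set H) (hs : Sys Γ G T) (hSG : S ⊆ G)
    (hgen : G ≤ Γ ⊔ Subgroup.closure S) (hF : F.Finite) (hFT : F ⊆ T)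
    (hr : ∀ s ∈ S, RigidBy Γ T F s) (hd : ∃ 𝓕 : Filter H, Dir Γ G S 𝓕) :
    (Realized G ↔ Conv G) ∧ (Realized G ↔ DispT Γ G T) ∧ (Realized G ↔ DispT Γ G F) ∧
    (Realized G ↔ ∃ T', Tri T' ∧ Keeps G T') ∧
    (Realized G ↔ ∃ h : H, ∀ g ∈ G, IsMob (h * g * h⁻¹) ∧ IsModular (h * g * h⁻¹)) := by
  have h1 : Realized G → Conv G := (Pool.GC.main Γ G hs.fk hs.le hs.nor).2
  have h2 : Conv G → DispT Γ G T := hDSP Γ G T hs
  have h23 : DispT Γ G T → DispT Γ G F :=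
    fun h x y z w hxy hzw => h x y z w (hFT hxy) (hFT hzw)
  have h3 : DispT Γ G F → ∃ T', Tri T' ∧ Keeps G T' := by
    intro h
    obtain ⟨𝓕, h𝓕⟩ := hd
    exact ⟨Lim 𝓕 T, hLIM Γ G T F S 𝓕 hs hSG hgen hF hFT hr h h𝓕⟩
  have h4 : (∃ T', Tri T' ∧ Keeps G T') →
      ∃ h : H, ∀ g ∈ G, IsMob (h * g * h⁻¹) ∧ IsModular (h * g * h⁻¹) := by
    rintro ⟨T', h5, h6⟩
    obtain ⟨h, -, -, h7⟩ := hFAB G T' hs.ori h5 h6
    exact ⟨h, h7⟩
  have h5 : (∃ h : H, ∀ g ∈ G, IsMob (h * g * h⁻¹) ∧ IsModular (h * g * h⁻¹)) →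
      Realized G := by
    rintro ⟨h, h6⟩
    exact ⟨h, fun g hg => (h6 g hg).1⟩
  exact ⟨⟨h1, fun h => h5 (h4 (h3 (h23 (h2 h))))⟩,
    ⟨fun h => h2 (h1 h), fun h => h5 (h4 (h3 (h23 h)))⟩,
    ⟨fun h => h23 (h2 (h1 h)), fun h => h5 (h4 (h3 h))⟩,
    ⟨fun h => h3 (h23 (h2 (h1 h))), fun h => h5 (h4 h)⟩,
    ⟨fun h => h4 (h3 (h23 (h2 (h1 h)))), h5⟩⟩

theorem asm_ARG (hFAB : Stmt_FAB) (hDSP : Stmt_DSP) (hLIM : Stmt_LIM) (hQDR : Stmt_QDR) :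
    Stmt_ARG := by
  intro Γ G T F S hs hO hF hFT hr
  obtain ⟨h1, h2, h2', h3, h4⟩ := asm_core hFAB hDSP hLIM Γ G T F S hs hO.2.1 hO.2.2.1 hF hFT hr
    (hQDR Γ G S hs.le hs.nor hO)
  exact ⟨h1, h1.trans (Pool.GC.gcg Γ G hs.fk hs.le hs.nor).2.2, h2, h2', h3, h4⟩

theorem asm_AR1 (hFAB : Stmt_FAB) (hDSP : Stmt_DSP) (hLIM : Stmt_LIM) (hZDR : Stmt_ZDR)
    (hMOR : Stmt_MOR) (hCYA : Stmt_CYA) : Stmt_AR1 := by
  intro Γ f T F hΓ hT hk hc hf hn hinf hF hFT hr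
  obtain ⟨hnor, hd⟩ := hZDR Γ f hn hinf
  have hs : Sys Γ (Γ ⊔ Subgroup.zpowers f) T :=
    ⟨hΓ, le_sup_left, hnor, hMOR.2.2 Γ f hΓ hf, hT, hk, hc⟩
  have hfG : f ∈ Γ ⊔ Subgroup.zpowers f :=
    (le_sup_right : Subgroup.zpowers f ≤ _) (Subgroup.mem_zpowers f)
  obtain ⟨h1, h2, h2', h3, h4⟩ := asm_core hFAB hDSP hLIM Γ (Γ ⊔ Subgroup.zpowers f) T F {f} hs
    (by rintro _ rfl; exact hfG) (by rw [Subgroup.zpowers_eq_closure]) hF hFT
    (by rintro _ rfl; exact hr) hd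
  refine ⟨h1, ?_, h2.trans (hCYA Γ f T hn hinf), h2'.trans (hCYA Γ f F hn hinf),
    h3.trans ?_, h4⟩
  · rw [h1, ← (Pool.GC.gcg1 Γ f hΓ hn).1]
    constructor
    · rintro (⟨n, hn1, hn2⟩ | h)
      · exact absurd hn2 (hinf n hn1)
      · exact h
    · exact fun h => Or.inr h
  · refine exists_congr fun T' => and_congr_right fun hT' => ?_
    constructor
    · intro h
      refine ⟨fun γ hγ => h γ ((le_sup_left : Γ ≤ _) hγ), fun x y => ⟨h f hfG x y, fun h6 => ?_⟩⟩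
      have h7 := h f⁻¹ (inv_mem hfG) _ _ h6
      simpa using h7
    · rintro ⟨h5, h6⟩
      have h7 : ∀ g ∈ Γ ⊔ Subgroup.zpowers f, ∀ x y, (x, y) ∈ T' ↔ (g x, g y) ∈ T' := by
        let P : Subgroup H :=
          { carrier := {g | ∀ x y, (x, y) ∈ T' ↔ (g x, g y) ∈ T'}
            one_mem' := fun x y => Iff.rfl
            mul_mem' := fun {a b} ha hb x y => (hb x y).trans (ha (b x) (b y))
            inv_mem' := fun {a} ha x y => by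
              have := ha (a⁻¹ x) (a⁻¹ y)
              simpa using this.symm }
        have h8 : Γ ⊔ Subgroup.zpowers f ≤ P := by
          refine sup_le (fun γ hγ x y => ⟨h5 γ hγ x y, fun h9 => ?_⟩) ?_
          · have := h5 γ⁻¹ (inv_mem hγ) _ _ h9
            simpa using this
          · rw [Subgroup.zpowers_le]
            exact h6
        exact fun g hg => h8 hg
      exact fun g hg x y hxy => (h7 g hg x y).1 hxy

end Pool.AR
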