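import Pool.Agent.Work.MP_ae1ff6_ar.Interface3

/-!
# Asymptotically rigid mapping classes (MP_ae1ff6_gt): assembly of part 7
-/

open Topology Filter Set

set_option autoImplicit false

namespace Pool.AR

open Pool.CG

theorem asm_GO (hFCL : Stmt_FCL) (hSTI : Stmt_STI) (hPIN : Stmt_PIN) (hKON : Stmt_KON)
    (hGDS : Stmt_GDS) : Stmt_GO := by
  intro Γ G O F S hΓ hle hn ho hc hS hSG hgen hF hFO hr
  have hs : SysO Γ G O F S := ⟨hΓ, hle, hn, ho, hc, hS, hSG, hgen, hF, hFO, hr⟩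
  have h1 : Conv G → DispT Γ G O := by
    intro h x y z w hxy hzw
    obtain ⟨γ, hγ, ha⟩ := hc.axis x y hxy
    obtain ⟨δ, hδ, hb⟩ := hc.axis z w hzw
    obtain ⟨K, hK, h2⟩ := (Pool.GC.main Γ G hΓ hle hn).1.1 h γ hγ δ hδ x y z w ha hb
    exact ⟨K, hK, fun g hg => h2 g hg.1 hg.2⟩
  have h2 : DispT Γ G O → DispF Γ G O F :=
    fun h a ha b hb => h a.1 a.2 b.1 b.2 ha.1 (hFO hb)
  have h3 : DispT Γ G O → Conv G := fun h =>
    (Pool.GC.gcg Γ G hΓ hle hn).2.2.2 (hGDS Γ G O hΓ hle hn hc.fill h)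
  have h4 : DispF Γ G O F → DispT Γ G O := by
    intro h x y z w hxy hzw
    refine hSTI Γ G O F S hs h (x, y) hxy (z, w) hzw ?_
    by_contra h5
    obtain ⟨c, hcO, hl, h6⟩ := hPIN Γ G O F S hs h (z, w) hzw h5
    refine h6 (hFCL.2.2.1 Γ _ ((Set.finite_singleton (1 : H)).subset ?_))
    intro k hk
    exact hKON Γ G O F S hs h (z, w) hzw c hcO hl k hk
  exact ⟨⟨h1, h3⟩, ⟨fun h => h2 (h1 h), fun h => h3 (h4 h)⟩⟩

theorem asm_GO1 (hGO : Stmt_GO) (hMOR : Stmt_MOR) (hZDR : Stmt_ZDR) (hCYP : Stmt_CYP) :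
    Stmt_GO1 := by
  intro Γ f O F hΓ hf hn hinf hc hF hFO hr
  have hfG : f ∈ Γ ⊔ Subgroup.zpowers f :=
    (le_sup_right : Subgroup.zpowers f ≤ _) (Subgroup.mem_zpowers f)
  have h1 := (hGO Γ (Γ ⊔ Subgroup.zpowers f) O F {f} hΓ le_sup_left (hZDR Γ f hn hinf).1
    (hMOR.2.2 Γ f hΓ hf) hc (Set.finite_singleton f) (by rintro _ rfl; exact hfG)
    (by rw [Subgroup.zpowers_eq_closure]) hF hFO (by rintro _ rfl; exact hr)).2
  rw [h1]
  refine forall₂_congr fun a _ => forall₂_congr fun b _ => ?_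
  exact hCYP Γ f hn hinf a.1 a.2 b.1 b.2

end Pool.AR
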