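import Pool.Agent.Work.MP_ae1ff6_ar.B_ANG
import Pool.Agent.Work.MP_ae1ff6_ar.B_CHN
import Pool.Agent.Work.MP_ae1ff6_ar.B_CRA
import Pool.Agent.Work.MP_ae1ff6_ar.B_CRF
import Pool.Agent.Work.MP_ae1ff6_ar.B_CUT
import Pool.Agent.Work.MP_ae1ff6_ar.B_CYA
import Pool.Agent.Work.MP_ae1ff6_ar.B_CYH
import Pool.Agent.Work.MP_ae1ff6_ar.B_CYO
import Pool.Agent.Work.MP_ae1ff6_ar.B_CYP
import Pool.Agent.Work.MP_ae1ff6_ar.B_DCH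
import Pool.Agent.Work.MP_ae1ff6_ar.B_DSP
import Pool.Agent.Work.MP_ae1ff6_ar.B_EXB
import Pool.Agent.Work.MP_ae1ff6_ar.B_EXC
import Pool.Agent.Work.MP_ae1ff6_ar.B_EXL
import Pool.Agent.Work.MP_ae1ff6_ar.B_FA1
import Pool.Agent.Work.MP_ae1ff6_ar.B_FAB
import Pool.Agent.Work.MP_ae1ff6_ar.B_FCL
import Pool.Agent.Work.MP_ae1ff6_ar.B_FIA
import Pool.Agent.Work.MP_ae1ff6_ar.B_FIN
import Pool.Agent.Work.MP_ae1ff6_ar.B_FRB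
import Pool.Agent.Work.MP_ae1ff6_ar.B_FRU
import Pool.Agent.Work.MP_ae1ff6_ar.B_FVL
import Pool.Agent.Work.MP_ae1ff6_ar.B_FXT
import Pool.Agent.Work.MP_ae1ff6_ar.B_FXU
import Pool.Agent.Work.MP_ae1ff6_ar.B_GBX
import Pool.Agent.Work.MP_ae1ff6_ar.B_GDS
import Pool.Agent.Work.MP_ae1ff6_ar.B_GLU
import Pool.Agent.Work.MP_ae1ff6_ar.B_KON
import Pool.Agent.Work.MP_ae1ff6_ar.B_KPW
import Pool.Agent.Work.MP_ae1ff6_ar.B_LCR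
import Pool.Agent.Work.MP_ae1ff6_ar.B_LCV
import Pool.Agent.Work.MP_ae1ff6_ar.B_LFO
import Pool.Agent.Work.MP_ae1ff6_ar.B_LIM
import Pool.Agent.Work.MP_ae1ff6_ar.B_LKC
import Pool.Agent.Work.MP_ae1ff6_ar.B_LTH
import Pool.Agent.Work.MP_ae1ff6_ar.B_MEX
import Pool.Agent.Work.MP_ae1ff6_ar.B_MOF
import Pool.Agent.Work.MP_ae1ff6_ar.B_MOR
import Pool.Agent.Work.MP_ae1ff6_ar.B_NST
import Pool.Agent.Work.MP_ae1ff6_ar.B_PFX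
import Pool.Agent.Work.MP_ae1ff6_ar.B_PHA
import Pool.Agent.Work.MP_ae1ff6_ar.B_PHI
import Pool.Agent.Work.MP_ae1ff6_ar.B_PIN
import Pool.Agent.Work.MP_ae1ff6_ar.B_PRB
import Pool.Agent.Work.MP_ae1ff6_ar.B_PT1
import Pool.Agent.Work.MP_ae1ff6_ar.B_PT2
import Pool.Agent.Work.MP_ae1ff6_ar.B_PT3
import Pool.Agent.Work.MP_ae1ff6_ar.B_QDR
import Pool.Agent.Work.MP_ae1ff6_ar.B_RIG
import Pool.Agent.Work.MP_ae1ff6_ar.B_SHF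
import Pool.Agent.Work.MP_ae1ff6_ar.B_STB
import Pool.Agent.Work.MP_ae1ff6_ar.B_STI
import Pool.Agent.Work.MP_ae1ff6_ar.B_TRF
import Pool.Agent.Work.MP_ae1ff6_ar.B_UNQ
import Pool.Agent.Work.MP_ae1ff6_ar.B_WND
import Pool.Agent.Work.MP_ae1ff6_ar.B_ZDR
import Pool.Agent.Work.MP_ae1ff6_ar.Final
import Pool.Agent.Work.MP_ae1ff6_ar.Final2

/-!
# Asymptotically rigid mapping classes (MP_ae1ff6_gt): the theorem
-/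

set_option autoImplicit false

namespace Pool.AR

theorem q_CUT : Stmt_CUT := p_CUT
theorem q_CYO : Stmt_CYO := p_CYO q_CUT
theorem q_LKC : Stmt_LKC := p_LKC q_CUT q_CYO
theorem q_ANG : Stmt_ANG := p_ANG q_CUT q_CYO q_LKC
theorem q_CHN : Stmt_CHN := p_CHN q_CUT q_CYO q_LKC q_ANG
theorem q_CRA : Stmt_CRA := p_CRA
theorem q_MOR : Stmt_MOR := p_MOR q_CYO
theorem q_SHF : Stmt_SHF := p_SHF q_CYO
theorem q_WND : Stmt_WND := p_WND q_CUT q_LKC q_MOR q_SHF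
theorem q_CRF : Stmt_CRF := p_CRF q_MOR q_WND
theorem q_CYA : Stmt_CYA := p_CYA
theorem q_CYH : Stmt_CYH := p_CYH q_CYO q_ANG
theorem q_CYP : Stmt_CYP := p_CYP
theorem q_NST : Stmt_NST := p_NST q_ANG
theorem q_DCH : Stmt_DCH := p_DCH q_ANG q_NST
theorem q_FRB : Stmt_FRB := p_FRB q_MOR q_WND
theorem q_LFO : Stmt_LFO := p_LFO q_CYO q_LKC q_ANG
theorem q_PRB : Stmt_PRB := p_PRB
theorem q_FXT : Stmt_FXT := p_FXT q_ANG q_LFO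
theorem q_STB : Stmt_STB := p_STB q_ANG q_LFO q_PRB q_FXT
theorem q_DSP : Stmt_DSP := p_DSP q_FRB q_STB q_MOR
theorem q_FCL : Stmt_FCL := p_FCL
theorem q_EXB : Stmt_EXB := p_EXB q_FCL
theorem q_EXC : Stmt_EXC := p_EXC q_FCL
theorem q_EXL : Stmt_EXL := p_EXL
theorem q_FA1 : Stmt_FA1 := p_FA1
theorem q_RIG : Stmt_RIG := p_RIG q_ANG q_LFO q_NST
theorem q_PT1 : Stmt_PT1 := p_PT1 q_CYO
theorem q_UNQ : Stmt_UNQ := p_UNQ q_CYO q_LKC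
theorem q_PT3 : Stmt_PT3 := p_PT3 q_ANG q_NST q_UNQ q_PT1
theorem q_GLU : Stmt_GLU := p_GLU q_CUT q_CYH
theorem q_PT2 : Stmt_PT2 := p_PT2 q_CYO q_PT1
theorem q_PHA : Stmt_PHA := p_PHA q_ANG q_EXL q_GLU q_PT1 q_PT2 q_PT3
theorem q_PHI : Stmt_PHI := p_PHI q_ANG q_PT1 q_PT3 q_PHA
theorem q_FRU : Stmt_FRU := p_FRU q_LKC q_FA1
theorem q_TRF : Stmt_TRF := p_TRF q_FA1 q_FRU
theorem q_MEX : Stmt_MEX := p_MEX
theorem q_MOF : Stmt_MOF := p_MOF q_FA1 q_MEX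
theorem q_FAB : Stmt_FAB := p_FAB q_MOR q_RIG q_PHI q_TRF q_MOF
theorem q_FIA : Stmt_FIA := p_FIA q_CYO q_LKC q_SHF
theorem q_FIN : Stmt_FIN := p_FIN q_DCH q_FIA
theorem q_FVL : Stmt_FVL := p_FVL
theorem q_LCV : Stmt_LCV := p_LCV q_FCL q_FVL q_EXC
theorem q_FXU : Stmt_FXU := p_FXU q_CRA q_LCV
theorem q_GBX : Stmt_GBX := p_GBX
theorem q_GDS : Stmt_GDS := p_GDS q_FCL q_GBX
theorem q_KPW : Stmt_KPW := p_KPW q_LCV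
theorem q_PFX : Stmt_PFX := p_PFX q_CYO q_LKC q_ANG q_LFO
theorem q_KON : Stmt_KON := p_KON q_KPW q_PFX q_CHN
theorem q_LCR : Stmt_LCR := p_LCR q_DCH q_CRF q_FCL q_EXB
theorem q_LTH : Stmt_LTH := p_LTH q_CYO q_LKC q_DCH
theorem q_LIM : Stmt_LIM := p_LIM q_LCR q_LTH q_FIN
theorem q_PIN : Stmt_PIN := p_PIN q_FCL q_FXU
theorem q_QDR : Stmt_QDR := p_QDR q_FCL
theorem q_STI : Stmt_STI := p_STI q_FCL q_FXU
theorem q_ZDR : Stmt_ZDR := p_ZDR q_FCL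

theorem far : Stmt_FAR := q_FAB

theorem arg : Stmt_ARG := asm_ARG q_FAB q_DSP q_LIM q_QDR

theorem ar1 : Stmt_AR1 := asm_AR1 q_FAB q_DSP q_LIM q_ZDR q_MOR q_CYA

theorem go : Stmt_GO := asm_GO q_FCL q_STI q_PIN q_KON q_GDS

theorem go1 : Stmt_GO1 := asm_GO1 go q_MOR q_ZDR q_CYP

end Pool.AR
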