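import Pool.Agent.Work.MP_ae1ff6_ar.Interface

/-!
# Block ANG: toolkit for real coordinates (helper46)
-/

open Topology Filter Set
open scoped ComplexConjugate

set_option autoImplicit false

namespace Pool.AR

open Pool.CG

theorem ANG_per (s : ℝ) : Circle.exp (s + 2 * Real.pi) = Circle.exp s := Pool.GC.TWO_per s

theorem ANG_link (x y z w : ℝ) (h1 : x < y) (h2 : y < z) (h3 : z < w) (h4 : w < x + 2 * Real.pi) :
    Link (Circle.exp x) (Circle.exp z) (Circle.exp y) (Circle.exp w) :=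
  (Pool.GC.arc x z (h1.trans h2) (h3.trans h4)).2 _ ⟨y, ⟨h1, h2⟩, rfl⟩ _ ⟨w, ⟨h3, h4⟩, rfl⟩

theorem p_ANG (h1 : Stmt_CUT) (_ : Stmt_CYO) (_ : Stmt_LKC) : Stmt_ANG := by
  have hpi := Real.two_pi_pos
  refine ⟨?_, ?_, ?_, ANG_link, ?_, ?_⟩
  · intro x y z hxy hyz hzx
    obtain ⟨θ, -, g2, g3⟩ := h1 x
    rw [g3, g2 x le_rfl (by linarith), g2 y hxy.le (by linarith), g2 z (by linarith) hzx]
    exact Or.inl ⟨hxy, hyz⟩
  · intro s t z hst hts h
    obtain ⟨θ, g1, g2, g3⟩ := h1 s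
    rw [g3, g2 s le_rfl (by linarith), g2 t hst.le hts] at h
    rcases h with h | h | h
    · exact ⟨θ z, h.1, h.2, (g1 z).2.2.symm⟩
    · exact absurd h.2 (not_lt.2 hst.le)
    · exact absurd h.1 (not_lt.2 hst.le)
  · intro a b hab
    obtain ⟨s, t, hst, hts, hs, ht⟩ := LOP_param a b hab
    exact ⟨s, t, hst, hts, hs.symm, ht.symm⟩
  · intro s x y hx hx' hy hy'
    obtain ⟨θ, -, g2, g3⟩ := h1 s
    rw [g3, g2 s le_rfl (by linarith), g2 x hx.le hx', g2 y hy.le hy']
    constructor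
    · rintro (h | h | h)
      · exact h.2
      · exact absurd h.2 (not_lt.2 hy.le)
      · exact absurd h.1 (not_lt.2 hy.le)
    · intro h
      exact Or.inl ⟨hx, h⟩
  · intro s t x y hst hts hL
    obtain ⟨θ, g1, -, -⟩ := h1 s
    obtain ⟨u1, u2, u3⟩ := g1 x
    obtain ⟨v1, v2, v3⟩ := g1 y
    have hper := ANG_per s
    rcases le_or_gt (θ x) t with hu | hu <;> rcases le_or_gt (θ y) t with hv | hv
    · exact Or.inl ⟨θ x, θ y, u1, hu, v1, hv, u3.symm, v3.symm⟩
    · right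
      rcases eq_or_lt_of_le u1 with a | a
      · refine ⟨s + 2 * Real.pi, θ y, hts.le, le_rfl, hv.le, v2.le, ?_, v3.symm⟩
        rw [hper, a, u3]
      · rcases eq_or_lt_of_le hu with b | b
        · exact ⟨θ x, θ y, b.ge, u2.le, hv.le, v2.le, u3.symm, v3.symm⟩
        · exfalso
          have h := ANG_link s (θ x) t (θ y) a b hv v2
          rw [u3, v3] at h
          exact hL h
    · right
      rcases eq_or_lt_of_le v1 with a | a
      · refine ⟨θ x, s + 2 * Real.pi, hu.le, u2.le, hts.le, le_rfl, u3.symm, ?_⟩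
        rw [hper, a, v3]
      · rcases eq_or_lt_of_le hv with b | b
        · exact ⟨θ x, θ y, hu.le, u2.le, b.ge, v2.le, u3.symm, v3.symm⟩
        · exfalso
          have h := ANG_link s (θ y) t (θ x) a b hu u2
          rw [u3, v3] at h
          exact hL (Pool.GC.TWO_swap _ _ _ _ h)
    · exact Or.inr ⟨θ x, θ y, hu.le, u2.le, hv.le, v2.le, u3.symm, v3.symm⟩

end Pool.AR
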