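import Pool.Agent.Work.MP_ae1ff6_ar.Interface

/-!
# Block DCH: each geodesic is an edge or is crossed by an edge
-/

open Topology Filter Set
open scoped ComplexConjugate

set_option autoImplicit false

namespace Pool.AR

open Pool.CG

/-- the claim in coordinates -/
theorem DCH_core (hA : Stmt_ANG) (hN : Stmt_NST) {T : Set (Circle × Circle)} (hT : Tri T)
    (s₀ t₀ : ℝ) (h1 : s₀ < t₀) (h2 : t₀ < s₀ + 2 * Real.pi)
    (h3 : (Circle.exp s₀, Circle.exp t₀) ∈ T) (u v : ℝ) (hu : s₀ ≤ u) (huv : u < v) (hv : v ≤ t₀) :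
    (Circle.exp u, Circle.exp v) ∈ T ∨
      ∃ z w, (z, w) ∈ T ∧ Link z w (Circle.exp u) (Circle.exp v) := by
  obtain ⟨-, -, -, a4, -, -⟩ := hA
  have hpi := Real.pi_pos
  obtain ⟨s, r, t, hs1, hs2, hr1, hr2, ht1, ht2, e1, e2, e3⟩ :=
    hN T hT.fin hT.third s₀ t₀ h1 h2 h3 u v hu huv hv
  rcases lt_or_eq_of_le hs2 with hsu | hsu
  · right
    exact ⟨Circle.exp s, Circle.exp r, e2, a4 s u r v hsu hr1 hr2 (by linarith)⟩
  · rcases lt_or_eq_of_le ht1 with hvt | hvt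
    · right
      have h4 := a4 r v t (u + 2 * Real.pi) hr2 hvt (by linarith) (by linarith)
      have h5 : Circle.exp (u + 2 * Real.pi) = Circle.exp u := Circle.exp_add_two_pi u
      rw [h5] at h4
      exact ⟨Circle.exp r, Circle.exp t, e3, (Pool.GC.q_SYM _ _ _ _ h4).2.2⟩
    · left
      rw [← hsu, hvt]
      exact e1

theorem p_DCH (hA : Stmt_ANG) (hN : Stmt_NST) : Stmt_DCH := by
  intro T hT x y hxy
  have hpi := Real.pi_pos
  have key : ∀ (s₀ t₀ : ℝ), s₀ < t₀ → t₀ < s₀ + 2 * Real.pi →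
      (Circle.exp s₀, Circle.exp t₀) ∈ T → ∀ u v : ℝ, s₀ ≤ u → u ≤ t₀ → s₀ ≤ v → v ≤ t₀ →
      x = Circle.exp u → y = Circle.exp v → (x, y) ∈ T ∨ ∃ z w, (z, w) ∈ T ∧ Link z w x y := by
    intro s₀ t₀ h1 h2 h3 u v hu1 hu2 hv1 hv2 hx hy
    rcases lt_trichotomy u v with h | h | h
    · rw [hx, hy]
      exact DCH_core hA hN hT s₀ t₀ h1 h2 h3 u v hu1 h hv2
    · exact absurd (by rw [hx, hy, h]) hxy
    · rcases DCH_core hA hN hT s₀ t₀ h1 h2 h3 v u hv1 h hu2 with h4 | ⟨z, w, h4, h5⟩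
      · left
        rw [hx, hy]
        exact hT.symm _ _ h4
      · right
        rw [hx, hy]
        exact ⟨z, w, h4, (Pool.GC.q_SYM _ _ _ _ h5).2.2⟩
  obtain ⟨⟨z₀, w₀⟩, hzw⟩ := hT.nonempty
  obtain ⟨s₀, t₀, hs, ht, hz, hw⟩ := hA.2.2.1 z₀ w₀ (hT.ne _ _ hzw)
  by_cases hl : Link z₀ w₀ x y
  · exact Or.inr ⟨z₀, w₀, hzw, hl⟩
  rw [hz, hw] at hl hzw
  rcases hA.2.2.2.2.2 s₀ t₀ x y hs ht hl with
    ⟨u, v, h1, h2, h3, h4, h5, h6⟩ | ⟨u, v, h1, h2, h3, h4, h5, h6⟩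
  · exact key s₀ t₀ hs ht hzw u v h1 h2 h3 h4 h5 h6
  · refine key t₀ (s₀ + 2 * Real.pi) ht (by linarith) ?_ u v h1 h2 h3 h4 h5 h6
    rw [Circle.exp_add_two_pi]
    exact hT.symm _ _ hzw

end Pool.AR
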