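import Pool.Agent.Work.MP_ae1ff6_ar.Interface

open Topology Filter Set
open scoped ComplexConjugate

set_option autoImplicit false

namespace Pool.AR

open Pool.CG

/-- a pair which crosses the edge `(r, s)` and no translate of itself stays away from the cusps -/
theorem FRB_far (h2 : Stmt_WND) (Γ G : Subgroup H) (T : Set (Circle × Circle)) (hS : Sys Γ G T)
    (r s : Circle) (hrs : (r, s) ∈ T) :
    ∃ ρ : ℝ, 0 < ρ ∧ ∀ p q : Circle, Link r s p q → (∀ γ ∈ Γ, ¬ Link p q (γ p) (γ q)) →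
      (ρ ≤ dist p r ∧ ρ ≤ dist q r) ∧ (ρ ≤ dist p s ∧ ρ ≤ dist q s) := by
  have hne := hS.tri.ne r s hrs
  obtain ⟨γ, hγ, hγr⟩ := hS.cusps r s hrs
  obtain ⟨γ', hγ', hγs⟩ := hS.cusps s r (hS.tri.symm r s hrs)
  obtain ⟨ρ₁, hρ₁, H₁⟩ := h2 γ r s (hS.ori γ (hS.le hγ)) hγr hne
  obtain ⟨ρ₂, hρ₂, H₂⟩ := h2 γ' s r (hS.ori γ' (hS.le hγ')) hγs hne.symm
  refine ⟨min ρ₁ ρ₂, lt_min hρ₁ hρ₂, fun p q hL hN => ?_⟩
  have a := H₁ p q hL (hN γ hγ)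
  have b := H₂ p q (Pool.GC.q_SYM r s p q hL).2.1 (hN γ' hγ')
  exact ⟨⟨(min_le_left _ _).trans a.1, (min_le_left _ _).trans a.2⟩,
    ⟨(min_le_right _ _).trans b.1, (min_le_right _ _).trans b.2⟩⟩

/-- the image of an edge under `g` does not cross its own translates -/
theorem FRB_img (Γ G : Subgroup H) (T : Set (Circle × Circle)) (hS : Sys Γ G T) (u v : Circle)
    (huv : (u, v) ∈ T) (g : H) (hg : g ∈ G) (γ : H) (hγ : γ ∈ Γ) :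
    ¬ Link (g u) (g v) (γ (g u)) (γ (g v)) := by
  intro hL
  have hκ : g⁻¹ * γ * g⁻¹⁻¹ ∈ Γ := hS.nor g⁻¹ (G.inv_mem hg) γ hγ
  rw [inv_inv] at hκ
  have h3 := Pool.GC.lhi g⁻¹ _ _ _ _ hL
  have e1 : ∀ x, g⁻¹ (g x) = x := fun x => g.symm_apply_apply x
  rw [e1, e1] at h3
  exact hS.tri.unlinked u v _ _ huv (hS.keep (g⁻¹ * γ * g) hκ u v huv) h3

theorem p_FRB (h1 : Stmt_MOR) (h2 : Stmt_WND) : Stmt_FRB := by
  intro Γ G T hS u v r s huv hrs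
  obtain ⟨ρ, hρ, Hρ⟩ := FRB_far h2 Γ G T hS r s hrs
  obtain ⟨ρ', hρ', Hρ'⟩ := FRB_far h2 Γ G T hS u v huv
  obtain ⟨ε₁, hε₁, Hε⟩ := Pool.GC.lub r s ρ hρ
  have hne := hS.tri.ne u v huv
  have hd : 0 < dist u v := dist_pos.2 hne
  refine ⟨min (min ρ ρ') (min ε₁ (dist u v)), lt_min (lt_min hρ hρ') (lt_min hε₁ hd),
    fun g hg hL => ?_⟩
  have m1 : min (min ρ ρ') (min ε₁ (dist u v)) ≤ ρ := (min_le_left _ _).trans (min_le_left _ _)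
  have m2 : min (min ρ ρ') (min ε₁ (dist u v)) ≤ ρ' := (min_le_left _ _).trans (min_le_right _ _)
  have m3 : min (min ρ ρ') (min ε₁ (dist u v)) ≤ ε₁ := (min_le_right _ _).trans (min_le_left _ _)
  have m4 : min (min ρ ρ') (min ε₁ (dist u v)) ≤ dist u v :=
    (min_le_right _ _).trans (min_le_right _ _)
  have a := Hρ (g u) (g v) (Pool.GC.q_SYM _ _ _ _ hL).1
    (fun γ hγ => FRB_img Γ G T hS u v huv g hg γ hγ)
  have b := Hε (g u) (g v) a.1.1 a.2.1 hL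
  have hL' := Pool.GC.lhi g⁻¹ _ _ _ _ hL
  have e1 : ∀ x, g⁻¹ (g x) = x := fun x => g.symm_apply_apply x
  have e2 : ∀ x, g (g⁻¹ x) = x := fun x => g.apply_symm_apply x
  rw [e1, e1] at hL'
  have c := Hρ' (g⁻¹ r) (g⁻¹ s) hL'
    (fun γ hγ => FRB_img Γ G T hS r s hrs g⁻¹ (G.inv_mem hg) γ hγ)
  refine ⟨u, v, g⁻¹ r, ⟨m4, ?_, ?_⟩, ?_, ?_, ?_⟩
  · exact (m2.trans c.2.1).trans_eq (dist_comm _ _)
  · exact (m2.trans c.1.1).trans_eq (dist_comm _ _)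
  · exact m3.trans b
  · rw [e2]; exact m1.trans a.1.2
  · rw [e2]; exact m1.trans a.1.1

end Pool.AR
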