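import Pool.Agent.Work.MP_ae1ff6_ar.Interface2

/-!
# Asymptotically rigid mapping classes (MP_ae1ff6_gt): block LCR

The edges of the moved triangulations which meet a given edge are eventually constant, finitely many
and at least one.
-/

open Topology Filter Set
open scoped ComplexConjugate

set_option autoImplicit false

namespace Pool.AR

open Pool.CG

theorem LCR_meets (k : H) (a e b : Circle × Circle) (hn : Near a e)
    (hb : (k a.1, k a.2) = b) : Meets k e.1 e.2 b.1 b.2 := by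
  subst hb
  rcases hn with h | h | h
  · left
    exact (Pool.GC.q_SYM _ _ _ _ (Pool.GC.lhi k _ _ _ _ h)).1
  · right
    rw [h]
  · right
    rw [h]
    exact Set.pair_comm _ _

theorem LCR_cusp (Γ G : Subgroup H) (hnor : ∀ g ∈ G, ∀ γ ∈ Γ, g * γ * g⁻¹ ∈ Γ) (g : H)
    (hg : g ∈ G) (x : Circle) (hx : IsCusp Γ x) : IsCusp Γ (g x) := by
  obtain ⟨γ, hγ, h⟩ := hx
  refine ⟨g * γ * g⁻¹, hnor g hg γ hγ, fun z => ?_⟩
  have h1 : (g * γ * g⁻¹) z = g (γ (g.symm z)) := rfl
  rw [h1]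
  constructor
  · intro h2
    have h3 : γ (g.symm z) = g.symm z := by
      apply g.injective
      rw [h2, g.apply_symm_apply]
    have h4 := (h _).1 h3
    rw [← h4, g.apply_symm_apply]
  · intro h2
    have h3 : g.symm z = x := by rw [h2, g.symm_apply_apply]
    rw [h3, (h x).2 rfl, h2]

theorem LCR_near (g : H) (a e : Circle × Circle) (hn : Near a e) :
    Near (g a.1, g a.2) (g e.1, g e.2) := by
  rcases hn with h | h | h
  · exact Or.inl (Pool.GC.lhi g _ _ _ _ h)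
  · right; left; rw [h]
  · right; right; rw [h]

theorem p_LCR (hDCH : Stmt_DCH) (hCRF : Stmt_CRF) (hFCL : Stmt_FCL) (hEXB : Stmt_EXB) :
    Stmt_LCR := by
  intro Γ G T F S 𝓕 hsys hSG hgen hF hFT hrig hdisp hdir e he
  obtain ⟨f1, f2, f3, f4, f5, f6⟩ := hFCL
  have hE := hEXB Γ G T F S hsys hSG hgen hF hFT hrig hdisp e he
  have hφΓ : ∀ γ ∈ Γ, ∀ g ∈ G,
      {a : Circle × Circle | ((γ * g) a.1, (γ * g) a.2) ∈ T ∧ Near a e} =
      {a : Circle × Circle | (g a.1, g a.2) ∈ T ∧ Near a e} := by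
    intro γ hγ g hg
    ext a
    constructor
    · rintro ⟨h1, h2⟩
      refine ⟨?_, h2⟩
      have h3 := hsys.keep γ⁻¹ (Γ.inv_mem hγ) _ _ h1
      have h4 : ∀ z : Circle, γ⁻¹ ((γ * g) z) = g z := fun z => γ.symm_apply_apply (g z)
      rw [h4, h4] at h3
      exact h3
    · rintro ⟨h1, h2⟩
      exact ⟨hsys.keep γ hγ _ _ h1, h2⟩
  have hφS : ∀ s ∈ S, FinCl Γ {g : H | g ∈ G ∧
      {a : Circle × Circle | ((s * g) a.1, (s * g) a.2) ∈ T ∧ Near a e} ≠
      {a : Circle × Circle | (g a.1, g a.2) ∈ T ∧ Near a e}} := by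
    intro s hs
    refine f1 Γ _ _ ?_ (f2 Γ _ _ hE (f4 Γ _ s hE))
    rintro g ⟨hg, hne⟩
    by_contra hcon
    apply hne
    ext a
    constructor
    · rintro ⟨h1, h2⟩
      refine ⟨?_, h2⟩
      by_contra h3
      apply hcon
      right
      have h4 : (s⁻¹ (s (g a.1)), s⁻¹ (s (g a.2))) ∉ T := by
        have h5 : ∀ z : Circle, s⁻¹ (s z) = z := fun z => s.symm_apply_apply z
        rw [h5, h5]
        exact h3
      obtain ⟨γ, hγ, hγF⟩ := hrig s hs (s (g a.1)) (s (g a.2)) h1 (Or.inr h4)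
      exact ⟨G.mul_mem (hSG hs) hg, γ, hγ, _, hγF, LCR_meets (γ * (s * g)) a e _ h2 rfl⟩
    · rintro ⟨h1, h2⟩
      refine ⟨?_, h2⟩
      by_contra h3
      apply hcon
      left
      obtain ⟨γ, hγ, hγF⟩ := hrig s hs (g a.1) (g a.2) h1 (Or.inl h3)
      exact ⟨hg, γ, hγ, _, hγF, LCR_meets (γ * g) a e _ h2 rfl⟩
  obtain ⟨X, hX⟩ := hdir.const (Set (Circle × Circle))
    (fun g : H => {a : Circle × Circle | (g a.1, g a.2) ∈ T ∧ Near a e}) hφΓ hφS
  have hne := hdir.ne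
  obtain ⟨g, hgX, hgG⟩ := (hX.and hdir.mem).exists
  have hgX' : {a : Circle × Circle | (g a.1, g a.2) ∈ T ∧ Near a e} = X := hgX
  have he12 : e.1 ≠ e.2 := hsys.tri.ne e.1 e.2 he
  have hge : g e.1 ≠ g e.2 := fun h => he12 (g.injective h)
  refine ⟨X, ?_, ?_, hX⟩
  · have h1 := hCRF Γ T hsys.fk hsys.tri hsys.keep (g e.1) (g e.2) hge
      (LCR_cusp Γ G hsys.nor g hgG _ (hsys.cusps e.1 e.2 he))
      (LCR_cusp Γ G hsys.nor g hgG _ (hsys.cusps e.2 e.1 (hsys.tri.symm _ _ he)))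
    have hinj : Function.Injective (fun a : Circle × Circle => (g a.1, g a.2)) := by
      intro a b hab
      have h2 := Prod.mk.inj hab
      exact Prod.ext (g.injective h2.1) (g.injective h2.2)
    refine (h1.preimage hinj.injOn).subset ?_
    rw [← hgX']
    rintro a ⟨h2, h3⟩
    exact ⟨h2, LCR_near g a e h3⟩
  · rw [← hgX']
    rcases hDCH T hsys.tri (g e.1) (g e.2) hge with h | ⟨z, w, hzw, hl⟩
    · exact ⟨e, h, Or.inr (Or.inl rfl)⟩
    · refine ⟨(g.symm z, g.symm w), ?_, Or.inl ?_⟩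
      · show (g (g.symm z), g (g.symm w)) ∈ T
        rw [g.apply_symm_apply, g.apply_symm_apply]
        exact hzw
      · have h2 := Pool.GC.lhi g⁻¹ _ _ _ _ hl
        have h3 : ∀ z : Circle, g⁻¹ (g z) = z := fun z => g.symm_apply_apply z
        rw [h3, h3] at h2
        exact h2

end Pool.AR
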