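import Pool.Agent.Work.MP_ae1ff6_ar.Interface3

/-!
# Asymptotically rigid mapping classes (MP_ae1ff6_gt): block PFX

A power of `k` preserves the curves which cross `(p, q)`, and `k` fixes one of them: then `k` fixes
all of them.
-/

open Topology Filter Set
open scoped ComplexConjugate

set_option autoImplicit false

namespace Pool.AR

open Pool.CG

theorem PFX_inj (a b : ℝ) (h : Circle.exp a = Circle.exp b) (h1 : a < b + 2 * Real.pi)
    (h2 : b < a + 2 * Real.pi) : a = b := by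
  obtain ⟨m, hm⟩ := Circle.exp_eq_exp.1 h
  have hpi := Real.pi_pos
  have h3 : (m : ℝ) < 1 := by
    by_contra hc
    push Not at hc
    nlinarith
  have h4 : (-1 : ℝ) < m := by
    by_contra hc
    push Not at hc
    nlinarith
  have h5 : m < 1 := by exact_mod_cast h3
  have h6 : -1 < m := by exact_mod_cast h4
  have h7 : m = 0 := by omega
  rw [hm, h7]
  simp

theorem PFX_far (S : Set Circle) (hS : IsCompact S) (r : Circle) (hr : r ∉ S) :
    ∃ ρ : ℝ, 0 < ρ ∧ ∀ z ∈ S, ρ ≤ dist z r := by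
  obtain ⟨ε, hε, h⟩ := Metric.isOpen_iff.1 hS.isClosed.isOpen_compl r hr
  refine ⟨ε, hε, fun z hz => ?_⟩
  by_contra hc
  push Not at hc
  exact h (Metric.mem_ball.2 hc) hz

theorem PFX_fix (k : H) (z : Circle) (h : k z = z) (n : ℕ) : (k ^ n) z = z := by
  induction n with
  | zero => rfl
  | succ n ih =>
    rw [pow_succ]
    show (k ^ n) (k z) = z
    rw [h, ih]

theorem PFX_near (g : H) (p q : Circle) (hp : g p = p) (hq : g q = q) (a : Circle × Circle)
    (hn : Near a (p, q)) : Near (g a.1, g a.2) (p, q) := by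
  rcases hn with h | h | h
  · left
    have h1 := Pool.GC.lhi g _ _ _ _ h
    rw [hp, hq] at h1
    exact h1
  · right; left
    rw [h]
    exact Prod.ext hp hq
  · right; right
    rw [h]
    exact Prod.ext hq hp

theorem PFX_dir (O : Set (Circle × Circle)) (hO : LocFin O) (p q : Circle) (k : H) (j : ℕ)
    (hj : 0 < j) (hp : k p = p) (hq : k q = q)
    (hk : ∀ a : Circle × Circle, Near a (p, q) → a ∈ O → ((k ^ j) a.1, (k ^ j) a.2) ∈ O)
    (f : ℝ → ℝ) (hf : StrictMono f) (u v : ℝ) (hu : f u = u) (hv : f v = v)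
    (huv : v < u + 2 * Real.pi)
    (hfk : ∀ y ∈ Icc u v, Circle.exp (f y) = k (Circle.exp y))
    (hne : ∀ y ∈ Ioo u v, Circle.exp y ≠ p ∧ Circle.exp y ≠ q)
    (x x₀ : ℝ) (hx : x ∈ Ioo u v) (hx₀ : x₀ ∈ Ioo u v) (h₀ : f x₀ = x₀)
    (hd : (x < f x ∧ x < x₀) ∨ (f x < x ∧ x₀ < x)) (w : Circle) (ha : (Circle.exp x, w) ∈ O)
    (hl : Link (Circle.exp x) w p q) : False := by
  have hmap : ∀ y ∈ Icc u v, f y ∈ Icc u v := fun y hy =>
    ⟨by have := hf.monotone hy.1; rwa [hu] at this,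
      by have := hf.monotone hy.2; rwa [hv] at this⟩
  have hit : ∀ n : ℕ, ∀ y ∈ Icc u v, (k ^ n) (Circle.exp y) = Circle.exp (f^[n] y) := by
    intro n
    induction n with
    | zero => intro y _; rfl
    | succ n ih =>
      intro y hy
      rw [_root_.pow_succ, Function.iterate_succ_apply, ← ih _ (hmap y hy), hfk y hy]
      rfl
  have hinj : Function.Injective (fun n : ℕ => f^[n] x) := by
    rcases hd with ⟨h1, -⟩ | ⟨h1, -⟩
    · exact (hf.strictMono_iterate_of_lt_map h1).injective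
    · exact (hf.strictAnti_iterate_of_map_lt h1).injective
  have hbd : ∀ n : ℕ, f^[n] x ∈ uIcc x x₀ := by
    intro n
    have hfix : f^[n] x₀ = x₀ := Function.iterate_fixed h₀ n
    rcases hd with ⟨h1, h2⟩ | ⟨h1, h2⟩
    · rw [uIcc_of_le h2.le]
      refine ⟨(hf.strictMono_iterate_of_lt_map h1).monotone (Nat.zero_le n), ?_⟩
      have := (hf.monotone.iterate n) h2.le
      rwa [hfix] at this
    · rw [uIcc_of_ge h2.le]
      refine ⟨?_, (hf.strictAnti_iterate_of_map_lt h1).antitone (Nat.zero_le n)⟩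
      have := (hf.monotone.iterate n) h2.le
      rwa [hfix] at this
  have hsub : uIcc x x₀ ⊆ Ioo u v := ordConnected_Ioo.uIcc_subset hx hx₀
  have hcpt : IsCompact (Circle.exp '' uIcc x x₀) := isCompact_uIcc.image Circle.exp.continuous
  obtain ⟨ρ₁, hρ₁, h1⟩ := PFX_far _ hcpt p (by
    rintro ⟨y, hy, hyp⟩
    exact (hne y (hsub hy)).1 hyp)
  obtain ⟨ρ₂, hρ₂, h2⟩ := PFX_far _ hcpt q (by
    rintro ⟨y, hy, hyp⟩
    exact (hne y (hsub hy)).2 hyp)
  obtain ⟨ε, hε, hlub⟩ := Pool.GC.lub p q (min ρ₁ ρ₂) (lt_min hρ₁ hρ₂)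
  have hfin := hO ε hε
  have hIcc : x ∈ Icc u v := ⟨hx.1.le, hx.2.le⟩
  have hfirst : ∀ n : ℕ, ((k ^ j) ^ n) (Circle.exp x) = Circle.exp (f^[j * n] x) := by
    intro n
    rw [← pow_mul]
    exact hit _ x hIcc
  have hlink : ∀ n : ℕ, Link (((k ^ j) ^ n) (Circle.exp x)) (((k ^ j) ^ n) w) p q := by
    intro n
    have h3 := Pool.GC.lhi ((k ^ j) ^ n) _ _ _ _ hl
    rw [PFX_fix _ p (PFX_fix k p hp j) n, PFX_fix _ q (PFX_fix k q hq j) n] at h3
    exact h3
  have hmem : ∀ n : ℕ, (((k ^ j) ^ n) (Circle.exp x), ((k ^ j) ^ n) w) ∈ O := by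
    intro n
    induction n with
    | zero => exact ha
    | succ n ih =>
      have h3 := hk _ (Or.inl (hlink n)) ih
      have h4 : ∀ z : Circle, ((k ^ j) ^ (n + 1)) z = (k ^ j) (((k ^ j) ^ n) z) := by
        intro z
        rw [_root_.pow_succ']
        rfl
      rw [h4, h4]
      exact h3
  have hinf : {a : Circle × Circle | a ∈ O ∧ ε ≤ dist a.1 a.2}.Infinite := by
    refine Set.infinite_of_injective_forall_mem
      (f := fun n : ℕ => (((k ^ j) ^ n) (Circle.exp x), ((k ^ j) ^ n) w)) ?_ ?_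
    · intro n m hnm
      have h3 : ((k ^ j) ^ n) (Circle.exp x) = ((k ^ j) ^ m) (Circle.exp x) :=
        (Prod.mk.inj hnm).1
      rw [hfirst, hfirst] at h3
      have hn := hsub (hbd (j * n))
      have hm := hsub (hbd (j * m))
      have h4 := PFX_inj _ _ h3 (by linarith [hn.2, hm.1]) (by linarith [hm.2, hn.1])
      have h5 : j * n = j * m := hinj h4
      exact Nat.eq_of_mul_eq_mul_left hj h5
    · intro n
      refine ⟨hmem n, hlub _ _ ?_ ?_ (hlink n)⟩
      · show min ρ₁ ρ₂ ≤ dist (((k ^ j) ^ n) (Circle.exp x)) p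
        rw [hfirst]
        exact (min_le_left _ _).trans (h1 _ ⟨_, hbd _, rfl⟩)
      · show min ρ₁ ρ₂ ≤ dist (((k ^ j) ^ n) (Circle.exp x)) q
        rw [hfirst]
        exact (min_le_right _ _).trans (h2 _ ⟨_, hbd _, rfl⟩)
  exact hinf hfin

theorem PFX_side (O : Set (Circle × Circle)) (hO : LocFin O) (p q : Circle) (k : H) (j : ℕ)
    (hj : 0 < j) (hp : k p = p) (hq : k q = q)
    (hk : ∀ a : Circle × Circle, Near a (p, q) → (a ∈ O ↔ ((k ^ j) a.1, (k ^ j) a.2) ∈ O))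
    (κ : ℝ ≃o ℝ) (u v : ℝ) (hu : κ u = u) (hv : κ v = v) (huv : v < u + 2 * Real.pi)
    (hfk : ∀ y ∈ Icc u v, Circle.exp (κ y) = k (Circle.exp y))
    (hne : ∀ y ∈ Ioo u v, Circle.exp y ≠ p ∧ Circle.exp y ≠ q)
    (x x₀ : ℝ) (hx : x ∈ Ioo u v) (hx₀ : x₀ ∈ Ioo u v) (h₀ : κ x₀ = x₀)
    (w : Circle) (ha : (Circle.exp x, w) ∈ O) (hl : Link (Circle.exp x) w p q) : κ x = x := by
  by_contra hc
  have hu' : κ.symm u = u := by rw [OrderIso.symm_apply_eq, hu]
  have hv' : κ.symm v = v := by rw [OrderIso.symm_apply_eq, hv]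
  have h₀' : κ.symm x₀ = x₀ := by rw [OrderIso.symm_apply_eq, h₀]
  have hp' : k⁻¹ p = p := by
    show k.symm p = p
    conv_lhs => rw [← hp]
    exact k.symm_apply_apply p
  have hq' : k⁻¹ q = q := by
    show k.symm q = q
    conv_lhs => rw [← hq]
    exact k.symm_apply_apply q
  have hfk' : ∀ y ∈ Icc u v, Circle.exp (κ.symm y) = k⁻¹ (Circle.exp y) := by
    intro y hy
    have h1 : κ.symm y ∈ Icc u v :=
      ⟨by have := κ.symm.monotone hy.1; rwa [hu'] at this,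
        by have := κ.symm.monotone hy.2; rwa [hv'] at this⟩
    have h2 := hfk _ h1
    rw [κ.apply_symm_apply] at h2
    rw [h2]
    exact (k.symm_apply_apply _).symm
  have hk' : ∀ a : Circle × Circle, Near a (p, q) → a ∈ O →
      ((k⁻¹ ^ j) a.1, (k⁻¹ ^ j) a.2) ∈ O := by
    intro a hn haO
    have h1 := PFX_near (k⁻¹ ^ j) p q (PFX_fix _ p hp' j) (PFX_fix _ q hq' j) a hn
    refine (hk _ h1).2 ?_
    have h2 : ∀ z : Circle, (k ^ j) ((k⁻¹ ^ j) z) = z := by
      intro z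
      rw [inv_pow]
      exact (k ^ j).apply_symm_apply z
    show ((k ^ j) ((k⁻¹ ^ j) a.1), (k ^ j) ((k⁻¹ ^ j) a.2)) ∈ O
    rw [h2, h2]
    exact haO
  have hsm : StrictMono κ := κ.strictMono
  have hsm' : StrictMono κ.symm := κ.symm.strictMono
  have hnex : x ≠ x₀ := by
    rintro rfl
    exact hc h₀
  rcases lt_or_gt_of_ne hc with h1 | h1
  · have h2 : x < κ.symm x := by
      have := hsm' h1
      rwa [κ.symm_apply_apply] at this
    rcases lt_or_gt_of_ne hnex with h3 | h3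
    · exact PFX_dir O hO p q k⁻¹ j hj hp' hq' hk' κ.symm hsm' u v hu' hv' huv hfk' hne x x₀ hx
        hx₀ h₀' (Or.inl ⟨h2, h3⟩) w ha hl
    · exact PFX_dir O hO p q k j hj hp hq (fun a hn haO => (hk a hn).1 haO) κ hsm u v hu hv huv
        hfk hne x x₀ hx hx₀ h₀ (Or.inr ⟨h1, h3⟩) w ha hl
  · have h2 : κ.symm x < x := by
      have := hsm' h1
      rwa [κ.symm_apply_apply] at this
    rcases lt_or_gt_of_ne hnex with h3 | h3
    · exact PFX_dir O hO p q k j hj hp hq (fun a hn haO => (hk a hn).1 haO) κ hsm u v hu hv huv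
        hfk hne x x₀ hx hx₀ h₀ (Or.inl ⟨h1, h3⟩) w ha hl
    · exact PFX_dir O hO p q k⁻¹ j hj hp' hq' hk' κ.symm hsm' u v hu' hv' huv hfk' hne x x₀ hx
        hx₀ h₀' (Or.inr ⟨h2, h3⟩) w ha hl

theorem p_PFX (hCYO : Stmt_CYO) (hLKC : Stmt_LKC) (hANG : Stmt_ANG) (hLFO : Stmt_LFO) :
    Stmt_PFX := by
  intro O p q k j c hO hsym hpq hori hp hq hj hk hcO hcl hc1 hc2
  obtain ⟨-, n2, n3, -⟩ := hANG
  obtain ⟨θ, s, hθs, hs, rfl, rfl⟩ := n3 p q hpq
  obtain ⟨κ, k1, k2, k3, k4⟩ := hLFO k θ s hori hθs hs hp hq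
  have hper : Circle.exp (θ + 2 * Real.pi) = Circle.exp θ := by
    rw [Circle.exp_eq_exp]
    exact ⟨1, by simp⟩
  -- the two sides
  have hside : ∀ z : Circle, Ccw (Circle.exp θ) z (Circle.exp s) → ∃ r ∈ Ioo θ s,
      z = Circle.exp r := by
    intro z hz
    obtain ⟨r, h1, h2, h3⟩ := n2 θ s z hθs hs hz
    exact ⟨r, ⟨h1, h2⟩, h3⟩
  have hside' : ∀ z : Circle, Ccw (Circle.exp s) z (Circle.exp θ) →
      ∃ r ∈ Ioo s (θ + 2 * Real.pi), z = Circle.exp r := by
    intro z hz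
    rw [← hper] at hz
    obtain ⟨r, h1, h2, h3⟩ := n2 s (θ + 2 * Real.pi) z hs (by linarith) hz
    exact ⟨r, ⟨h1, h2⟩, h3⟩
  -- fixed points on both sides
  have hfixl : ∀ r ∈ Ioo θ s, k (Circle.exp r) = Circle.exp r → κ r = r := by
    intro r hr hkr
    have h1 := k4 r hr.1.le (by linarith [hr.2])
    rw [hkr] at h1
    have h2 := κ.strictMono hr.1
    have h3 := κ.strictMono hr.2
    rw [k1] at h2
    rw [k2] at h3
    exact PFX_inj _ _ h1 (by linarith [hr.1]) (by linarith [hr.2])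
  have hfixr : ∀ r ∈ Ioo s (θ + 2 * Real.pi), k (Circle.exp r) = Circle.exp r → κ r = r := by
    intro r hr hkr
    have h1 := k4 r (by linarith [hr.1]) hr.2.le
    rw [hkr] at h1
    have h2 := κ.strictMono hr.1
    have h3 := κ.strictMono hr.2
    rw [k2] at h2
    rw [k3] at h3
    exact PFX_inj _ _ h1 (by linarith [hr.1]) (by linarith [hr.2])
  obtain ⟨xl, hxl, hxlf⟩ : ∃ r ∈ Ioo θ s, κ r = r := by
    rcases (hLKC _ _ _ _).1 (Pool.GC.q_SYM _ _ _ _ hcl).1 with ⟨h, -⟩ | ⟨h, -⟩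
    · obtain ⟨r, hr, hcr⟩ := hside _ h
      exact ⟨r, hr, hfixl r hr (by rw [← hcr]; exact hc1)⟩
    · obtain ⟨r, hr, hcr⟩ := hside _ h
      exact ⟨r, hr, hfixl r hr (by rw [← hcr]; exact hc2)⟩
  obtain ⟨xr, hxr, hxrf⟩ : ∃ r ∈ Ioo s (θ + 2 * Real.pi), κ r = r := by
    rcases (hLKC _ _ _ _).1 (Pool.GC.q_SYM _ _ _ _ hcl).1 with ⟨-, h⟩ | ⟨-, h⟩
    · obtain ⟨r, hr, hcr⟩ := hside' _ h
      exact ⟨r, hr, hfixr r hr (by rw [← hcr]; exact hc2)⟩
    · obtain ⟨r, hr, hcr⟩ := hside' _ h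
      exact ⟨r, hr, hfixr r hr (by rw [← hcr]; exact hc1)⟩
  have hnel : ∀ y ∈ Ioo θ s, Circle.exp y ≠ Circle.exp θ ∧ Circle.exp y ≠ Circle.exp s := by
    intro y hy
    refine ⟨fun h => ?_, fun h => ?_⟩
    · have := PFX_inj _ _ h (by linarith [hy.2]) (by linarith [hy.1])
      linarith [hy.1]
    · have := PFX_inj _ _ h (by linarith [hy.2]) (by linarith [hy.1])
      linarith [hy.2]
  have hner : ∀ y ∈ Ioo s (θ + 2 * Real.pi), Circle.exp y ≠ Circle.exp θ ∧
      Circle.exp y ≠ Circle.exp s := by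
    intro y hy
    refine ⟨fun h => ?_, fun h => ?_⟩
    · have := PFX_inj _ _ h (by linarith [hy.2]) (by linarith [hy.1])
      linarith [hy.1]
    · have := PFX_inj _ _ h (by linarith [hy.2]) (by linarith [hy.1])
      linarith [hy.1]
  have main : ∀ a ∈ O, Link a.1 a.2 (Circle.exp θ) (Circle.exp s) → k a.1 = a.1 := by
    rintro ⟨a1, a2⟩ haO hal
    have hcases : Ccw (Circle.exp θ) a1 (Circle.exp s) ∨ Ccw (Circle.exp s) a1 (Circle.exp θ) := by
      rcases (hLKC _ _ _ _).1 (Pool.GC.q_SYM _ _ _ _ hal).1 with ⟨h, -⟩ | ⟨-, h⟩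
      · exact Or.inl h
      · exact Or.inr h
    rcases hcases with h | h
    · obtain ⟨x, hx, hax⟩ := hside _ h
      subst hax
      have h1 := PFX_side O hO _ _ k j hj hp hq hk κ θ s k1 k2 hs
        (fun y hy => k4 y hy.1 (by linarith [hy.2])) hnel x xl hx hxl hxlf a2 haO hal
      have h2 := k4 x hx.1.le (by linarith [hx.2])
      rw [h1] at h2
      exact h2.symm
    · obtain ⟨x, hx, hax⟩ := hside' _ h
      subst hax
      have h1 := PFX_side O hO _ _ k j hj hp hq hk κ s (θ + 2 * Real.pi) k2 k3 (by linarith)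
        (fun y hy => k4 y (by linarith [hy.1]) hy.2) hner x xr hx hxr hxrf a2 haO hal
      have h2 := k4 x (by linarith [hx.1]) hx.2.le
      rw [h1] at h2
      exact h2.symm
  intro a haO hal
  refine ⟨main a haO hal, ?_⟩
  exact main (a.2, a.1) (hsym _ _ haO) (Pool.GC.q_SYM _ _ _ _ hal).2.1

end Pool.AR
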