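import Pool.Agent.Work.MP_ae1ff6_ar.Interface

/-! # Block SHF: maps with one fixed point move all points in the same direction -/

open Topology Filter Set
open scoped ComplexConjugate

set_option autoImplicit false

namespace Pool.AR

open Pool.CG

theorem SHF_area_cont (x : Circle) (f g : Circle → Circle) (hf : Continuous f)
    (hg : Continuous g) : Continuous fun z => area x (f z) (g z) := by
  unfold area
  have h1 : Continuous fun z => ((f z : Circle) : ℂ) := continuous_subtype_val.comp hf
  have h2 : Continuous fun z => ((g z : Circle) : ℂ) := continuous_subtype_val.comp hg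
  exact Complex.continuous_im.comp
    ((Complex.continuous_conj.comp (h1.sub continuous_const)).mul (h2.sub continuous_const))

theorem SHF_conn (x : Circle) : IsPreconnected ({x}ᶜ : Set Circle) := by
  obtain ⟨s, rfl⟩ : ∃ s : ℝ, Circle.exp s = x := ⟨Complex.arg (x : ℂ), Circle.exp_arg x⟩
  have h : ({Circle.exp s}ᶜ : Set Circle) = Circle.exp '' Ioo s (s + 2 * Real.pi) := by
    ext z
    constructor
    · intro hz
      exact Pool.GC.TWO_all s z hz
    · rintro ⟨y, hy, rfl⟩ h2
      exact Pool.GC.TWO_ne s y hy.1 hy.2 (Eq.symm h2)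
  rw [h]
  exact Pool.GC.TWO_conn s (s + 2 * Real.pi)

theorem p_SHF (h1 : Stmt_CYO) : Stmt_SHF := by
  obtain ⟨hrot, hno, htri, -⟩ := h1
  intro γ x hγ
  have hU : IsOpen {z : Circle | Ccw x z (γ z)} :=
    isOpen_lt continuous_const (SHF_area_cont x _ _ continuous_id γ.continuous)
  have hV : IsOpen {z : Circle | Ccw x (γ z) z} :=
    isOpen_lt continuous_const (SHF_area_cont x _ _ γ.continuous continuous_id)
  have hdis : Disjoint {z : Circle | Ccw x z (γ z)} {z : Circle | Ccw x (γ z) z} := by
    rw [Set.disjoint_left]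
    intro z hz hz'
    exact (hno _ _ _ hz).1 hz'
  have hcov : ({x}ᶜ : Set Circle) ⊆ {z : Circle | Ccw x z (γ z)} ∪ {z : Circle | Ccw x (γ z) z} := by
    intro z hz
    have hz' : z ≠ x := hz
    have ha : z ≠ γ z := fun h => hz' ((hγ z).1 h.symm)
    have hb : x ≠ γ z := by
      intro h
      have hx : γ x = x := (hγ x).2 rfl
      exact hz' (γ.injective (h.symm.trans hx.symm))
    exact htri x z (γ z) (Ne.symm hz') ha hb
  rcases (SHF_conn x).subset_or_subset hU hV hdis hcov with h | h
  · exact Or.inl fun z hz => h hz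
  · exact Or.inr fun z hz => h hz

end Pool.AR
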