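import Pool.Agent.Work.MP_ae1ff6_gc.AllG

/-!
# Asymptotically rigid mapping classes realized by hyperbolic isometries (MP_ae1ff6_gt): definitions

The setting is the one of `Pool/Agent/Work/MP_ae1ff6_cg/Defs.lean`: `S = 𝔻 / Γ` is a hyperbolic
surface, `Γ` a Fuchsian group of the first kind acting on the circle at infinity, and a group of
mapping classes of `S` is `G / Γ` for a group `G` of homeomorphisms of the circle which contains `Γ`
as a normal subgroup. A geodesic of the disc is given by its endpoints. An ideal triangulation of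
the disc is given by the set `T` of its edges (pairs of points of the circle, in both orders); an
ideal triangulation of `S` with all vertices at the punctures of `S` is a `Γ`-invariant ideal
triangulation of the disc whose vertices are parabolic fixed points (cusps) of `Γ`.
-/

open Topology Filter Set
open scoped ComplexConjugate

set_option autoImplicit false

namespace Pool.AR

open Pool.CG

/-- twice the signed area of the triangle with the vertices `a`, `b`, `c` -/
noncomputable def area (a b c : Circle) : ℝ :=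
  (conj ((b : ℂ) - (a : ℂ)) * ((c : ℂ) - (a : ℂ))).im

/-- `a`, `b`, `c` are different points in counterclockwise order -/
def Ccw (a b c : Circle) : Prop := 0 < area a b c

/-- `g` preserves the orientation -/
def Ori (g : H) : Prop := ∀ a b c : Circle, Ccw a b c → Ccw (g a) (g b) (g c)

/-- `T` is the set of edges of an ideal triangulation of the disc: the edges do not cross, each edge
is a side of a triangle on its right side (and, by symmetry, on its left side), and only finitely
many edges meet a given compact subset of the disc (that is, have endpoints at distance at least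
`ε`) -/
structure Tri (T : Set (Circle × Circle)) : Prop where
  symm : ∀ x y, (x, y) ∈ T → (y, x) ∈ T
  ne : ∀ x y, (x, y) ∈ T → x ≠ y
  unlinked : ∀ x y z w, (x, y) ∈ T → (z, w) ∈ T → ¬ Link x y z w
  third : ∀ x y, (x, y) ∈ T → ∃ z, Ccw x z y ∧ (x, z) ∈ T ∧ (z, y) ∈ T
  fin : ∀ ε : ℝ, 0 < ε → {a : Circle × Circle | a ∈ T ∧ ε ≤ dist a.1 a.2}.Finite
  nonempty : T.Nonempty

/-- `T` is invariant under `G` -/
def Keeps (G : Subgroup H) (T : Set (Circle × Circle)) : Prop :=
  ∀ g ∈ G, ∀ x y, (x, y) ∈ T → (g x, g y) ∈ T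

/-- `x` is a cusp of `Γ`: the fixed point of a parabolic element (for `γ ∈ Γ`: an element with
exactly one fixed point) -/
def IsCusp (Γ : Subgroup H) (x : Circle) : Prop := ∃ γ ∈ Γ, ∀ z, γ z = z ↔ z = x

/-- the set `A` is contained in finitely many classes of `G / Γ` -/
def FinCl (Γ : Subgroup H) (A : Set H) : Prop :=
  ∃ F : Set H, F.Finite ∧ ∀ g ∈ A, ∃ h ∈ F, h⁻¹ * g ∈ Γ

/-- The mapping class `s Γ` is asymptotically rigid for the ideal triangulation `T / Γ` of `S`, and the
set `F` of edges contains all exceptional arcs: all arcs of `T / Γ` which are not in `F` (up to `Γ`) are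
mapped to arcs of `T / Γ` by `s` and by `s⁻¹`. (In the theorems `F` is a finite subset of `T`, so `T / Γ` and
its image under `s` differ only by finitely many arcs.) -/
def RigidBy (Γ : Subgroup H) (T F : Set (Circle × Circle)) (s : H) : Prop :=
  ∀ x y, (x, y) ∈ T → ((s x, s y) ∉ T ∨ (s⁻¹ x, s⁻¹ y) ∉ T) → ∃ γ ∈ Γ, (γ x, γ y) ∈ F

/-- `G / Γ` displaces the arcs in `T`: for all arcs `a`, `b` in `T` only finitely many classes map `a` to an
arc which crosses `b` or is equal to `b` (as arcs of `S`) -/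
def DispT (Γ G : Subgroup H) (T : Set (Circle × Circle)) : Prop :=
  ∀ x y z w, (x, y) ∈ T → (z, w) ∈ T → FinCl Γ {g : H | g ∈ G ∧ Meets g x y z w}

/-- The group `G / Γ` is infinite, generated by the classes of the finite set `S`, and has exactly one
end: if a set of classes is almost invariant under left multiplication by the generators (up to
finitely many classes), then it or its complement is finite. -/
def OneEnd (Γ G : Subgroup H) (S : Set H) : Prop :=
  S.Finite ∧ S ⊆ G ∧ G ≤ Γ ⊔ Subgroup.closure S ∧ ¬ FinCl Γ G ∧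
    ∀ A : Set H, A ⊆ G → (∀ γ ∈ Γ, ∀ g ∈ A, γ * g ∈ A) →
      (∀ s ∈ S, FinCl Γ {g : H | g ∈ G ∧ ¬ (s * g ∈ A ↔ g ∈ A)}) →
      FinCl Γ A ∨ FinCl Γ {g : H | g ∈ G ∧ g ∉ A}

/-- the point of the circle which corresponds to the point `p : q` of the real projective line, that
is to the point `p / q` of `ℝ ∪ {∞}` (the boundary of the upper half plane) -/
noncomputable def cusp (p q : ℝ) : Circle :=
  if h : (p + q * Complex.I : ℂ) ≠ 0 then Circle.ofConjDivSelf (p + q * Complex.I) h else 1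

/-- `g` is the boundary map of an element of the modular group `PSL(2, ℤ)` -/
def IsModular (g : H) : Prop :=
  ∃ a b c d : ℤ, a * d - b * c = 1 ∧ ∀ p q : ℝ, (p ≠ 0 ∨ q ≠ 0) →
    g (cusp p q) = cusp (a * p + b * q) (c * p + d * q)

/-- the Farey triangulation -/
def Farey : Set (Circle × Circle) :=
  {a | ∃ p q r s : ℤ, (p * s - q * r = 1 ∨ p * s - q * r = -1) ∧ a = (cusp p q, cusp r s)}

/-- `Γ` is a Fuchsian group of the first kind, normal in the group `G` of orientation preserving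
homeomorphisms, and `T / Γ` is an ideal triangulation of `𝔻 / Γ` with all vertices at the punctures -/
structure Sys (Γ G : Subgroup H) (T : Set (Circle × Circle)) : Prop where
  fk : FirstKind Γ
  le : Γ ≤ G
  nor : ∀ g ∈ G, ∀ γ ∈ Γ, g * γ * g⁻¹ ∈ Γ
  ori : ∀ g ∈ G, Ori g
  tri : Tri T
  keep : Keeps Γ T
  cusps : ∀ x y, (x, y) ∈ T → IsCusp Γ x

/-- Rigidity: a group of orientation preserving homeomorphisms which preserves an ideal triangulation
is conjugate to a subgroup of the modular group. -/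
def Stmt_FAR : Prop :=
  ∀ (G : Subgroup H) (T : Set (Circle × Circle)), (∀ g ∈ G, Ori g) → Tri T → Keeps G T →
    ∃ h : H, Ori h ∧ (∀ x y, (x, y) ∈ T ↔ (h x, h y) ∈ Farey) ∧
      ∀ g ∈ G, IsMob (h * g * h⁻¹) ∧ IsModular (h * g * h⁻¹)

/-- The theorem for groups. -/
def Stmt_ARG : Prop :=
  ∀ (Γ G : Subgroup H) (T F : Set (Circle × Circle)) (S : Set H), Sys Γ G T → OneEnd Γ G S →
    F.Finite → F ⊆ T → (∀ s ∈ S, RigidBy Γ T F s) →
    (Realized G ↔ Conv G) ∧ (Realized G ↔ Pool.GC.SelfDisplaces Γ G) ∧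
    (Realized G ↔ DispT Γ G T) ∧ (Realized G ↔ DispT Γ G F) ∧
    (Realized G ↔ ∃ T', Tri T' ∧ Keeps G T') ∧
    (Realized G ↔ ∃ h : H, ∀ g ∈ G, IsMob (h * g * h⁻¹) ∧ IsModular (h * g * h⁻¹))

/-- The theorem for one mapping class `f` of infinite order. -/
def Stmt_AR1 : Prop :=
  ∀ (Γ : Subgroup H) (f : H) (T F : Set (Circle × Circle)), FirstKind Γ → Tri T → Keeps Γ T →
    (∀ x y, (x, y) ∈ T → IsCusp Γ x) → Ori f → (∀ γ, γ ∈ Γ ↔ f * γ * f⁻¹ ∈ Γ) →
    (∀ n : ℕ, 0 < n → f ^ n ∉ Γ) → F.Finite → F ⊆ T → RigidBy Γ T F f →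
    (Realized (Γ ⊔ Subgroup.zpowers f) ↔ Conv (Γ ⊔ Subgroup.zpowers f)) ∧
    (Realized (Γ ⊔ Subgroup.zpowers f) ↔ ∀ γ ∈ Γ, ∀ p q : Circle, Axis γ p q →
      {n : ℤ | ∃ κ ∈ Γ, Link ((κ * f ^ n) p) ((κ * f ^ n) q) p q}.Finite) ∧
    (Realized (Γ ⊔ Subgroup.zpowers f) ↔ ∀ x y z w, (x, y) ∈ T → (z, w) ∈ T →
      {n : ℤ | ∃ κ ∈ Γ, Meets (κ * f ^ n) x y z w}.Finite) ∧
    (Realized (Γ ⊔ Subgroup.zpowers f) ↔ ∀ x y z w, (x, y) ∈ F → (z, w) ∈ F →
      {n : ℤ | ∃ κ ∈ Γ, Meets (κ * f ^ n) x y z w}.Finite) ∧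
    (Realized (Γ ⊔ Subgroup.zpowers f) ↔
      ∃ T', Tri T' ∧ Keeps Γ T' ∧ ∀ x y, (x, y) ∈ T' ↔ (f x, f y) ∈ T') ∧
    (Realized (Γ ⊔ Subgroup.zpowers f) ↔ ∃ h : H, ∀ g ∈ Γ ⊔ Subgroup.zpowers f,
      IsMob (h * g * h⁻¹) ∧ IsModular (h * g * h⁻¹))

end Pool.AR
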