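import Pool.Agent.Work.MP_ae1ff6_ar.Defs

/-!
# Finitely generated asymptotically rigid groups of mapping classes: definitions

Here `S = 𝔻 / Γ` is an arbitrary hyperbolic surface (no punctures are needed) and the triangulation is
replaced by a locally finite filling system of closed geodesics.
-/

open Topology Filter Set
open scoped ComplexConjugate

set_option autoImplicit false

namespace Pool.AR

open Pool.CG

/-- `O` is the set of all lifts to the disc (pairs of endpoints, in both orders) of a locally finite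
filling system of closed geodesics of `S = 𝔻 / Γ`: it is invariant under `Γ`, its elements are axes of
hyperbolic elements of `Γ`, only finitely many have endpoints at distance at least `ε`, and each
geodesic `(x, y)` of the disc is crossed by an element of `O`. -/
structure Curves (Γ : Subgroup H) (O : Set (Circle × Circle)) : Prop where
  symm : ∀ x y, (x, y) ∈ O → (y, x) ∈ O
  keep : Keeps Γ O
  axis : ∀ x y, (x, y) ∈ O → ∃ γ ∈ Γ, Axis γ x y
  fin : ∀ ε : ℝ, 0 < ε → {a : Circle × Circle | a ∈ O ∧ ε ≤ dist a.1 a.2}.Finite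
  fill : ∀ x y : Circle, x ≠ y → ∃ z w, (z, w) ∈ O ∧ Link z w x y

/-- the elements of `F` and the elements of `O` which cross an element of `F` (if `F` is finite, these
are finitely many closed geodesics of `S`) -/
def Touch (O F : Set (Circle × Circle)) : Set (Circle × Circle) :=
  {a | a ∈ O ∧ (a ∈ F ∨ ∃ c ∈ F, Link a.1 a.2 c.1 c.2)}

/-- `G / Γ` displaces the (finitely many) closed geodesics in `Touch O F` from those in `F`: for `a` in
`Touch O F` and `b` in `F` only finitely many classes map `a` to a closed geodesic which crosses or is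
equal to `b` -/
def DispF (Γ G : Subgroup H) (O F : Set (Circle × Circle)) : Prop :=
  ∀ a ∈ Touch O F, ∀ b ∈ F, FinCl Γ {g : H | g ∈ G ∧ Meets g a.1 a.2 b.1 b.2}

/-- The theorem: a finitely generated group of mapping classes with asymptotically rigid generators is
a discrete convergence group if and only if it displaces finitely many pairs of closed geodesics. -/
def Stmt_GO : Prop :=
  ∀ (Γ G : Subgroup H) (O F : Set (Circle × Circle)) (S : Set H), FirstKind Γ → Γ ≤ G →
    (∀ g ∈ G, ∀ γ ∈ Γ, g * γ * g⁻¹ ∈ Γ) → (∀ g ∈ G, Ori g) → Curves Γ O → S.Finite → S ⊆ G →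
    G ≤ Γ ⊔ Subgroup.closure S → F.Finite → F ⊆ O → (∀ s ∈ S, RigidBy Γ O F s) →
    (Conv G ↔ DispT Γ G O) ∧ (Conv G ↔ DispF Γ G O F)

/-- The theorem for one mapping class of infinite order. -/
def Stmt_GO1 : Prop :=
  ∀ (Γ : Subgroup H) (f : H) (O F : Set (Circle × Circle)), FirstKind Γ → Ori f →
    (∀ γ, γ ∈ Γ ↔ f * γ * f⁻¹ ∈ Γ) → (∀ n : ℕ, 0 < n → f ^ n ∉ Γ) → Curves Γ O → F.Finite →
    F ⊆ O → RigidBy Γ O F f →
    (Conv (Γ ⊔ Subgroup.zpowers f) ↔ ∀ a ∈ Touch O F, ∀ b ∈ F,
      {n : ℤ | ∃ κ ∈ Γ, Meets (κ * f ^ n) a.1 a.2 b.1 b.2}.Finite)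

end Pool.AR
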