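import Pool.Agent.Work.MP_ae1ff6_ar.All

/-!
# Asymptotically rigid mapping classes (MP_ae1ff6_gt): the limit triangulation
-/

open Topology Filter Set

set_option autoImplicit false

namespace Pool.AR

open Pool.CG

/-- the limit of the triangulations `f⁻ⁿ T`: the pairs which are in `f⁻ⁿ T` for all large `n` -/
def limT (f : H) (T : Set (Circle × Circle)) : Set (Circle × Circle) :=
  {a | ∀ᶠ n : ℕ in atTop, ((f ^ n) a.1, (f ^ n) a.2) ∈ T}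

theorem limT_eq (Γ : Subgroup H) (f : H) (T : Set (Circle × Circle)) (hk : Keeps Γ T) :
    Lim (ZDR_dir Γ f) T = limT f T := by
  ext a
  constructor
  · intro h
    have h1 : ∀ᶠ n : ℤ in atTop, ∀ γ ∈ Γ, γ * f ^ n ∈ {g : H | (g a.1, g a.2) ∈ T} := h
    obtain ⟨N, hN⟩ := eventually_atTop.1 h1
    refine eventually_atTop.2 ⟨N.toNat, fun n hn => ?_⟩
    have h2 := hN (n : ℤ) (by omega) 1 (one_mem Γ)
    have h3 : (((1 : H) * f ^ (n : ℤ)) a.1, ((1 : H) * f ^ (n : ℤ)) a.2) ∈ T := h2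
    rwa [one_mul, zpow_natCast] at h3
  · intro h
    obtain ⟨N, hN⟩ := eventually_atTop.1 h
    show ∀ᶠ n : ℤ in atTop, ∀ γ ∈ Γ, γ * f ^ n ∈ {g : H | (g a.1, g a.2) ∈ T}
    refine eventually_atTop.2 ⟨(N : ℤ), fun n hn γ hγ => ?_⟩
    have h2 := hk γ hγ _ _ (hN n.toNat (by omega))
    show ((γ * f ^ n) a.1, (γ * f ^ n) a.2) ∈ T
    have h3 : f ^ n = f ^ n.toNat := by
      rw [← zpow_natCast, Int.toNat_of_nonneg (by omega)]
    rw [h3]
    exact h2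

theorem ar1_lim (Γ : Subgroup H) (f : H) (T F : Set (Circle × Circle)) (hΓ : FirstKind Γ)
    (hT : Tri T) (hk : Keeps Γ T) (hc : ∀ x y, (x, y) ∈ T → IsCusp Γ x) (hf : Ori f)
    (hn : ∀ γ, γ ∈ Γ ↔ f * γ * f⁻¹ ∈ Γ) (hinf : ∀ n : ℕ, 0 < n → f ^ n ∉ Γ) (hF : F.Finite)
    (hFT : F ⊆ T) (hr : RigidBy Γ T F f) :
    Realized (Γ ⊔ Subgroup.zpowers f) ↔ Tri (limT f T) := by
  obtain ⟨-, -, -, h1, h2, -⟩ := ar1 Γ f T F hΓ hT hk hc hf hn hinf hF hFT hr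
  have hfG : f ∈ Γ ⊔ Subgroup.zpowers f :=
    (le_sup_right : Subgroup.zpowers f ≤ _) (Subgroup.mem_zpowers f)
  constructor
  · intro h
    have hs : Sys Γ (Γ ⊔ Subgroup.zpowers f) T :=
      ⟨hΓ, le_sup_left, (q_ZDR Γ f hn hinf).1, q_MOR.2.2 Γ f hΓ hf, hT, hk, hc⟩
    have hD : DispT Γ (Γ ⊔ Subgroup.zpowers f) F := (q_CYA Γ f F hn hinf).2 (h1.1 h)
    have h3 := (q_LIM Γ (Γ ⊔ Subgroup.zpowers f) T F {f} (ZDR_dir Γ f) hs
      (by rintro _ rfl; exact hfG) (by rw [Subgroup.zpowers_eq_closure]) hF hFT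
      (by rintro _ rfl; exact hr) hD (ZDR_isDir Γ f hn hinf)).1
    rwa [limT_eq Γ f T hk] at h3
  · intro h
    refine h2.2 ⟨limT f T, h, ?_, ?_⟩
    · intro γ hγ x y hxy
      have h4 : ∀ᶠ n : ℕ in atTop, ((f ^ n) x, (f ^ n) y) ∈ T := hxy
      show ∀ᶠ n : ℕ in atTop, ((f ^ n) (γ x), (f ^ n) (γ y)) ∈ T
      refine h4.mono fun n h5 => ?_
      have h6 : f ^ n * γ * (f ^ n)⁻¹ ∈ Γ := by
        have := ZDR_conj Γ f hn n γ hγ
        rwa [zpow_natCast] at this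
      have h7 := hk _ h6 _ _ h5
      have h8 : ∀ z : Circle, (f ^ n * γ * (f ^ n)⁻¹) ((f ^ n) z) = (f ^ n) (γ z) := by
        intro z
        show (f ^ n) (γ ((f ^ n)⁻¹ ((f ^ n) z))) = _
        congr 2
        exact (f ^ n).symm_apply_apply z
      rwa [h8, h8] at h7
    · intro x y
      have h4 : (x, y) ∈ limT f T ↔ ∀ᶠ n : ℕ in atTop, ((f ^ n) x, (f ^ n) y) ∈ T := Iff.rfl
      have h5 : (f x, f y) ∈ limT f T ↔
          ∀ᶠ n : ℕ in atTop, ((f ^ (n + 1)) x, (f ^ (n + 1)) y) ∈ T := by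
        have h6 : ∀ n : ℕ, ∀ z : Circle, (f ^ (n + 1)) z = (f ^ n) (f z) := by
          intro n z
          rw [pow_succ]
          rfl
        constructor
        · intro h7
          have h8 : ∀ᶠ n : ℕ in atTop, ((f ^ n) (f x), (f ^ n) (f y)) ∈ T := h7
          exact h8.mono fun n h9 => by rw [h6, h6]; exact h9
        · intro h7
          show ∀ᶠ n : ℕ in atTop, ((f ^ n) (f x), (f ^ n) (f y)) ∈ T
          exact h7.mono fun n h9 => by rw [h6, h6] at h9; exact h9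
      rw [h4, h5]
      constructor
      · intro h7
        exact (tendsto_add_atTop_nat 1).eventually h7
      · intro h7
        obtain ⟨N, hN⟩ := eventually_atTop.1 h7
        refine eventually_atTop.2 ⟨N + 1, fun n hn => ?_⟩
        have h8 := hN (n - 1) (by omega)
        have h9 : n - 1 + 1 = n := by omega
        rwa [h9] at h8

/-- the pairs which are mapped into `T` by all but finitely many classes of `G / Γ` -/
def limG (Γ G : Subgroup H) (T : Set (Circle × Circle)) : Set (Circle × Circle) :=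
  {a | FinCl Γ {g : H | g ∈ G ∧ (g a.1, g a.2) ∉ T}}

theorem QDR_dir (Γ G : Subgroup H) (S : Set H) (hΓG : Γ ≤ G)
    (hn : ∀ g ∈ G, ∀ γ ∈ Γ, g * γ * g⁻¹ ∈ Γ) (hO : OneEnd Γ G S) :
    Dir Γ G S (QDR_fil q_FCL Γ G) := by
  have h1 := q_FCL
  refine ⟨?_, ?_, ?_, ?_⟩
  · rw [Filter.neBot_iff]
    intro h
    have h2 : (∅ : Set H) ∈ QDR_fil q_FCL Γ G := Filter.empty_mem_iff_bot.2 h
    exact hO.2.2.2.1 (h1.1 Γ (G : Set H) {g : H | g ∈ G ∧ g ∉ (∅ : Set H)}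
      (fun g hg => ⟨hg, fun h => h.elim⟩) h2)
  · change FinCl Γ {g : H | g ∈ G ∧ g ∉ {x | x ∈ G}}
    exact h1.1 Γ _ _ (fun g hg => hg.2 hg.1) (QDR_empty Γ)
  · intro g₀ hg₀ B hB
    change FinCl Γ {g : H | g ∈ G ∧ g ∉ (fun g => g * g₀) ⁻¹' B}
    refine h1.1 Γ _ _ ?_ (h1.2.2.2.2.1 Γ G _ hn hB g₀ hg₀)
    intro g hg
    exact ⟨G.mul_mem hg.1 hg₀, hg.2⟩
  · intro ι φ hφ hE
    exact QDR_const q_FCL Γ G S hΓG hn hO ι φ hφ hE

theorem limG_eq (Γ G : Subgroup H) (T : Set (Circle × Circle)) :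
    Lim (QDR_fil q_FCL Γ G) T = limG Γ G T := rfl

theorem arg_lim (Γ G : Subgroup H) (T F : Set (Circle × Circle)) (S : Set H) (hs : Sys Γ G T)
    (hO : OneEnd Γ G S) (hF : F.Finite) (hFT : F ⊆ T) (hr : ∀ s ∈ S, RigidBy Γ T F s) :
    Realized G ↔ Tri (limG Γ G T) := by
  obtain ⟨-, -, -, h1, h2, -⟩ := arg Γ G T F S hs hO hF hFT hr
  constructor
  · intro h
    exact (q_LIM Γ G T F S (QDR_fil q_FCL Γ G) hs hO.2.1 hO.2.2.1 hF hFT hr (h1.1 h)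
      (QDR_dir Γ G S hs.le hs.nor hO)).1
  · intro h
    refine h2.2 ⟨limG Γ G T, h, ?_⟩
    intro g₀ hg₀ x y hxy
    have h3 := q_FCL.2.2.2.2.1 Γ G _ hs.nor (show FinCl Γ _ from hxy) g₀ hg₀
    refine q_FCL.1 Γ _ _ ?_ h3
    intro g hg
    exact ⟨G.mul_mem hg.1 hg₀, hg.2⟩

end Pool.AR
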