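import Pool.Agent.Work.MP_ae1ff6_ar.Defs

/-!
# Asymptotically rigid mapping classes (MP_ae1ff6_gt): interface

Block `X`: file `Pool/Agent/Work/MP_ae1ff6_ar/B_X.lean`, `import Pool.Agent.Work.MP_ae1ff6_ar.Interface`
(or `Interface2`, see the column `hint`), `namespace Pool.AR`, the `open` lines of this file,
`theorem p_X (h1 : Stmt_Y) .. : Stmt_X` with exactly the blocks of the column `uses`, in this order, as
hypotheses; auxiliary lemmas with the prefix `X_`.

Proved facts (not hypotheses): `Pool.GC.lhi`, `Pool.GC.arc`, `Pool.GC.lfv`, `Pool.GC.lub`, `Pool.GC.mb1`,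
`Pool.GC.mb2`, `Pool.GC.mb3`, `Pool.GC.pig` (statements `Pool.CG.Stmt_..` in
`Pool/Agent/Work/MP_ae1ff6_cg/Interface.lean`), `Pool.GC.q_SYM` (`Link a b c d` implies `Link c d a b`,
`Link b a c d`, `Link a b d c`), `Pool.GC.q_LNO` (`Link` is open), `Pool.GC.q_LFT` (lifts), `Pool.GC.q_ORI`
(orbits on the line) (statements `Pool.GC.Stmt_..` in `Pool/Agent/Work/MP_ae1ff6_gc/Interface.lean`). The
auxiliary lemmas of the files `B_*.lean` of these two folders may be used as well, for example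
`Pool.CG.LOP_param`. `H = Circle ≃ₜ Circle` is a group (`(g * h) z = g (h z)`, `g⁻¹ = g.symm`: `rfl`).
`Link a b c d`: the points `a`, `b` separate `c`, `d`. `Ccw a b c`: counterclockwise order.

Picture: after cutting the circle at a point `exp s` it is the interval `[s, s + 2π)`, and the cyclic
order is the cyclic order of the interval (CUT below).
-/

open Topology Filter Set
open scoped ComplexConjugate

set_option autoImplicit false

namespace Pool.AR

open Pool.CG

/-! ### Part 1: the cyclic order of the circle -/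

/-- CUT (120 lines): coordinates on the cut circle. Proof. For real `x, y, z`:
`area (exp x) (exp y) (exp z) = 4 sin ((y - x) / 2) sin ((z - x) / 2) sin ((z - y) / 2)` (write
`exp y - exp x = 2 i sin ((y - x) / 2) e ^ (i (x + y) / 2)`, or expand with sines and cosines of the half
angles). If `x, y, z ∈ [s, s + 2π)`, the three half differences are in `(-π, π)`, where `sin` has the
sign of its argument; so `Ccw (exp x) (exp y) (exp z)` iff `0 < (y - x) (z - x) (z - y)`, iff one of the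
three cases. `θ y` is the representative in `[s, s + 2π)` of an angle of `y` (`toIcoMod`; injectivity
of `exp`: `Circle.injOn_exp_Ico` or similar, see `Pool/Agent/Work/MP_ae1ff6_cg/B_ARC.lean`). -/
def Stmt_CUT : Prop :=
  ∀ s : ℝ, ∃ θ : Circle → ℝ,
    (∀ y, s ≤ θ y ∧ θ y < s + 2 * Real.pi ∧ Circle.exp (θ y) = y) ∧
    (∀ t, s ≤ t → t < s + 2 * Real.pi → θ (Circle.exp t) = t) ∧
    ∀ a b c, Ccw a b c ↔
      (θ a < θ b ∧ θ b < θ c) ∨ (θ b < θ c ∧ θ c < θ a) ∨ (θ c < θ a ∧ θ a < θ b)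

/-- CYO (60 lines; uses CUT): the cyclic order. Proof. CUT with `s = 0`; `θ` is injective. Everything is
a statement about a linear order. -/
def Stmt_CYO : Prop :=
  (∀ a b c, Ccw a b c → Ccw b c a) ∧
  (∀ a b c, Ccw a b c → ¬ Ccw a c b ∧ a ≠ b ∧ b ≠ c ∧ a ≠ c) ∧
  (∀ a b c : Circle, a ≠ b → b ≠ c → a ≠ c → Ccw a b c ∨ Ccw a c b) ∧
  (∀ a b c d, Ccw a b c → Ccw a c d → Ccw a b d ∧ Ccw b c d)

/-- LKC (100 lines; uses CUT CYO): separation in terms of the cyclic order. Proof. (⇐) Let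
`a = exp s`, `θ` from CUT for `s`, so `θ a = s` is minimal. `Ccw a c b ∧ Ccw b d a` says
`θ a < θ c < θ b < θ d`; `Pool.GC.arc` for `s < θ b < s + 2π`. The other case is the same with `c`, `d`
exchanged (`q_SYM`). (⇒) Let `Link a b c d`. Then `c, d ≠ a, b` and `a ≠ b` (`Link a a c d` is false, see
`Pool/Agent/Work/MP_ae1ff6_gc/B_SYM.lean`), and `θ c, θ d ∈ (s, s + 2π)` are different from `θ b`. They are
not both in `(s, θ b)` and not both in `(θ b, s + 2π)`, because the image under `exp` of such an interval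
is a connected set which contains `c`, `d` and not `a`, `b`. -/
def Stmt_LKC : Prop :=
  ∀ a b c d : Circle, Link a b c d ↔ (Ccw a c b ∧ Ccw b d a) ∨ (Ccw a d b ∧ Ccw b c a)

/-- ANG (120 lines; uses CUT CYO LKC): toolkit for real coordinates. Proofs. (1) CUT for `x` (if
`z < x + 2π`). (2) CUT for `s`: `θ (exp s) = s` is minimal, so `Ccw (exp s) z (exp t)` says
`s < θ z < t`. (3) `Pool.CG.LOP_param`, or CUT. (4) LKC and (1): `Ccw (exp x) (exp y) (exp z)` and
`Ccw (exp z) (exp w) (exp x)` (for `z < w < x + 2π < z + 2π`). (5) CUT for `s`. (6) Let `x = exp u`,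
`y = exp v` with `u, v ∈ [s, s + 2π)`. If `u` and `v` are on different sides, `s < u < t < v`, then (4):
`Link (exp s) (exp t) x y`. So both are in `[s, t]` or both in `[t, s + 2π)`, or one of them is `s`: it
may be replaced by `s + 2π`. -/
def Stmt_ANG : Prop :=
  (∀ x y z : ℝ, x < y → y < z → z < x + 2 * Real.pi →
    Ccw (Circle.exp x) (Circle.exp y) (Circle.exp z)) ∧
  (∀ (s t : ℝ) (z : Circle), s < t → t < s + 2 * Real.pi →
    Ccw (Circle.exp s) z (Circle.exp t) → ∃ r, s < r ∧ r < t ∧ z = Circle.exp r) ∧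
  (∀ a b : Circle, a ≠ b → ∃ s t : ℝ, s < t ∧ t < s + 2 * Real.pi ∧ a = Circle.exp s ∧
    b = Circle.exp t) ∧
  (∀ x y z w : ℝ, x < y → y < z → z < w → w < x + 2 * Real.pi →
    Link (Circle.exp x) (Circle.exp z) (Circle.exp y) (Circle.exp w)) ∧
  (∀ s x y : ℝ, s < x → x < s + 2 * Real.pi → s < y → y < s + 2 * Real.pi →
    (Ccw (Circle.exp s) (Circle.exp x) (Circle.exp y) ↔ x < y)) ∧
  (∀ (s t : ℝ) (x y : Circle), s < t → t < s + 2 * Real.pi →
    ¬ Link (Circle.exp s) (Circle.exp t) x y →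
    (∃ u v : ℝ, s ≤ u ∧ u ≤ t ∧ s ≤ v ∧ v ≤ t ∧ x = Circle.exp u ∧ y = Circle.exp v) ∨
    ∃ u v : ℝ, t ≤ u ∧ u ≤ s + 2 * Real.pi ∧ t ≤ v ∧ v ≤ s + 2 * Real.pi ∧ x = Circle.exp u ∧
      y = Circle.exp v)

/-- MOR (100 lines; uses CYO): orientations. Proofs. (1) Möbius maps. For points of the circle
(`conj a = 1 / a`): `area a b c = (i / 2) (b - a) (c - a) (c - b) / (a b c)` as complex numbers. Let
`D z = conj β z + conj α`. `g z = (α z + β) / D z`, `g b - g a = (b - a) / (D a D b)` and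
`g z = z conj (D z) / D z`, so `area (g a) (g b) (g c) = area a b c / (‖D a‖ ‖D b‖ ‖D c‖) ^ 2`. (2) The
identity, products, and inverses: if `Ccw a b c` then the points `g⁻¹ a`, `g⁻¹ b`, `g⁻¹ c` are different,
and `Ccw (g⁻¹ a) (g⁻¹ c) (g⁻¹ b)` would imply `Ccw a c b`. (3) The elements `g` of `H` with `Ori g` form a
subgroup by (2); it contains `Γ` by (1) and `f`. -/
def Stmt_MOR : Prop :=
  (∀ g : H, IsMob g → Ori g) ∧
  (Ori 1 ∧ (∀ g g' : H, Ori g → Ori g' → Ori (g * g')) ∧ ∀ g : H, Ori g → Ori g⁻¹) ∧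
  (∀ (Γ : Subgroup H) (f : H), FirstKind Γ → Ori f → ∀ g ∈ Γ ⊔ Subgroup.zpowers f, Ori g)

/-- CYH (100 lines; uses CYO ANG): a bijection which preserves the cyclic order is a homeomorphism. Proof.
Continuity of `e` at `z₀`: let `e z₀ = exp s` and `N` a neighbourhood of it. There is `δ ∈ (0, π)` with
`exp '' Ioo (s - δ) (s + δ) ⊆ N`; let `a = exp (s - δ)`, `b = exp (s + δ)`: `Ccw a (e z₀) b` (ANG 1) and
`Ccw a z b` implies `z ∈ N` (ANG 2). The set of the `z` with `Ccw (e⁻¹ a) z (e⁻¹ b)` is open (`area` is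
continuous), contains `z₀` and is mapped into `N`. The same for the inverse of `e`. -/
def Stmt_CYH : Prop :=
  ∀ e : Circle ≃ Circle, (∀ a b c, Ccw a b c ↔ Ccw (e a) (e b) (e c)) → ∃ h : H, ∀ z, h z = e z

/-- EXL (200 lines): extension of an order isomorphism between dense subsets of two intervals. Proof. For
`x ∈ [s, t]` let `F x` be the supremum of `s'` and all `b i` with `a i < x`. `F s = s'`; `F t = t'`
(density of the `b i`). `F` is strictly increasing on `[s, t]`: for `x < y` choose `i`, `j` with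
`x < a i < a j < y`; then `F x ≤ b i < b j ≤ F y`. `F (a i) = b i`: `F (a i) ≤ b i` is clear, and if
`F (a i) < b i` there is `j` with `F (a i) < b j < b i`, so `a j < a i` and `b j ≤ F (a i)`. `F` is
onto `[s', t']`: a monotone function whose image contains all `b i`, a dense subset, has no gaps; in
detail, for `y ∈ [s', t']` let `x` be the supremum of `s` and all `a i` with `b i < y`. If `F x < y` choose
`i`, `j` with `F x < b i < b j < y`: `a i < a j ≤ x`, so `b i ≤ F x`. If `y < F x` choose `i`, `j` with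
`y < b i < b j < F x`; there is `k` with `a k < x`, `b j < b k` and then `l` with `a k < a l`,
`b l < y`: but `b k < b l`. Outside of `[s, t]` let `F x = x - s + s'` and `F x = x - t + t'`. `F` is
strictly increasing and onto: `StrictMono.orderIsoOfSurjective`. -/
def Stmt_EXL : Prop :=
  ∀ (ι : Type) (a b : ι → ℝ) (s t s' t' : ℝ), s < t → s' < t' →
    (∀ i, s < a i ∧ a i < t) → (∀ i, s' < b i ∧ b i < t') → (∀ i j, a i < a j ↔ b i < b j) →
    (∀ u v, s ≤ u → u < v → v ≤ t → ∃ i, u < a i ∧ a i < v) →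
    (∀ u v, s' ≤ u → u < v → v ≤ t' → ∃ i, u < b i ∧ b i < v) →
    ∃ F : ℝ ≃o ℝ, F s = s' ∧ F t = t' ∧ ∀ i, F (a i) = b i

/-- GLU (150 lines; uses CUT CYH): glueing of two arcs. Proof. Let `F x = F₁ x` for `x ≤ t` and
`F x = F₂ x` for `t ≤ x`: a strictly increasing bijection of `ℝ` with `F s = s'`,
`F (s + 2π) = s' + 2π`. Let `θ`, `θ'` be from CUT for `s` and `s'`. The maps `z ↦ exp (F (θ z))` and
`z ↦ exp (F⁻¹ (θ' z))` are inverse to each other, and `θ' (exp (F (θ z))) = F (θ z)`, so by CUT the cyclic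
order is preserved in both directions: CYH. For `x = s + 2π`: `exp x = exp s`. -/
def Stmt_GLU : Prop :=
  ∀ (s t s' t' : ℝ) (F₁ F₂ : ℝ ≃o ℝ), s < t → t < s + 2 * Real.pi → s' < t' →
    t' < s' + 2 * Real.pi → F₁ s = s' → F₁ t = t' → F₂ t = t' →
    F₂ (s + 2 * Real.pi) = s' + 2 * Real.pi →
    ∃ h : H, Ori h ∧ (∀ x, s ≤ x → x ≤ t → h (Circle.exp x) = Circle.exp (F₁ x)) ∧
      ∀ x, t ≤ x → x ≤ s + 2 * Real.pi → h (Circle.exp x) = Circle.exp (F₂ x)

/-- LFO (50 lines; uses CYO LKC ANG): lifts of orientation preserving maps with two fixed points. Proof. Let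
`c = exp ((θ + s) / 2)`: `Ccw (exp θ) c (exp s)` (ANG 1), so `Ccw (exp θ) (k c) (exp s)`; so `c` and `k c` are
on the same side: not `Link (exp θ) (exp s) c (k c)` (LKC, CYO). `Pool.GC.q_LFT`. -/
def Stmt_LFO : Prop :=
  ∀ (k : H) (θ s : ℝ), Ori k → θ < s → s < θ + 2 * Real.pi →
    k (Circle.exp θ) = Circle.exp θ → k (Circle.exp s) = Circle.exp s →
    ∃ κ : ℝ ≃o ℝ, κ θ = θ ∧ κ s = s ∧ κ (θ + 2 * Real.pi) = θ + 2 * Real.pi ∧
      ∀ x, θ ≤ x → x ≤ θ + 2 * Real.pi → Circle.exp (κ x) = k (Circle.exp x)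

/-! ### Part 2: ideal triangulations -/

/-- each edge of `E` is a side of a triangle on its right side, with sides in `E` -/
def Splits (E : Set (Circle × Circle)) : Prop :=
  ∀ x y, (x, y) ∈ E → ∃ z, Ccw x z y ∧ (x, z) ∈ E ∧ (z, y) ∈ E

/-- only finitely many pairs in `E` are long -/
def LocFin (E : Set (Circle × Circle)) : Prop :=
  ∀ ε : ℝ, 0 < ε → {a : Circle × Circle | a ∈ E ∧ ε ≤ dist a.1 a.2}.Finite

/-- NST (150 lines; uses ANG): nested edges. Proof. Let `P` be the set of the pairs `(s, t)` of real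
numbers with `s₀ ≤ s ≤ u`, `v ≤ t ≤ t₀`, `(exp s, exp t) ∈ E`. It contains `(s₀, t₀)`. The map
`(s, t) ↦ (exp s, exp t)` is injective on `P` (`s ∈ [s₀, s₀ + 2π)`, `t ∈ (s₀, s₀ + 2π)`), and
`dist (exp s) (exp t) = 2 sin ((t - s) / 2)` is at least
`ε = min (2 sin ((v - u) / 2)) (2 sin ((t₀ - s₀) / 2)) > 0` because
`0 < v - u ≤ t - s ≤ t₀ - s₀ < 2π` (or: compactness). So `P` is finite; let `(s, t)` be an element with
minimal `t - s`. `Splits` and ANG (2): `(exp s, exp r), (exp r, exp t) ∈ E` with `s < r < t`. If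
`r ≤ u` then `(r, t) ∈ P`, and if `v ≤ r` then `(s, r) ∈ P`: both contradict minimality. -/
def Stmt_NST : Prop :=
  ∀ E : Set (Circle × Circle), LocFin E → Splits E → ∀ s₀ t₀ : ℝ, s₀ < t₀ →
    t₀ < s₀ + 2 * Real.pi → (Circle.exp s₀, Circle.exp t₀) ∈ E →
    ∀ u v, s₀ ≤ u → u < v → v ≤ t₀ → ∃ s r t : ℝ, s₀ ≤ s ∧ s ≤ u ∧ u < r ∧ r < v ∧ v ≤ t ∧
      t ≤ t₀ ∧ (Circle.exp s, Circle.exp t) ∈ E ∧ (Circle.exp s, Circle.exp r) ∈ E ∧
      (Circle.exp r, Circle.exp t) ∈ E

/-- UNQ (60 lines; uses CYO LKC): the third vertex is unique. Proof. If `z ≠ z'`, then by CYO (for the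
points `x, z, z', y`) `Ccw x z z'` or `Ccw x z' z`; say `Ccw x z z'`: the cyclic order is
`x, z, z', y`, so `(x, z')` and `(z, y)` are linked (LKC: `Ccw x z z'` and `Ccw z' y x`). -/
def Stmt_UNQ : Prop :=
  ∀ T : Set (Circle × Circle), Tri T → ∀ x y z z' : Circle, Ccw x z y → Ccw x z' y →
    (x, z) ∈ T → (z, y) ∈ T → (x, z') ∈ T → (z', y) ∈ T → z = z'

/-- RIG (150 lines; uses ANG LFO NST): rigidity. Proof. Suppose `g z ≠ z`. Then `z ≠ x₀, y₀`. Exchange
`x₀` and `y₀` if necessary (`T` is symmetric): `x₀ = exp s₀`, `y₀ = exp t₀`, `z = exp ζ`,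
`s₀ < ζ < t₀ < s₀ + 2π`. LFO for `g`, `s₀`, `t₀`: `κ`. `κ ζ ≠ ζ`. Let `u` be the largest fixed point of
`κ` below `ζ` and `v` the smallest above (they exist in `[s₀, t₀]`: closed sets; or `Pool.GC.q_ORI` for `κ`
or its inverse), so `κ` has no fixed point in `(u, v)`. NST for `E = T` and `u`, `v`: `s ≤ u < r < v ≤ t`.
`κ s ≤ u`, `κ t ≥ v`, `κ r ∈ (u, v)`, `κ r ≠ r`, and `(exp (κ s), exp (κ r))`, `(exp (κ r), exp (κ t))` are in
`T` (`g` preserves `T`). If `κ r < r`: `s < κ r < r < κ t`, so `(exp s, exp r)` and `(exp (κ r), exp (κ t))` are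
linked (ANG 4; all numbers are in `[s₀, t₀]`). If `r < κ r`: `κ s < r < κ r < t`, so
`(exp (κ s), exp (κ r))` and `(exp r, exp t)` are linked. A contradiction to `Tri.unlinked`. -/
def Stmt_RIG : Prop :=
  ∀ (T : Set (Circle × Circle)) (g : H), Tri T → Ori g → (∀ x y, (x, y) ∈ T → (g x, g y) ∈ T) →
    ∀ x₀ y₀, (x₀, y₀) ∈ T → g x₀ = x₀ → g y₀ = y₀ → g = 1

/-- DCH (100 lines; uses ANG NST): each geodesic is an edge or is crossed by an edge. Proof. Let
`(z₀, w₀) ∈ T`, `z₀ = exp s₀`, `w₀ = exp t₀` (ANG 3). If `Link z₀ w₀ x y` we are done. Otherwise (ANG 6) both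
`x` and `y` have coordinates in `[s₀, t₀]` or both in `[t₀, s₀ + 2π]`. In the second case replace
`(z₀, w₀)` by `(w₀, z₀)`. So `x = exp u`, `y = exp v` with `u, v ∈ [s₀, t₀]`, and `u < v` if we exchange
`x`, `y` (the claim is symmetric). NST: `s ≤ u < r < v ≤ t`. If `s < u` then `(exp s, exp r)` links `x`,
`y` (`s < u < r < v`, ANG 4). If `v < t` then `(exp r, exp t)` links `x`, `y` (`r < v < t < u + 2π`). If
`s = u` and `t = v` then `(x, y) ∈ T`. -/
def Stmt_DCH : Prop :=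
  ∀ T : Set (Circle × Circle), Tri T → ∀ x y : Circle, x ≠ y →
    (x, y) ∈ T ∨ ∃ z w, (z, w) ∈ T ∧ Link z w x y

open Classical in
/-- the third vertex of the triangle on the right side of the edge `e` -/
noncomputable def thd (T : Set (Circle × Circle)) (e : Circle × Circle) : Circle :=
  if h : ∃ z, Ccw e.1 z e.2 ∧ (e.1, z) ∈ T ∧ (z, e.2) ∈ T then h.choose else 1

/-- the descendants of the edge `e`: the edges on its right side -/
noncomputable def ed (T : Set (Circle × Circle)) : List Bool → Circle × Circle → Circle × Circle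
  | [], e => e
  | false :: w, e => ed T w (e.1, thd T e)
  | true :: w, e => ed T w (thd T e, e.2)

/-- the third vertex of the descendant `w` of `e` -/
noncomputable def pt (T : Set (Circle × Circle)) (w : List Bool) (e : Circle × Circle) : Circle :=
  thd T (ed T w e)

/-- the order of the vertices `pt T w e` along the arc from `e.1` to `e.2` -/
def wlt : List Bool → List Bool → Prop
  | [], [] => False
  | [], b :: _ => b = true
  | b :: _, [] => b = false
  | b :: w, c :: w' => (b = false ∧ c = true) ∨ (b = c ∧ wlt w w')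

/-- PT1 (80 lines; uses CYO). Proof. For `e ∈ T` the definition of `thd` and `Tri.third` give
`Ccw e.1 m e.2`, `(e.1, m) ∈ T`, `(m, e.2) ∈ T` for `m = thd T e`. Induction on `w`, for all `e`. For
`false :: w`: the induction hypothesis for `(e.1, m)` gives `Ccw e.1 p m`, so `Ccw e.1 p e.2` (CYO). For
`true :: w`: `Ccw m p e.2`; with `Ccw e.1 m e.2` (rotated: `Ccw e.2 e.1 m`, `Ccw e.2 m p`) CYO gives
`Ccw e.2 e.1 p`, that is `Ccw e.1 p e.2`. -/
def Stmt_PT1 : Prop :=
  ∀ T : Set (Circle × Circle), Tri T → ∀ (w : List Bool) (e : Circle × Circle), e ∈ T →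
    ed T w e ∈ T ∧ Ccw e.1 (pt T w e) e.2 ∧ Ccw (ed T w e).1 (pt T w e) (ed T w e).2 ∧
    ((ed T w e).1, pt T w e) ∈ T ∧ (pt T w e, (ed T w e).2) ∈ T

/-- PT2 (150 lines; uses CYO PT1). Proof. Induction on `w` for all `w'`, `e`. Let `m = thd T e = pt T [] e`;
`Ccw e.1 m e.2`, `(e.1, m), (m, e.2) ∈ T` (PT1 for `[]`). By PT1 `pt T (false :: w) e = pt T w (e.1, m)` is
between `e.1` and `m`, and `pt T (true :: w) e = pt T w (m, e.2)` is between `m` and `e.2`. This decides all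
cases in which the first letters are different or one word is empty (CYO). `false :: w`,
`false :: w'`: induction hypothesis for `(e.1, m)`. `true :: w`, `true :: w'`: the induction hypothesis
for `(m, e.2)` is `Ccw m p p' ↔ wlt w w'`, and for `p`, `p'` between `m` and `e.2`:
`Ccw m p p' ↔ Ccw e.1 p p'` (CYO). -/
def Stmt_PT2 : Prop :=
  ∀ T : Set (Circle × Circle), Tri T → ∀ (w w' : List Bool) (e : Circle × Circle), e ∈ T →
    (Ccw e.1 (pt T w e) (pt T w' e) ↔ wlt w w')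

/-- PT3 (120 lines; uses ANG NST UNQ PT1). Proof. Let `e = (exp s, exp t)` and
`E = {ed T w e | w : List Bool} ⊆ T` (PT1). `LocFin E` (subset of `T`); `Splits E`: the two edges
`((ed T w e).1, pt T w e)` and `(pt T w e, (ed T w e).2)` are `ed T (w ++ [false]) e` and
`ed T (w ++ [true]) e` (induction on `w`). NST for `E` gives `s' ≤ u < r < v ≤ t'` with
`(exp s', exp t') = ed T w e` for some `w`. `thd T (exp s', exp t') = exp r` by UNQ (PT1, ANG 1). So
`pt T w e = exp r`. If moreover `(exp u, exp v) ∈ T`: `s' < u` is impossible, because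
`(exp s', exp r)` and `(exp u, exp v)` would be linked (ANG 4: `s' < u < r < v`), and `v < t'` is
impossible (`r < v < t' < u + 2π`, ANG 4: `(exp r, exp t')` and `(exp v, exp (u + 2π))` are linked). So
`s' = u`, `t' = v`. -/
def Stmt_PT3 : Prop :=
  ∀ T : Set (Circle × Circle), Tri T → ∀ s t : ℝ, s < t → t < s + 2 * Real.pi →
    (Circle.exp s, Circle.exp t) ∈ T → ∀ u v, s ≤ u → u < v → v ≤ t →
    ∃ w r, u < r ∧ r < v ∧ pt T w (Circle.exp s, Circle.exp t) = Circle.exp r ∧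
      ((Circle.exp u, Circle.exp v) ∈ T →
        ed T w (Circle.exp s, Circle.exp t) = (Circle.exp u, Circle.exp v))

/-- PHA (200 lines; uses ANG EXL GLU PT1 PT2 PT3): the vertices of two triangulations. Proof. Let
`e = (exp s, exp t)`, `s < t < s + 2π` (ANG 3), and `e' = (exp s', exp t')` in the same way. By PT1 and ANG
(2) `pt T w e = exp (a w)`, `s < a w < t`, and `pt T' w e' = exp (b w)`, `s' < b w < t'`. By PT2 and ANG (5)
`a w < a w' ↔ wlt w w' ↔ b w < b w'`. Density: PT3. EXL: `F₁`. In the same way for the edges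
`(e.2, e.1) = (exp t, exp (s + 2π))` and `(e'.2, e'.1) = (exp t', exp (s' + 2π))` (in `T`, `T'` by
symmetry): `F₂` with `F₂ t = t'`, `F₂ (s + 2π) = s' + 2π`. GLU. -/
def Stmt_PHA : Prop :=
  ∀ T T' : Set (Circle × Circle), Tri T → Tri T' → ∀ e ∈ T, ∀ e' ∈ T', ∃ h : H, Ori h ∧
    h e.1 = e'.1 ∧ h e.2 = e'.2 ∧ (∀ w, h (pt T w e) = pt T' w e') ∧
    ∀ w, h (pt T w (e.2, e.1)) = pt T' w (e'.2, e'.1)

/-- PHI (150 lines; uses ANG PT1 PT3 PHA): the edges. Proof. `h` from PHA. Claim 1: if `h e.1 = e'.1`,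
`h e.2 = e'.2` and `h (pt T w e) = pt T' w e'` for all `w`, then
`(h (ed T w e).1, h (ed T w e).2) = ed T' w e'` for all `w`: induction on `w` for all `e`, `e'`
(`thd T e = pt T [] e`, `pt T w (e.1, thd T e) = pt T (false :: w) e`, and so on). This holds also for
`(e.2, e.1)`, `(e'.2, e'.1)`. Claim 2: each `(x, y) ∈ T` is, up to the order of `x`, `y`, an edge
`ed T w e` or `ed T w (e.2, e.1)`: `(x, y)` is not linked with `e`, so (ANG 6) both are in `[s, t]` or
in `[t, s + 2π]`, and PT3 (last part) applies to `(x, y)` or `(y, x)`. So `(h x, h y) ∈ T'` (PT1,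
`Tri.symm`). The converse: by Claim 2 for `T'` and Claim 1, `(h x, h y) ∈ T'` is, up to the order,
`ed T' w e' = (h (ed T w e).1, h (ed T w e).2)` (or the same for the reversed edges), so `(x, y)` is up
to the order `ed T w e ∈ T`. -/
def Stmt_PHI : Prop :=
  ∀ T T' : Set (Circle × Circle), Tri T → Tri T' → ∀ e ∈ T, ∀ e' ∈ T', ∃ h : H, Ori h ∧
    h e.1 = e'.1 ∧ h e.2 = e'.2 ∧ ∀ x y, (x, y) ∈ T ↔ (h x, h y) ∈ T'

/-! ### Part 3: the Farey triangulation -/

/-- FA1 (120 lines): the points `cusp p q`. Proofs. For `w = p + q i ≠ 0`: `cusp p q = conj w / w`. (1)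
`(cusp p q) w = conj w`. (2) If `z` is a point of the circle, choose `w ≠ 0` with `w ^ 2 = conj z` (or
`w = 1 + conj z`, and `w = i` if `z = -1`). (3), (4) direct: `conj (- w) / (- w)`. (5) With
`w = p + q i`, `w' = r + s i`: `conj w / w - conj w' / w' = (conj w w' - conj w' w) / (w w')` and
`conj w w' - conj w' w = 2 i (p s - q r)`. (6) For points of the circle
`area a b c = (i / 2) (b - a) (c - a) (c - b) / (a b c)`; by the formula of (5)
`area (cusp p q) (cusp r s) (cusp t u) * (|w|² |w'|² |w''|²) = 4 (p s - q r) (r u - s t) (t q - u p)`. -/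
def Stmt_FA1 : Prop :=
  (∀ p q : ℝ, (p ≠ 0 ∨ q ≠ 0) → (cusp p q : ℂ) * (p + q * Complex.I) = p - q * Complex.I) ∧
  (∀ z : Circle, ∃ p q : ℝ, (p ≠ 0 ∨ q ≠ 0) ∧ cusp p q = z) ∧
  (∀ p q : ℝ, cusp (-p) (-q) = cusp p q) ∧
  (∀ p q r s : ℝ, (p ≠ 0 ∨ q ≠ 0) → (r ≠ 0 ∨ s ≠ 0) →
    (cusp p q = cusp r s ↔ p * s - q * r = 0)) ∧
  (∀ p q r s : ℝ, (p ≠ 0 ∨ q ≠ 0) → (r ≠ 0 ∨ s ≠ 0) →
    dist (cusp p q) (cusp r s) ^ 2 * ((p ^ 2 + q ^ 2) * (r ^ 2 + s ^ 2)) =
      4 * (p * s - q * r) ^ 2) ∧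
  (∀ p q r s t u : ℝ, (p ≠ 0 ∨ q ≠ 0) → (r ≠ 0 ∨ s ≠ 0) → (t ≠ 0 ∨ u ≠ 0) →
    (Ccw (cusp p q) (cusp r s) (cusp t u) ↔
      0 < (p * s - q * r) * (r * u - s * t) * (t * q - u * p)))

/-- FRU (150 lines; uses LKC FA1): Farey edges do not cross. Proof. Let `v₁ = (p, q)`, `v₂ = (r, s)` and
`v₃`, `v₄` be the integer vectors of the two edges, `D = det (v₁, v₂) = ± 1`,
`v₃ = a v₁ + b v₂`, `v₄ = c v₁ + d v₂` with integers `a, b, c, d` (Cramer's rule),
`det (v₃, v₄) = (a d - b c) D`, so `|a d - b c| = 1`. By FA1 (6): `Ccw c₁ c₃ c₂` iff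
`0 < det (v₁, v₃) det (v₃, v₂) det (v₂, v₁) = (b D) (a D) (- D) = - a b D`, and `Ccw c₂ c₄ c₁` iff
`0 < det (v₂, v₄) det (v₄, v₁) det (v₁, v₂) = (- c D) (- d D) D = c d D`. So `Link c₁ c₂ c₃ c₄` (LKC; the
other case exchanges `v₃`, `v₄`) implies `(a b) (c d) < 0`: then `a d` and `- b c` are integers different
from `0` with the same sign, so `|a d - b c| ≥ 2`. -/
def Stmt_FRU : Prop :=
  ∀ x y z w : Circle, (x, y) ∈ Farey → (z, w) ∈ Farey → ¬ Link x y z w

/-- TRF (150 lines; uses FA1 FRU): the Farey triangulation. Proof. `symm`: clear. `ne`: FA1 (4). `unlinked`: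
FRU. `fin`: if `(cusp p q, cusp r s)`, `|p s - q r| = 1`, has distance at least `ε`, then by FA1 (5)
`(p² + q²) (r² + s²) ≤ 4 / ε²`; both factors are at least `1` (integers, the vectors are not zero), so
`p, q, r, s` are in the finite set of the integers with `n² ≤ 4 / ε²`. `third`: let `v = (p, q)`,
`w = (r, s)`, `D = p s - q r = ± 1`, and `z = cusp` of `v - D w`: `det (v, v - D w) = - D D = -1`,
`det (v - D w, w) = D`, `det (w, v) = - D`, and the product is `D² = 1 > 0`, so `Ccw` by FA1 (6).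
`nonempty`: `(cusp 1 0, cusp 0 1)`. -/
def Stmt_TRF : Prop := Tri Farey

/-- MEX (80 lines): existence of Möbius maps. Proof. `z ↦ (α z + β) / (conj β z + conj α)` maps the circle
to itself (`‖α z + β‖ = ‖conj β z + conj α‖ ≠ 0` for `‖z‖ = 1`, since
`conj (α z + β) = conj z (conj α + conj β z)`), it is continuous and its inverse is the map with the
parameters `conj α`, `- β`. -/
def Stmt_MEX : Prop := ∀ α β : ℂ, ‖α‖ ^ 2 - ‖β‖ ^ 2 = 1 → ∃ g : H, Par g α β

/-- MOF (180 lines; uses FA1 MEX): the modular group is transitive on the Farey edges. Proof. Let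
`x = cusp a c`, `y = cusp b d` with integers and `a d - b c = ± 1`; replacing `(b, d)` by `(- b, - d)` (FA1 3)
we may assume `a d - b c = 1`. Let `A = ((a + d) + (c - b) i) / 2`, `B = ((a - d) + (b + c) i) / 2`:
`|A|² - |B|² = a d - b c = 1`, and for `w = p + q i`: `A w + B conj w = (a p + b q) + (c p + d q) i`. Let
`m` be the Möbius map with the parameters `α = conj A`, `β = conj B` (MEX; `IsMob` by `Pool.GC.mb1`). For
`z = cusp p q = conj w / w`: `m z = (conj A z + conj B) / (B z + A) =`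
`(conj A conj w + conj B w) / (A w + B conj w) = cusp (a p + b q) (c p + d q)`. So `IsModular m`,
`m (cusp 1 0) = cusp a c = x`, `m (cusp 0 1) = y`, and `m` maps Farey edges to Farey edges (the
determinant is preserved). The inverse `m⁻¹` is given by the inverse matrix `(d, - b; - c, a)`:
`m (cusp (d p - b q) (- c p + a q)) = cusp p q`. -/
def Stmt_MOF : Prop :=
  ∀ x y : Circle, (x, y) ∈ Farey → ∃ m : H, IsMob m ∧ IsModular m ∧ m (cusp 1 0) = x ∧
    m (cusp 0 1) = y ∧ (∀ a b, (a, b) ∈ Farey → (m a, m b) ∈ Farey) ∧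
    ∀ a b, (a, b) ∈ Farey → (m⁻¹ a, m⁻¹ b) ∈ Farey

/-- FAB (100 lines; uses MOR RIG PHI TRF MOF): the rigidity theorem. Proof. Let `e ∈ T`,
`e' = (cusp 1 0, cusp 0 1) ∈ Farey` and `h` from PHI. For `g ∈ G` let `k = h * g * h⁻¹`: `Ori k` (MOR), and
`(a, b) ∈ Farey` implies `(h⁻¹ a, h⁻¹ b) ∈ T`, `(g (h⁻¹ a), g (h⁻¹ b)) ∈ T`, `(k a, k b) ∈ Farey`. MOF for
`(k (cusp 1 0), k (cusp 0 1)) ∈ Farey`: `m`. `m⁻¹ * k` preserves Farey edges and the orientation (MOR: `m`
is a Möbius map) and fixes both ends of `e'`: it is `1` by RIG. So `k = m`. -/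
def Stmt_FAB : Prop := Stmt_FAR

/-! ### Part 4: cusps -/

/-- SHF (80 lines; uses CYO): maps with one fixed point move all points in the same direction. Proof. The
function `z ↦ area x z (γ z)` is continuous, and not zero for `z ≠ x` (then `x`, `z`, `γ z` are
different; CYO (3), and `area x w z = - area x z w`). The complement of `x` is preconnected (it is
`exp '' Ioo s (s + 2π)` for `x = exp s`). So the sign is constant. -/
def Stmt_SHF : Prop :=
  ∀ (γ : H) (x : Circle), (∀ z, γ z = z ↔ z = x) →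
    (∀ z, z ≠ x → Ccw x z (γ z)) ∨ ∀ z, z ≠ x → Ccw x (γ z) z

/-- WND (150 lines; uses CUT LKC MOR SHF): no high excursions into a cusp. Proof. Let `x = exp s₀`, `θ` from
CUT for `s₀`: `θ x = s₀` is minimal and `Ccw x a b ↔ θ a < θ b` for `a, b ≠ x`. By SHF (replace `γ` by
`γ⁻¹` if necessary: `Ori γ⁻¹` by MOR, and `¬ Link s t (γ s) (γ t)` implies
`¬ Link s t (γ⁻¹ s) (γ⁻¹ t)` by `Pool.GC.lhi` and `q_SYM`) `θ z < θ (γ z)` for all `z ≠ x`. Let
`A = θ (γ⁻¹ y)`, `B = θ (γ y)`: `s₀ < A < θ y < B < s₀ + 2π`. The compact set `exp '' Icc A B` does not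
contain `x`; let `ρ > 0` be its distance from `x`. Claim: `θ s, θ t ∈ [A, B]`. By LKC `θ s < θ y < θ t` or
`θ t < θ y < θ s`; say the first (the other case is the same: `Link s t _ _` is symmetric). If
`θ (γ s) < θ t` then `θ s < θ (γ s) < θ t < θ (γ t)`, so `Link s t (γ s) (γ t)` (LKC, CUT): excluded. So
`θ t ≤ θ (γ s)`, and `θ s < θ y` gives `θ (γ s) < θ (γ y) = B` (`Ori γ`, `γ x = x`). So
`A < θ y < θ t < B`. `θ y < θ t` gives `A = θ (γ⁻¹ y) < θ (γ⁻¹ t)`, and `θ (γ⁻¹ t) ≤ θ s` since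
`θ t ≤ θ (γ s)` (`Ori γ⁻¹`). So `A < θ s < θ y < B`. -/
def Stmt_WND : Prop :=
  ∀ (γ : H) (x y : Circle), Ori γ → (∀ z, γ z = z ↔ z = x) → x ≠ y →
    ∃ ρ : ℝ, 0 < ρ ∧ ∀ s t : Circle, Link x y s t → ¬ Link s t (γ s) (γ t) →
      ρ ≤ dist s x ∧ ρ ≤ dist t x

/-- PRB (150 lines): parameters of parabolic maps. Proof. Let `(α, β)` be parameters of `g`
(`Pool.GC.mb1`). The fixed points are the solutions `z` on the circle of
`conj β z ^ 2 + (conj α - α) z - β = 0`. `β ≠ 0`: otherwise `g z = (α / conj α) z`, `g u = u` gives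
`g = 1`, but `g` has only one fixed point. `w = - β / (conj β u)` is a number of norm one, and
`conj β z ^ 2 + (conj α - α) z - β = conj β (z - u) (z - w)`; so `w` is a point of the circle fixed by
`g`, `w = u`. So `conj β u ^ 2 = - β` and `2 conj β u = α - conj α = 2 i Im α`; with `τ = Im α`:
`conj β u = i τ`, `‖β‖ = |τ|`, `(Re α) ^ 2 = 1`. For `D z = conj β z + conj α = Re α + i τ (z / u - 1)`:
`‖D u‖ = 1` and `‖D v‖ ≥ ‖β‖ dist v u - 1`. By MB1 `dist (g v) u * (‖D v‖ * ‖D u‖) = dist v u`, so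
`‖D v‖ = dist v u / dist (g v) u` (`g v ≠ u`). -/
def Stmt_PRB : Prop :=
  ∀ (g : H) (u : Circle), IsMob g → (∀ z, g z = z ↔ z = u) → ∃ α β : ℂ, Par g α β ∧
    ∀ v, v ≠ u → ‖β‖ * dist v u ≤ 1 + dist v u / dist (g v) u

/-- FXT (120 lines; uses ANG LFO): elements with three fixed points. Proof. All powers `k ^ n`, `n : ℕ`, fix the
three points, so they are in the finite set `{g ∈ G | Mv ε g}`, where `ε` is the smallest distance. So
`k ^ n = k ^ m` for some `n < m`, and `k ^ j = 1`, `j = m - n > 0`. LFO for the first two points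
(`p₁ = exp θ`, `p₂ = exp s`, ANG 3): `κ`. For `x ∈ (θ, θ + 2π)`: `(κ ^ i) x ∈ (θ, θ + 2π)` and
`exp ((κ ^ i) x) = (k ^ i) (exp x)` for all `i : ℕ`, so `(κ ^ j) x = x` (`exp` is injective there). If
`x < κ x` then `x < (κ ^ j) x` (strictly increasing), and the same for `κ x < x`. So `κ x = x`. -/
def Stmt_FXT : Prop :=
  ∀ (G : Subgroup H) (k : H) (p₁ p₂ p₃ : Circle), Conv G → k ∈ G → Ori k → p₁ ≠ p₂ → p₂ ≠ p₃ →
    p₁ ≠ p₃ → k p₁ = p₁ → k p₂ = p₂ → k p₃ = p₃ → k = 1

/-- STB (250 lines; uses ANG LFO PRB FXT): an element which fixes a cusp and another point is trivial. Proof.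
Let `π ∈ Γ` have the only fixed point `u`, and `y = π v ≠ u, v`. If `k y = y`: FXT for `u`, `v`, `y`. Suppose
`k y ≠ y`. Let `u = exp θ`, `v = exp s`, `θ < s < θ + 2π`, `κ` from LFO (for `k`, `θ`, `s`), and
`y = exp ξ`, `ξ ∈ (θ, θ + 2π)`, `ξ ≠ s`, `κ ξ ≠ ξ`. If `ξ < s`, replace `k`, `κ` by their inverses if
necessary such that `ξ < κ ξ`; the numbers `ξ n = (κ ^ n) ξ`, `n : ℕ`, are strictly increasing and in
`[ξ, s)`. If `s < ξ`, replace them such that `κ ξ < ξ`; the `ξ n` are strictly decreasing and in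
`(s, ξ]`. In both cases the points `exp (ξ n) = (k ^ n) y` are different and in the compact set
`exp '' uIcc s ξ`, which does not contain `u`; let `ρ > 0` be its distance from `u`. Let
`c n = k ^ n * π * (k ^ n)⁻¹ ∈ Γ`: its only fixed point is `u`, and `c n v = (k ^ n) (π v) = (k ^ n) y` (as
`k v = v`). By PRB `c n` has parameters with `‖β‖ dist v u ≤ 1 + dist v u / ρ`: they are bounded. The
`c n` are different (the `c n v` are), so `{c n}` is infinite; `Pool.GC.pig` and `FirstKind.discrete`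
(`(c n)⁻¹ * c m ∈ Γ` is close to the identity, so it is `1`): a contradiction. -/
def Stmt_STB : Prop :=
  ∀ (Γ G : Subgroup H), FirstKind Γ → Γ ≤ G → (∀ g ∈ G, ∀ γ ∈ Γ, g * γ * g⁻¹ ∈ Γ) → Conv G →
    ∀ k ∈ G, Ori k → ∀ u v : Circle, IsCusp Γ u → u ≠ v → k u = u → k v = v → k = 1

/-- FRB (150 lines; uses MOR WND): crossing arcs. Proof. `r`, `s`, `u`, `v` are cusps (`Sys.cusps` for
`(r, s)`, `(s, r)`, `(u, v)`, `(v, u)`), fixed by `γ r, γ s, γ u, γ v ∈ Γ` (orientation preserving, MOR).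
WND for `(γ r; r, s)`, `(γ s; s, r)`, `(γ u; u, v)`, `(γ v; v, u)`: let `ρ` be the smallest of the four
numbers, `ε₁` from `Pool.GC.lub` for `r`, `s`, `ρ`. Let `g ∈ G`, `p = g u`, `q = g v`, `Link p q r s`, so
`Link r s p q` (`q_SYM`). For each `γ ∈ Γ`: `¬ Link p q (γ p) (γ q)`, since `γ g = g κ` with
`κ = g⁻¹ * γ * g ∈ Γ`, `¬ Link u v (κ u) (κ v)` (`Keeps Γ T`, `Tri.unlinked`) and `Pool.GC.lhi`. So by WND the
distances of `p`, `q` from `r` and from `s` are at least `ρ`, and `ε₁ ≤ dist p q`. Let `p' = g⁻¹ r`,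
`q' = g⁻¹ s`: `Link u v p' q'` (`lhi`), and `¬ Link p' q' (γ p') (γ q')` for all `γ ∈ Γ` in the same way, so
`p'` has distance at least `ρ` from `u` and `v`. So `g` maps the triple `(u, v, p')` to `(p, q, r)`:
`Mv ε g` with `ε = min (min ρ ε₁) (dist u v)`. -/
def Stmt_FRB : Prop :=
  ∀ (Γ G : Subgroup H) (T : Set (Circle × Circle)), Sys Γ G T → ∀ u v r s, (u, v) ∈ T →
    (r, s) ∈ T → ∃ ε : ℝ, 0 < ε ∧ ∀ g ∈ G, Link (g u) (g v) r s → Mv ε g

/-- DSP (80 lines; uses FRB STB MOR): convergence groups displace the arcs. Proof. The set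
`{g ∈ G | Meets g x y z w}` is finite: the elements with `Link (g x) (g y) z w` are in a finite set by FRB
and `Conv G`. Otherwise `g x = z`, `g y = w` or `g x = w`, `g y = z`; if two elements `g, g'` of `G` satisfy
the first (or both the second), then `g⁻¹ * g'` fixes the cusps `x`, `y`, so `g = g'` by STB. -/
def Stmt_DSP : Prop :=
  ∀ (Γ G : Subgroup H) (T : Set (Circle × Circle)), Sys Γ G T → Conv G → DispT Γ G T

/-- `a` crosses or is equal to `e` -/
def Near (a e : Circle × Circle) : Prop := Link a.1 a.2 e.1 e.2 ∨ a = e ∨ a = (e.2, e.1)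

/-- CRF (80 lines; uses MOR WND): only finitely many edges cross an arc between cusps. Proof. Let `r`, `s` be
fixed by `γ, γ' ∈ Γ`. WND for `(γ; r, s)` and `(γ'; s, r)`; `ρ` the smaller number, `ε` from `Pool.GC.lub`.
If `a = (p, q) ∈ T` and `Link p q r s`, then `(γ p, γ q) ∈ T`, so `¬ Link p q (γ p) (γ q)`, and the same for
`γ'`; so `p`, `q` have distance at least `ρ` from `r`, `s` and `ε ≤ dist p q`. `Tri.fin`. -/
def Stmt_CRF : Prop :=
  ∀ (Γ : Subgroup H) (T : Set (Circle × Circle)), FirstKind Γ → Tri T → Keeps Γ T →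
    ∀ r s : Circle, r ≠ s → IsCusp Γ r → IsCusp Γ s →
    {a : Circle × Circle | a ∈ T ∧ Near a (r, s)}.Finite

end Pool.AR
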