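import Pool.Agent.Work.MP_ae1ff6_ar.Interface

/-!
# Asymptotically rigid mapping classes (MP_ae1ff6_gt): interface, part 2

See the header of `Pool/Agent/Work/MP_ae1ff6_ar/Interface.lean`. Files of the blocks of this part:
`import Pool.Agent.Work.MP_ae1ff6_ar.Interface2`.
-/

open Topology Filter Set
open scoped ComplexConjugate

set_option autoImplicit false

namespace Pool.AR

open Pool.CG

/-! ### Part 5: the limit triangulation -/

/-- `𝓕` is a direction to infinity in `G / Γ`, invariant under right multiplication, such that each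
function on `Γ \ G` which is almost invariant under the left multiplication by the elements of `S` (up
to finitely many classes) is eventually constant. (In applications: the end of a one-ended group, or
one of the two ends of an infinite cyclic group.) -/
structure Dir (Γ G : Subgroup H) (S : Set H) (𝓕 : Filter H) : Prop where
  ne : 𝓕.NeBot
  mem : ∀ᶠ g in 𝓕, g ∈ G
  shift : ∀ g₀ ∈ G, Tendsto (fun g => g * g₀) 𝓕 𝓕
  const : ∀ (ι : Type) (φ : H → ι), (∀ γ ∈ Γ, ∀ g ∈ G, φ (γ * g) = φ g) →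
    (∀ s ∈ S, FinCl Γ {g : H | g ∈ G ∧ φ (s * g) ≠ φ g}) → ∃ i, ∀ᶠ g in 𝓕, φ g = i

/-- the limit of the triangulations `g⁻¹ T` along `𝓕` -/
def Lim (𝓕 : Filter H) (T : Set (Circle × Circle)) : Set (Circle × Circle) :=
  {a | ∀ᶠ g : H in 𝓕, (g a.1, g a.2) ∈ T}

/-- FCL (80 lines): finite sets of classes. Proofs. (1), (2), (3): clear (`F ∪ F'`; `h = g`). (4)
`h⁻¹ * (s * g) = (s⁻¹ * h)⁻¹ * g`. (5) If `h⁻¹ * (g * g₀) ∈ Γ` then
`(h * g₀⁻¹)⁻¹ * g = g₀ * (h⁻¹ * (g * g₀)) * g₀⁻¹ ∈ Γ`. (6) Let `F` be given for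
`A`, `g ∈ G`, `κ ∈ Γ`, `κ * g ∈ A`, `h ∈ F`, `h⁻¹ * (κ * g) = γ ∈ Γ`: then `h = κ * g * γ⁻¹ ∈ G` and
`h⁻¹ * g = (h⁻¹ * κ⁻¹ * h) * γ ∈ Γ`. -/
def Stmt_FCL : Prop :=
  (∀ (Γ : Subgroup H) (A B : Set H), A ⊆ B → FinCl Γ B → FinCl Γ A) ∧
  (∀ (Γ : Subgroup H) (A B : Set H), FinCl Γ A → FinCl Γ B → FinCl Γ (A ∪ B)) ∧
  (∀ (Γ : Subgroup H) (A : Set H), A.Finite → FinCl Γ A) ∧
  (∀ (Γ : Subgroup H) (A : Set H) (s : H), FinCl Γ A → FinCl Γ {g : H | s * g ∈ A}) ∧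
  (∀ (Γ G : Subgroup H) (A : Set H), (∀ g ∈ G, ∀ γ ∈ Γ, g * γ * g⁻¹ ∈ Γ) → FinCl Γ A →
    ∀ g₀ ∈ G, FinCl Γ {g : H | g * g₀ ∈ A}) ∧
  (∀ (Γ G : Subgroup H) (A : Set H), Γ ≤ G → (∀ g ∈ G, ∀ γ ∈ Γ, g * γ * g⁻¹ ∈ Γ) → FinCl Γ A →
    FinCl Γ {g : H | g ∈ G ∧ ∃ κ ∈ Γ, κ * g ∈ A})

/-- EXB (200 lines; uses FCL): only finitely many classes map the edge `e` to an arc which meets `F`. Proof.
Let `e ∈ T`. Case 1: for some `g₀ ∈ G` (a product `κ₀ * g₁` is again in `G`) the pair `g₀ e` is in `F` or the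
reversed pair `(g₀ e.2, g₀ e.1)` is in `F`; call it `c`. For `b ∈ F` let `A b = {g' ∈ G | Meets g' c.1 c.2 b.1 b.2}`;
`FinCl Γ (A b)` by `DispT Γ G F`. If `g ∈ G`, `κ ∈ Γ`, `Meets (κ * g) e.1 e.2 b.1 b.2`, then
`κ * (g * g₀⁻¹) ∈ A b` (`Meets` does not depend on the order of the first pair: `q_SYM`, `Set.pair_comm`). So by
FCL (6) and (5) (for `g₀⁻¹`) these `g` are in finitely many classes, for each `b` of the finite set `F`;
finite union (FCL (1), (2), induction on `F`). Case 2: there is no such `g₀`. Claim: `g e ∈ T` for all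
`g ∈ G`. Let `A = {g ∈ G | (g e.1, g e.2) ∈ T}`: it contains `1` and is invariant under the left multiplication by
`γ ∈ Γ` (`Keeps Γ T`), and by `s` and `s⁻¹` for `s ∈ S`: otherwise `RigidBy` gives `γ ∈ Γ` with
`(γ g e.1, γ g e.2) ∈ F`, excluded. So `A = G` (`G ≤ Γ ⊔ closure S`: the elements `h` of `H` such that `h g ∈ A` and
`h⁻¹ g ∈ A` for all `g ∈ A` form a subgroup which contains `Γ` and `S`, or `Subgroup.closure_induction`). If now
`Meets (κ * g) e.1 e.2 b.1 b.2`, `b ∈ F`: `(κ g e.1, κ g e.2) ∈ T` and `b ∈ T` are not linked, so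
`(κ g e.1, κ g e.2)` is `b` or the reversed pair of `b`: excluded in Case 2. The set is empty. -/
def Stmt_EXB : Prop :=
  ∀ (Γ G : Subgroup H) (T F : Set (Circle × Circle)) (S : Set H), Sys Γ G T → S ⊆ G →
    G ≤ Γ ⊔ Subgroup.closure S → F.Finite → F ⊆ T → (∀ s ∈ S, RigidBy Γ T F s) → DispT Γ G F →
    ∀ e ∈ T, FinCl Γ {g : H | g ∈ G ∧ ∃ κ ∈ Γ, ∃ b ∈ F, Meets (κ * g) e.1 e.2 b.1 b.2}

/-- LCR (200 lines; uses DCH CRF FCL EXB): the edges which meet a given edge of `T` are eventually constant,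
finitely many, and at least one. Proof. Let `e ∈ T` and let `φ g` be the set of the pairs `a` with
`(g a.1, g a.2) ∈ T` and `Near a e`; invariant under `g ↦ γ * g`, `γ ∈ Γ`. Let `s ∈ S`. If `a ∈ φ g`,
`a ∉ φ (s * g)`, then (`RigidBy` for the edge `g a ∈ T`, `s (g a) ∉ T`) `b = κ g a ∈ F` for some `κ ∈ Γ`, and
`Near a e` gives `Meets (κ * g) e.1 e.2 b.1 b.2` (`Pool.GC.lhi`, `q_SYM`). If `a ∈ φ (s * g)`, `a ∉ φ g`, the same for
`s * g` (`RigidBy` for `s g a ∈ T`, `s⁻¹ (s g a) ∉ T`). So the exceptions are in finitely many classes (EXB, FCL (4),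
(1), (2)), and `φ g = X` for `𝓕`-almost all `g` (`Dir.const`). Fix `g ∈ G` with `φ g = X`. Nonempty: DCH for
`(g e.1, g e.2)`: it is in `T` (`a = e`) or some `b ∈ T` links it (`a = g⁻¹ b`, `lhi`). Finite: `a ↦ g a` maps `X`
injectively into `{b ∈ T | Near b (g e.1, g e.2)}`, which is finite by CRF: `g e.1`, `g e.2` are cusps of `Γ` (the
only fixed point of `g * γ * g⁻¹ ∈ Γ`; for `e.2` use `(e.2, e.1) ∈ T`). -/
def Stmt_LCR : Prop :=
  ∀ (Γ G : Subgroup H) (T F : Set (Circle × Circle)) (S : Set H) (𝓕 : Filter H), Sys Γ G T →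
    S ⊆ G → G ≤ Γ ⊔ Subgroup.closure S → F.Finite → F ⊆ T → (∀ s ∈ S, RigidBy Γ T F s) →
    DispT Γ G F → Dir Γ G S 𝓕 → ∀ e ∈ T, ∃ X : Set (Circle × Circle), X.Finite ∧ X.Nonempty ∧
      ∀ᶠ g : H in 𝓕, {a : Circle × Circle | (g a.1, g a.2) ∈ T ∧ Near a e} = X

/-- LTH (200 lines; uses CYO LKC DCH): the limit consists of triangles. Proof. Let `(x, y) ∈ Lim 𝓕 T`. Claim 1:
there are `q` with `Ccw x q y` and `e₁, e₂ ∈ T` such that each pair `(z, y)` with `Ccw x z q` is linked with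
`e₁` and each pair `(x, z)` with `Ccw q z y` is linked with `e₂`. By DCH for `(x, y)`: either some
`(p, q) ∈ T` links `x`, `y`, say (LKC, `Tri.symm`) `Ccw x q y` and `Ccw y p x`: take `e₁ = e₂ = (p, q)` (for
`Ccw x z q` the cyclic order is `x, z, q, y, p`; for `Ccw q z y` it is `x, q, z, y, p`; LKC). Or `(x, y) ∈ T`: let `q`
be the third vertex (`Tri.third`), `e₁ = (x, q)`, `e₂ = (q, y)` (order `x, z, q, y`: `(z, y)` and `(x, q)` are
linked; order `x, q, z, y`: `(x, z)` and `(q, y)` are linked). Let `X₁`, `X₂` be the eventual values of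
`φᵢ g = {a | (g a.1, g a.2) ∈ T ∧ Near a eᵢ}`. Call `g` good if `(g x, g y) ∈ T`, `Ori g`, `Ori g⁻¹`, `φ₁ g = X₁`,
`φ₂ g = X₂`; almost all `g` are good. For a good `g` let `z g` be a point with `Ccw x (z g) y` and
`g (x, z g), g (z g, y) ∈ T` (`Tri.third` for `(g x, g y)`, `Ori g⁻¹`). Claim 2: `z g = z g'` for all good `g`, `g'`.
(a) Let `Ccw x (z g) q`. Then `(z g, y) ∈ φ₁ g = X₁ = φ₁ g'`, so `g' (z g, y) ∈ T`. `g'⁻¹ T` is not linked
(`Pool.GC.lhi`), so `(z g, y)` and `(x, z g')` are not linked: not `Ccw x (z g) (z g')`. So `z g' = z g` or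
`Ccw x (z g') (z g)`; in the second case `Ccw x (z g') q`, and by symmetry `g (z g', y) ∈ T`, which is linked with
`g (x, z g)`: a contradiction. (b) `Ccw q (z g) y`: the same with `(x, z g) ∈ X₂`. (c) `z g = q`: if
`z g' ≠ q` then (a) or (b) for `g'` gives `z g = z g'`. So `z g = z` for all good `g`, and
`(x, z), (z, y) ∈ Lim 𝓕 T`. -/
def Stmt_LTH : Prop :=
  ∀ (T : Set (Circle × Circle)) (𝓕 : Filter H), Tri T → 𝓕.NeBot →
    (∀ᶠ g : H in 𝓕, Ori g ∧ Ori g⁻¹) →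
    (∀ e ∈ T, ∃ X : Set (Circle × Circle),
      ∀ᶠ g : H in 𝓕, {a : Circle × Circle | (g a.1, g a.2) ∈ T ∧ Near a e} = X) →
    ∀ x y, (x, y) ∈ Lim 𝓕 T → ∃ z, Ccw x z y ∧ (x, z) ∈ Lim 𝓕 T ∧ (z, y) ∈ Lim 𝓕 T

/-- FIA (200 lines; uses CYO LKC SHF): pairs close to an edge. `T` is invariant under `Γ`, `(x, y) ∈ T`, `x` is
a cusp, `u` an ultrafilter of pairs which converges to `(x, y)`; then almost all pairs start at `x`, or one
edge of `T` is crossed by almost all. Proof. Let `γ ∈ Γ` have the only fixed point `x`, `y₁ = γ y`,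
`y₂ = γ⁻¹ y`: `(x, y₁), (x, y₂) ∈ T`. By SHF `Ccw x z (γ z)` for all `z ≠ x` (or the reverse for all: then
exchange `y₁` and `y₂`, `γ` and `γ⁻¹`). So `Ccw x y y₁` and `Ccw x y₂ y`: the counterclockwise order is
`x, y₂, y, y₁`; in particular `Ccw y₁ x y₂` and `Ccw y₂ y y₁`. These are open conditions (`area` is
continuous), so for almost all `a = (p, q)`: `Ccw y₁ p y₂` and `Ccw y₂ q y₁`. If moreover `p ≠ x` then (CYO)
`Ccw x p y₂` or `Ccw y₁ p x`. In the first case `Link x y₂ p q` (LKC: `Ccw x p y₂`, and `Ccw y₂ q x` because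
the order is `x, y₂, q, y₁`), in the second `Link x y₁ q p` (`Ccw x q y₁`, `Ccw y₁ p x`). So if
`{a | a.1 = x} ∉ u`, then `{a | Link a.1 a.2 x y₂} ∈ u` or `{a | Link a.1 a.2 x y₁} ∈ u` (`q_SYM`). -/
def Stmt_FIA : Prop :=
  ∀ (Γ : Subgroup H) (T : Set (Circle × Circle)) (u : Ultrafilter (Circle × Circle))
    (x y : Circle), Tri T → Keeps Γ T → IsCusp Γ x → (x, y) ∈ T → (u : Filter _) ≤ 𝓝 (x, y) →
    (∀ᶠ a : Circle × Circle in u, a.1 = x) ∨
    ∃ e ∈ T, ∀ᶠ a : Circle × Circle in u, Link a.1 a.2 e.1 e.2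

/-- FIN (150 lines; uses DCH FIA): local finiteness. Proof. Suppose that `A = {a ∈ U | ε ≤ dist a.1 a.2}` is
infinite. Let `u` be an ultrafilter on `Circle × Circle` with `A ∈ u`, `u ≤ cofinite` (as in `blk_BDC`); it
converges to some `(x, y)` (compactness), `ε ≤ dist x y`, so `x ≠ y`. (1) No `e ∈ T` satisfies
`Link a.1 a.2 e.1 e.2` for almost all `a`: by hypothesis `{a ∈ U | Near a e}` is finite, and a finite set is
not in `u`. (2) No `e ∈ T` links `x`, `y`: `Link` is open (`Pool.GC.q_LNO`), so `Link a.1 a.2 e.1 e.2` for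
almost all `a`. So `(x, y) ∈ T` by DCH. (3) FIA: `a.1 = x` for almost all `a`. FIA for `(y, x) ∈ T` and the
image of `u` under `Prod.swap` (`Link` is symmetric): `a.2 = y` for almost all `a`. So `{(x, y)} ∈ u`: a
contradiction to `u ≤ cofinite`. -/
def Stmt_FIN : Prop :=
  ∀ (Γ : Subgroup H) (T U : Set (Circle × Circle)), Tri T → Keeps Γ T →
    (∀ x y, (x, y) ∈ T → IsCusp Γ x) →
    (∀ e ∈ T, {a : Circle × Circle | a ∈ U ∧ Near a e}.Finite) →
    ∀ ε : ℝ, 0 < ε → {a : Circle × Circle | a ∈ U ∧ ε ≤ dist a.1 a.2}.Finite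

/-- LIM (100 lines; uses LCR LTH FIN): the limit is a triangulation, invariant under `G`. Proof. From LCR: for
`e ∈ T` the set `{a ∈ Lim 𝓕 T | Near a e}` is equal to `X`: if `a ∈ X` then `g a ∈ T` for almost all `g`, and if
`a ∈ Lim 𝓕 T`, `Near a e`, then `a ∈ φ g = X` for some `g`. `symm`: `Tri.symm`. `ne`, `unlinked`: for
`a, b ∈ Lim 𝓕 T` there is `g` with `g a, g b ∈ T` (`Dir.ne`), and `g` preserves `Link` (`Pool.GC.lhi`).
`third`: LTH (`Sys.ori`). `fin`: FIN for `U = Lim 𝓕 T`. `nonempty`: `X` for an edge of `T` is not empty. `Keeps`: if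
`a ∈ Lim 𝓕 T` and `g₀ ∈ G`, then `(g * g₀) a ∈ T` for almost all `g` (`Dir.shift`). -/
def Stmt_LIM : Prop :=
  ∀ (Γ G : Subgroup H) (T F : Set (Circle × Circle)) (S : Set H) (𝓕 : Filter H), Sys Γ G T →
    S ⊆ G → G ≤ Γ ⊔ Subgroup.closure S → F.Finite → F ⊆ T → (∀ s ∈ S, RigidBy Γ T F s) →
    DispT Γ G F → Dir Γ G S 𝓕 → Tri (Lim 𝓕 T) ∧ Keeps G (Lim 𝓕 T)

/-! ### Part 6: directions -/

/-- ZDR (150 lines; uses FCL): infinite cyclic groups. Proof. The elements of `G = Γ ⊔ zpowers f` are the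
`γ f ^ n`, `γ ∈ Γ`, `n : ℤ`, and `Γ` is normal in `G` (see `Pool/Agent/Work/MP_ae1ff6_cg/B_CYC.lean`). Let
`A N = {γ * f ^ n | γ ∈ Γ, N ≤ n}` (`N : ℤ`; decreasing in `N`), and let `𝓕` be the filter of the sets which
contain some `A N` (`⨅ N, 𝓟 (A N)`). `ne`: `A N` is nonempty. `shift`: for `g₀ = γ₀ f ^ k`:
`γ f ^ n γ₀ f ^ k = γ γ' f ^ (n + k)`, so `A N * g₀ ⊆ A (N + k)`. `const`: let the exceptions for
`f` be contained in the classes of the finite set `F`. Each class `h Γ` contains at most one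
`f ^ n` (`(h⁻¹ f ^ n)⁻¹ (h⁻¹ f ^ m) = f ^ (m - n)`, in `Γ` only for `n = m`: for negative exponents take the
inverse), so there is `N` such that `φ (f * f ^ n) = φ (f ^ n)` for all `n ≥ N`. So `φ` is constant on the
`f ^ n`, `n ≥ N`, and on `A N`, since `φ (γ * f ^ n) = φ (f ^ n)`. -/
def Stmt_ZDR : Prop :=
  ∀ (Γ : Subgroup H) (f : H), (∀ γ, γ ∈ Γ ↔ f * γ * f⁻¹ ∈ Γ) → (∀ n : ℕ, 0 < n → f ^ n ∉ Γ) →
    (∀ g ∈ Γ ⊔ Subgroup.zpowers f, ∀ γ ∈ Γ, g * γ * g⁻¹ ∈ Γ) ∧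
    ∃ 𝓕 : Filter H, Dir Γ (Γ ⊔ Subgroup.zpowers f) {f} 𝓕

/-- QDR (200 lines; uses FCL): groups with one end. Proof. Let `𝓕` be the filter of the sets `B` with
`FinCl Γ {g ∈ G | g ∉ B}` (FCL (1), (2)). `ne`: `¬ FinCl Γ G`. `shift`: FCL (5). `const`: for
`s ∈ S` let the exceptions `E s = {g ∈ G | φ (s * g) ≠ φ g}` be in the classes of the finite set `F s`. `φ` takes
only finitely many values on `E s` and on `s E s`: for `g ∈ E s`, `h ∈ F s`, `h⁻¹ * g = γ ∈ Γ`, we have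
`g = (h * γ * h⁻¹) * h`, `h ∈ G` and `φ g = φ h`, `φ (s * g) = φ (s * h)`. Let `V` be the finite set of these
values for all `s ∈ S`. Let `i ∉ V`, `A = {g ∈ G | φ g = i}`. If `g ∈ A` then `φ (s * g) = i` (otherwise
`g ∈ E s`, `i ∈ V`), and `φ (s⁻¹ * g) = i` (otherwise `s⁻¹ * g ∈ E s` and `i = φ g ∈ V`). So `A` is invariant
under the left multiplication by `Γ`, `S`, `S⁻¹`, hence by `G`; so `A = ∅` or `A = G`. If `A = G` for some `i`:
done. Otherwise all values of `φ` on `G` are in the finite set `V`. If all sets `A i = {g ∈ G | φ g = i}`,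
`i ∈ V`, were in finitely many classes, then also `G`. So there is `i` with `¬ FinCl Γ (A i)`, and by
`OneEnd` (`s * g ∈ A i ↔ g ∈ A i` for `g ∈ G`, `g ∉ E s`) the complement is in finitely many classes, so
`A i ∈ 𝓕`. -/
def Stmt_QDR : Prop :=
  ∀ (Γ G : Subgroup H) (S : Set H), Γ ≤ G → (∀ g ∈ G, ∀ γ ∈ Γ, g * γ * g⁻¹ ∈ Γ) →
    OneEnd Γ G S → ∃ 𝓕 : Filter H, Dir Γ G S 𝓕

/-- CYA (150 lines): `DispT` for one mapping class. Proof. As `Pool/Agent/Work/MP_ae1ff6_cg/B_CYC.lean` (its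
lemmas can be used). The elements of `G` are the `κ f ^ n`. If `{g ∈ G | Meets g x y z w}` is in the classes
of the finite set `F`, then the set of the `n` with `Meets (κ * f ^ n) x y z w` for some `κ ∈ Γ` is finite,
because each class contains `κ f ^ n` for at most one `n`
(`κ f ^ n = f ^ n κ'`, `f ^ j ∉ Γ` for `j ≠ 0`). Conversely take `F = {f ^ n | n in the finite set}`. -/
def Stmt_CYA : Prop :=
  ∀ (Γ : Subgroup H) (f : H) (T : Set (Circle × Circle)), (∀ γ, γ ∈ Γ ↔ f * γ * f⁻¹ ∈ Γ) →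
    (∀ n : ℕ, 0 < n → f ^ n ∉ Γ) →
    (DispT Γ (Γ ⊔ Subgroup.zpowers f) T ↔ ∀ x y z w, (x, y) ∈ T → (z, w) ∈ T →
      {n : ℤ | ∃ κ ∈ Γ, Meets (κ * f ^ n) x y z w}.Finite)

end Pool.AR
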