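import Pool.Agent.Work.MP_ae1ff6_ar.Defs2
import Pool.Agent.Work.MP_ae1ff6_ar.Interface2

/-!
# Asymptotically rigid mapping classes (MP_ae1ff6_gt): interface, part 7

See the header of `Pool/Agent/Work/MP_ae1ff6_ar/Interface.lean`. Files of the blocks of this part:
`import Pool.Agent.Work.MP_ae1ff6_ar.Interface3`. Also `Pool.GC.hyp`, `Pool.GC.main`, `Pool.GC.gcg` are
proved facts.
-/

open Topology Filter Set
open scoped ComplexConjugate

set_option autoImplicit false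

namespace Pool.AR

open Pool.CG

/-! ### Part 7: filling systems of closed geodesics, finitely generated groups -/

/-- the standing hypotheses of this part -/
structure SysO (Γ G : Subgroup H) (O F : Set (Circle × Circle)) (S : Set H) : Prop where
  fk : FirstKind Γ
  le : Γ ≤ G
  nor : ∀ g ∈ G, ∀ γ ∈ Γ, g * γ * g⁻¹ ∈ Γ
  ori : ∀ g ∈ G, Ori g
  cur : Curves Γ O
  sfin : S.Finite
  sub : S ⊆ G
  gen : G ≤ Γ ⊔ Subgroup.closure S
  ffin : F.Finite
  fsub : F ⊆ O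
  rig : ∀ s ∈ S, RigidBy Γ O F s

/-- CRA (100 lines): each closed geodesic is crossed by finitely many elements of `O`, up to its
stabiliser. Proof. Let `ρ` be from `Pool.GC.hyp` for `γ`, `p`, `q` and `ε` from `Pool.GC.lub` for `p`, `q`,
`ρ`; `X = {b ∈ O | min ε (dist p q) ≤ dist b.1 b.2}`. If `b = (x, y) ∈ O` and `Link x y p q`, then `x ≠ p, q`
and there is `m` such that `(γ ^ m) x` has distance at least `ρ` from `p` and `q`;
`Link ((γ ^ m) x) ((γ ^ m) y) p q` (`Pool.GC.lhi`, `γ ^ m` fixes `p`, `q`), so the distance of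
`(γ ^ m) x`, `(γ ^ m) y` is at least `ε`, and the pair is in `O` (`Curves.keep`). If `b = (p, q)` or
`b = (q, p)`: `m = 0`. -/
def Stmt_CRA : Prop :=
  ∀ (Γ : Subgroup H) (O : Set (Circle × Circle)), FirstKind Γ → Curves Γ O → ∀ γ ∈ Γ,
    ∀ p q : Circle, Axis γ p q → ∃ X : Set (Circle × Circle), X.Finite ∧
      ∀ b ∈ O, Near b (p, q) → ∃ m : ℤ, ((γ ^ m) b.1, (γ ^ m) b.2) ∈ X

/-- FVL (120 lines): almost invariant functions on a finitely generated group take finitely many values.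
Proof. For `s ∈ S` let the exceptions `E s = {g ∈ G | φ (s * g) ≠ φ g}` be in the classes of the finite set
`K s`; we may assume `K s ⊆ G` (omit the elements which are not in `G`: if `h⁻¹ * g ∈ Γ`, `g ∈ G` then
`h ∈ G`). If `g ∈ G`, `h ∈ K s`, `h⁻¹ * g ∈ Γ`, then `g = κ * h` with `κ = h * (h⁻¹ * g) * h⁻¹ ∈ Γ`, so
`φ g = φ h`, and `φ (s * g) = φ (s * h)` (`s κ s⁻¹ ∈ Γ`). Let `V` be the finite set of the values `φ 1`, `φ h`,
`φ (s * h)` with `s ∈ S`, `h ∈ K s`. Let `A = {g ∈ G | φ g ∈ V}`: it contains `1` and is invariant under the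
left multiplication by `Γ`, by `s ∈ S` (either `φ (s * g) = φ g`, or `g ∈ E s` and `φ (s * g) = φ (s * h)`) and by
`s⁻¹` (if `s⁻¹ * g ∉ E s` then `φ g = φ (s⁻¹ * g)`, otherwise `φ (s⁻¹ * g) = φ h`). So `A = G`
(`G ≤ Γ ⊔ closure S`: the elements `h` of `H` with `h g ∈ A` and `h⁻¹ g ∈ A` for all `g ∈ A` form a
subgroup). -/
def Stmt_FVL : Prop :=
  ∀ (Γ G : Subgroup H) (S : Set H), Γ ≤ G → (∀ g ∈ G, ∀ γ ∈ Γ, g * γ * g⁻¹ ∈ Γ) → S.Finite →
    S ⊆ G → G ≤ Γ ⊔ Subgroup.closure S → ∀ (ι : Type) (φ : H → ι),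
    (∀ γ ∈ Γ, ∀ g ∈ G, φ (γ * g) = φ g) →
    (∀ s ∈ S, FinCl Γ {g : H | g ∈ G ∧ φ (s * g) ≠ φ g}) → (φ '' (G : Set H)).Finite

/-- EXC (200 lines; uses FCL): only finitely many classes map `e` to a curve which meets `F`. Proof. As EXB.
Let `e ∈ O`. Case 1: for some `g₀ ∈ G` the pair `g₀ e` or the reversed pair is in `F`; call it `c`;
`c ∈ Touch O F`. For `b ∈ F` let `A b = {g' ∈ G | Meets g' c.1 c.2 b.1 b.2}`, `FinCl Γ (A b)` by `DispF`. If
`g ∈ G`, `κ ∈ Γ`, `Meets (κ * g) e.1 e.2 b.1 b.2`, then `κ * (g * g₀⁻¹) ∈ A b` (`Meets` does not depend on the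
order of the first pair). FCL (6), (5), finite union over `b ∈ F`. Case 2: there is no such `g₀`. Then
`g e ∈ O` for all `g ∈ G` (`A = {g ∈ G | g e ∈ O}` contains `1` and is invariant under the left multiplication by
`Γ`, `S`, `S⁻¹` because of `RigidBy`, so `A = G`). If the set of the claim is empty we are done. Otherwise
choose `g₀ ∈ G` (a product `κ g`) and `b₀ ∈ F` with `Meets g₀ e.1 e.2 b₀.1 b₀.2`, and let `a = g₀ e ∈ O`; `a` is
not `b₀` or its reverse (Case 2), so `Link a.1 a.2 b₀.1 b₀.2` and `a ∈ Touch O F`. For `b ∈ F` let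
`A b = {g' ∈ G | Meets g' a.1 a.2 b.1 b.2}` and conclude as in Case 1. -/
def Stmt_EXC : Prop :=
  ∀ (Γ G : Subgroup H) (O F : Set (Circle × Circle)) (S : Set H), SysO Γ G O F S →
    DispF Γ G O F →
    ∀ e ∈ O, FinCl Γ {g : H | g ∈ G ∧ ∃ κ ∈ Γ, ∃ b ∈ F, Meets (κ * g) e.1 e.2 b.1 b.2}

/-- LCV (150 lines; uses FCL FVL EXC): the system `g⁻¹ O` near `e` has finitely many possibilities. Proof. Let
`φ g = {a | (g a.1, g a.2) ∈ O ∧ Near a e}`; invariant under `g ↦ γ * g`, `γ ∈ Γ`. As in LCR: if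
`a ∈ φ g`, `a ∉ φ (s * g)`, then `b = κ g a ∈ F` for some `κ ∈ Γ` (`RigidBy`), and `Near a e` gives
`Meets (κ * g) e.1 e.2 b.1 b.2`; if `a ∈ φ (s * g)`, `a ∉ φ g`, the same for `s * g` (`RigidBy` with `s⁻¹`). So the
exceptions are in finitely many classes (EXC, FCL (4), (1), (2)). FVL. -/
def Stmt_LCV : Prop :=
  ∀ (Γ G : Subgroup H) (O F : Set (Circle × Circle)) (S : Set H), SysO Γ G O F S →
    DispF Γ G O F → ∀ e ∈ O,
    ((fun g : H => {a : Circle × Circle | (g a.1, g a.2) ∈ O ∧ Near a e}) '' (G : Set H)).Finite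

/-- FXU (150 lines; uses CRA LCV): all curves of all systems `g⁻¹ O` near `e` are finitely many, up to the
stabiliser of `e`. Proof. Choose for each of the finitely many values `X` of
`g ↦ {a | (g a.1, g a.2) ∈ O ∧ Near a e}` one `g ∈ G` with this value. `δ = g * γ * g⁻¹ ∈ Γ` has the axis
`(g e.1, g e.2)`; let `X' g` be from CRA for `δ`. If `a ∈ X` then `b = g a ∈ O` and `Near b (g e.1, g e.2)`
(`Pool.GC.lhi`), so `δ ^ m b ∈ X' g` for some `m`, and `δ ^ m = g * γ ^ m * g⁻¹`: so `γ ^ m a` is in the finite set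
`g⁻¹ (X' g)`. Take the union of these finite sets. -/
def Stmt_FXU : Prop :=
  ∀ (Γ G : Subgroup H) (O F : Set (Circle × Circle)) (S : Set H), SysO Γ G O F S →
    DispF Γ G O F → ∀ e ∈ O, ∀ γ ∈ Γ, Axis γ e.1 e.2 →
    ∃ X : Set (Circle × Circle), X.Finite ∧ ∀ g ∈ G, ∀ a : Circle × Circle,
      (g a.1, g a.2) ∈ O → Near a e → ∃ m : ℤ, ((γ ^ m) a.1, (γ ^ m) a.2) ∈ X

/-- the elements of `G` which fix both endpoints of `e` -/
def Sta (G : Subgroup H) (e : Circle × Circle) : Set H :=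
  {g : H | g ∈ G ∧ g e.1 = e.1 ∧ g e.2 = e.2}

/-- STI (150 lines; uses FCL FXU): if the stabiliser of `e'` is finite modulo `Γ`, only finitely many classes
map `e` to a curve which meets `e'`. Proof. Let `γ ∈ Γ` have the axis `e` and `X` be from FXU. For each `x ∈ X`
choose, if possible, `h x ∈ G` with `h x` mapping `x` to `e'` (`(h x) x.1 = e'.1`, `(h x) x.2 = e'.2`). Let `g ∈ G`,
`Meets g e.1 e.2 e'.1 e'.2` and `a = (g⁻¹ e'.1, g⁻¹ e'.2)`: `g a = e' ∈ O` and `Near a e` (`Pool.GC.lhi` for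
`g⁻¹`, `q_SYM`; or equality of pairs). So `x = γ ^ m a ∈ X` for some `m`, and `g' = g * (γ ^ m)⁻¹ ∈ G` maps `x`
to `e'`. So `g' * (h x)⁻¹ ∈ Sta G e'`. By FCL (5) (for `(h x)⁻¹`) these `g'` are in finitely many classes, for
each `x` of the finite set `X`; and `g` is in the same class as `g'` (`h⁻¹ * g = (h⁻¹ * g') * γ ^ m`). -/
def Stmt_STI : Prop :=
  ∀ (Γ G : Subgroup H) (O F : Set (Circle × Circle)) (S : Set H), SysO Γ G O F S →
    DispF Γ G O F → ∀ e ∈ O, ∀ e' ∈ O, FinCl Γ (Sta G e') →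
    FinCl Γ {g : H | g ∈ G ∧ Meets g e.1 e.2 e'.1 e'.2}

/-- PIN (150 lines; uses FCL FXU): infinite stabilisers. Proof. By `Curves.fill` (and `q_SYM`) there is `c ∈ O`
with `Link b.1 b.2 c.1 c.2`. Suppose that `P = Sta G b ∩ Sta G c` is in finitely many classes. Let
`γ ∈ Γ` have the axis `b`, and `X` be from FXU for `e = b`. For each `x ∈ X` choose, if possible,
`h x ∈ Sta G b` mapping `x` to `c`. Let `g ∈ Sta G b`, `a = (g⁻¹ c.1, g⁻¹ c.2)`: `g a = c ∈ O`,
`Near a b` (`Pool.GC.lhi` for `g⁻¹`, which fixes `b`). So `x = γ ^ m a ∈ X`, and `g' = g * (γ ^ m)⁻¹` is in `Sta G b`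
and maps `x` to `c`; `g' * (h x)⁻¹ ∈ P`. So (FCL (5), finite union over `X`) these `g'` are in finitely many
classes, and `g` is in the class of `g'`: `FinCl Γ (Sta G b)`, a contradiction. -/
def Stmt_PIN : Prop :=
  ∀ (Γ G : Subgroup H) (O F : Set (Circle × Circle)) (S : Set H), SysO Γ G O F S →
    DispF Γ G O F → ∀ b ∈ O, ¬ FinCl Γ (Sta G b) →
    ∃ c ∈ O, Link b.1 b.2 c.1 c.2 ∧ ¬ FinCl Γ (Sta G b ∩ Sta G c)

/-- KPW (100 lines; uses LCV): a power of `k` preserves the curves which cross `b`. Proof. By LCV the sets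
`φ i = {a | ((k ^ i) a.1, (k ^ i) a.2) ∈ O ∧ Near a b}`, `i : ℕ`, are not all different: `φ i = φ i'`,
`i < i'`. Let `j = i' - i`. If `Near a b`, let `a' = (k ^ i)⁻¹ a`; `Near a' b` (`k` fixes `b`;
`Pool.GC.lhi`), so `(k ^ i) a' = a ∈ O ↔ (k ^ i') a' = (k ^ j) a ∈ O`. -/
def Stmt_KPW : Prop :=
  ∀ (Γ G : Subgroup H) (O F : Set (Circle × Circle)) (S : Set H), SysO Γ G O F S →
    DispF Γ G O F → ∀ b ∈ O, ∀ k ∈ Sta G b, ∃ j : ℕ, 0 < j ∧
      ∀ a : Circle × Circle, Near a b → (a ∈ O ↔ ((k ^ j) a.1, (k ^ j) a.2) ∈ O)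

/-- PFX (250 lines; uses CYO LKC ANG LFO): all curves which cross `b` are fixed. Proof. Let `p = exp θ`,
`q = exp s`, `θ < s < θ + 2π` (ANG 3) and `κ` the lift of `k` from LFO. It is enough to show: if `a ∈ O`,
`Link a.1 a.2 p q`, and `a.1` is in the arc `exp '' Ioo θ s`, then `k a.1 = a.1`; for the other side exchange
`p` and `q`, for `a.2` exchange the order of `a` (`O` is symmetric, `q_SYM`). Let `E` be the set of the
`x ∈ (θ, s)` such that `(exp x, y) ∈ O` and `Link (exp x) y p q` for some `y`. `κ ^ j` and its inverse map `E`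
to itself (hypothesis on `k ^ j`, `Pool.GC.lhi`, `κ ^ j` preserves `(θ, s)`). For `θ < α < β < s` the set
`E ∩ [α, β]` is finite: `exp '' Icc α β` has a positive distance `ρ` from `p`, `q`, so by `Pool.GC.lub` the
pairs have length at least `ε`, `LocFin`. Of the two endpoints of `c` one is in the arc `exp '' Ioo θ s`
(LKC, ANG), so `E` contains a point `x₀` with `κ x₀ = x₀`. Let `x ∈ E` and suppose `(κ ^ j) x ≠ x`, so
`x ≠ x₀`. One of the two sequences `(κ ^ j) ^ n x`, `(κ ^ j)⁻¹ ^ n x`, `n : ℕ`, is strictly monotone in the direction of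
`x₀` and stays between `x` and `x₀`: infinitely many points of `E` in a compact interval. So
`(κ ^ j) x = x`, and `κ x = x` because `κ` is increasing. -/
def Stmt_PFX : Prop :=
  ∀ (O : Set (Circle × Circle)) (p q : Circle) (k : H) (j : ℕ) (c : Circle × Circle), LocFin O →
    (∀ x y, (x, y) ∈ O → (y, x) ∈ O) → p ≠ q → Ori k → k p = p → k q = q → 0 < j →
    (∀ a : Circle × Circle, Near a (p, q) → (a ∈ O ↔ ((k ^ j) a.1, (k ^ j) a.2) ∈ O)) →
    c ∈ O → Link c.1 c.2 p q → k c.1 = c.1 → k c.2 = c.2 →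
    ∀ a ∈ O, Link a.1 a.2 p q → k a.1 = a.1 ∧ k a.2 = a.2

/-- CHN (250 lines; uses CUT CYO LKC ANG): a filling system is connected. Proof. Let `R` be the smallest set
of pairs which contains `e` and, with each `b ∈ R ∩ O`, all `o ∈ O` with `Link b.1 b.2 o.1 o.2` (an inductive
predicate); `R ⊆ U`, `R ⊆ O`. Let `D` be the set of the endpoints of the elements of `R`. Suppose that
`D` is not dense; so there is `z₀ = exp s₀` not in the closure `D'` of `D`. Let `θ` be from CUT for `s₀`.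
`D'` is compact and contained in `exp '' Ioo s₀ (s₀ + 2π)`, `D' = exp '' K` for the compact set
`K = θ '' D'` (or: `K = {t ∈ [s₀, s₀ + 2π] | exp t ∈ D'}`); let `α`, `β` be its minimum and maximum,
`s₀ < α < β < s₀ + 2π` (`e.1 ≠ e.2`). `Curves.fill`: `(z, w) ∈ O` with `Link z w (exp α) (exp β)`. By LKC,
CUT one of the two points, say `z` (`O` is symmetric), has `θ z ∈ (α, β)` and the other `θ w ∉ [α, β]`, so
`w ∉ D'` and `(z, w) ∉ R`. So no `b ∈ R` satisfies `Link b.1 b.2 z w`. So (LKC, CUT) for each `b ∈ R` both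
coordinates `θ b.1`, `θ b.2` are in `[α, θ z]` or both are in `[θ z, β]`. Say both coordinates of `e` are in
`[α, θ z]` (the other case is the same). By induction this holds for all elements of `R`: if `b ∈ R` has
both coordinates in `[α, θ z]`, `Link b.1 b.2 o.1 o.2` and both coordinates of `o` are in `[θ z, β]`, then
(LKC, CUT) there is no separation. So `D ⊆ exp '' Icc α (θ z)`, a closed set, so `β ≤ θ z`: a
contradiction. -/
def Stmt_CHN : Prop :=
  ∀ (O : Set (Circle × Circle)), (∀ x y, (x, y) ∈ O → (y, x) ∈ O) →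
    (∀ x y : Circle, x ≠ y → ∃ z w, (z, w) ∈ O ∧ Link z w x y) →
    ∀ e ∈ O, e.1 ≠ e.2 → ∀ U : Set (Circle × Circle), e ∈ U →
    (∀ b ∈ U, b ∈ O → ∀ o ∈ O, Link b.1 b.2 o.1 o.2 → o ∈ U) →
    Dense {x : Circle | ∃ b ∈ U, b ∈ O ∧ (b.1 = x ∨ b.2 = x)}

/-- KON (120 lines; uses KPW PFX CHN): an element which fixes two crossing curves is trivial. Proof. Let
`U` be the set of the pairs `b'` with `k ∈ Sta G b'` such that some `c' ∈ O` satisfies
`Link b'.1 b'.2 c'.1 c'.2` and `k ∈ Sta G c'`. `b ∈ U` (with `c`). If `b' ∈ U`, `b' ∈ O`, `o ∈ O`,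
`Link b'.1 b'.2 o.1 o.2`: KPW for `b'` and PFX (for `p = b'.1`, `q = b'.2`, `c'`) show that `k` fixes the
endpoints of `o`; and `o ∈ U` (with `b'`). So by CHN `k` fixes the points of a dense set, so `k = 1` (`b.1 ≠ b.2`
because of `Curves.axis`). -/
def Stmt_KON : Prop :=
  ∀ (Γ G : Subgroup H) (O F : Set (Circle × Circle)) (S : Set H), SysO Γ G O F S →
    DispF Γ G O F → ∀ b ∈ O, ∀ c ∈ O, Link b.1 b.2 c.1 c.2 → ∀ k ∈ Sta G b ∩ Sta G c, k = 1

/-- GBX (150 lines): a geodesic which crosses the closed geodesic `(p, q)` crosses one of finitely many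
elements of `O`, up to the stabiliser. Proof. `ρ` from `Pool.GC.hyp` for `γ`, `p`, `q`, and `ε` from `Pool.GC.lub`
for `p`, `q`, `ρ`. The set `K` of the pairs `(x, y)` with `ε ≤ dist x y` is compact. For each
`(x, y) ∈ K` there is `d ∈ O` with `Link d.1 d.2 x y`, and the set of the `(x', y')` with
`Link d.1 d.2 x' y'` is open (`Pool.GC.q_LNO`); let `D` be the finite set of a finite subcover. If
`Link x y p q`, then `x ≠ p, q`, and there is `m` such that `(γ ^ m) x` has distance at least `ρ` from `p`,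
`q`; `Link ((γ ^ m) x) ((γ ^ m) y) p q` (`lhi`), so the pair is in `K`. -/
def Stmt_GBX : Prop :=
  ∀ (γ : H) (p q : Circle) (O : Set (Circle × Circle)), IsMob γ → Axis γ p q →
    (∀ x y : Circle, x ≠ y → ∃ z w, (z, w) ∈ O ∧ Link z w x y) →
    ∃ D : Set (Circle × Circle), D.Finite ∧ D ⊆ O ∧ ∀ x y : Circle, Link x y p q →
      ∃ m : ℤ, ∃ d ∈ D, Link ((γ ^ m) x) ((γ ^ m) y) d.1 d.2

/-- GDS (150 lines; uses FCL GBX): displacing a filling system is enough. Proof. Let `Axis γ p q`, `γ ∈ Γ`, and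
`D` from GBX. Let `g ∈ G`, `Link (g p) (g q) p q`. GBX: `m` and `d ∈ D` with
`Link ((γ ^ m) (g p)) ((γ ^ m) (g q)) d.1 d.2`. Let `g₁ = γ ^ m * g`. Then `Link (g₁⁻¹ d.1) (g₁⁻¹ d.2) p q`
(`Pool.GC.lhi`, `q_SYM`). GBX: `m'` and `d' ∈ D` with `Link (u d.1) (u d.2) d'.1 d'.2`, `u = γ ^ m' * g₁⁻¹`. So
for `g₂ = u⁻¹ = g₁ * (γ ^ m')⁻¹`: `Link d.1 d.2 (g₂ d'.1) (g₂ d'.2)`, so `g₂ ∈ A d' d`, where
`A d' d = {g' ∈ G | Meets g' d'.1 d'.2 d.1 d.2}`, and `FinCl Γ (A d' d)` by `DispT Γ G O`. If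
`h⁻¹ * g₂ ∈ Γ` then `h⁻¹ * (γ ^ m * g) ∈ Γ`. So `g` is in the set of FCL (6) for the set
`A' = {g' ∈ G | ∃ γ' ∈ Γ, g' * γ' ∈ A d' d}`, which is in the classes of the same finite set. Finite union
over `D × D`. -/
def Stmt_GDS : Prop :=
  ∀ (Γ G : Subgroup H) (O : Set (Circle × Circle)), FirstKind Γ → Γ ≤ G →
    (∀ g ∈ G, ∀ γ ∈ Γ, g * γ * g⁻¹ ∈ Γ) →
    (∀ x y : Circle, x ≠ y → ∃ z w, (z, w) ∈ O ∧ Link z w x y) → DispT Γ G O →
    Pool.GC.SelfDisplaces Γ G

/-- CYP (120 lines): displacement for one mapping class, for one pair of curves. Proof. As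
`Pool/Agent/Work/MP_ae1ff6_cg/B_CYC.lean` (its lemmas can be used), or `B_CYA.lean`. The elements of
`Γ ⊔ zpowers f` are the `κ f ^ n`; each class `h Γ` contains `κ f ^ n` for at most one `n`
(`κ f ^ n = f ^ n κ'`, `f ^ j ∉ Γ` for `j ≠ 0`). Conversely take `F = {f ^ n | n in the finite set}`. -/
def Stmt_CYP : Prop :=
  ∀ (Γ : Subgroup H) (f : H), (∀ γ, γ ∈ Γ ↔ f * γ * f⁻¹ ∈ Γ) →
    (∀ n : ℕ, 0 < n → f ^ n ∉ Γ) → ∀ x y z w : Circle,
    (FinCl Γ {g : H | g ∈ Γ ⊔ Subgroup.zpowers f ∧ Meets g x y z w} ↔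
      {n : ℤ | ∃ κ ∈ Γ, Meets (κ * f ^ n) x y z w}.Finite)

end Pool.AR
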